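import Pool.Agent.Helper59.TE.Defs

set_option autoImplicit false

/-! Further definitions (definitions only): walls of a point of a tree, cell level conditions, cell patterns. -/

namespace Pool.Agent.Helper59.TE

/-- `h ∈ Uz p z k` iff the wall given by the translate `k • z`, with base point `k • p`, separates `1` and `h` -/
def Uz {G : Type} [Group G] {T : Type} [MetricSpace T] [MulAction G T] (p z : T) (k : G) : Set G :=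
  {h | ¬ ((dist p z + dist z ((k⁻¹ * h) • p) = dist p ((k⁻¹ * h) • p)) ↔
      (dist p z + dist z (k⁻¹ • p) = dist p (k⁻¹ • p)))}

/-- weighted length in a free group -/
def wlen {α : Type} [DecidableEq α] (wt : α → ℕ) (g : FreeGroup α) : ℕ :=
  (g.toWord.map (fun p => wt p.1)).sum

/-- the cell level form of `Good` -/
structure CellGood {r : ℕ} (B : Finset (FreeGroup (Fin r))) (w : Sys (Blk B) (Bnd B)) : Prop where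
  wf : w.WF
  b_false : ∀ x P Q, w.b (x, P, Q) false = P
  b_true : ∀ x P Q, w.b (x, P, Q) true = Q
  fl_iff : ∀ x P Q, w.fl (x, P, Q) = true ↔ FreeGroup.of x ∈ Q.1
  one : ∀ P, 0 < w.len P → (1 : FreeGroup (Fin r)) ∉ P.1
  lam : ∀ P P', 0 < w.len P → 0 < w.len P' → P.1 ⊆ P'.1 ∨ P'.1 ⊆ P.1 ∨ Disjoint P.1 P'.1
  compat : ∀ x P Q, 0 < w.ln (x, P, Q) → ∀ g ∈ B, FreeGroup.of x * g ∈ B →
    (g ∈ P.1 ↔ ¬ (FreeGroup.of x * g ∈ Q.1 ↔ FreeGroup.of x ∈ Q.1))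
  covA : ∀ x P i, 0 ≤ i → i < w.len P → (∃ g ∈ P.1, FreeGroup.of x * g ∈ B) →
    ∃ Q, w.Cov (x, P, Q) false P i
  uniqA : ∀ x P i Q Q', w.Cov (x, P, Q) false P i → w.Cov (x, P, Q') false P i → Q = Q'
  covB : ∀ x Q j, 0 ≤ j → j < w.len Q →
    (∃ g ∈ B, FreeGroup.of x * g ∈ B ∧ ¬ (FreeGroup.of x * g ∈ Q.1 ↔ FreeGroup.of x ∈ Q.1)) →
    ∃ P, w.Cov (x, P, Q) true Q j
  uniqB : ∀ x P P' Q j, w.Cov (x, P, Q) true Q j → w.Cov (x, P', Q) true Q j → P = P'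
  /-- order, not flipped -/
  ordp : ∀ x P₁ Q₁ i₁ P₂ Q₂ i₂, w.Cov (x, P₁, Q₁) false P₁ i₁ → w.Cov (x, P₂, Q₂) false P₂ i₂ →
    FreeGroup.of x ∉ Q₁.1 → FreeGroup.of x ∉ Q₂.1 → (P₂.1 ⊂ P₁.1 ∨ P₁ = P₂ ∧ i₁ < i₂) →
    (Q₂.1 ⊂ Q₁.1 ∨ Q₁ = Q₂ ∧ (w.par (x, P₁, Q₁) false i₁).2 < (w.par (x, P₂, Q₂) false i₂).2)
  /-- order, flipped -/
  ordm : ∀ x P₁ Q₁ i₁ P₂ Q₂ i₂, w.Cov (x, P₁, Q₁) false P₁ i₁ → w.Cov (x, P₂, Q₂) false P₂ i₂ →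
    FreeGroup.of x ∈ Q₁.1 → FreeGroup.of x ∈ Q₂.1 → (P₂.1 ⊂ P₁.1 ∨ P₁ = P₂ ∧ i₁ < i₂) →
    (Q₁.1 ⊂ Q₂.1 ∨ Q₁ = Q₂ ∧ (w.par (x, P₂, Q₂) false i₂).2 < (w.par (x, P₁, Q₁) false i₁).2)

/-- neighbours: `Nb R x true c d` says `d = x c`, `Nb R x false c d` says `c = x d` -/
def Nb {r : ℕ} {Ω : Type} (R : Fin r → Ω → Ω → Prop) (x : Fin r) (e : Bool) (c d : Ω) : Prop :=
  if e then R x c d else R x d c

/-- the rooted forest condition -/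
def Forest {r : ℕ} {Ω : Type} (R : Fin r → Ω → Ω → Prop) : Prop :=
  ∃ h : Ω → ℕ, (∀ x c d, R x c d → h c ≠ h d) ∧
    ∀ c x e d x' e' d', Nb R x e c d → Nb R x' e' c d' → h d < h c → h d' < h c → x = x' ∧ e = e'

/-- Abstract pattern of cells: the cell `c` is crossed by the paths from `1` to the elements of `P c`;
`i c` is the position of `c` among the cells with the same `P`; `R x c d` means `d = x c`. -/
structure CellPat {r : ℕ} (B : Finset (FreeGroup (Fin r))) {Ω : Type} (P : Ω → Finset (FreeGroup (Fin r)))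
    (i : Ω → ℤ) (R : Fin r → Ω → Ω → Prop) : Prop where
  one : ∀ c, (1 : FreeGroup (Fin r)) ∉ P c
  inj : ∀ c d, P c = P d → i c = i d → c = d
  lam : ∀ c d, P c ⊆ P d ∨ P d ⊆ P c ∨ Disjoint (P c) (P d)
  compat : ∀ x c d, R x c d → ∀ g ∈ B, FreeGroup.of x * g ∈ B →
    (g ∈ P c ↔ ¬ (FreeGroup.of x * g ∈ P d ↔ FreeGroup.of x ∈ P d))
  dom : ∀ x c, (∃ g ∈ P c, FreeGroup.of x * g ∈ B) → ∃ d, R x c d
  img : ∀ x d, (∃ g ∈ B, FreeGroup.of x * g ∈ B ∧ ¬ (FreeGroup.of x * g ∈ P d ↔ FreeGroup.of x ∈ P d)) →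
    ∃ c, R x c d
  func : ∀ x c d d', R x c d → R x c d' → d = d'
  cofunc : ∀ x c c' d, R x c d → R x c' d → c = c'
  ordp : ∀ x c₁ d₁ c₂ d₂, R x c₁ d₁ → R x c₂ d₂ → FreeGroup.of x ∉ P d₁ → FreeGroup.of x ∉ P d₂ →
    (P c₂ ⊂ P c₁ ∨ P c₁ = P c₂ ∧ i c₁ < i c₂) → (P d₂ ⊂ P d₁ ∨ P d₁ = P d₂ ∧ i d₁ < i d₂)
  ordm : ∀ x c₁ d₁ c₂ d₂, R x c₁ d₁ → R x c₂ d₂ → FreeGroup.of x ∈ P d₁ → FreeGroup.of x ∈ P d₂ →
    (P c₂ ⊂ P c₁ ∨ P c₁ = P c₂ ∧ i c₁ < i c₂) → (P d₁ ⊂ P d₂ ∨ P d₁ = P d₂ ∧ i d₂ < i d₁)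
  forest : Forest R

/-- embedding of `F_r` -/
def emb {r : ℕ} : FreeGroup (Fin r) →* FreeGroup ℕ := FreeGroup.map (fun x : Fin r => (x : ℕ))

/-- a conjugate of a new generator -/
def fac {r : ℕ} (a : FreeGroup (Fin r)) (o : ℕ) (e : Bool) : FreeGroup ℕ :=
  emb a * FreeGroup.mk [(r + o, e)] * (emb a)⁻¹

end Pool.Agent.Helper59.TE
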