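import Pool.Agent.Helper59.TE.D1
import Pool.Agent.Helper59.TE.Defs2

/-!
# A1: translation lengths of fixed point free isometries of `ℝ`-trees (by helper79)
-/

set_option autoImplicit false

namespace Pool.Agent.Helper59.TE
open Sys

theorem hyp_pos {T : Type} [MetricSpace T] (hT : IsRTree T) (g : T → T) (hg : Isometry g)
    (hfix : ∀ p, g p ≠ p) (p : T) : 0 < dist p (g (g p)) - dist p (g p) := by
  by_contra hcon
  have hD : dist p (g (g p)) ≤ dist p (g p) := by linarith
  obtain ⟨γ, h0, h1, hγ⟩ := hT.geo p (g p)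
  set a := dist p (g p) with ha
  have ha0 : 0 ≤ a := dist_nonneg
  have hpm : dist p (γ (a / 2)) = a / 2 := by
    have := hγ 0 ⟨le_refl _, ha0⟩ (a / 2) ⟨by linarith, by linarith⟩
    rw [h0, zero_sub, abs_neg, abs_of_nonneg (by linarith)] at this
    exact this
  have hmg : dist (γ (a / 2)) (g p) = a / 2 := by
    have := hγ (a / 2) ⟨by linarith, by linarith⟩ a ⟨ha0, le_refl _⟩
    rw [h1, abs_sub_comm, abs_of_nonneg (by linarith)] at this
    linarith
  set m := γ (a / 2) with hm
  have e1 : dist (g p) (g (g p)) = a := hg.dist_eq p (g p)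
  have e2 : dist (g p) (g m) = a / 2 := by rw [hg.dist_eq]; exact hpm
  have e3 : dist (g m) (g (g p)) = a / 2 := by rw [hg.dist_eq]; exact hmg
  have f1 := hT.four m (g (g p)) p (g p)
  have f2 := hT.four m (g m) (g (g p)) (g p)
  have s1 : dist m (g (g p)) ≤ a / 2 := by
    have : max (dist m p + dist (g (g p)) (g p)) (dist m (g p) + dist (g (g p)) p) ≤ a / 2 + a := by
      apply max_le
      · rw [dist_comm m p, dist_comm (g (g p)) (g p), hpm, e1]
      · rw [hmg, dist_comm (g (g p)) p]; linarith
    linarith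
  have s2 : dist m (g m) ≤ 0 := by
    have : max (dist m (g (g p)) + dist (g m) (g p)) (dist m (g p) + dist (g m) (g (g p))) ≤ a := by
      apply max_le
      · rw [dist_comm (g m) (g p), e2]; linarith
      · rw [hmg, e3]; linarith
    have e4 : dist (g (g p)) (g p) = a := by rw [dist_comm]; exact e1
    rw [e4] at f2
    linarith
  exact hfix m (dist_le_zero.mp s2).symm

lemma A1_iso {T : Type} [MetricSpace T] {g : T → T} (hg : Isometry g) (n : ℕ) (x y : T) :
    dist (g^[n] x) (g^[n] y) = dist x y := by
  induction n with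
  | zero => rfl
  | succ n ih => rw [Function.iterate_succ_apply', Function.iterate_succ_apply', hg.dist_eq, ih]

/-- linear growth -/
lemma A1_iter {T : Type} [MetricSpace T] (hT : IsRTree T) (g : T → T) (hg : Isometry g)
    (p : T) (hp : 0 < dist p (g (g p)) - dist p (g p)) (n : ℕ) :
    dist p (g^[n + 1] p) = dist p (g p) + n * (dist p (g (g p)) - dist p (g p)) := by
  have hiso : ∀ n : ℕ, ∀ x y : T, dist (g^[n] x) (g^[n] y) = dist x y := by
    intro n x y
    exact A1_iso hg n x y
  have key : ∀ n : ℕ, dist p (g^[n + 1] p) = dist p (g p) + n * (dist p (g (g p)) - dist p (g p)) ∧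
      dist p (g^[n + 2] p) = dist p (g p) + (n + 1) * (dist p (g (g p)) - dist p (g p)) := by
    intro n
    induction n with
    | zero =>
      refine ⟨by simp, ?_⟩
      simp only [Nat.cast_zero, zero_add, one_mul]
      change dist p (g (g p)) = _
      ring
    | succ n ih =>
      obtain ⟨ih1, ih2⟩ := ih
      have h2 : dist p (g^[n + 1 + 1] p) = dist p (g p) +
          ((n + 1 : ℕ) : ℝ) * (dist p (g (g p)) - dist p (g p)) := by
        rw [show n + 1 + 1 = n + 2 by ring, ih2]; push_cast; ring
      refine ⟨h2, ?_⟩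
      -- four points p, g p, g^(n+2) p, g^(n+3) p
      have d1 : dist (g p) (g^[n + 2] p) = dist p (g^[n + 1] p) := by
        rw [Function.iterate_succ_apply' g (n + 1) p]; exact hg.dist_eq _ _
      have d2 : dist (g p) (g^[n + 3] p) = dist p (g^[n + 2] p) := by
        rw [Function.iterate_succ_apply' g (n + 2) p]; exact hg.dist_eq _ _
      have d3 : dist (g^[n + 2] p) (g^[n + 3] p) = dist p (g p) := by
        rw [show g^[n + 3] p = g^[n + 2] (g p) from Function.iterate_succ_apply g (n + 2) p]
        exact hiso _ _ _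
      have f1 := hT.four p (g^[n + 3] p) (g p) (g^[n + 2] p)
      have f2 := hT.four p (g^[n + 2] p) (g p) (g^[n + 3] p)
      have hn : (0 : ℝ) ≤ n := Nat.cast_nonneg n
      have hpos : 0 ≤ (n : ℝ) * (dist p (g (g p)) - dist p (g p)) := mul_nonneg hn hp.le
      rw [d1] at f1
      rw [dist_comm (g^[n + 3] p) (g^[n + 2] p), d3, dist_comm (g^[n + 3] p) (g p), d2] at f1
      rw [d2, d3, dist_comm (g^[n + 2] p) (g p), d1] at f2
      rw [show n + 1 + 2 = n + 3 by ring]
      push_cast
      rw [ih1, ih2] at f1 f2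
      set l := dist p (g (g p)) - dist p (g p) with hl
      set A := dist p (g p) with hA
      set B := dist p (g^[n + 3] p) with hB
      have g1 : B + (A + n * l) ≤ 2 * (A + (n + 1) * l) := by
        refine f1.trans (max_le ?_ ?_)
        · nlinarith
        · nlinarith
      have g2 : 2 * (A + (n + 1) * l) ≤ B + (A + n * l) := by
        rcases le_max_iff.mp f2 with h | h
        · exfalso; nlinarith
        · linarith
      linarith
  exact (key n).1

theorem hyp_le {T : Type} [MetricSpace T] (hT : IsRTree T) (g : T → T) (hg : Isometry g)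
    (p : T) (hp : 0 < dist p (g (g p)) - dist p (g p)) (q : T) :
    dist p (g (g p)) - dist p (g p) ≤ dist q (g q) := by
  by_contra hcon
  rw [not_le] at hcon
  set l := dist p (g (g p)) - dist p (g p) with hl
  have hbound : ∀ n : ℕ, dist q (g^[n] q) ≤ n * dist q (g q) := by
    intro n
    induction n with
    | zero => simp
    | succ n ih =>
      have h1 : dist (g^[n] q) (g^[n + 1] q) = dist q (g q) := by
        rw [Function.iterate_succ_apply g n q]; exact A1_iso hg n _ _
      have h2 := dist_triangle q (g^[n] q) (g^[n + 1] q)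
      push_cast
      linarith
  obtain ⟨n, hn⟩ := exists_nat_gt ((2 * dist p q + l) / (l - dist q (g q)))
  have hpos : 0 < l - dist q (g q) := by linarith
  rw [div_lt_iff₀ hpos] at hn
  have h1 := A1_iter hT g hg p hp n
  have h2 := hbound (n + 1)
  have h3 : dist p (g^[n + 1] p) ≤ dist p q + dist q (g^[n + 1] q) + dist q p := by
    have e1 := dist_triangle p q (g^[n + 1] p)
    have e2 := dist_triangle q (g^[n + 1] q) (g^[n + 1] p)
    have e3 : dist (g^[n + 1] q) (g^[n + 1] p) = dist q p := A1_iso hg (n + 1) _ _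
    linarith
  have h4 : dist q p = dist p q := dist_comm _ _
  have h5 : 0 ≤ dist p (g p) := dist_nonneg
  push_cast at h2
  nlinarith

theorem hyp_attained {T : Type} [MetricSpace T] (hT : IsRTree T) (g : T → T) (hg : Isometry g)
    (p : T) (hp : 0 < dist p (g (g p)) - dist p (g p)) :
    ∃ q, dist q (g q) = dist p (g (g p)) - dist p (g p) := by
  obtain ⟨γ, h0, h1, hγ⟩ := hT.geo p (g p)
  set a := dist p (g p) with ha
  set D := dist p (g (g p)) with hDdef
  have ha0 : 0 ≤ a := dist_nonneg
  have e1 : dist (g p) (g (g p)) = a := hg.dist_eq p (g p)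
  have hD2 : D ≤ 2 * a := by
    have := dist_triangle p (g p) (g (g p))
    linarith
  set t := (2 * a - D) / 2 with ht
  have ht0 : 0 ≤ t := by rw [ht]; linarith
  have ht1 : t ≤ a := by rw [ht]; linarith
  have hpm : dist p (γ t) = t := by
    have := hγ 0 ⟨le_refl _, ha0⟩ t ⟨ht0, ht1⟩
    rw [h0, zero_sub, abs_neg, abs_of_nonneg ht0] at this
    exact this
  have hmg : dist (γ t) (g p) = a - t := by
    have := hγ t ⟨ht0, ht1⟩ a ⟨ha0, le_refl _⟩
    rw [h1, abs_sub_comm, abs_of_nonneg (by linarith)] at this
    exact this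
  set m := γ t with hm
  have e2 : dist (g p) (g m) = t := by rw [hg.dist_eq]; exact hpm
  have e3 : dist (g m) (g (g p)) = a - t := by rw [hg.dist_eq]; exact hmg
  have f1 := hT.four m (g (g p)) p (g p)
  have f2 := hT.four m (g m) (g (g p)) (g p)
  have s1 : dist m (g (g p)) ≤ 2 * a - 3 * t := by
    have : max (dist m p + dist (g (g p)) (g p)) (dist m (g p) + dist (g (g p)) p) ≤ 3 * a - 3 * t := by
      apply max_le
      · rw [dist_comm m p, dist_comm (g (g p)) (g p), hpm, e1]; linarith
      · rw [hmg, dist_comm (g (g p)) p]; linarith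
    linarith
  have s2 : dist m (g m) ≤ D - a := by
    have : max (dist m (g (g p)) + dist (g m) (g p)) (dist m (g p) + dist (g m) (g (g p))) ≤
        2 * a - 2 * t := by
      apply max_le
      · rw [dist_comm (g m) (g p), e2]; linarith
      · rw [hmg, e3]; linarith
    have e4 : dist (g (g p)) (g p) = a := by rw [dist_comm]; exact e1
    rw [e4] at f2
    linarith
  exact ⟨m, le_antisymm s2 (hyp_le hT g hg p hp m)⟩

theorem hyp_iInf {T : Type} [MetricSpace T] (hT : IsRTree T) (g : T → T) (hg : Isometry g)
    (p : T) (hp : 0 < dist p (g (g p)) - dist p (g p)) :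
    (⨅ q, dist q (g q)) = dist p (g (g p)) - dist p (g p) := by
  have : Nonempty T := ⟨p⟩
  obtain ⟨q, hq⟩ := hyp_attained hT g hg p hp
  apply le_antisymm
  · rw [← hq]
    apply ciInf_le (f := fun q => dist q (g q))
    refine ⟨0, ?_⟩
    rintro _ ⟨q, rfl⟩
    exact dist_nonneg
  · exact le_ciInf fun q => hyp_le hT g hg p hp q

end Pool.Agent.Helper59.TE
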