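import Pool.Agent.Helper59.TE.Defs2

set_option autoImplicit false

/-! Module TE-A2: the walls defined by a point of an ℝ-tree form a separation family. -/

namespace Pool.Agent.Helper59.TE
open Sys

/-- if `z` is on `[a,c]` then it is on `[a,b]` or on `[b,c]` -/
theorem A2_split {T : Type} [MetricSpace T] (hT : IsRTree T) (z a b c : T)
    (h : dist a z + dist z c = dist a c) :
    dist a z + dist z b = dist a b ∨ dist b z + dist z c = dist b c := by
  have h4 := hT.four a c z b
  have t1 := dist_triangle a z b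
  have t2 := dist_triangle b z c
  have c1 := dist_comm c z
  have c2 := dist_comm b z
  have c3 := dist_comm c b
  rcases le_max_iff.mp h4 with h5 | h5
  · right
    apply le_antisymm _ t2
    linarith
  · left
    apply le_antisymm _ t1
    linarith

/-- distance of two points of a segment -/
theorem A2_seg_dist {T : Type} [MetricSpace T] (hT : IsRTree T) (p q x y : T)
    (hx : dist p x + dist x q = dist p q) (hy : dist p y + dist y q = dist p q) :
    dist x y ≤ |dist p x - dist p y| := by
  have h4 := hT.four p q x y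
  have c1 := dist_comm q x
  have c2 := dist_comm q y
  rcases le_max_iff.mp h4 with h5 | h5
  · exact le_trans (by linarith) (le_abs_self _)
  · exact le_trans (by linarith) (neg_le_abs _)

section A2
variable {G : Type} [Group G] {T : Type} [MetricSpace T] [MulAction G T]

theorem A2_btw_smul (hiso : ∀ g : G, Isometry (fun p : T => g • p)) (k : G) (a z b : T) :
    (dist (k • a) (k • z) + dist (k • z) (k • b) = dist (k • a) (k • b)) ↔
      (dist a z + dist z b = dist a b) := by
  rw [(hiso k).dist_eq a z, (hiso k).dist_eq z b, (hiso k).dist_eq a b]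

theorem A2_H (hiso : ∀ g : G, Isometry (fun p : T => g • p)) (p z : T) (k h : G) :
    (dist p z + dist z ((k⁻¹ * h) • p) = dist p ((k⁻¹ * h) • p)) ↔
      (dist (k • p) (k • z) + dist (k • z) (h • p) = dist (k • p) (h • p)) := by
  rw [← A2_btw_smul hiso k p z ((k⁻¹ * h) • p)]
  rw [← mul_smul k (k⁻¹ * h) p, mul_inv_cancel_left]

theorem A2_H1 (hiso : ∀ g : G, Isometry (fun p : T => g • p)) (p z : T) (k : G) :
    (dist p z + dist z (k⁻¹ • p) = dist p (k⁻¹ • p)) ↔
      (dist (k • p) (k • z) + dist (k • z) p = dist (k • p) p) := by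
  rw [← A2_btw_smul hiso k p z (k⁻¹ • p)]
  rw [← mul_smul k k⁻¹ p, mul_inv_cancel, one_smul]

theorem A2_mem (hiso : ∀ g : G, Isometry (fun p : T => g • p)) (p z : T) (k h : G) :
    h ∈ Uz p z k ↔
      ¬ ((dist (k • p) (k • z) + dist (k • z) (h • p) = dist (k • p) (h • p)) ↔
        (dist (k • p) (k • z) + dist (k • z) p = dist (k • p) p)) := by
  unfold Uz
  rw [Set.mem_setOf_eq, A2_H hiso, A2_H1 hiso]

/-- crossing implies that `k • z` is on the segment from `p` to `h • p` -/
theorem Uz_seg (hT : IsRTree T) (hiso : ∀ g : G, Isometry (fun p : T => g • p)) (p z : T) (k h : G)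
    (hk : h ∈ Uz p z k) : dist p (k • z) + dist (k • z) (h • p) = dist p (h • p) := by
  rw [A2_mem hiso] at hk
  by_cases h1 : dist (k • p) (k • z) + dist (k • z) (h • p) = dist (k • p) (h • p)
  · have h2 : ¬ (dist (k • p) (k • z) + dist (k • z) p = dist (k • p) p) := by tauto
    rcases A2_split hT (k • z) (k • p) p (h • p) h1 with h3 | h3
    · exact absurd h3 h2
    · exact h3
  · have h2 : (dist (k • p) (k • z) + dist (k • z) p = dist (k • p) p) := by tauto
    rcases A2_split hT (k • z) (k • p) (h • p) p h2 with h3 | h3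
    · exact absurd h3 h1
    · rw [dist_comm p (k • z), dist_comm (k • z) (h • p), dist_comm p (h • p), add_comm]
      exact h3

/-- conversely, unless `z` is the centre of a tripod of orbit points -/
theorem seg_Uz (hT : IsRTree T) (hiso : ∀ g : G, Isometry (fun p : T => g • p)) (p z : T) (k h : G)
    (hk : dist p (k • z) + dist (k • z) (h • p) = dist p (h • p)) :
    h ∈ Uz p z k ∨ (dist p z + dist z (k⁻¹ • p) = dist p (k⁻¹ • p) ∧
      dist p z + dist z ((k⁻¹ * h) • p) = dist p ((k⁻¹ * h) • p) ∧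
      dist (k⁻¹ • p) z + dist z ((k⁻¹ * h) • p) = dist (k⁻¹ • p) ((k⁻¹ * h) • p)) := by
  have h3 : dist (k⁻¹ • p) z + dist z ((k⁻¹ * h) • p) = dist (k⁻¹ • p) ((k⁻¹ * h) • p) := by
    rw [← A2_btw_smul hiso k (k⁻¹ • p) z ((k⁻¹ * h) • p)]
    rw [← mul_smul k (k⁻¹ * h) p, mul_inv_cancel_left, ← mul_smul k k⁻¹ p, mul_inv_cancel, one_smul]
    exact hk
  by_cases hU : h ∈ Uz p z k
  · exact Or.inl hU
  · right
    have hiff : (dist p z + dist z ((k⁻¹ * h) • p) = dist p ((k⁻¹ * h) • p)) ↔
      (dist p z + dist z (k⁻¹ • p) = dist p (k⁻¹ • p)) := by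
      by_contra hc
      exact hU hc
    have hs := A2_split hT z (k⁻¹ • p) p ((k⁻¹ * h) • p) h3
    have hcomm : (dist (k⁻¹ • p) z + dist z p = dist (k⁻¹ • p) p) ↔
        (dist p z + dist z (k⁻¹ • p) = dist p (k⁻¹ • p)) := by
      rw [dist_comm (k⁻¹ • p) z, dist_comm z p, dist_comm (k⁻¹ • p) p, add_comm]
    tauto

/-- finitely many translates of `z` on a segment -/
theorem seg_finite (hT : IsRTree T) (hiso : ∀ g : G, Isometry (fun p : T => g • p))
    (hdisc : ∀ p : T, ∃ ε : ℝ, 0 < ε ∧ ∀ g : G, g ≠ 1 → ε ≤ dist p (g • p)) (p z q : T) :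
    {k : G | dist p (k • z) + dist (k • z) q = dist p q}.Finite := by
  obtain ⟨ε, hε, hsep⟩ := hdisc z
  apply Set.Finite.of_injOn (f := fun k : G => ⌊dist p (k • z) / ε⌋)
    (t := Set.Icc 0 ⌊dist p q / ε⌋)
  · intro k hk
    simp only [Set.mem_setOf_eq] at hk
    simp only [Set.mem_Icc]
    constructor
    · positivity
    · apply Int.floor_le_floor
      apply div_le_div_of_nonneg_right _ hε.le
      have := dist_nonneg (x := k • z) (y := q)
      linarith
  · intro k hk k' hk' heq
    simp only [Set.mem_setOf_eq] at hk hk' heq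
    by_contra hne
    have hd : dist (k • z) (k' • z) = dist z ((k⁻¹ * k') • z) := by
      rw [← (hiso k).dist_eq z ((k⁻¹ * k') • z)]
      simp only [← mul_smul, mul_inv_cancel_left]
    have h1 : ε ≤ dist (k • z) (k' • z) := by
      rw [hd]
      apply hsep
      intro h
      apply hne
      have : k * (k⁻¹ * k') = k * 1 := by rw [h]
      simpa using this.symm
    have h2 := A2_seg_dist hT p q (k • z) (k' • z) hk hk'
    have h3 : |dist p (k • z) / ε - dist p (k' • z) / ε| < 1 := by
      apply Int.abs_sub_lt_one_of_floor_eq_floor heq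
    rw [← sub_div, abs_div, abs_of_pos hε, div_lt_one hε] at h3
    linarith
  · exact Set.finite_Icc _ _

theorem A2_fin (hT : IsRTree T) (hiso : ∀ g : G, Isometry (fun p : T => g • p))
    (hdisc : ∀ p : T, ∃ ε : ℝ, 0 < ε ∧ ∀ g : G, g ≠ 1 → ε ≤ dist p (g • p)) (p z : T) (g : G) :
    {k : G | g ∈ Uz p z k}.Finite :=
  (seg_finite hT hiso hdisc p z (g • p)).subset (fun k hk => Uz_seg hT hiso p z k g hk)

theorem A2_coc (p z : T) (x g k : G) :
    g ∈ Uz p z k ↔ ¬ (x * g ∈ Uz p z (x * k) ↔ x ∈ Uz p z (x * k)) := by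
  unfold Uz
  simp only [Set.mem_setOf_eq]
  have e1 : (x * k)⁻¹ * (x * g) = k⁻¹ * g := by group
  have e2 : (x * k)⁻¹ * x = k⁻¹ := by group
  rw [e1, e2]
  tauto

theorem A2_nest (hT : IsRTree T) (hiso : ∀ g : G, Isometry (fun p : T => g • p))
    (hfree : ∀ (g : G) (p : T), g • p = p → g = 1) (p z : T) (k k' : G) :
    Uz p z k ⊆ Uz p z k' ∨ Uz p z k' ⊆ Uz p z k ∨ Disjoint (Uz p z k) (Uz p z k') := by
  by_cases hkk : k = k'
  · left; rw [hkk]
  have hz : k • z ≠ k' • z := by
    intro h
    apply hkk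
    have h1 : (k⁻¹ * k') • z = z := by
      rw [mul_smul, ← h, ← mul_smul, inv_mul_cancel, one_smul]
    have h2 := hfree _ _ h1
    have : k * (k⁻¹ * k') = k * 1 := by rw [h2]
    simpa using this.symm
  -- side of a point
  set P : T → Prop := fun x => dist (k • p) (k • z) + dist (k • z) x = dist (k • p) x with hP
  set Q : T → Prop := fun x => dist (k' • p) (k' • z) + dist (k' • z) x = dist (k' • p) x with hQ
  have hU : ∀ h, h ∈ Uz p z k ↔ ¬ (P (h • p) ↔ P p) := fun h => A2_mem hiso p z k h
  have hU' : ∀ h, h ∈ Uz p z k' ↔ ¬ (Q (h • p) ↔ Q p) := fun h => A2_mem hiso p z k' h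
  have key1 : ∀ x, ¬ (P x ↔ P (k' • z)) → dist x (k • z) + dist (k • z) (k' • z) = dist x (k' • z) := by
    intro x hx
    by_cases h1 : P x
    · have h2 : ¬ P (k' • z) := by tauto
      rcases A2_split hT (k • z) (k • p) (k' • z) x h1 with h3 | h3
      · exact absurd h3 h2
      · rw [dist_comm x (k • z), dist_comm (k • z) (k' • z), dist_comm x (k' • z), add_comm]
        exact h3
    · have h2 : P (k' • z) := by tauto
      rcases A2_split hT (k • z) (k • p) x (k' • z) h2 with h3 | h3
      · exact absurd h3 h1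
      · exact h3
  have key2 : ∀ x, ¬ (Q x ↔ Q (k • z)) → dist x (k' • z) + dist (k' • z) (k • z) = dist x (k • z) := by
    intro x hx
    by_cases h1 : Q x
    · have h2 : ¬ Q (k • z) := by tauto
      rcases A2_split hT (k' • z) (k' • p) (k • z) x h1 with h3 | h3
      · exact absurd h3 h2
      · rw [dist_comm x (k' • z), dist_comm (k' • z) (k • z), dist_comm x (k • z), add_comm]
        exact h3
    · have h2 : Q (k • z) := by tauto
      rcases A2_split hT (k' • z) (k' • p) x (k • z) h2 with h3 | h3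
      · exact absurd h3 h1
      · exact h3
  have key : ∀ x, (P x ↔ P (k' • z)) ∨ (Q x ↔ Q (k • z)) := by
    intro x
    by_contra hc
    push Not at hc
    have h1 := key1 x (by tauto)
    have h2 := key2 x (by tauto)
    have h3 := dist_comm (k • z) (k' • z)
    have h4 : dist (k • z) (k' • z) = 0 := by linarith
    exact hz (dist_eq_zero.mp h4)
  have hp := key p
  by_cases ha : P p ↔ P (k' • z)
  · by_cases hb : Q p ↔ Q (k • z)
    · right; right
      rw [Set.disjoint_left]
      intro h h1 h2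
      rw [hU] at h1
      rw [hU'] at h2
      have h3 := key (h • p)
      tauto
    · left
      intro h h1
      rw [hU] at h1
      rw [hU']
      have h3 := key (h • p)
      tauto
  · right; left
    intro h h1
    rw [hU'] at h1
    rw [hU]
    have h3 := key (h • p)
    tauto

theorem Uz_sepr (hT : IsRTree T) (hiso : ∀ g : G, Isometry (fun p : T => g • p))
    (hfree : ∀ (g : G) (p : T), g • p = p → g = 1)
    (hdisc : ∀ p : T, ∃ ε : ℝ, 0 < ε ∧ ∀ g : G, g ≠ 1 → ε ≤ dist p (g • p))
    (htf : ∀ g : G, g ≠ 1 → ∀ n : ℕ, 0 < n → g ^ n ≠ 1) (p z : T) :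
    Sepr (Uz (G := G) p z) where
  one k := by
    unfold Uz
    simp
  coc x g k := A2_coc p z x g k
  nest k k' := A2_nest hT hiso hfree p z k k'
  fin g := A2_fin hT hiso hdisc p z g
  inj k k' hne heq := by
    by_contra hkk
    obtain ⟨h, hh⟩ := hne
    -- the half space
    set H : G → Prop := fun g => dist p z + dist z (g • p) = dist p (g • p) with hH
    have hU : ∀ k h, h ∈ Uz p z k ↔ ¬ (H (k⁻¹ * h) ↔ H k⁻¹) := fun k h => Iff.rfl
    have e1 : ∀ g, (¬ (H (k⁻¹ * g) ↔ H k⁻¹)) ↔ (¬ (H (k'⁻¹ * g) ↔ H k'⁻¹)) := by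
      intro g
      rw [← hU, ← hU, heq]
    set a : G := k⁻¹ * k' with ha
    -- translate of the half space
    have e2 : (∀ g, H (a⁻¹ * g) ↔ H g) ∨ (∀ g, H (a⁻¹ * g) ↔ ¬ H g) := by
      have e3 : ∀ g, (¬ (H g ↔ H k⁻¹)) ↔ (¬ (H (a⁻¹ * g) ↔ H k'⁻¹)) := by
        intro g
        have := e1 (k * g)
        rw [inv_mul_cancel_left] at this
        rw [this]
        have e4 : k'⁻¹ * (k * g) = a⁻¹ * g := by rw [ha]; group
        rw [e4]
      by_cases hc : H k⁻¹ ↔ H k'⁻¹
      · left
        intro g
        have := e3 g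
        tauto
      · right
        intro g
        have := e3 g
        tauto
    have e5 : ∀ g, H (a⁻¹ * (a⁻¹ * g)) ↔ H g := by
      intro g
      rcases e2 with h1 | h1
      · rw [h1, h1]
      · rw [h1, h1]; tauto
    have e6 : ∀ (n : ℕ) g, H ((a ^ (2 * n))⁻¹ * g) ↔ H g := by
      intro n
      induction n with
      | zero => intro g; simp
      | succ n ih =>
        intro g
        have : (a ^ (2 * (n + 1)))⁻¹ * g = (a ^ (2 * n))⁻¹ * (a⁻¹ * (a⁻¹ * g)) := by
          have h1 : a ^ (2 * (n + 1)) = a * a * a ^ (2 * n) := by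
            rw [show 2 * (n + 1) = 1 + 1 + 2 * n by ring, pow_add, pow_add, pow_one]
          have h2 : a * a * a ^ (2 * n) = a ^ (2 * n) * a * a := by
            rw [← pow_succ, ← pow_succ, show 2 * n + 1 + 1 = 1 + 1 + 2 * n by ring, pow_add, pow_add, pow_one]
          have h3 : a ^ (2 * (n + 1)) = a * a * a ^ (2 * n) := h1
          rw [h3]
          have h4 : (a * a * a ^ (2 * n))⁻¹ = (a ^ (2 * n))⁻¹ * (a⁻¹ * a⁻¹) := by
            rw [mul_inv_rev, mul_inv_rev]
          rw [h4, mul_assoc, mul_assoc]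
        rw [this, ih, e5]
    have e7 : ∀ n : ℕ, h ∈ Uz p z (k * a ^ (2 * n)) := by
      intro n
      rw [hU]
      have h1 : (k * a ^ (2 * n))⁻¹ * h = (a ^ (2 * n))⁻¹ * (k⁻¹ * h) := by
        rw [mul_inv_rev, mul_assoc]
      have h2 : (k * a ^ (2 * n))⁻¹ = (a ^ (2 * n))⁻¹ * k⁻¹ := by
        rw [mul_inv_rev]
      rw [h1, h2, e6, e6]
      exact (hU k h).mp hh
    have hane : a ≠ 1 := by
      intro h1
      apply hkk
      have : k * (k⁻¹ * k') = k * 1 := by rw [← ha, h1]
      simpa using this.symm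
    have hinj : Function.Injective (fun n : ℕ => k * a ^ (2 * n)) := by
      intro m n hmn
      simp only [mul_right_inj] at hmn
      by_contra hne
      rcases Nat.lt_or_gt_of_ne hne with hlt | hlt
      · apply htf a hane (2 * n - 2 * m) (by omega)
        have : a ^ (2 * m) * a ^ (2 * n - 2 * m) = a ^ (2 * m) * 1 := by
          rw [← pow_add, mul_one, hmn]
          congr 1
          omega
        exact mul_left_cancel this
      · apply htf a hane (2 * m - 2 * n) (by omega)
        have : a ^ (2 * n) * a ^ (2 * m - 2 * n) = a ^ (2 * n) * 1 := by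
          rw [← pow_add, mul_one, ← hmn]
          congr 1
          omega
        exact mul_left_cancel this
    have hinf : (Set.range (fun n : ℕ => k * a ^ (2 * n))).Infinite := Set.infinite_range_of_injective hinj
    apply hinf
    apply (A2_fin hT hiso hdisc p z h).subset
    rintro _ ⟨n, rfl⟩
    exact e7 n

end A2

end Pool.Agent.Helper59.TE
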