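import Pool.Agent.Helper59.TE.Defs2
import Pool.Agent.Helper59.TE.A1
import Pool.Agent.Helper59.TE.A2

set_option autoImplicit false

/-!
The integral formula: an ℝ-tree with different translation lengths gives a separation family with
different counts.
-/

namespace Pool.Agent.Helper59.TE
open Sys



open MeasureTheory MeasureTheory.Measure

section A3

/-- segments -/
def A3_seg {T : Type} [MetricSpace T] (a b : T) : Set T := {z | dist a z + dist z b = dist a b}

theorem A3_seg_closed {T : Type} [MetricSpace T] (a b : T) : IsClosed (A3_seg a b) :=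
  isClosed_eq (by fun_prop) (by fun_prop)

/-- a point of a tree is determined by its position on a segment -/
theorem A3_unique {T : Type} [MetricSpace T] (hT : IsRTree T) {a b z y : T} (hz : z ∈ A3_seg a b)
    (hy : y ∈ A3_seg a b) (h : dist a z = dist a y) : z = y := by
  have h1 : dist a z + dist z b = dist a b := hz
  have h2 : dist a y + dist y b = dist a b := hy
  have h3 := hT.four z y a b
  rw [dist_comm z a, dist_comm y a] at h3
  have h4 : dist z y ≤ 0 := by
    rcases le_max_iff.1 h3 with h | h <;> linarith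
  exact dist_le_zero.1 h4

theorem A3_measure_seg {T : Type} [MetricSpace T] [MeasurableSpace T] [BorelSpace T]
    (hT : IsRTree T) (a b : T) : μH[1] (A3_seg a b) = ENNReal.ofReal (dist a b) := by
  obtain ⟨γ, h0, h1, hγ⟩ := hT.geo a b
  set d := dist a b with hd
  have hd0 : 0 ≤ d := dist_nonneg
  set f : Set.Icc (0 : ℝ) d → T := fun t => γ t with hf
  have hiso : Isometry f := Isometry.of_dist_eq fun s t => by
    rw [hf]
    show dist (γ s) (γ t) = dist s t
    rw [hγ _ s.2 _ t.2, Subtype.dist_eq, Real.dist_eq]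
  have hr : A3_seg a b = f '' Set.univ := by
    ext z
    constructor
    · intro hz
      have hz' : dist a z + dist z b = d := hz
      have hs : dist a z ∈ Set.Icc (0 : ℝ) d := ⟨dist_nonneg, by
        have := dist_nonneg (x := z) (y := b); linarith⟩
      refine ⟨⟨dist a z, hs⟩, trivial, ?_⟩
      have e1 : dist a (γ (dist a z)) = dist a z := by
        have h2 := hγ 0 ⟨le_refl _, hd0⟩ _ hs
        rw [h0] at h2
        rw [h2, zero_sub, abs_neg, abs_of_nonneg hs.1]
      have e2 : dist (γ (dist a z)) b = d - dist a z := by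
        rw [← h1, hγ _ hs d ⟨hd0, le_refl _⟩, abs_sub_comm, abs_of_nonneg (by linarith [hs.2])]
      refine (A3_unique hT hz ?_ e1.symm).symm
      show dist a (γ (dist a z)) + dist (γ (dist a z)) b = dist a b
      rw [e1, e2]; ring
    · rintro ⟨⟨t, ht⟩, -, rfl⟩
      show dist a (γ t) + dist (γ t) b = dist a b
      have e1 : dist a (γ t) = t := by
        rw [← h0, hγ 0 ⟨le_refl _, hd0⟩ _ ht, zero_sub, abs_neg, abs_of_nonneg ht.1]
      have e2 : dist (γ t) b = d - t := by
        rw [← h1, hγ _ ht d ⟨hd0, le_refl _⟩, abs_sub_comm, abs_of_nonneg (by linarith [ht.2])]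
      rw [e1, e2]; ring
  rw [hr, hiso.hausdorffMeasure_image (Or.inl zero_le_one)]
  have hv : Isometry (Subtype.val : Set.Icc (0 : ℝ) d → ℝ) := isometry_subtype_coe
  rw [← hv.hausdorffMeasure_image (Or.inl zero_le_one), Set.image_univ, Subtype.range_coe,
    hausdorffMeasure_real, Real.volume_Icc, sub_zero]

variable {G : Type} [Group G] {T : Type} [MetricSpace T] [MulAction G T]

/-- number of translates of `z` on the segment from `p` to `h • p` -/
noncomputable def A3_N (p : T) (h : G) (z : T) : ENNReal :=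
  ∑' k : G, (A3_seg p (h • p)).indicator 1 (k • z)

theorem A3_N_inv (p : T) (h k : G) (z : T) : A3_N p h (k • z) = A3_N p h z := by
  unfold A3_N
  rw [← (Equiv.mulRight k).tsum_eq (fun j : G => (A3_seg p (h • p)).indicator (1 : T → ENNReal) (j • z))]
  simp [mul_smul]

theorem A3_N_eq (hT : IsRTree T) (hiso : ∀ g : G, Isometry (fun p : T => g • p))
    (hdisc : ∀ p : T, ∃ ε : ℝ, 0 < ε ∧ ∀ g : G, g ≠ 1 → ε ≤ dist p (g • p)) (p z : T) (h : G) :
    A3_N p h z = (({k : G | dist p (k • z) + dist (k • z) (h • p) = dist p (h • p)}.ncard : ℕ) : ENNReal) := by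
  have hfin := seg_finite hT hiso hdisc p z (h • p)
  unfold A3_N
  set S : Set G := {k : G | dist p (k • z) + dist (k • z) (h • p) = dist p (h • p)} with hS
  have h1 : ∀ k : G, (A3_seg p (h • p)).indicator (1 : T → ENNReal) (k • z) =
      S.indicator (1 : G → ENNReal) k := by
    intro k
    by_cases hk : k ∈ S
    · rw [Set.indicator_of_mem (show k • z ∈ A3_seg p (h • p) from hk), Set.indicator_of_mem hk]; rfl
    · rw [Set.indicator_of_notMem (show k • z ∉ A3_seg p (h • p) from hk),
        Set.indicator_of_notMem hk]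
  simp_rw [h1]
  rw [tsum_eq_sum (s := hfin.toFinset)]
  · rw [Finset.sum_indicator_eq_sum_filter]
    rw [Finset.filter_true_of_mem (fun k hk => by simpa using hk)]
    rw [Set.ncard_eq_toFinset_card _ hfin]
    simp
  · intro k hk
    rw [Set.indicator_of_notMem]
    simpa using hk

theorem A3_N_le_one_of_mem {p z : T} {h : G} (hz : z ∈ A3_seg p (h • p)) : 1 ≤ A3_N p h z := by
  unfold A3_N
  calc (1 : ENNReal) = (A3_seg p (h • p)).indicator 1 ((1 : G) • z) := by
        rw [one_smul, Set.indicator_of_mem hz]; rfl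
    _ ≤ _ := ENNReal.le_tsum (f := fun k : G => (A3_seg p (h • p)).indicator
        (1 : T → ENNReal) (k • z)) 1

variable [Countable G] [MeasurableSpace T] [BorelSpace T]

theorem A3_measurable_smul (hiso : ∀ g : G, Isometry (fun p : T => g • p)) (k : G) :
    Measurable (fun z : T => k • z) := (hiso k).continuous.measurable

theorem A3_measurable_ind (hiso : ∀ g : G, Isometry (fun p : T => g • p)) (p : T) (h k : G) :
    Measurable (fun z : T => (A3_seg p (h • p)).indicator (1 : T → ENNReal) (k • z)) :=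
  (measurable_one.indicator (A3_seg_closed _ _).measurableSet).comp (A3_measurable_smul hiso k)

theorem A3_N_measurable (hiso : ∀ g : G, Isometry (fun p : T => g • p)) (p : T) (h : G) :
    Measurable (A3_N p h) := by
  unfold A3_N
  exact Measurable.ennreal_tsum fun k => A3_measurable_ind hiso p h k

/-- invariance -/
theorem A3_lintegral_smul (hiso : ∀ g : G, Isometry (fun p : T => g • p)) (k : G) (f : T → ENNReal) :
    ∫⁻ z, f (k • z) ∂(μH[1] : Measure T) = ∫⁻ z, f z ∂(μH[1] : Measure T) := by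
  let e : T ≃ᵢ T := ⟨MulAction.toPerm k, hiso k⟩
  have h := e.measurePreserving_hausdorffMeasure 1
  exact h.lintegral_comp_emb e.toHomeomorph.measurableEmbedding f

/-- the mass transport formula -/
theorem A3_transport (hT : IsRTree T) (hiso : ∀ g : G, Isometry (fun p : T => g • p))
    (hdisc : ∀ p : T, ∃ ε : ℝ, 0 < ε ∧ ∀ g : G, g ≠ 1 → ε ≤ dist p (g • p)) (p : T)
    (S : Finset G) (h : G) (hh : h ∈ S) :
    ENNReal.ofReal (dist p (h • p)) = ∑ g ∈ S, ∫⁻ z, (A3_seg p (g • p)).indicator 1 z *
      (A3_N p h z / ∑ g' ∈ S, A3_N p g' z) ∂(μH[1] : Measure T) := by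
  set M : T → ENNReal := fun z => ∑ g' ∈ S, A3_N p g' z with hM
  have hMinv : ∀ (k : G) z, M (k • z) = M z := fun k z => by
    simp only [hM, A3_N_inv]
  have hMtop : ∀ z, M z ≠ ⊤ := fun z => by
    simp only [hM]
    refine ENNReal.sum_ne_top.2 fun g _ => ?_
    rw [A3_N_eq hT hiso hdisc]
    exact ENNReal.natCast_ne_top _
  have hM1 : ∀ z ∈ A3_seg p (h • p), M z ≠ 0 := fun z hz => by
    have h1 : 1 ≤ M z := (A3_N_le_one_of_mem hz).trans
      (Finset.single_le_sum (f := fun g' => A3_N p g' z) (fun _ _ => zero_le) hh)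
    exact fun h0 => by rw [h0] at h1; exact absurd h1 (by simp)
  have hMm : Measurable M := Finset.measurable_sum _ fun g _ => A3_N_measurable hiso p g
  have e1 : ENNReal.ofReal (dist p (h • p)) =
      ∫⁻ z, (A3_seg p (h • p)).indicator 1 z * (M z / M z) ∂(μH[1] : Measure T) := by
    rw [← A3_measure_seg hT, ← lintegral_indicator_one (A3_seg_closed _ _).measurableSet]
    refine lintegral_congr fun z => ?_
    by_cases hz : z ∈ A3_seg p (h • p)
    · rw [ENNReal.div_self (hM1 z hz) (hMtop z), mul_one]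
    · rw [Set.indicator_of_notMem hz, zero_mul]
  have e2 : ∀ z, (A3_seg p (h • p)).indicator 1 z * (M z / M z) =
      ∑ g ∈ S, ∑' k : G, (A3_seg p (h • p)).indicator 1 z *
        ((A3_seg p (g • p)).indicator 1 (k • z) / M z) := by
    intro z
    rw [hM]
    simp only [div_eq_mul_inv]
    rw [Finset.sum_mul, Finset.mul_sum]
    refine Finset.sum_congr rfl fun g _ => ?_
    rw [ENNReal.tsum_mul_left, ENNReal.tsum_mul_right]
    rfl
  rw [e1]
  simp only [e2]
  have m1 : ∀ g k : G, Measurable fun z : T => (A3_seg p (h • p)).indicator (1 : T → ENNReal) z *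
        ((A3_seg p (g • p)).indicator 1 (k • z) / M z) := fun g k =>
    (measurable_one.indicator (A3_seg_closed _ _).measurableSet).mul
      ((A3_measurable_ind hiso p g k).div hMm)
  rw [lintegral_finsetSum _ fun g _ => Measurable.ennreal_tsum fun k => m1 g k]
  refine Finset.sum_congr rfl fun g _ => ?_
  rw [lintegral_tsum fun k => (m1 g k).aemeasurable]
  have e3 : ∀ k : G, ∫⁻ z, (A3_seg p (h • p)).indicator (1 : T → ENNReal) z *
        ((A3_seg p (g • p)).indicator 1 (k • z) / M z) ∂(μH[1] : Measure T) =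
      ∫⁻ z, (A3_seg p (h • p)).indicator (1 : T → ENNReal) (k⁻¹ • z) *
        ((A3_seg p (g • p)).indicator 1 z / M z) ∂(μH[1] : Measure T) := by
    intro k
    rw [← A3_lintegral_smul hiso k (fun z => (A3_seg p (h • p)).indicator (1 : T → ENNReal) (k⁻¹ • z) *
        ((A3_seg p (g • p)).indicator 1 z / M z))]
    refine lintegral_congr fun z => ?_
    rw [inv_smul_smul, hMinv]
  simp only [e3]
  rw [← lintegral_tsum]
  · refine lintegral_congr fun z => ?_
    rw [ENNReal.tsum_mul_right]
    have e4 : ∑' k : G, (A3_seg p (h • p)).indicator (1 : T → ENNReal) (k⁻¹ • z) = A3_N p h z := by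
      unfold A3_N
      exact (Equiv.inv G).tsum_eq (fun k : G => (A3_seg p (h • p)).indicator (1 : T → ENNReal) (k • z))
    rw [e4]
    simp only [div_eq_mul_inv]
    ring
  · intro k
    exact ((A3_measurable_ind hiso p h k⁻¹).mul
      ((measurable_one.indicator (A3_seg_closed _ _).measurableSet).div hMm)).aemeasurable

/-- centres of tripods -/
def A3_exc (p : T) : Set T :=
  ⋃ k : G, ⋃ h : G, {z : T | dist p z + dist z (k⁻¹ • p) = dist p (k⁻¹ • p) ∧
      dist p z + dist z ((k⁻¹ * h) • p) = dist p ((k⁻¹ * h) • p) ∧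
      dist (k⁻¹ • p) z + dist z ((k⁻¹ * h) • p) = dist (k⁻¹ • p) ((k⁻¹ * h) • p)}

theorem A3_exc_null (hT : IsRTree T) (p : T) : (μH[1] : Measure T) (A3_exc (G := G) p) = 0 := by
  haveI := nullSingletonClass_hausdorff (X := T) (d := 1) one_pos
  refine Set.Countable.measure_zero ?_ _
  refine Set.countable_iUnion fun k => Set.countable_iUnion fun h => Set.Subsingleton.countable ?_
  rintro z ⟨h1, h2, h3⟩ w ⟨h1', h2', h3'⟩
  refine A3_unique hT (a := p) (b := k⁻¹ • p) h1 h1' ?_
  rw [dist_comm (k⁻¹ • p) z] at h3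
  rw [dist_comm (k⁻¹ • p) w] at h3'
  linarith

theorem A3_N_cnt (hT : IsRTree T) (hiso : ∀ g : G, Isometry (fun p : T => g • p))
    (hdisc : ∀ p : T, ∃ ε : ℝ, 0 < ε ∧ ∀ g : G, g ≠ 1 → ε ≤ dist p (g • p)) (p z : T)
    (hz : z ∉ A3_exc (G := G) p) (h : G) : A3_N p h z = (cnt (Uz (G := G) p z) h : ENNReal) := by
  rw [A3_N_eq hT hiso hdisc, cnt]
  congr 2
  ext k
  constructor
  · intro hk
    rcases seg_Uz hT hiso p z k h hk with h1 | h1
    · exact h1
    · exact absurd (Set.mem_iUnion.2 ⟨k, Set.mem_iUnion.2 ⟨h, h1⟩⟩) hz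
  · intro hk
    exact Uz_seg hT hiso p z k h hk

theorem A3_main (hT : IsRTree T) (hiso : ∀ g : G, Isometry (fun p : T => g • p))
    (hdisc : ∀ p : T, ∃ ε : ℝ, 0 < ε ∧ ∀ g : G, g ≠ 1 → ε ≤ dist p (g • p)) (p : T)
    (a b c d : G) (h : ∀ z : T, cnt (Uz (G := G) p z) a + cnt (Uz p z) b =
      cnt (Uz (G := G) p z) c + cnt (Uz p z) d) :
    dist p (a • p) + dist p (b • p) = dist p (c • p) + dist p (d • p) := by
  classical
  set S : Finset G := {a, b, c, d} with hS
  have ea := A3_transport hT hiso hdisc p S a (by simp [hS])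
  have eb := A3_transport hT hiso hdisc p S b (by simp [hS])
  have ec := A3_transport hT hiso hdisc p S c (by simp [hS])
  have ed := A3_transport hT hiso hdisc p S d (by simp [hS])
  have hm : ∀ g k : G, Measurable fun z : T => (A3_seg p (g • p)).indicator (1 : T → ENNReal) z *
      (A3_N p k z / ∑ g' ∈ S, A3_N p g' z) := fun g k =>
    (measurable_one.indicator (A3_seg_closed _ _).measurableSet).mul
      ((A3_N_measurable hiso p k).div (Finset.measurable_sum _ fun g _ => A3_N_measurable hiso p g))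
  have key : ENNReal.ofReal (dist p (a • p)) + ENNReal.ofReal (dist p (b • p)) =
      ENNReal.ofReal (dist p (c • p)) + ENNReal.ofReal (dist p (d • p)) := by
    rw [ea, eb, ec, ed, ← Finset.sum_add_distrib, ← Finset.sum_add_distrib]
    refine Finset.sum_congr rfl fun g _ => ?_
    rw [← lintegral_add_left (hm g a), ← lintegral_add_left (hm g c)]
    refine lintegral_congr_ae ?_
    have hae : ∀ᵐ z ∂(μH[1] : Measure T), z ∉ A3_exc (G := G) p :=
      measure_eq_zero_iff_ae_notMem.1 (A3_exc_null hT p)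
    filter_upwards [hae] with z hz
    rw [← mul_add, ← mul_add, ← ENNReal.add_div, ← ENNReal.add_div]
    congr 2
    rw [A3_N_cnt hT hiso hdisc p z hz, A3_N_cnt hT hiso hdisc p z hz,
      A3_N_cnt hT hiso hdisc p z hz, A3_N_cnt hT hiso hdisc p z hz]
    exact_mod_cast h z
  rw [← ENNReal.ofReal_add dist_nonneg dist_nonneg, ← ENNReal.ofReal_add dist_nonneg dist_nonneg,
    ENNReal.ofReal_eq_ofReal_iff (by positivity) (by positivity)] at key
  exact key

end A3

theorem exists_Sepr {r : ℕ} (T : Type) [MetricSpace T] [MulAction (FreeGroup (Fin r)) T]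
    (hT : IsRTree T) (hiso : ∀ g : FreeGroup (Fin r), Isometry (fun p : T => g • p))
    (hfree : ∀ (g : FreeGroup (Fin r)) (p : T), g • p = p → g = 1)
    (hdisc : ∀ p : T, ∃ ε : ℝ, 0 < ε ∧ ∀ g : FreeGroup (Fin r), g ≠ 1 → ε ≤ dist p (g • p))
    (u v : FreeGroup (Fin r)) (hne : (⨅ p : T, dist p (u • p)) ≠ (⨅ p : T, dist p (v • p))) :
    ∃ U : FreeGroup (Fin r) → Set (FreeGroup (Fin r)), Sepr U ∧
      cnt U (u * u) + cnt U v ≠ cnt U (v * v) + cnt U u := by
  rcases isEmpty_or_nonempty T with he | ⟨⟨p⟩⟩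
  · exfalso; apply hne
    rw [Real.iInf_of_isEmpty, Real.iInf_of_isEmpty]
  by_contra hcon
  push Not at hcon
  apply hne
  have htf : ∀ g : FreeGroup (Fin r), g ≠ 1 → ∀ n : ℕ, 0 < n → g ^ n ≠ 1 := by
    intro g hg n hn h
    exact hg ((pow_eq_one_iff_left hn.ne').1 h)
  have hU : ∀ z : T, cnt (Uz (G := FreeGroup (Fin r)) p z) (u * u) + cnt (Uz p z) v =
      cnt (Uz (G := FreeGroup (Fin r)) p z) (v * v) + cnt (Uz p z) u := fun z =>
    hcon _ (Uz_sepr hT hiso hfree hdisc htf p z)
  letI : MeasurableSpace T := borel T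
  haveI : BorelSpace T := ⟨rfl⟩
  have h1 := A3_main hT hiso hdisc p (u * u) v (v * v) u hU
  have h2 : ∀ g : FreeGroup (Fin r), (⨅ p : T, dist p (g • p)) =
      dist p ((g * g) • p) - dist p (g • p) := by
    intro g
    by_cases hg : g = 1
    · subst hg
      simp
    · have h3 := hyp_iInf hT (fun q => g • q) (hiso g) p
        (hyp_pos hT (fun q => g • q) (hiso g) (fun q hq => hg (hfree g q hq)) p)
      rw [mul_smul]
      exact h3
  rw [h2, h2]
  linarith

end Pool.Agent.Helper59.TE
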