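import Pool.Agent.Helper59.TE.Defs2

set_option autoImplicit false

/-! Module TE-B1: an ℝ-tree from a Lyndon length function. The tree is a set of functions on the group
(distance functions of the points of the tree), with the supremum distance. -/

namespace Pool.Agent.Helper59.TE
open Sys

section B1
variable {X : Type}

/-- a symmetric function satisfying the four point condition -/
structure B1_Four (d : X → X → ℝ) : Prop where
  self : ∀ x, d x x = 0
  symm : ∀ x y, d x y = d y x
  four : ∀ w x y z, d x z + d w y ≤ max (d x y + d w z) (d y z + d w x)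

theorem B1_Four.tri {d : X → X → ℝ} (hd : B1_Four d) (x y z : X) : d x z ≤ d x y + d y z := by
  have h := hd.four y x y z
  rw [hd.self y, hd.symm y x] at h
  rcases le_max_iff.mp h with h1 | h1 <;> linarith

theorem B1_Four.nonneg {d : X → X → ℝ} (hd : B1_Four d) (x y : X) : 0 ≤ d x y := by
  have h := hd.tri x y x
  rw [hd.self x, hd.symm y x] at h
  linarith

/-- the points of the tree -/
structure B1_Pt (d : X → X → ℝ) where
  f : X → ℝ
  a : ∀ x y, d x y ≤ f x + f y
  b : ∀ x y z, f z + d x y ≤ max (f x + d z y) (f y + d z x)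
  c : ∃ x y, f x + f y = d x y

theorem B1_Pt.ext' {d : X → X → ℝ} {u v : B1_Pt d} (h : ∀ z, u.f z = v.f z) : u = v := by
  cases u; cases v
  congr
  exact funext h

theorem B1_Pt.lip {d : X → X → ℝ} (hd : B1_Four d) (u : B1_Pt d) (x z : X) : u.f z ≤ u.f x + d z x := by
  have h := u.b x x z
  rw [hd.self x] at h
  rcases le_max_iff.mp h with h1 | h1 <;> linarith

/-- a point is determined by its position on a segment -/
theorem B1_Pt.eq_max {d : X → X → ℝ} (hd : B1_Four d) (u : B1_Pt d) {x y : X} (h : u.f x + u.f y = d x y)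
    (z : X) : u.f z = max (d x z - u.f x) (d y z - u.f y) := by
  apply le_antisymm
  · have h1 := u.b x y z
    rw [hd.symm x z, hd.symm y z]
    rcases le_max_iff.mp h1 with h2 | h2
    · apply le_max_of_le_right; linarith
    · apply le_max_of_le_left; linarith
  · apply max_le
    · have := u.a x z; linarith
    · have := u.a y z; linarith

/-- the point on the segment from `x` to `y` at distance `s` from `x` -/
def B1_phi {d : X → X → ℝ} (hd : B1_Four d) (x y : X) (s : ℝ) (h0 : 0 ≤ s) (h1 : s ≤ d x y) : B1_Pt d where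
  f z := max (d x z - s) (d y z - (d x y - s))
  a z w := by
    have h := hd.four x z y w
    have e1 := hd.symm z y
    have m1 := le_max_left (d x z - s) (d y z - (d x y - s))
    have m2 := le_max_right (d x z - s) (d y z - (d x y - s))
    have m3 := le_max_left (d x w - s) (d y w - (d x y - s))
    have m4 := le_max_right (d x w - s) (d y w - (d x y - s))
    rcases le_max_iff.mp h with h2 | h2 <;> linarith
  b u v z := by
    have m1 := le_max_left (d x u - s) (d y u - (d x y - s))
    have m2 := le_max_right (d x u - s) (d y u - (d x y - s))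
    have m3 := le_max_left (d x v - s) (d y v - (d x y - s))
    have m4 := le_max_right (d x v - s) (d y v - (d x y - s))
    rcases max_cases (d x z - s) (d y z - (d x y - s)) with ⟨h2, _⟩ | ⟨h2, _⟩
    · rw [h2]
      have h := hd.four x u z v
      have e1 := hd.symm u z
      rcases le_max_iff.mp h with h3 | h3
      · apply le_max_of_le_right; linarith
      · apply le_max_of_le_left; linarith
    · rw [h2]
      have h := hd.four y u z v
      have e1 := hd.symm u z
      rcases le_max_iff.mp h with h3 | h3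
      · apply le_max_of_le_right; linarith
      · apply le_max_of_le_left; linarith
  c := by
    refine ⟨x, y, ?_⟩
    rw [hd.self x, hd.self y, hd.symm y x, max_eq_right (by linarith), max_eq_left (by linarith)]
    ring

theorem B1_phi_x {d : X → X → ℝ} (hd : B1_Four d) (x y : X) (s : ℝ) (h0 : 0 ≤ s) (h1 : s ≤ d x y) :
    (B1_phi hd x y s h0 h1).f x = s := by
  show max (d x x - s) (d y x - (d x y - s)) = s
  rw [hd.self x, hd.symm y x, max_eq_right (by linarith)]
  ring

theorem B1_phi_y {d : X → X → ℝ} (hd : B1_Four d) (x y : X) (s : ℝ) (h0 : 0 ≤ s) (h1 : s ≤ d x y) :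
    (B1_phi hd x y s h0 h1).f y = d x y - s := by
  show max (d x y - s) (d y y - (d x y - s)) = d x y - s
  rw [hd.self y, max_eq_left (by linarith)]

/-- bound for the difference of two distance functions -/
theorem B1_diff_le {d : X → X → ℝ} (hd : B1_Four d) (u v : B1_Pt d) {x y : X}
    (h : u.f x + u.f y = d x y) (z : X) :
    |u.f z - v.f z| ≤ max (v.f x - u.f x) (v.f y - u.f y) := by
  rw [abs_le]
  constructor
  · have h1 := v.b x y z
    have h2 := u.a z y
    have h3 := u.a z x
    have m1 := le_max_left (v.f x - u.f x) (v.f y - u.f y)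
    have m2 := le_max_right (v.f x - u.f x) (v.f y - u.f y)
    rcases le_max_iff.mp h1 with h4 | h4 <;> linarith
  · rw [u.eq_max hd h z]
    have h2 := v.a x z
    have h3 := v.a y z
    rcases max_cases (d x z - u.f x) (d y z - u.f y) with ⟨h4, _⟩ | ⟨h4, _⟩
    · rw [h4]; apply le_max_of_le_left; linarith
    · rw [h4]; apply le_max_of_le_right; linarith

/-- the distance -/
noncomputable def B1_dist {d : X → X → ℝ} (u v : B1_Pt d) : ℝ := ⨆ z, |u.f z - v.f z|

theorem B1_bdd {d : X → X → ℝ} (hd : B1_Four d) (u v : B1_Pt d) :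
    BddAbove (Set.range (fun z => |u.f z - v.f z|)) := by
  obtain ⟨x, y, h⟩ := u.c
  refine ⟨max (v.f x - u.f x) (v.f y - u.f y), ?_⟩
  rintro _ ⟨z, rfl⟩
  exact B1_diff_le hd u v h z

theorem B1_le_dist {d : X → X → ℝ} (hd : B1_Four d) (u v : B1_Pt d) (z : X) :
    |u.f z - v.f z| ≤ B1_dist u v := le_ciSup (B1_bdd hd u v) z

theorem B1_dist_symm {d : X → X → ℝ} (u v : B1_Pt d) : B1_dist u v = B1_dist v u := by
  unfold B1_dist
  congr 1
  funext z
  exact abs_sub_comm _ _

theorem B1_dist_eq {d : X → X → ℝ} (hd : B1_Four d) (u v : B1_Pt d) {x y : X}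
    (h : u.f x + u.f y = d x y) : B1_dist u v = max (v.f x - u.f x) (v.f y - u.f y) := by
  apply le_antisymm
  · haveI : Nonempty X := ⟨x⟩
    exact ciSup_le (fun z => B1_diff_le hd u v h z)
  · apply max_le
    · exact le_trans (le_trans (le_abs_self _) (by rw [abs_sub_comm])) (B1_le_dist hd u v x)
    · exact le_trans (le_trans (le_abs_self _) (by rw [abs_sub_comm])) (B1_le_dist hd u v y)

/-- the distance is attained -/
theorem B1_attain {d : X → X → ℝ} (hd : B1_Four d) (u v : B1_Pt d) :
    ∃ x, B1_dist u v = v.f x - u.f x := by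
  obtain ⟨x, y, h⟩ := u.c
  rw [B1_dist_eq hd u v h]
  rcases max_cases (v.f x - u.f x) (v.f y - u.f y) with ⟨h1, _⟩ | ⟨h1, _⟩
  · exact ⟨x, h1⟩
  · exact ⟨y, h1⟩

theorem B1_f_le {d : X → X → ℝ} (hd : B1_Four d) (u v : B1_Pt d) (z : X) :
    u.f z ≤ v.f z + B1_dist u v := by
  have := (abs_le.mp (B1_le_dist hd u v z)).2
  linarith

theorem B1_f_le' {d : X → X → ℝ} (hd : B1_Four d) (u v : B1_Pt d) (z : X) :
    v.f z ≤ u.f z + B1_dist u v := by
  have := (abs_le.mp (B1_le_dist hd u v z)).1
  linarith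

/-- four point condition, two points of `X` -/
theorem B1_four1 {d : X → X → ℝ} (hd : B1_Four d) (u v : B1_Pt d) (a b : X) :
    u.f a + v.f b ≤ max (u.f b + v.f a) (B1_dist u v + d a b) := by
  obtain ⟨x, y, h⟩ := u.c
  have key : ∀ x, u.f a = d x a - u.f x → u.f a + v.f b ≤ max (u.f b + v.f a) (B1_dist u v + d a b) := by
    intro x hx
    have h1 := v.b x a b
    have h2 := u.a b x
    have h3 := B1_f_le' hd u v x
    have h4 := hd.symm b a
    rcases le_max_iff.mp h1 with h5 | h5
    · apply le_max_of_le_right; linarith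
    · apply le_max_of_le_left; linarith
  have h1 := u.eq_max hd h a
  rcases max_cases (d x a - u.f x) (d y a - u.f y) with ⟨h2, _⟩ | ⟨h2, _⟩
  · exact key x (h1.trans h2)
  · exact key y (h1.trans h2)

/-- four point condition, one point of `X` -/
theorem B1_four2 {d : X → X → ℝ} (hd : B1_Four d) (u v w : B1_Pt d) (a : X) :
    B1_dist u v + w.f a ≤ max (B1_dist u w + v.f a) (B1_dist v w + u.f a) := by
  obtain ⟨x, hx⟩ := B1_attain hd u v
  have h1 := B1_four1 hd v w x a
  have h2 := B1_f_le' hd u w x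
  have h3 := u.a x a
  rcases le_max_iff.mp h1 with h5 | h5
  · apply le_max_of_le_left; linarith
  · apply le_max_of_le_right; linarith

theorem B1_four3 {d : X → X → ℝ} (hd : B1_Four d) (u v w t : B1_Pt d) :
    B1_dist u v + B1_dist w t ≤ max (B1_dist u w + B1_dist v t) (B1_dist u t + B1_dist v w) := by
  obtain ⟨x, hx⟩ := B1_attain hd u v
  have h1 := B1_four2 hd w t v x
  have h2 := B1_f_le' hd u w x
  have h3 := B1_f_le' hd u t x
  have e1 := B1_dist_symm w v
  have e2 := B1_dist_symm t v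
  rcases le_max_iff.mp h1 with h5 | h5
  · apply le_max_of_le_right; linarith
  · apply le_max_of_le_left; linarith

theorem B1_dist_self {d : X → X → ℝ} (u : B1_Pt d) : B1_dist u u = 0 := by
  unfold B1_dist
  simp only [sub_self, abs_zero]
  exact Real.iSup_const_zero

theorem B1_dist_tri {d : X → X → ℝ} (hd : B1_Four d) (u v w : B1_Pt d) :
    B1_dist u w ≤ B1_dist u v + B1_dist v w := by
  obtain ⟨x, hx⟩ := B1_attain hd u w
  have h1 := B1_f_le' hd u v x
  have h2 := B1_f_le' hd v w x
  linarith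

theorem B1_eq_of_dist {d : X → X → ℝ} (hd : B1_Four d) (u v : B1_Pt d) (h : B1_dist u v = 0) : u = v := by
  apply B1_Pt.ext'
  intro z
  have h1 := B1_f_le hd u v z
  have h2 := B1_f_le' hd u v z
  linarith

/-- the metric space -/
noncomputable def B1_metric {d : X → X → ℝ} (hd : B1_Four d) : MetricSpace (B1_Pt d) where
  dist := B1_dist
  dist_self := B1_dist_self
  dist_comm := B1_dist_symm
  dist_triangle := B1_dist_tri hd
  eq_of_dist_eq_zero := fun {u v} h => B1_eq_of_dist hd u v h

theorem B1_phi_dist {d : X → X → ℝ} (hd : B1_Four d) (x y : X) (s t : ℝ) (h0 : 0 ≤ s) (h1 : s ≤ d x y)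
    (h0' : 0 ≤ t) (h1' : t ≤ d x y) :
    B1_dist (B1_phi hd x y s h0 h1) (B1_phi hd x y t h0' h1') = |s - t| := by
  have e1 := B1_phi_x hd x y s h0 h1
  have e2 := B1_phi_y hd x y s h0 h1
  have e3 := B1_phi_x hd x y t h0' h1'
  have e4 := B1_phi_y hd x y t h0' h1'
  rw [B1_dist_eq hd (B1_phi hd x y s h0 h1) (B1_phi hd x y t h0' h1') (x := x) (y := y)
    (by rw [e1, e2]; ring), e1, e2, e3, e4]
  rw [show d x y - t - (d x y - s) = s - t by ring, max_comm, abs_eq_max_neg, neg_sub]

theorem B1_eq_phi {d : X → X → ℝ} (hd : B1_Four d) (u : B1_Pt d) {x y : X} (h : u.f x + u.f y = d x y)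
    (s : ℝ) (hs : s = u.f x) (h0 : 0 ≤ s) (h1 : s ≤ d x y) : B1_phi hd x y s h0 h1 = u := by
  apply B1_Pt.ext'
  intro z
  rw [u.eq_max hd h z]
  show max (d x z - s) (d y z - (d x y - s)) = _
  rw [hs]
  congr 1
  rw [← h]
  ring

theorem B1_geo {d : X → X → ℝ} (hd : B1_Four d) (u v : B1_Pt d) :
    ∃ γ : ℝ → B1_Pt d, γ 0 = u ∧ γ (B1_dist u v) = v ∧
      ∀ s ∈ Set.Icc (0 : ℝ) (B1_dist u v), ∀ t ∈ Set.Icc (0 : ℝ) (B1_dist u v),
        B1_dist (γ s) (γ t) = |s - t| := by
  have hnn : 0 ≤ B1_dist u v := by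
    have h1 := B1_dist_tri hd u v u
    rw [B1_dist_self, B1_dist_symm v u] at h1
    linarith
  rcases hnn.eq_or_lt with h0 | hpos
  · -- the two points coincide
    have huv : u = v := B1_eq_of_dist hd u v h0.symm
    refine ⟨fun _ => u, rfl, huv, ?_⟩
    intro s hs t ht
    rw [← h0] at hs ht
    have h1 : s = 0 := le_antisymm hs.2 hs.1
    have h2 : t = 0 := le_antisymm ht.2 ht.1
    rw [B1_dist_self, h1, h2]
    simp
  · obtain ⟨x, hx⟩ := B1_attain hd u v
    obtain ⟨y, hy⟩ := B1_attain hd v u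
    rw [B1_dist_symm v u] at hy
    have hD := B1_four1 hd u v y x
    have h1 := u.a x y
    have h2 := v.a x y
    have h3 := hd.symm x y
    have hle : u.f x + u.f y ≤ d x y := by
      rcases le_max_iff.mp hD with h5 | h5 <;> linarith
    have hu : u.f x + u.f y = d x y := le_antisymm hle h1
    have hv : v.f x + v.f y = d x y := by linarith
    have hux : 0 ≤ u.f x := by have := u.a x x; rw [hd.self] at this; linarith
    have hvy : 0 ≤ v.f y := by have := v.a y y; rw [hd.self] at this; linarith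
    have hcl0 : ∀ t : ℝ, 0 ≤ u.f x + max 0 (min t (B1_dist u v)) := by
      intro t
      have := le_max_left 0 (min t (B1_dist u v))
      linarith
    have hcl1 : ∀ t : ℝ, u.f x + max 0 (min t (B1_dist u v)) ≤ d x y := by
      intro t
      have : max 0 (min t (B1_dist u v)) ≤ B1_dist u v := max_le hnn (min_le_right _ _)
      linarith
    refine ⟨fun t => B1_phi hd x y (u.f x + max 0 (min t (B1_dist u v))) (hcl0 t) (hcl1 t), ?_, ?_, ?_⟩
    · apply B1_eq_phi hd u hu
      rw [min_eq_left hnn]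
      simp
    · apply B1_eq_phi hd v hv
      rw [min_self, max_eq_right hnn]
      linarith
    · intro s hs t ht
      show B1_dist (B1_phi hd x y _ (hcl0 s) (hcl1 s)) (B1_phi hd x y _ (hcl0 t) (hcl1 t)) = _
      rw [B1_phi_dist, min_eq_left hs.2, min_eq_left ht.2, max_eq_right hs.1, max_eq_right ht.1]
      congr 1
      ring

theorem B1_tree {d : X → X → ℝ} (hd : B1_Four d) : @IsRTree (B1_Pt d) (B1_metric hd) := by
  letI := B1_metric hd
  exact ⟨B1_geo hd, B1_four3 hd⟩

end B1

/-- the action -/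
def B1_act {G : Type} [Group G] (d : G → G → ℝ) (hinv : ∀ g x y, d (g * x) (g * y) = d x y) :
    MulAction G (B1_Pt d) where
  smul g u := ⟨fun z => u.f (g⁻¹ * z),
    fun x y => by rw [← hinv g⁻¹ x y]; exact u.a _ _,
    fun x y z => by rw [← hinv g⁻¹ x y, ← hinv g⁻¹ z y, ← hinv g⁻¹ z x]; exact u.b _ _ _,
    by
      obtain ⟨x, y, h⟩ := u.c
      refine ⟨g * x, g * y, ?_⟩
      rw [inv_mul_cancel_left, inv_mul_cancel_left, hinv]
      exact h⟩
  one_smul u := B1_Pt.ext' (fun z => by
    show u.f (1⁻¹ * z) = u.f z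
    rw [inv_one, one_mul])
  mul_smul g h u := B1_Pt.ext' (fun z => by
    show u.f ((g * h)⁻¹ * z) = u.f (h⁻¹ * (g⁻¹ * z))
    rw [mul_inv_rev, mul_assoc])

theorem exists_tree {G : Type} [Group G] (L : G → ℝ) (h1 : L 1 = 0) (hinv : ∀ g, L g⁻¹ = L g)
    (h0 : ∀ g h k, min (L g + L k - L (g⁻¹ * k)) (L k + L h - L (k⁻¹ * h)) ≤ L g + L h - L (g⁻¹ * h)) :
    ∃ (T : Type) (_ : MetricSpace T) (_ : MulAction G T) (p : T), IsRTree T ∧
      (∀ g : G, Isometry (fun q : T => g • q)) ∧ ∀ g : G, dist p (g • p) = L g := by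
  set d : G → G → ℝ := fun x y => L (x⁻¹ * y) with hd
  have hdinv : ∀ g x y, d (g * x) (g * y) = d x y := by
    intro g x y
    show L ((g * x)⁻¹ * (g * y)) = L (x⁻¹ * y)
    congr 1
    group
  have hself : ∀ x, d x x = 0 := by
    intro x
    show L (x⁻¹ * x) = 0
    rw [inv_mul_cancel, h1]
  have hsymm : ∀ x y, d x y = d y x := by
    intro x y
    show L (x⁻¹ * y) = L (y⁻¹ * x)
    rw [← hinv (x⁻¹ * y)]
    congr 1
    group
  have hfour : B1_Four d := by
    refine ⟨hself, hsymm, ?_⟩
    intro w x y z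
    have h2 := h0 (w⁻¹ * x) (w⁻¹ * z) (w⁻¹ * y)
    have e1 : L ((w⁻¹ * x)⁻¹ * (w⁻¹ * y)) = d x y := by
      show _ = L (x⁻¹ * y)
      congr 1; group
    have e2 : L ((w⁻¹ * y)⁻¹ * (w⁻¹ * z)) = d y z := by
      show _ = L (y⁻¹ * z)
      congr 1; group
    have e3 : L ((w⁻¹ * x)⁻¹ * (w⁻¹ * z)) = d x z := by
      show _ = L (x⁻¹ * z)
      congr 1; group
    rw [e1, e2, e3] at h2
    have e4 : L (w⁻¹ * x) = d w x := rfl
    have e5 : L (w⁻¹ * y) = d w y := rfl
    have e6 : L (w⁻¹ * z) = d w z := rfl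
    rw [e4, e5, e6] at h2
    rcases min_le_iff.mp h2 with h3 | h3
    · apply le_max_of_le_left; linarith
    · apply le_max_of_le_right; linarith
  refine ⟨B1_Pt d, B1_metric hfour, B1_act d hdinv,
    B1_phi hfour 1 1 0 le_rfl (hself 1).ge, B1_tree hfour, ?_, ?_⟩
  · intro g
    letI := B1_metric hfour
    letI := B1_act d hdinv
    apply Isometry.of_dist_eq
    intro u v
    show B1_dist (g • u) (g • v) = B1_dist u v
    unfold B1_dist
    show (⨆ z, |u.f (g⁻¹ * z) - v.f (g⁻¹ * z)|) = _
    exact (Equiv.mulLeft g⁻¹).iSup_comp (g := fun z => |u.f z - v.f z|)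
  · intro g
    letI := B1_metric hfour
    letI := B1_act d hdinv
    set p : B1_Pt d := B1_phi hfour 1 1 0 le_rfl (hself 1).ge with hp
    show B1_dist p (g • p) = L g
    have e1 : p.f 1 = 0 := B1_phi_x hfour 1 1 0 le_rfl (hself 1).ge
    have e2 : (g • p).f 1 = d 1 g := by
      show p.f (g⁻¹ * 1) = _
      show max (d 1 (g⁻¹ * 1) - 0) (d 1 (g⁻¹ * 1) - (d 1 1 - 0)) = _
      rw [hself 1]
      simp only [sub_zero, max_self]
      rw [← hdinv g 1 (g⁻¹ * 1)]
      rw [mul_one, mul_one, mul_inv_cancel, hsymm]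
    rw [B1_dist_eq hfour p (g • p) (x := 1) (y := 1) (by rw [e1, hself]; ring), e1, e2]
    rw [max_self, sub_zero]
    show L (1⁻¹ * g) = L g
    rw [inv_one, one_mul]

end Pool.Agent.Helper59.TE
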