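import Pool.Agent.Helper59.TE.Defs2

set_option autoImplicit false

/-! Weighted length in free groups: the four point condition with constant `0`, inversion,
and squares. -/

namespace Pool.Agent.Helper59.TE

open FreeGroup

/-- weight of a word -/
def B3_W {α : Type} (wt : α → ℕ) (l : List (α × Bool)) : ℕ := (l.map (fun p => wt p.1)).sum

/-- weight of the longest common initial segment -/
def B3_cp {α : Type} [DecidableEq α] (wt : α → ℕ) : List (α × Bool) → List (α × Bool) → ℕ
  | [], _ => 0
  | _ :: _, [] => 0
  | a :: l, b :: m => if a = b then wt a.1 + B3_cp wt l m else 0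

theorem B3_W_nil {α : Type} (wt : α → ℕ) : B3_W wt [] = 0 := rfl

theorem B3_W_cons {α : Type} (wt : α → ℕ) (a : α × Bool) (l : List (α × Bool)) :
    B3_W wt (a :: l) = wt a.1 + B3_W wt l := by
  simp [B3_W]

theorem B3_W_append {α : Type} (wt : α → ℕ) (l m : List (α × Bool)) :
    B3_W wt (l ++ m) = B3_W wt l + B3_W wt m := by
  simp [B3_W]

theorem B3_W_invRev {α : Type} (wt : α → ℕ) (l : List (α × Bool)) :
    B3_W wt (invRev l) = B3_W wt l := by
  unfold B3_W invRev
  rw [List.map_reverse, List.sum_reverse, List.map_map]
  rfl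

theorem B3_len_le {α : Type} (wt : α → ℕ) (hw : ∀ a, 1 ≤ wt a) (l : List (α × Bool)) :
    l.length ≤ B3_W wt l := by
  induction l with
  | nil => simp
  | cons a l ih =>
    rw [B3_W_cons, List.length_cons]
    have := hw a.1
    omega

theorem B3_cp_ultra {α : Type} [DecidableEq α] (wt : α → ℕ) :
    ∀ l m n : List (α × Bool), min (B3_cp wt l m) (B3_cp wt m n) ≤ B3_cp wt l n := by
  intro l
  induction l with
  | nil => intro m n; simp [B3_cp]
  | cons a l ih =>
    intro m n
    cases m with
    | nil => simp [B3_cp]
    | cons b m =>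
      cases n with
      | nil => simp [B3_cp]
      | cons c n =>
        by_cases hab : a = b
        · subst hab
          by_cases hbc : a = c
          · subst hbc
            have := ih m n
            simp only [B3_cp, if_true]
            omega
          · simp [B3_cp, hbc]
        · simp [B3_cp, hab]

theorem B3_key {α : Type} [DecidableEq α] (wt : α → ℕ) :
    ∀ l m : List (α × Bool), IsReduced l → IsReduced m →
      B3_W wt (reduce (invRev l ++ m)) + 2 * B3_cp wt l m = B3_W wt l + B3_W wt m := by
  intro l
  induction l with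
  | nil =>
    intro m _ hm
    have h0 : invRev ([] : List (α × Bool)) = [] := rfl
    rw [h0, List.nil_append, hm.reduce_eq]
    simp [B3_cp, B3_W_nil]
  | cons a l ih =>
    intro m hl hm
    cases m with
    | nil =>
      rw [List.append_nil, reduce_invRev, hl.reduce_eq, B3_W_invRev]
      simp [B3_cp, B3_W_nil]
    | cons b m =>
      have hi : invRev (a :: l) = invRev l ++ [(a.1, !a.2)] := by
        simp [invRev]
      by_cases hab : a = b
      · subst hab
        have hr : reduce (invRev (a :: l) ++ a :: m) = reduce (invRev l ++ m) := by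
          apply reduce.Step.eq
          rw [hi]
          have : invRev l ++ [(a.1, !a.2)] ++ a :: m = invRev l ++ (a.1, !a.2) :: (a.1, !(!a.2)) :: m := by
            simp
          rw [this]
          exact Red.Step.not
        have hl' : IsReduced l := List.IsChain.tail hl
        have hm' : IsReduced m := List.IsChain.tail hm
        have := ih m hl' hm'
        rw [hr, B3_W_cons, B3_W_cons]
        simp only [B3_cp, if_true]
        omega
      · have hred : IsReduced (invRev (a :: l) ++ b :: m) := by
          have h1 : IsReduced (invRev (a :: l)) := by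
            rw [isReduced_iff_reduce_eq, reduce_invRev, hl.reduce_eq]
          unfold FreeGroup.IsReduced at h1 hm ⊢
          rw [List.isChain_append]
          refine ⟨h1, hm, ?_⟩
          rw [hi]
          intro x hx y hy
          simp at hx hy
          subst hx
          subst hy
          intro h2
          by_contra h3
          apply hab
          have : a.2 = b.2 := by
            revert h3
            cases a.2 <;> cases b.2 <;> simp
          exact Prod.ext h2 this
        rw [hred.reduce_eq, B3_W_append, B3_W_invRev]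
        simp [B3_cp, hab]

theorem B3_wlen {α : Type} [DecidableEq α] (wt : α → ℕ) (g : FreeGroup α) :
    wlen wt g = B3_W wt g.toWord := rfl

theorem B3_wlen_mul {α : Type} [DecidableEq α] (wt : α → ℕ) (g h : FreeGroup α) :
    wlen wt (g⁻¹ * h) + 2 * B3_cp wt g.toWord h.toWord = wlen wt g + wlen wt h := by
  rw [B3_wlen, B3_wlen, B3_wlen, toWord_mul, toWord_inv]
  exact B3_key wt _ _ isReduced_toWord isReduced_toWord

theorem wlen_inv {α : Type} [DecidableEq α] (wt : α → ℕ) (g : FreeGroup α) : wlen wt g⁻¹ = wlen wt g := by
  rw [B3_wlen, B3_wlen, toWord_inv, B3_W_invRev]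

theorem wlen_hyp {α : Type} [DecidableEq α] (wt : α → ℕ) (g h k : FreeGroup α) :
    min ((wlen wt g : ℝ) + wlen wt k - wlen wt (g⁻¹ * k)) ((wlen wt k : ℝ) + wlen wt h - wlen wt (k⁻¹ * h)) ≤
      (wlen wt g : ℝ) + wlen wt h - wlen wt (g⁻¹ * h) := by
  have e : ∀ x y : FreeGroup α, (wlen wt x : ℝ) + wlen wt y - wlen wt (x⁻¹ * y) =
      2 * (B3_cp wt x.toWord y.toWord : ℝ) := by
    intro x y
    have h0 := B3_wlen_mul wt x y
    have h1 : (wlen wt (x⁻¹ * y) : ℝ) + 2 * B3_cp wt x.toWord y.toWord = wlen wt x + wlen wt y := by
      exact_mod_cast h0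
    linarith
  rw [e, e, e]
  have h2 := B3_cp_ultra wt g.toWord k.toWord h.toWord
  have h3 : min ((B3_cp wt g.toWord k.toWord : ℕ) : ℝ) (B3_cp wt k.toWord h.toWord : ℕ) ≤
      (B3_cp wt g.toWord h.toWord : ℕ) := by
    exact_mod_cast h2
  rw [← mul_min_of_nonneg _ _ (by norm_num : (0 : ℝ) ≤ 2)]
  linarith

theorem wlen_sq {α : Type} [DecidableEq α] (wt : α → ℕ) (hw : ∀ a, 1 ≤ wt a) (g : FreeGroup α) (hg : g ≠ 1) :
    wlen wt g + 1 ≤ wlen wt (g * g) := by
  have hr : IsReduced g.toWord := isReduced_toWord
  have h1 := reduceCyclically.conj_conjugator_reduceCyclically g.toWord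
  have h2 := reduceCyclically.reduce_flatten_replicate_succ hr 1
  have h3 : (List.replicate (1 + 1) g.toWord).flatten = g.toWord ++ g.toWord := by
    simp [List.replicate]
  have h4 : (List.replicate (1 + 1) (reduceCyclically g.toWord)).flatten =
      reduceCyclically g.toWord ++ reduceCyclically g.toWord := by
    simp [List.replicate]
  rw [h3, h4, ← toWord_mul] at h2
  have h5 : wlen wt g = B3_W wt (reduceCyclically.conjugator g.toWord) +
      B3_W wt (reduceCyclically g.toWord) + B3_W wt (reduceCyclically.conjugator g.toWord) := by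
    rw [B3_wlen]
    conv_lhs => rw [← h1]
    rw [B3_W_append, B3_W_append, B3_W_invRev]
  have h6 : wlen wt (g * g) = B3_W wt (reduceCyclically.conjugator g.toWord) +
      (B3_W wt (reduceCyclically g.toWord) + B3_W wt (reduceCyclically g.toWord)) +
      B3_W wt (reduceCyclically.conjugator g.toWord) := by
    rw [B3_wlen, h2, B3_W_append, B3_W_append, B3_W_append, B3_W_invRev]
  have h7 : reduceCyclically g.toWord ≠ [] := by
    intro h
    rw [h, List.append_nil] at h1
    apply hg
    have h8 : (mk (reduceCyclically.conjugator g.toWord ++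
        invRev (reduceCyclically.conjugator g.toWord)) : FreeGroup α) = g := by
      rw [h1, mk_toWord]
    rw [← h8, ← mul_mk, ← inv_mk, mul_inv_cancel]
  have h8 : 1 ≤ B3_W wt (reduceCyclically g.toWord) :=
    le_trans (List.length_pos_iff.2 h7) (B3_len_le wt hw _)
  omega

end Pool.Agent.Helper59.TE
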