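import Pool.Agent.Helper59.TE.A1
import Pool.Agent.Helper59.TE.B1
import Pool.Agent.Helper59.TE.B3

/-!
# B4: soundness of tests (by helper44)
-/

set_option autoImplicit false

namespace Pool.Agent.Helper59.TE
open Sys

/-- the substitution homomorphism -/
def B4_phi (r : ℕ) (W : List Wd) : FreeGroup (Fin r) →* FreeGroup ℕ :=
  FreeGroup.lift (fun i : Fin r => FreeGroup.mk (W.getD i.1 []) * FreeGroup.of i.1)

/-- deleting the letters of index at least `r` -/
def B4_del (r : ℕ) : FreeGroup ℕ →* FreeGroup ℕ :=
  FreeGroup.lift (fun n : ℕ => if n < r then FreeGroup.of n else 1)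

theorem B4_of_eq {α : Type} (a : α) : (FreeGroup.of a : FreeGroup α) = FreeGroup.mk [(a, true)] := rfl

theorem B4_of_inv {α : Type} (a : α) : (FreeGroup.of a : FreeGroup α)⁻¹ = FreeGroup.mk [(a, false)] := rfl

theorem B4_mk_cons {α : Type} (a : α × Bool) (l : List (α × Bool)) :
    (FreeGroup.mk (a :: l) : FreeGroup α) = FreeGroup.mk [a] * FreeGroup.mk l := by
  rw [FreeGroup.mul_mk]; rfl

theorem B4_phi_mk (r : ℕ) (W : List Wd) (l : List (Fin r × Bool)) :
    B4_phi r W (FreeGroup.mk l) = FreeGroup.mk (sub W (toN l)) := by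
  induction l with
  | nil =>
    simp only [toN, sub, List.map_nil, List.flatMap_nil]
    exact map_one _
  | cons a l ih =>
    obtain ⟨i, b⟩ := a
    rw [B4_mk_cons, map_mul, ih]
    have hs : sub W (toN ((i, b) :: l)) = (if b then W.getD i.1 [] ++ [(i.1, true)]
        else (i.1, false) :: FreeGroup.invRev (W.getD i.1 [])) ++ sub W (toN l) := by
      simp only [toN, sub, List.map_cons, List.flatMap_cons]
    rw [hs, ← FreeGroup.mul_mk]
    congr 1
    cases b with
    | true =>
      rw [if_pos rfl, ← B4_of_eq, B4_phi, FreeGroup.lift_apply_of, ← FreeGroup.mul_mk]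
      rfl
    | false =>
      rw [if_neg (by decide), ← B4_of_inv, map_inv, B4_phi, FreeGroup.lift_apply_of, B4_mk_cons, mul_inv_rev,
        FreeGroup.inv_mk]
      rfl

theorem B4_del_mk (r : ℕ) (l : Wd) :
    B4_del r (FreeGroup.mk l) = FreeGroup.mk (l.filter (fun p => decide (p.1 < r))) := by
  induction l with
  | nil => exact map_one _
  | cons a l ih =>
    obtain ⟨i, b⟩ := a
    rw [B4_mk_cons, map_mul, ih, List.filter_cons]
    by_cases hi : i < r
    · rw [if_pos (by simpa using hi), B4_mk_cons (i, b) (List.filter _ _)]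
      congr 1
      cases b with
      | true => rw [← B4_of_eq, B4_del, FreeGroup.lift_apply_of, if_pos hi]
      | false => rw [← B4_of_inv, map_inv, B4_del, FreeGroup.lift_apply_of, if_pos hi]
    · rw [if_neg (by simpa using hi)]
      have : B4_del r (FreeGroup.mk [(i, b)]) = 1 := by
        cases b with
        | true => rw [← B4_of_eq, B4_del, FreeGroup.lift_apply_of, if_neg hi]
        | false => rw [← B4_of_inv, map_inv, B4_del, FreeGroup.lift_apply_of, if_neg hi, inv_one]
      rw [this, one_mul]

theorem B4_del_phi (r : ℕ) (W : List Wd) (hW : W.length = r) (hK : Kill r W) (g : FreeGroup (Fin r)) :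
    B4_del r (B4_phi r W g) = FreeGroup.map (fun x : Fin r => x.1) g := by
  have : (B4_del r).comp (B4_phi r W) = FreeGroup.map (fun x : Fin r => x.1) := by
    apply FreeGroup.ext_hom
    intro i
    rw [MonoidHom.comp_apply, B4_phi, FreeGroup.lift_apply_of, map_mul, FreeGroup.map.of]
    have h1 : B4_del r (FreeGroup.mk (W.getD i.1 [])) = 1 := by
      rw [B4_del_mk]
      have hmem : W.getD i.1 [] ∈ W := by
        rw [List.getD_eq_getElem _ _ (by rw [hW]; exact i.2)]
        exact List.getElem_mem _
      have := hK _ hmem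
      rw [← FreeGroup.toWord_mk, FreeGroup.toWord_eq_nil_iff] at this
      exact this
    rw [h1, one_mul, B4_del, FreeGroup.lift_apply_of, if_pos i.2]
  rw [← MonoidHom.comp_apply, this]

theorem B4_phi_inj (r : ℕ) (W : List Wd) (hW : W.length = r) (hK : Kill r W) :
    Function.Injective (B4_phi r W) := by
  have hinj : Function.Injective (FreeGroup.map (fun x : Fin r => x.1)) :=
    FreeGroup.map_injective Fin.val_injective
  intro a b hab
  apply hinj
  rw [← B4_del_phi r W hW hK, ← B4_del_phi r W hW hK, hab]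

/-- number of letters of index less than r in the reduced form -/
def B4_nx (r : ℕ) (l : Wd) : ℕ :=
  ((FreeGroup.reduce l).filter (fun p => decide (p.1 < r))).length

theorem B4_wlen_mk (r N : ℕ) (l : Wd) :
    wlen (fun n => if r ≤ n then N else 1) (FreeGroup.mk l) = N * nt r l + B4_nx r l := by
  rw [wlen, nt, B4_nx, FreeGroup.toWord_mk]
  induction FreeGroup.reduce l with
  | nil => simp
  | cons a t ih =>
    rw [List.map_cons, List.sum_cons, ih, List.filter_cons, List.filter_cons]
    by_cases ha : r ≤ a.1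
    · have h2 : ¬ a.1 < r := by omega
      simp only [ha, h2, decide_true, decide_false, if_true, List.length_cons]
      simp only [Bool.false_eq_true, if_false]
      ring
    · have h2 : a.1 < r := by omega
      simp only [ha, h2, decide_true, decide_false, if_true, if_false, List.length_cons, Bool.false_eq_true]
      ring

/-- the translation length of the tree attached to the length function `wlen wt ∘ φ` -/
theorem B4_key (r : ℕ) (φ : FreeGroup (Fin r) →* FreeGroup ℕ) (hφ : Function.Injective φ)
    (wt : ℕ → ℕ) (hw : ∀ a, 1 ≤ wt a) (u v : FreeGroup (Fin r)) (h : TransEq r u v) :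
    wlen wt (φ (u * u)) + wlen wt (φ v) = wlen wt (φ (v * v)) + wlen wt (φ u) := by
  obtain ⟨T, hm, ha, p, hT, hiso, hd⟩ := exists_tree (G := FreeGroup (Fin r))
    (fun g => (wlen wt (φ g) : ℝ)) (by simp [wlen]) (fun g => by rw [map_inv, wlen_inv])
    (fun g h k => by
      have := wlen_hyp wt (φ g) (φ h) (φ k)
      simpa only [map_mul, map_inv] using this)
  have hgg : ∀ g : FreeGroup (Fin r), dist p (g • (g • p)) = wlen wt (φ (g * g)) := by
    intro g
    rw [← mul_smul, hd]
  have hpos : ∀ g : FreeGroup (Fin r), g ≠ 1 → 1 ≤ dist p (g • (g • p)) - dist p (g • p) := by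
    intro g hg
    rw [hgg, hd]
    have h1 : φ g ≠ 1 := fun hh => hg (hφ (by rw [hh, map_one]))
    have := wlen_sq wt hw (φ g) h1
    rw [← map_mul] at this
    have h2 : ((wlen wt (φ g) + 1 : ℕ) : ℝ) ≤ wlen wt (φ (g * g)) := by exact_mod_cast this
    push_cast at h2
    linarith
  have hq : ∀ (g : FreeGroup (Fin r)) (q : T), g ≠ 1 → 1 ≤ dist q (g • q) := by
    intro g q hg
    have := hyp_le hT (fun q : T => g • q) (hiso g) p (by linarith [hpos g hg]) q
    linarith [hpos g hg]
  have hinf : ∀ g : FreeGroup (Fin r), (⨅ q : T, dist q (g • q)) =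
      (wlen wt (φ (g * g)) : ℝ) - wlen wt (φ g) := by
    intro g
    by_cases hg : g = 1
    · subst hg
      have : Nonempty T := ⟨p⟩
      simp
    · rw [hyp_iInf hT (fun q : T => g • q) (hiso g) p (by linarith [hpos g hg]), hgg, hd]
  have := h T hT.geo hT.four hiso
    (fun g q hgq => by
      by_contra hg
      have := hq g q hg
      rw [hgq, dist_self] at this
      linarith)
    (fun q => ⟨1, one_pos, fun g hg => hq g q hg⟩)
  rw [hinf, hinf] at this
  have h3 : ((wlen wt (φ (u * u)) + wlen wt (φ v) : ℕ) : ℝ) = (wlen wt (φ (v * v)) + wlen wt (φ u) : ℕ) := by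
    push_cast
    linarith
  exact_mod_cast h3

theorem soundness (r : ℕ) (u v : List (Fin r × Bool))
    (h : TransEq r (FreeGroup.mk u) (FreeGroup.mk v)) (W : List Wd) :
    TestOK r (toN u) (toN v) W := by
  intro hW hK
  have key : ∀ N : ℕ, 1 ≤ N → (N * nt r (sub W (toN u ++ toN u)) + B4_nx r (sub W (toN u ++ toN u))) +
      (N * nt r (sub W (toN v)) + B4_nx r (sub W (toN v))) =
      (N * nt r (sub W (toN v ++ toN v)) + B4_nx r (sub W (toN v ++ toN v))) +
      (N * nt r (sub W (toN u)) + B4_nx r (sub W (toN u))) := by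
    intro N hN
    have := B4_key r (B4_phi r W) (B4_phi_inj r W hW hK) (fun n => if r ≤ n then N else 1)
      (fun a => by split_ifs; exacts [hN, le_refl _]) _ _ h
    have happ : ∀ l l' : List (Fin r × Bool), toN (l ++ l') = toN l ++ toN l' := by
      intro l l'
      simp [toN]
    rw [FreeGroup.mul_mk, FreeGroup.mul_mk, B4_phi_mk, B4_phi_mk, B4_phi_mk, B4_phi_mk, B4_wlen_mk, B4_wlen_mk,
      B4_wlen_mk, B4_wlen_mk, happ, happ] at this
    exact this
  have k1 := key 1 (le_refl _)
  have k2 := key 2 (by norm_num)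
  omega

end Pool.Agent.Helper59.TE
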