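import Pool.Agent.Helper59.TE.CDefs

set_option autoImplicit false

/-! Module C1: positions of walls. -/

namespace Pool.Agent.Helper59.TE
open Sys

variable {r : ℕ} {B : Finset (FreeGroup (Fin r))} {U : FreeGroup (Fin r) → Set (FreeGroup (Fin r))}

theorem mem_Pk (k g : FreeGroup (Fin r)) : g ∈ Pk B U k ↔ g ∈ B ∧ g ∈ U k := by
  classical
  unfold Pk
  rw [Finset.mem_filter]

theorem CP_finite (hU : Sepr U) {P : Finset (FreeGroup (Fin r))} (hP : P.Nonempty) :
    (CP B U P).Finite := by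
  obtain ⟨g, hg⟩ := hP
  refine (hU.fin g).subset ?_
  intro k hk
  have hk' : Pk B U k = P := hk
  rw [← hk'] at hg
  exact ((mem_Pk k g).1 hg).2

/-- two walls with the same non-empty trace are nested -/
theorem CP_nest (hU : Sepr U) {k k' : FreeGroup (Fin r)} (h : Pk B U k = Pk B U k')
    (hne : (Pk B U k).Nonempty) (hkk : k ≠ k') : U k ⊂ U k' ∨ U k' ⊂ U k := by
  obtain ⟨g, hg⟩ := hne
  have hg1 := ((mem_Pk k g).1 hg).2
  have hg2 := ((mem_Pk k' g).1 (h ▸ hg)).2
  have hneq : U k ≠ U k' := fun he => hkk (hU.inj k k' ⟨g, hg1⟩ he)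
  rcases hU.nest k k' with h1 | h1 | h1
  · exact Or.inl (lt_of_le_of_ne h1 hneq)
  · exact Or.inr (lt_of_le_of_ne h1 hneq.symm)
  · exact absurd hg2 (Set.disjoint_left.1 h1 hg1)

theorem C1_rk_lt_of (hU : Sepr U) {k k' : FreeGroup (Fin r)} (h : Pk B U k = Pk B U k')
    (hne : (Pk B U k).Nonempty) (hs : U k' ⊂ U k) : rk B U k < rk B U k' := by
  unfold rk
  apply Set.ncard_lt_ncard
  · constructor
    · rintro k'' ⟨h1, h2⟩
      exact ⟨h1.trans h, hs.trans h2⟩
    · intro hsub
      have : k ∈ {k'' | Pk B U k'' = Pk B U k ∧ U k ⊂ U k''} := hsub ⟨h, hs⟩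
      exact (lt_irrefl _ (this.2 : U k < U k))
  · refine (CP_finite (B := B) hU (h ▸ hne)).subset ?_
    rintro k'' ⟨h1, _⟩
    exact h1

theorem rk_lt_iff (hU : Sepr U) {k k' : FreeGroup (Fin r)} (h : Pk B U k = Pk B U k')
    (hne : (Pk B U k).Nonempty) : rk B U k < rk B U k' ↔ U k' ⊂ U k := by
  constructor
  · intro hlt
    have hkk : k ≠ k' := by rintro rfl; exact lt_irrefl _ hlt
    rcases CP_nest hU h hne hkk with h1 | h1
    · exact absurd (C1_rk_lt_of hU h.symm (h ▸ hne) h1) (not_lt.2 hlt.le)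
    · exact h1
  · exact C1_rk_lt_of hU h hne

theorem rk_lt (hU : Sepr U) {k : FreeGroup (Fin r)} (hne : (Pk B U k).Nonempty) :
    rk B U k < (CP B U (Pk B U k)).ncard := by
  unfold rk
  apply Set.ncard_lt_ncard
  · constructor
    · rintro k'' ⟨h1, _⟩
      exact h1
    · intro hsub
      have : k ∈ {k'' | Pk B U k'' = Pk B U k ∧ U k ⊂ U k''} := hsub (rfl : Pk B U k = Pk B U k)
      exact (lt_irrefl _ (this.2 : U k < U k))
  · exact CP_finite (B := B) hU hne

theorem rk_inj (hU : Sepr U) {k k' : FreeGroup (Fin r)} (h : Pk B U k = Pk B U k')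
    (hne : (Pk B U k).Nonempty) (hr : rk B U k = rk B U k') : k = k' := by
  by_contra hkk
  rcases CP_nest hU h hne hkk with h1 | h1
  · exact absurd hr (ne_of_gt (C1_rk_lt_of hU h.symm (h ▸ hne) h1))
  · exact absurd hr (ne_of_lt (C1_rk_lt_of hU h hne h1))

theorem rk_surj (hU : Sepr U) {P : Finset (FreeGroup (Fin r))} (hP : P.Nonempty) {i : ℕ}
    (hi : i < (CP B U P).ncard) : ∃ k, Pk B U k = P ∧ rk B U k = i := by
  classical
  have hfin := CP_finite (B := B) hU hP
  have hS : (hfin.toFinset.image (rk B U)) = Finset.range (CP B U P).ncard := by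
    apply Finset.eq_of_subset_of_card_le
    · intro j hj
      rw [Finset.mem_image] at hj
      obtain ⟨k, hk, rfl⟩ := hj
      rw [Set.Finite.mem_toFinset] at hk
      have hk' : Pk B U k = P := hk
      rw [Finset.mem_range, ← hk']
      exact rk_lt hU (hk' ▸ hP)
    · rw [Finset.card_image_of_injOn, Finset.card_range, Set.ncard_eq_toFinset_card _ hfin]
      intro k hk k' hk' he
      rw [Finset.mem_coe, Set.Finite.mem_toFinset] at hk hk'
      have h1 : Pk B U k = P := hk
      have h2 : Pk B U k' = P := hk'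
      exact rk_inj hU (h1.trans h2.symm) (h1 ▸ hP) he
  have : i ∈ hfin.toFinset.image (rk B U) := by rw [hS]; exact Finset.mem_range.2 hi
  rw [Finset.mem_image] at this
  obtain ⟨k, hk, he⟩ := this
  rw [Set.Finite.mem_toFinset] at hk
  exact ⟨k, hk, he⟩

end Pool.Agent.Helper59.TE
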