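import Pool.Agent.Helper59.TE.C1

set_option autoImplicit false

/-! Module C2: bands are intervals. -/

namespace Pool.Agent.Helper59.TE
open Sys

variable {r : ℕ} {B : Finset (FreeGroup (Fin r))} {U : FreeGroup (Fin r) → Set (FreeGroup (Fin r))}

/-- flip rule -/
theorem U_mul_of_notMem (hU : Sepr U) {x k : FreeGroup (Fin r)} (h : x ∉ U (x * k)) (g : FreeGroup (Fin r)) :
    x * g ∈ U (x * k) ↔ g ∈ U k := by
  have := hU.coc x g k
  tauto

theorem U_mul_of_mem (hU : Sepr U) {x k : FreeGroup (Fin r)} (h : x ∈ U (x * k)) (g : FreeGroup (Fin r)) :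
    x * g ∈ U (x * k) ↔ g ∉ U k := by
  have := hU.coc x g k
  tauto

theorem C2_inv_mem (hU : Sepr U) (x k : FreeGroup (Fin r)) : x⁻¹ ∈ U k ↔ x ∈ U (x * k) := by
  have h1 := hU.coc x x⁻¹ k
  have h2 := hU.one (x * k)
  rw [mul_inv_cancel] at h1
  tauto

/-- both walls on the same side: the order is preserved -/
theorem C2_mono (hU : Sepr U) {x k k' : FreeGroup (Fin r)} (h : x ∉ U (x * k)) (h' : x ∉ U (x * k')) :
    U k ⊆ U k' ↔ U (x * k) ⊆ U (x * k') := by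
  constructor
  · intro hs g hg
    have h1 := U_mul_of_notMem hU h (x⁻¹ * g)
    have h2 := U_mul_of_notMem hU h' (x⁻¹ * g)
    rw [mul_inv_cancel_left] at h1 h2
    exact h2.2 (hs (h1.1 hg))
  · intro hs g hg
    exact (U_mul_of_notMem hU h' g).1 (hs ((U_mul_of_notMem hU h g).2 hg))

theorem C2_anti (hU : Sepr U) {x k k' : FreeGroup (Fin r)} (h : x ∈ U (x * k)) (h' : x ∈ U (x * k')) :
    U k ⊆ U k' ↔ U (x * k') ⊆ U (x * k) := by
  constructor
  · intro hs g hg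
    have h1 := U_mul_of_mem hU h (x⁻¹ * g)
    have h2 := U_mul_of_mem hU h' (x⁻¹ * g)
    rw [mul_inv_cancel_left] at h1 h2
    exact h1.2 (fun h3 => h2.1 hg (hs h3))
  · intro hs g hg
    by_contra h3
    exact (U_mul_of_mem hU h g).1 (hs ((U_mul_of_mem hU h' g).2 h3)) hg

theorem C2_mono_ss (hU : Sepr U) {x k k' : FreeGroup (Fin r)} (h : x ∉ U (x * k)) (h' : x ∉ U (x * k')) :
    U k ⊂ U k' ↔ U (x * k) ⊂ U (x * k') := by
  rw [ssubset_iff_subset_not_subset, ssubset_iff_subset_not_subset, C2_mono hU h h', C2_mono hU h' h]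

theorem C2_anti_ss (hU : Sepr U) {x k k' : FreeGroup (Fin r)} (h : x ∈ U (x * k)) (h' : x ∈ U (x * k')) :
    U k ⊂ U k' ↔ U (x * k') ⊂ U (x * k) := by
  rw [ssubset_iff_subset_not_subset, ssubset_iff_subset_not_subset, C2_anti hU h h', C2_anti hU h' h]

theorem C2_interval {α : Type} (S : Set α) (f : α → ℕ) (hS : S.Finite) (hne : S.Nonempty)
    (hinj : Set.InjOn f S)
    (hconv : ∀ k1 ∈ S, ∀ k2 ∈ S, ∀ i, f k1 ≤ i → i ≤ f k2 → ∃ k ∈ S, f k = i) :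
    ∃ a, f '' S = Set.Ico a (a + S.ncard) := by
  obtain ⟨k1, hk1, hmin⟩ := Set.exists_min_image S f hS hne
  obtain ⟨k2, hk2, hmax⟩ := Set.exists_max_image S f hS hne
  have himg : f '' S = Set.Icc (f k1) (f k2) := by
    ext i
    constructor
    · rintro ⟨k, hk, rfl⟩
      exact ⟨hmin k hk, hmax k hk⟩
    · rintro ⟨h1, h2⟩
      obtain ⟨k, hk, he⟩ := hconv k1 hk1 k2 hk2 i h1 h2
      exact ⟨k, hk, he⟩
  have hcard : S.ncard = f k2 + 1 - f k1 := by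
    rw [← Set.ncard_image_of_injOn hinj, himg, ← Finset.coe_Icc, Set.ncard_coe_finset, Nat.card_Icc]
  refine ⟨f k1, ?_⟩
  rw [himg, hcard]
  have hle : f k1 ≤ f k2 := hmin k2 hk2
  ext i
  simp only [Set.mem_Icc, Set.mem_Ico]
  omega

theorem C2_count {α : Type} (S : Set α) (f : α → ℕ) (hinj : Set.InjOn f S) (a : ℕ)
    (hS : f '' S = Set.Ico a (a + S.ncard)) (k : α) (hk : k ∈ S) :
    {k' | k' ∈ S ∧ f k' < f k}.ncard = f k - a := by
  have hfk : f k ∈ Set.Ico a (a + S.ncard) := hS ▸ ⟨k, hk, rfl⟩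
  have himg : f '' {k' | k' ∈ S ∧ f k' < f k} = Set.Ico a (f k) := by
    ext i
    constructor
    · rintro ⟨k', ⟨hk', hlt⟩, rfl⟩
      have : f k' ∈ Set.Ico a (a + S.ncard) := hS ▸ ⟨k', hk', rfl⟩
      exact ⟨this.1, hlt⟩
    · rintro ⟨h1, h2⟩
      have : i ∈ f '' S := by rw [hS]; exact ⟨h1, h2.trans hfk.2⟩
      obtain ⟨k', hk', rfl⟩ := this
      exact ⟨k', ⟨hk', h2⟩, rfl⟩
  rw [← Set.ncard_image_of_injOn (f := f) (hinj.mono (fun k' hk' => hk'.1)), himg,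
    ← Finset.coe_Ico, Set.ncard_coe_finset, Nat.card_Ico]

theorem C2_count' {α : Type} (S : Set α) (f : α → ℕ) (hinj : Set.InjOn f S) (a : ℕ)
    (hS : f '' S = Set.Ico a (a + S.ncard)) (k : α) (hk : k ∈ S) :
    {k' | k' ∈ S ∧ f k < f k'}.ncard = a + S.ncard - 1 - f k := by
  have hfk : f k ∈ Set.Ico a (a + S.ncard) := hS ▸ ⟨k, hk, rfl⟩
  have himg : f '' {k' | k' ∈ S ∧ f k < f k'} = Set.Ico (f k + 1) (a + S.ncard) := by
    ext i
    constructor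
    · rintro ⟨k', ⟨hk', hlt⟩, rfl⟩
      have : f k' ∈ Set.Ico a (a + S.ncard) := hS ▸ ⟨k', hk', rfl⟩
      exact ⟨hlt, this.2⟩
    · rintro ⟨h1, h2⟩
      have : i ∈ f '' S := by rw [hS]; exact ⟨hfk.1.trans (Nat.le_of_succ_le h1), h2⟩
      obtain ⟨k', hk', rfl⟩ := this
      exact ⟨k', ⟨hk', h1⟩, rfl⟩
  rw [← Set.ncard_image_of_injOn (f := f) (hinj.mono (fun k' hk' => hk'.1)), himg,
    ← Finset.coe_Ico, Set.ncard_coe_finset, Nat.card_Ico]
  omega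

/-- if the wall `k` has trace between those of two walls whose images have trace `Q`, so has its image -/
theorem C2_Pk_sandwich {k k1 k2 : FreeGroup (Fin r)} {Q : Finset (FreeGroup (Fin r))}
    (h1 : Pk B U k1 = Q) (h2 : Pk B U k2 = Q) (hs1 : U k1 ⊆ U k) (hs2 : U k ⊆ U k2) : Pk B U k = Q := by
  ext g
  constructor
  · intro hg
    rw [← h2]
    rw [mem_Pk] at hg ⊢
    exact ⟨hg.1, hs2 hg.2⟩
  · intro hg
    rw [← h1] at hg
    rw [mem_Pk] at hg ⊢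
    exact ⟨hg.1, hs1 hg.2⟩

theorem C2_rk_le_sub (hU : Sepr U) {k k' : FreeGroup (Fin r)} (h : Pk B U k = Pk B U k')
    (hne : (Pk B U k).Nonempty) (hr : rk B U k ≤ rk B U k') : U k' ⊆ U k := by
  rcases eq_or_lt_of_le hr with h1 | h1
  · rw [rk_inj hU h hne h1]
  · exact ((rk_lt_iff hU h hne).1 h1).1

theorem C2_mem_Q (x : Fin r) {P Q : Finset (FreeGroup (Fin r))}
    (hx : FreeGroup.of x ∈ B) {k : FreeGroup (Fin r)} (hk : k ∈ BdS B U x P Q) :
    FreeGroup.of x ∈ U (FreeGroup.of x * k) ↔ FreeGroup.of x ∈ Q := by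
  rw [← hk.2.2, mem_Pk]
  exact ⟨fun h => ⟨hx, h⟩, fun h => h.2⟩

theorem C2_P_ne (x : Fin r) {P Q : Finset (FreeGroup (Fin r))}
    (hne : (BdS B U x P Q).Nonempty) : P.Nonempty := by
  obtain ⟨k, ⟨g, hg, _⟩, _⟩ := hne
  exact ⟨g, hg⟩

theorem C2_Q_ne (hU : Sepr U) (x : Fin r) {P Q : Finset (FreeGroup (Fin r))}
    (hx : FreeGroup.of x ∈ B) (hne : (BdS B U x P Q).Nonempty) : Q.Nonempty := by
  obtain ⟨k, hk⟩ := hne
  have hk' := hk
  obtain ⟨⟨g, hg, hxg⟩, hP, hQ⟩ := hk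
  have hgU : g ∈ U k := by rw [← hP] at hg; exact ((mem_Pk k g).1 hg).2
  have := (hU.coc (FreeGroup.of x) g k).1 hgU
  by_cases h : FreeGroup.of x ∈ U (FreeGroup.of x * k)
  · exact ⟨_, (C2_mem_Q x hx hk').1 h⟩
  · refine ⟨FreeGroup.of x * g, ?_⟩
    rw [← hQ, mem_Pk]
    exact ⟨hxg, by tauto⟩

theorem C2_conv1 (hU : Sepr U) (x : Fin r) {P Q : Finset (FreeGroup (Fin r))} (hx : FreeGroup.of x ∈ B)
    {k1 k2 k : FreeGroup (Fin r)} (hk1 : k1 ∈ BdS B U x P Q) (hk2 : k2 ∈ BdS B U x P Q)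
    (hk : Pk B U k = P) (h1 : rk B U k1 ≤ rk B U k) (h2 : rk B U k ≤ rk B U k2) : k ∈ BdS B U x P Q := by
  have hP : P.Nonempty := C2_P_ne x ⟨k1, hk1⟩
  have hs1 : U k ⊆ U k1 := C2_rk_le_sub hU (hk1.2.1.trans hk.symm) (hk1.2.1 ▸ hP) h1
  have hs2 : U k2 ⊆ U k := C2_rk_le_sub hU (hk.trans hk2.2.1.symm) (hk ▸ hP) h2
  refine ⟨hk1.1, hk, ?_⟩
  have m1 := C2_mem_Q x hx hk1
  have m2 := C2_mem_Q x hx hk2
  have i1 := C2_inv_mem hU (FreeGroup.of x) k1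
  have i2 := C2_inv_mem hU (FreeGroup.of x) k2
  have i := C2_inv_mem hU (FreeGroup.of x) k
  by_cases hQ : FreeGroup.of x ∈ Q
  · have e1 := m1.2 hQ
    have e2 := m2.2 hQ
    have e : FreeGroup.of x ∈ U (FreeGroup.of x * k) := i.1 (hs2 (i2.2 e2))
    exact C2_Pk_sandwich hk1.2.2 hk2.2.2 ((C2_anti hU e e1).1 hs1) ((C2_anti hU e2 e).1 hs2)
  · have e1 : FreeGroup.of x ∉ U (FreeGroup.of x * k1) := fun h => hQ (m1.1 h)
    have e2 : FreeGroup.of x ∉ U (FreeGroup.of x * k2) := fun h => hQ (m2.1 h)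
    have e : FreeGroup.of x ∉ U (FreeGroup.of x * k) := fun h => e1 (i1.1 (hs1 (i.2 h)))
    exact C2_Pk_sandwich hk2.2.2 hk1.2.2 ((C2_mono hU e2 e).1 hs2) ((C2_mono hU e e1).1 hs1)

theorem C2_conv2 (hU : Sepr U) (x : Fin r) {P Q : Finset (FreeGroup (Fin r))} (hx : FreeGroup.of x ∈ B)
    {k1 k2 k : FreeGroup (Fin r)} (hk1 : k1 ∈ BdS B U x P Q) (hk2 : k2 ∈ BdS B U x P Q)
    (hk : Pk B U (FreeGroup.of x * k) = Q)
    (h1 : rk B U (FreeGroup.of x * k1) ≤ rk B U (FreeGroup.of x * k))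
    (h2 : rk B U (FreeGroup.of x * k) ≤ rk B U (FreeGroup.of x * k2)) : k ∈ BdS B U x P Q := by
  have hQ' : Q.Nonempty := C2_Q_ne hU x hx ⟨k1, hk1⟩
  have hs1 : U (FreeGroup.of x * k) ⊆ U (FreeGroup.of x * k1) :=
    C2_rk_le_sub hU (hk1.2.2.trans hk.symm) (hk1.2.2 ▸ hQ') h1
  have hs2 : U (FreeGroup.of x * k2) ⊆ U (FreeGroup.of x * k) :=
    C2_rk_le_sub hU (hk.trans hk2.2.2.symm) (hk ▸ hQ') h2
  refine ⟨hk1.1, ?_, hk⟩
  have m1 := C2_mem_Q x hx hk1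
  have m2 := C2_mem_Q x hx hk2
  by_cases hQ : FreeGroup.of x ∈ Q
  · have e1 := m1.2 hQ
    have e2 := m2.2 hQ
    have e : FreeGroup.of x ∈ U (FreeGroup.of x * k) := hs2 e2
    exact C2_Pk_sandwich hk1.2.1 hk2.2.1 ((C2_anti hU e1 e).2 hs1) ((C2_anti hU e e2).2 hs2)
  · have e1 : FreeGroup.of x ∉ U (FreeGroup.of x * k1) := fun h => hQ (m1.1 h)
    have e2 : FreeGroup.of x ∉ U (FreeGroup.of x * k2) := fun h => hQ (m2.1 h)
    have e : FreeGroup.of x ∉ U (FreeGroup.of x * k) := fun h => e1 (hs1 h)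
    exact C2_Pk_sandwich hk2.2.1 hk1.2.1 ((C2_mono hU e2 e).2 hs2) ((C2_mono hU e e1).2 hs1)

theorem BdS_interval (hU : Sepr U) (hx : ∀ x : Fin r, FreeGroup.of x ∈ B) (x : Fin r)
    (P Q : Finset (FreeGroup (Fin r))) (hne : (BdS B U x P Q).Nonempty) :
    ∃ a b : ℕ,
      (∀ k, Pk B U k = P → (k ∈ BdS B U x P Q ↔ a ≤ rk B U k ∧ rk B U k < a + (BdS B U x P Q).ncard)) ∧
      (∀ k, Pk B U (FreeGroup.of x * k) = Q → (k ∈ BdS B U x P Q ↔
        b ≤ rk B U (FreeGroup.of x * k) ∧ rk B U (FreeGroup.of x * k) < b + (BdS B U x P Q).ncard)) ∧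
      (∀ k ∈ BdS B U x P Q, (rk B U (FreeGroup.of x * k) : ℤ) =
        if FreeGroup.of x ∈ Q then (b : ℤ) + a + (BdS B U x P Q).ncard - 1 - rk B U k
        else (b : ℤ) + (rk B U k - a)) ∧
      a + (BdS B U x P Q).ncard ≤ (CP B U P).ncard ∧ b + (BdS B U x P Q).ncard ≤ (CP B U Q).ncard := by
  have hP : P.Nonempty := C2_P_ne x hne
  have hQ : Q.Nonempty := C2_Q_ne hU x (hx x) hne
  have hfin : (BdS B U x P Q).Finite :=
    (CP_finite (B := B) hU hP).subset (fun k hk => hk.2.1)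
  have hpos : 0 < (BdS B U x P Q).ncard := (Set.ncard_pos hfin).2 hne
  have inj1 : Set.InjOn (rk B U) (BdS B U x P Q) := by
    intro k hk k' hk' he
    exact rk_inj hU (hk.2.1.trans hk'.2.1.symm) (hk.2.1 ▸ hP) he
  have inj2 : Set.InjOn (fun k => rk B U (FreeGroup.of x * k)) (BdS B U x P Q) := by
    intro k hk k' hk' he
    exact mul_left_cancel (rk_inj hU (hk.2.2.trans hk'.2.2.symm) (hk.2.2 ▸ hQ) he)
  obtain ⟨a, ha⟩ := C2_interval (BdS B U x P Q) (rk B U) hfin hne inj1 (by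
    intro k1 hk1 k2 hk2 i h1 h2
    have hlt : i < (CP B U P).ncard := by
      have := rk_lt hU (hk2.2.1 ▸ hP : (Pk B U k2).Nonempty)
      rw [hk2.2.1] at this
      omega
    obtain ⟨k, hk, he⟩ := rk_surj hU hP hlt
    exact ⟨k, C2_conv1 hU x (hx x) hk1 hk2 hk (he ▸ h1) (he ▸ h2), he⟩)
  obtain ⟨b, hb⟩ := C2_interval (BdS B U x P Q) (fun k => rk B U (FreeGroup.of x * k)) hfin hne inj2 (by
    intro k1 hk1 k2 hk2 i h1 h2
    have hlt : i < (CP B U Q).ncard := by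
      have := rk_lt hU (hk2.2.2 ▸ hQ : (Pk B U (FreeGroup.of x * k2)).Nonempty)
      rw [hk2.2.2] at this
      omega
    obtain ⟨k, hk, he⟩ := rk_surj hU hQ hlt
    have he' : rk B U (FreeGroup.of x * ((FreeGroup.of x)⁻¹ * k)) = i := by
      rw [mul_inv_cancel_left]; exact he
    refine ⟨(FreeGroup.of x)⁻¹ * k, C2_conv2 hU x (hx x) hk1 hk2 ?_ (he'.symm ▸ h1) (he'.symm ▸ h2), he'⟩
    rw [mul_inv_cancel_left]; exact hk)
  refine ⟨a, b, ?_, ?_, ?_, ?_, ?_⟩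
  · intro k hk
    constructor
    · intro hkB
      have : rk B U k ∈ Set.Ico a (a + (BdS B U x P Q).ncard) := ha ▸ ⟨k, hkB, rfl⟩
      exact this
    · intro h
      have : rk B U k ∈ rk B U '' (BdS B U x P Q) := by rw [ha]; exact h
      obtain ⟨k', hk', he⟩ := this
      have := rk_inj hU (hk'.2.1.trans hk.symm) (hk'.2.1 ▸ hP) he
      rw [← this]; exact hk'
  · intro k hk
    constructor
    · intro hkB
      have : rk B U (FreeGroup.of x * k) ∈ Set.Ico b (b + (BdS B U x P Q).ncard) := hb ▸ ⟨k, hkB, rfl⟩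
      exact this
    · intro h
      have : rk B U (FreeGroup.of x * k) ∈ (fun k => rk B U (FreeGroup.of x * k)) '' (BdS B U x P Q) := by
        rw [hb]; exact h
      obtain ⟨k', hk', he⟩ := this
      have := mul_left_cancel (rk_inj hU (hk'.2.2.trans hk.symm) (hk'.2.2 ▸ hQ) he)
      rw [← this]; exact hk'
  · intro k hk
    have c1 := C2_count (BdS B U x P Q) (rk B U) inj1 a ha k hk
    have c1' := C2_count' (BdS B U x P Q) (rk B U) inj1 a ha k hk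
    have c2 := C2_count (BdS B U x P Q) (fun k => rk B U (FreeGroup.of x * k)) inj2 b hb k hk
    have m1 : rk B U k ∈ Set.Ico a (a + (BdS B U x P Q).ncard) := ha ▸ ⟨k, hk, rfl⟩
    have m2 : rk B U (FreeGroup.of x * k) ∈ Set.Ico b (b + (BdS B U x P Q).ncard) := hb ▸ ⟨k, hk, rfl⟩
    rw [Set.mem_Ico] at m1 m2
    split_ifs with hxQ
    · have hset : {k' | k' ∈ BdS B U x P Q ∧ rk B U (FreeGroup.of x * k') < rk B U (FreeGroup.of x * k)} =
          {k' | k' ∈ BdS B U x P Q ∧ rk B U k < rk B U k'} := by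
        ext k'
        simp only [Set.mem_setOf_eq]
        constructor
        · rintro ⟨h1, h2⟩
          refine ⟨h1, ?_⟩
          rw [rk_lt_iff hU (h1.2.2.trans hk.2.2.symm) (h1.2.2 ▸ hQ)] at h2
          rw [rk_lt_iff hU (hk.2.1.trans h1.2.1.symm) (hk.2.1 ▸ hP)]
          exact (C2_anti_ss hU ((C2_mem_Q x (hx x) h1).2 hxQ) ((C2_mem_Q x (hx x) hk).2 hxQ)).2 h2
        · rintro ⟨h1, h2⟩
          refine ⟨h1, ?_⟩
          rw [rk_lt_iff hU (hk.2.1.trans h1.2.1.symm) (hk.2.1 ▸ hP)] at h2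
          rw [rk_lt_iff hU (h1.2.2.trans hk.2.2.symm) (h1.2.2 ▸ hQ)]
          exact (C2_anti_ss hU ((C2_mem_Q x (hx x) h1).2 hxQ) ((C2_mem_Q x (hx x) hk).2 hxQ)).1 h2
      rw [hset] at c2
      omega
    · have hset : {k' | k' ∈ BdS B U x P Q ∧ rk B U (FreeGroup.of x * k') < rk B U (FreeGroup.of x * k)} =
          {k' | k' ∈ BdS B U x P Q ∧ rk B U k' < rk B U k} := by
        ext k'
        simp only [Set.mem_setOf_eq]
        constructor
        · rintro ⟨h1, h2⟩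
          refine ⟨h1, ?_⟩
          rw [rk_lt_iff hU (h1.2.2.trans hk.2.2.symm) (h1.2.2 ▸ hQ)] at h2
          rw [rk_lt_iff hU (h1.2.1.trans hk.2.1.symm) (h1.2.1 ▸ hP)]
          exact (C2_mono_ss hU (fun h => hxQ ((C2_mem_Q x (hx x) hk).1 h))
            (fun h => hxQ ((C2_mem_Q x (hx x) h1).1 h))).2 h2
        · rintro ⟨h1, h2⟩
          refine ⟨h1, ?_⟩
          rw [rk_lt_iff hU (h1.2.1.trans hk.2.1.symm) (h1.2.1 ▸ hP)] at h2
          rw [rk_lt_iff hU (h1.2.2.trans hk.2.2.symm) (h1.2.2 ▸ hQ)]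
          exact (C2_mono_ss hU (fun h => hxQ ((C2_mem_Q x (hx x) hk).1 h))
            (fun h => hxQ ((C2_mem_Q x (hx x) h1).1 h))).1 h2
      rw [hset] at c2
      omega
  · have : a + (BdS B U x P Q).ncard - 1 ∈ rk B U '' (BdS B U x P Q) := by
      rw [ha, Set.mem_Ico]; omega
    obtain ⟨k, hk, he⟩ := this
    have h1 := rk_lt hU (hk.2.1 ▸ hP : (Pk B U k).Nonempty)
    rw [hk.2.1] at h1
    omega
  · have : b + (BdS B U x P Q).ncard - 1 ∈ (fun k => rk B U (FreeGroup.of x * k)) '' (BdS B U x P Q) := by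
      rw [hb, Set.mem_Ico]; omega
    obtain ⟨k, hk, he⟩ := this
    have h1 := rk_lt hU (hk.2.2 ▸ hQ : (Pk B U (FreeGroup.of x * k)).Nonempty)
    rw [hk.2.2] at h1
    simp only at he
    omega

end Pool.Agent.Helper59.TE
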