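import Pool.Agent.Helper59.TE.C2

set_option autoImplicit false

/-! Module C3: the band system of a separation family is good and acyclic. -/

namespace Pool.Agent.Helper59.TE
open Sys

variable {r : ℕ} {B : Finset (FreeGroup (Fin r))} {U : FreeGroup (Fin r) → Set (FreeGroup (Fin r))}

/-- the letter as an element -/
def C3_lt {r : ℕ} (x : Fin r) (e : Bool) : FreeGroup (Fin r) := FreeGroup.mk [(x, e)]

theorem C3_len_le {x : Fin r} {e : Bool} {κ : FreeGroup (Fin r)}
    (h : (C3_lt x e * κ).toWord.length ≤ κ.toWord.length) : ∃ tl, κ.toWord = (x, !e) :: tl := by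
  have h1 : (C3_lt x e * κ).toWord = FreeGroup.reduce ((x, e) :: κ.toWord) := by
    conv_lhs => rw [← FreeGroup.mk_toWord (x := κ)]
    rw [C3_lt, FreeGroup.mul_mk, FreeGroup.toWord_mk]
    rfl
  rw [h1, FreeGroup.reduce.cons, FreeGroup.reduce_toWord] at h
  cases hk : κ.toWord with
  | nil => rw [hk] at h; simp at h
  | cons hd tl =>
    rw [hk] at h
    simp only at h
    split_ifs at h with hc
    · refine ⟨tl, ?_⟩
      obtain ⟨a, b⟩ := hd
      simp only at hc
      rw [hc.1, hc.2]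
      simp
    · simp at h

/-- interval data of all bands -/
theorem C3_data (B : Finset (FreeGroup (Fin r))) (U : FreeGroup (Fin r) → Set (FreeGroup (Fin r)))
    (hU : Sepr U) (hx : ∀ x : Fin r, FreeGroup.of x ∈ B) :
    ∃ a b : Fin r → Finset (FreeGroup (Fin r)) → Finset (FreeGroup (Fin r)) → ℕ, ∀ x P Q,
      ((BdS B U x P Q).Nonempty → 
      (∀ k, Pk B U k = P → (k ∈ BdS B U x P Q ↔ a x P Q ≤ rk B U k ∧
        rk B U k < a x P Q + (BdS B U x P Q).ncard)) ∧
      (∀ k, Pk B U (FreeGroup.of x * k) = Q → (k ∈ BdS B U x P Q ↔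
        b x P Q ≤ rk B U (FreeGroup.of x * k) ∧
          rk B U (FreeGroup.of x * k) < b x P Q + (BdS B U x P Q).ncard)) ∧
      (∀ k ∈ BdS B U x P Q, (rk B U (FreeGroup.of x * k) : ℤ) =
        if FreeGroup.of x ∈ Q then (b x P Q : ℤ) + a x P Q + (BdS B U x P Q).ncard - 1 - rk B U k
        else (b x P Q : ℤ) + (rk B U k - a x P Q)) ∧
      a x P Q + (BdS B U x P Q).ncard ≤ (CP B U P).ncard ∧
      b x P Q + (BdS B U x P Q).ncard ≤ (CP B U Q).ncard) ∧
      (¬ (BdS B U x P Q).Nonempty → a x P Q = 0 ∧ b x P Q = 0) := by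
  have h : ∀ x P Q, ∃ a b : ℕ, ((BdS B U x P Q).Nonempty → 
      (∀ k, Pk B U k = P → (k ∈ BdS B U x P Q ↔ a ≤ rk B U k ∧ rk B U k < a + (BdS B U x P Q).ncard)) ∧
      (∀ k, Pk B U (FreeGroup.of x * k) = Q → (k ∈ BdS B U x P Q ↔
        b ≤ rk B U (FreeGroup.of x * k) ∧ rk B U (FreeGroup.of x * k) < b + (BdS B U x P Q).ncard)) ∧
      (∀ k ∈ BdS B U x P Q, (rk B U (FreeGroup.of x * k) : ℤ) =
        if FreeGroup.of x ∈ Q then (b : ℤ) + a + (BdS B U x P Q).ncard - 1 - rk B U k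
        else (b : ℤ) + (rk B U k - a)) ∧
      a + (BdS B U x P Q).ncard ≤ (CP B U P).ncard ∧ b + (BdS B U x P Q).ncard ≤ (CP B U Q).ncard) ∧
      (¬ (BdS B U x P Q).Nonempty → a = 0 ∧ b = 0) := by
    intro x P Q
    by_cases hne : (BdS B U x P Q).Nonempty
    · obtain ⟨a, b, hab⟩ := BdS_interval hU hx x P Q hne
      exact ⟨a, b, fun _ => hab, fun h => absurd hne h⟩
    · exact ⟨0, 0, fun h => absurd h hne, fun _ => ⟨rfl, rfl⟩⟩
  choose a b hab using h
  exact ⟨a, b, hab⟩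

theorem C3_BdS_finite (hU : Sepr U) (x : Fin r) (P Q : Finset (FreeGroup (Fin r))) :
    (BdS B U x P Q).Finite := by
  by_cases hne : (BdS B U x P Q).Nonempty
  · exact (CP_finite (B := B) hU (C2_P_ne x hne)).subset (fun k hk => hk.2.1)
  · rw [Set.not_nonempty_iff_eq_empty.1 hne]
    exact Set.finite_empty

theorem C3_ln_pos (hU : Sepr U) (x : Fin r) (P Q : Finset (FreeGroup (Fin r))) :
    (0 : ℤ) < ((BdS B U x P Q).ncard : ℤ) ↔ (BdS B U x P Q).Nonempty := by
  rw [Int.natCast_pos, Set.ncard_pos (C3_BdS_finite hU x P Q)]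

/-- backwards: a wall with trace `Q` comes from a band -/
theorem C3_back (hU : Sepr U) (x : Fin r) (hx : FreeGroup.of x ∈ B) (Q : Finset (FreeGroup (Fin r)))
    (g : FreeGroup (Fin r)) (hg : g ∈ B) (hxg : FreeGroup.of x * g ∈ B)
    (hgQ : ¬ (FreeGroup.of x * g ∈ Q ↔ FreeGroup.of x ∈ Q)) (k : FreeGroup (Fin r))
    (hk : Pk B U k = Q) :
    (FreeGroup.of x)⁻¹ * k ∈ BdS B U x (Pk B U ((FreeGroup.of x)⁻¹ * k)) Q := by
  have hk' : Pk B U (FreeGroup.of x * ((FreeGroup.of x)⁻¹ * k)) = Q := by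
    rw [mul_inv_cancel_left]; exact hk
  refine ⟨⟨g, ?_, hxg⟩, rfl, hk'⟩
  rw [mem_Pk]
  refine ⟨hg, ?_⟩
  rw [hU.coc (FreeGroup.of x) g]
  rw [mul_inv_cancel_left]
  rw [← hk, mem_Pk, mem_Pk] at hgQ
  tauto

theorem C3_compat (hU : Sepr U) (x : Fin r) (hx : FreeGroup.of x ∈ B) (P Q : Finset (FreeGroup (Fin r)))
    (hne : (BdS B U x P Q).Nonempty) (g : FreeGroup (Fin r)) (hg : g ∈ B)
    (hxg : FreeGroup.of x * g ∈ B) :
    g ∈ P ↔ ¬ (FreeGroup.of x * g ∈ Q ↔ FreeGroup.of x ∈ Q) := by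
  obtain ⟨k, hk⟩ := hne
  obtain ⟨_, hP, hQ⟩ := hk
  have h1 := hU.coc (FreeGroup.of x) g k
  rw [← hP, ← hQ, mem_Pk, mem_Pk, mem_Pk]
  tauto

theorem C3_sub_of_P (hU : Sepr U) {k1 k2 : FreeGroup (Fin r)} (h : Pk B U k2 ⊂ Pk B U k1)
    (hne : (Pk B U k2).Nonempty) : U k2 ⊂ U k1 := by
  obtain ⟨g, hg⟩ := hne
  have hg1 := h.1 hg
  rw [mem_Pk] at hg hg1
  have hno : ¬ U k1 ⊆ U k2 := by
    intro hs
    apply h.2
    intro g' hg'
    rw [mem_Pk] at hg' ⊢
    exact ⟨hg'.1, hs hg'.2⟩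
  rcases hU.nest k1 k2 with h1 | h1 | h1
  · exact absurd h1 hno
  · exact ⟨h1, hno⟩
  · exact absurd hg.2 (Set.disjoint_left.1 h1 hg1.2)

theorem C3_Pk_mono {k1 k2 : FreeGroup (Fin r)} (h : U k1 ⊆ U k2) : Pk B U k1 ⊆ Pk B U k2 := by
  intro g hg
  rw [mem_Pk] at hg ⊢
  exact ⟨hg.1, h hg.2⟩

/-- rank function -/
noncomputable def C3_h (B : Finset (FreeGroup (Fin r))) (U : FreeGroup (Fin r) → Set (FreeGroup (Fin r))) :
    Blk B × ℤ → ℕ := fun c =>
  sInf {n | ∃ k, Pk B U k = c.1.1 ∧ (rk B U k : ℤ) = c.2 ∧ n = k.toWord.length}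

theorem C3_h_eq (hU : Sepr U) (P : Blk B) (hP : P.1.Nonempty) (i : ℤ) (k : FreeGroup (Fin r))
    (hk : Pk B U k = P.1) (hi : (rk B U k : ℤ) = i) : C3_h B U (P, i) = k.toWord.length := by
  have : {n | ∃ k, Pk B U k = P.1 ∧ (rk B U k : ℤ) = i ∧ n = k.toWord.length} = {k.toWord.length} := by
    ext n
    simp only [Set.mem_setOf_eq, Set.mem_singleton_iff]
    constructor
    · rintro ⟨k', h1, h2, h3⟩
      have h4 : rk B U k' = rk B U k := by
        have := h2.trans hi.symm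
        exact_mod_cast this
      rw [h3, rk_inj hU (h1.trans hk.symm) (h1 ▸ hP) h4]
    · rintro rfl
      exact ⟨k, hk, hi, rfl⟩
  unfold C3_h
  simp only
  rw [this]
  exact csInf_singleton _

theorem exists_Good (B : Finset (FreeGroup (Fin r))) (h1 : 1 ∈ B)
    (hx : ∀ x : Fin r, FreeGroup.of x ∈ B ∧ (FreeGroup.of x)⁻¹ ∈ B)
    (U : FreeGroup (Fin r) → Set (FreeGroup (Fin r))) (hU : Sepr U) :
    ∃ y : Sys (Blk B) (Bnd B), Good B y ∧ y.Acyc ∧
      ∀ g ∈ B, (cnt U g : ℤ) = ∑ P : Blk B, if g ∈ P.1 then y.len P else 0 := by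
  classical
  obtain ⟨a, b, hab⟩ := C3_data B U hU (fun x => (hx x).1)
  -- the basic facts
  have PkB : ∀ k, Pk B U k ∈ B.powerset := by
    intro k
    rw [Finset.mem_powerset]
    intro g hg
    exact ((mem_Pk k g).1 hg).1
  -- membership in the band from position
  have A1 : ∀ x P Q, (BdS B U x P Q).Nonempty → ∀ i : ℕ, a x P Q ≤ i → i < a x P Q + (BdS B U x P Q).ncard →
      ∃ k ∈ BdS B U x P Q, rk B U k = i := by
    intro x P Q hne i hi1 hi2
    have h := (hab x P Q).1 hne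
    obtain ⟨k, hk1, hk2⟩ := rk_surj hU (C2_P_ne x hne) (lt_of_lt_of_le hi2 h.2.2.2.1)
    exact ⟨k, (h.1 k hk1).2 ⟨hk2 ▸ hi1, hk2 ▸ hi2⟩, hk2⟩
  have B1 : ∀ x P Q, (BdS B U x P Q).Nonempty → ∀ i : ℕ, b x P Q ≤ i → i < b x P Q + (BdS B U x P Q).ncard →
      ∃ k ∈ BdS B U x P Q, rk B U (FreeGroup.of x * k) = i := by
    intro x P Q hne i hi1 hi2
    have h := (hab x P Q).1 hne
    obtain ⟨k, hk1, hk2⟩ := rk_surj hU (C2_Q_ne hU x (hx x).1 hne) (lt_of_lt_of_le hi2 h.2.2.2.2)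
    have hk3 : FreeGroup.of x * ((FreeGroup.of x)⁻¹ * k) = k := mul_inv_cancel_left _ _
    refine ⟨(FreeGroup.of x)⁻¹ * k, ?_, by rw [hk3]; exact hk2⟩
    rw [h.2.1 _ (by rw [hk3]; exact hk1), hk3, hk2]
    exact ⟨hi1, hi2⟩
  have A2 : ∀ x P Q k, k ∈ BdS B U x P Q → a x P Q ≤ rk B U k ∧
      rk B U k < a x P Q + (BdS B U x P Q).ncard := by
    intro x P Q k hk
    exact (((hab x P Q).1 ⟨k, hk⟩).1 k hk.2.1).1 hk
  have B2 : ∀ x P Q k, k ∈ BdS B U x P Q → b x P Q ≤ rk B U (FreeGroup.of x * k) ∧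
      rk B U (FreeGroup.of x * k) < b x P Q + (BdS B U x P Q).ncard := by
    intro x P Q k hk
    exact (((hab x P Q).1 ⟨k, hk⟩).2.1 k hk.2.2).1 hk
  set y : Sys (Blk B) (Bnd B) :=
    { b := fun k σ => if σ then k.2.2 else k.2.1
      fl := fun k => decide (FreeGroup.of k.1 ∈ k.2.2.1)
      s := fun k σ => if σ then (b k.1 k.2.1.1 k.2.2.1 : ℤ) else (a k.1 k.2.1.1 k.2.2.1 : ℤ)
      ln := fun k => ((BdS B U k.1 k.2.1.1 k.2.2.1).ncard : ℤ)
      len := fun P => if P.1.Nonempty then ((CP B U P.1).ncard : ℤ) else 0 } with hy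
  have ysf : ∀ x P Q, y.s (x, P, Q) false = (a x P.1 Q.1 : ℤ) := fun x P Q => rfl
  have yst : ∀ x P Q, y.s (x, P, Q) true = (b x P.1 Q.1 : ℤ) := fun x P Q => rfl
  have yln : ∀ x P Q, y.ln (x, P, Q) = ((BdS B U x P.1 Q.1).ncard : ℤ) := fun x P Q => rfl
  have ylen : ∀ P : Blk B, P.1.Nonempty → y.len P = ((CP B U P.1).ncard : ℤ) := by
    intro P hP
    rw [hy]
    simp only [if_pos hP]
  have ylen0 : ∀ P : Blk B, 0 < y.len P → P.1.Nonempty := by
    intro P hP
    by_contra hne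
    rw [hy] at hP
    simp only [if_neg hne] at hP
    exact lt_irrefl _ hP
  have ypos : ∀ x P Q, 0 < y.ln (x, P, Q) → (BdS B U x P.1 Q.1).Nonempty := by
    intro x P Q h
    rw [yln] at h
    exact (C3_ln_pos hU x P.1 Q.1).1 h
  have ypos' : ∀ x P Q, (BdS B U x P.1 Q.1).Nonempty → 0 < y.ln (x, P, Q) := by
    intro x P Q h
    rw [yln]
    exact (C3_ln_pos hU x P.1 Q.1).2 h
  have wf : y.WF := by
    refine ⟨?_, ?_, ?_, ?_⟩
    · intro P
      by_cases hP : P.1.Nonempty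
      · rw [ylen P hP]; exact Int.natCast_nonneg _
      · rw [hy]; simp only [if_neg hP]; exact le_refl _
    · rintro ⟨x, P, Q⟩
      rw [yln]; exact Int.natCast_nonneg _
    · rintro ⟨x, P, Q⟩ σ
      cases σ
      · rw [ysf]; exact Int.natCast_nonneg _
      · rw [yst]; exact Int.natCast_nonneg _
    · rintro ⟨x, P, Q⟩ σ
      by_cases hne : (BdS B U x P.1 Q.1).Nonempty
      · have h := ((hab x P.1 Q.1).1 hne).2.2.2
        cases σ
        · have : y.b (x, P, Q) false = P := rfl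
          rw [this, ysf, yln, ylen P (C2_P_ne x hne)]
          exact_mod_cast h.1
        · have : y.b (x, P, Q) true = Q := rfl
          rw [this, yst, yln, ylen Q (C2_Q_ne hU x (hx x).1 hne)]
          exact_mod_cast h.2
      · have h := (hab x P.1 Q.1).2 hne
        have hln : y.ln (x, P, Q) = 0 := by
          rw [yln, Set.not_nonempty_iff_eq_empty.1 hne, Set.ncard_empty]; rfl
        have hlen : ∀ P : Blk B, 0 ≤ y.len P := by
          intro P
          by_cases hP : P.1.Nonempty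
          · rw [ylen P hP]; exact Int.natCast_nonneg _
          · rw [hy]; simp only [if_neg hP]; exact le_refl _
        cases σ
        · rw [ysf, hln, h.1]
          simpa using hlen _
        · rw [yst, hln, h.2]
          simpa using hlen _
  have hwall : ∀ (P : Blk B) (i : ℤ), 0 ≤ i → i < y.len P → ∃ k, Pk B U k = P.1 ∧ (rk B U k : ℤ) = i := by
    intro P i hi0 hi
    have hP : P.1.Nonempty := ylen0 P (lt_of_le_of_lt hi0 hi)
    rw [ylen P hP] at hi
    have : i.toNat < (CP B U P.1).ncard := by omega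
    obtain ⟨k, hk1, hk2⟩ := rk_surj hU hP this
    refine ⟨k, hk1, ?_⟩
    rw [hk2]; omega
  -- the wall of a covered cell
  have covf : ∀ x P Q C p, y.Cov (x, P, Q) false C p → C = P ∧ ∃ k ∈ BdS B U x P.1 Q.1,
      (rk B U k : ℤ) = p ∧ y.par (x, P, Q) false p = (Q, (rk B U (FreeGroup.of x * k) : ℤ)) := by
    intro x P Q C p hc
    obtain ⟨hc1, hc2, hc3⟩ := hc
    rw [ysf] at hc2
    rw [ysf, yln] at hc3
    have hne : (BdS B U x P.1 Q.1).Nonempty := by
      rw [← C3_ln_pos hU]; omega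
    obtain ⟨k, hk1, hk2⟩ := A1 x P.1 Q.1 hne p.toNat (by omega) (by omega)
    have hk3 : (rk B U k : ℤ) = p := by rw [hk2]; omega
    refine ⟨hc1.symm, k, hk1, hk3, ?_⟩
    have h3 := ((hab x P.1 Q.1).1 hne).2.2.1 k hk1
    unfold Sys.par
    have e1 : y.b (x, P, Q) (!false) = Q := rfl
    have e2 : y.s (x, P, Q) (!false) = (b x P.1 Q.1 : ℤ) := rfl
    have e3 : y.fl (x, P, Q) = decide (FreeGroup.of x ∈ Q.1) := rfl
    rw [e1, e2, e3, ysf, yln, h3, hk3]
    by_cases hQ : FreeGroup.of x ∈ Q.1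
    · simp only [hQ, decide_true, if_true]
    · simp only [hQ, decide_false, if_false, Bool.false_eq_true]
  have covt : ∀ x P Q C p, y.Cov (x, P, Q) true C p → C = Q ∧ ∃ k ∈ BdS B U x P.1 Q.1,
      (rk B U (FreeGroup.of x * k) : ℤ) = p ∧ y.par (x, P, Q) true p = (P, (rk B U k : ℤ)) := by
    intro x P Q C p hc
    obtain ⟨hc1, hc2, hc3⟩ := hc
    rw [yst] at hc2
    rw [yst, yln] at hc3
    have hne : (BdS B U x P.1 Q.1).Nonempty := by
      rw [← C3_ln_pos hU]; omega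
    obtain ⟨k, hk1, hk2⟩ := B1 x P.1 Q.1 hne p.toNat (by omega) (by omega)
    have hk3 : (rk B U (FreeGroup.of x * k) : ℤ) = p := by rw [hk2]; omega
    refine ⟨hc1.symm, k, hk1, hk3, ?_⟩
    have h3 := ((hab x P.1 Q.1).1 hne).2.2.1 k hk1
    rw [hk3] at h3
    unfold Sys.par
    have e1 : y.b (x, P, Q) (!true) = P := rfl
    have e2 : y.s (x, P, Q) (!true) = (a x P.1 Q.1 : ℤ) := rfl
    have e3 : y.fl (x, P, Q) = decide (FreeGroup.of x ∈ Q.1) := rfl
    rw [e1, e2, e3, yst, yln]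
    by_cases hQ : FreeGroup.of x ∈ Q.1
    · simp only [hQ, if_true] at h3
      simp only [hQ, decide_true, if_true]
      congr 1
      omega
    · simp only [hQ, if_false] at h3
      simp only [hQ, decide_false, if_false, Bool.false_eq_true]
      congr 1
      omega
  refine ⟨y, ?_, ?_, ?_⟩
  · refine
      { wf := wf
        b_false := fun x P Q => rfl
        b_true := fun x P Q => rfl
        fl_iff := ?_
        one := ?_
        ne := ylen0
        lam := ?_
        compat := ?_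
        covA0 := ?_
        covA1 := ?_
        disjA := ?_
        covB0 := ?_
        covB1 := ?_
        disjB := ?_
        ord1 := ?_
        ord2 := ?_
        ord3 := ?_
        ord4 := ?_ }
    · intro x P Q
      exact decide_eq_true_iff
    · -- one
      intro P hP h1P
      obtain ⟨k, hk, _⟩ := hwall P 0 le_rfl hP
      rw [← hk, mem_Pk] at h1P
      exact hU.one k h1P.2
    · -- lam
      intro P P' hP hP'
      obtain ⟨k, hk, _⟩ := hwall P 0 le_rfl hP
      obtain ⟨k', hk', _⟩ := hwall P' 0 le_rfl hP'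
      rw [← hk, ← hk']
      rcases hU.nest k k' with h | h | h
      · exact Or.inl (C3_Pk_mono h)
      · exact Or.inr (Or.inl (C3_Pk_mono h))
      · refine Or.inr (Or.inr ?_)
        rw [Finset.disjoint_left]
        intro g hg hg'
        rw [mem_Pk] at hg hg'
        exact Set.disjoint_left.1 h hg.2 hg'.2
    · -- compat
      intro x P Q hln g hg hxg
      exact C3_compat hU x (hx x).1 P.1 Q.1 (ypos x P Q hln) g hg hxg
    · -- covA0
      intro x P hP hg
      obtain ⟨k, hk, hk0⟩ := hwall P 0 le_rfl hP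
      have hkB : k ∈ BdS B U x P.1 (Pk B U (FreeGroup.of x * k)) := ⟨hg, hk, rfl⟩
      refine ⟨⟨Pk B U (FreeGroup.of x * k), PkB _⟩, ypos' x P _ ⟨k, hkB⟩, ?_⟩
      rw [ysf]
      have := (A2 x P.1 _ k hkB).1
      simp only
      omega
    · -- covA1
      intro x P Q hln
      have hne := ypos x P Q hln
      have hle := wf.s_le (x, P, Q) false
      have hb : y.b (x, P, Q) false = P := rfl
      rw [hb] at hle
      rcases eq_or_lt_of_le hle with h | h
      · exact Or.inl h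
      · right
        obtain ⟨k, hk, hki⟩ := hwall P (y.s (x, P, Q) false + y.ln (x, P, Q))
          (by rw [ysf, yln]; positivity) h
        rw [ysf, yln] at hki
        have hg : ∃ g ∈ P.1, FreeGroup.of x * g ∈ B := by
          obtain ⟨k', hk'⟩ := hne
          exact hk'.1
        have hkB : k ∈ BdS B U x P.1 (Pk B U (FreeGroup.of x * k)) := ⟨hg, hk, rfl⟩
        refine ⟨⟨Pk B U (FreeGroup.of x * k), PkB _⟩, ypos' x P _ ⟨k, hkB⟩, ?_⟩
        rw [ysf, ysf, yln]
        simp only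
        have hk2 := A2 x P.1 _ k hkB
        by_contra hlt
        have hnpos : 0 < (BdS B U x P.1 Q.1).ncard := by
          have := (C3_ln_pos hU x P.1 Q.1).2 hne; omega
        obtain ⟨k', hk', hki'⟩ := A1 x P.1 Q.1 hne (a x P.1 Q.1 + (BdS B U x P.1 Q.1).ncard - 1)
          (by omega) (by omega)
        have hk'B : k' ∈ BdS B U x P.1 (Pk B U (FreeGroup.of x * k)) := by
          rw [((hab x P.1 _).1 ⟨k, hkB⟩).1 k' hk'.2.1]
          omega
        have hQQ : Pk B U (FreeGroup.of x * k) = Q.1 := hk'B.2.2.symm.trans hk'.2.2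
        rw [hQQ] at hkB
        have := (A2 x P.1 _ k hkB).2
        omega
    · -- disjA
      intro x P Q Q' hQQ hln hln'
      have hne := ypos x P Q hln
      have hne' := ypos x P Q' hln'
      rw [ysf, ysf, yln, yln] at *
      by_contra hcon
      push Not at hcon
      obtain ⟨k, hk, hki⟩ := A1 x P.1 Q.1 hne (max (a x P.1 Q.1) (a x P.1 Q'.1)) (by omega) (by omega)
      have hk' : k ∈ BdS B U x P.1 Q'.1 := by
        rw [((hab x P.1 _).1 hne').1 k hk.2.1]
        omega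
      exact hQQ (Subtype.ext (hk.2.2.symm.trans hk'.2.2))
    · -- covB0
      intro x Q hQ hg
      obtain ⟨g, hg, hxg, hgQ⟩ := hg
      obtain ⟨k, hk, hk0⟩ := hwall Q 0 le_rfl hQ
      have hkB := C3_back hU x (hx x).1 Q.1 g hg hxg hgQ k hk
      refine ⟨⟨Pk B U ((FreeGroup.of x)⁻¹ * k), PkB _⟩, ypos' x _ Q ⟨_, hkB⟩, ?_⟩
      rw [yst]
      have := (B2 x _ Q.1 _ hkB).1
      rw [mul_inv_cancel_left] at this
      simp only
      omega
    · -- covB1
      intro x P Q hln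
      have hne := ypos x P Q hln
      have hle := wf.s_le (x, P, Q) true
      have hb : y.b (x, P, Q) true = Q := rfl
      rw [hb] at hle
      rcases eq_or_lt_of_le hle with h | h
      · exact Or.inl h
      · right
        obtain ⟨k, hk, hki⟩ := hwall Q (y.s (x, P, Q) true + y.ln (x, P, Q))
          (by rw [yst, yln]; positivity) h
        rw [yst, yln] at hki
        obtain ⟨g, hg, hxg⟩ : ∃ g ∈ P.1, FreeGroup.of x * g ∈ B := by
          obtain ⟨k', hk'⟩ := hne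
          exact hk'.1
        have hgB : g ∈ B := by
          have := P.2
          rw [Finset.mem_powerset] at this
          exact this hg
        have hgQ := (C3_compat hU x (hx x).1 P.1 Q.1 hne g hgB hxg).1 hg
        have hkB := C3_back hU x (hx x).1 Q.1 g hgB hxg hgQ k hk
        refine ⟨⟨Pk B U ((FreeGroup.of x)⁻¹ * k), PkB _⟩, ypos' x _ Q ⟨_, hkB⟩, ?_⟩
        rw [yst, yst, yln]
        simp only
        have hk2 := B2 x _ Q.1 _ hkB
        rw [mul_inv_cancel_left] at hk2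
        by_contra hlt
        have hnpos : 0 < (BdS B U x P.1 Q.1).ncard := by
          have := (C3_ln_pos hU x P.1 Q.1).2 hne; omega
        obtain ⟨k', hk', hki'⟩ := B1 x P.1 Q.1 hne (b x P.1 Q.1 + (BdS B U x P.1 Q.1).ncard - 1)
          (by omega) (by omega)
        have hk'B : k' ∈ BdS B U x (Pk B U ((FreeGroup.of x)⁻¹ * k)) Q.1 := by
          rw [((hab x _ Q.1).1 ⟨_, hkB⟩).2.1 k' hk'.2.2]
          omega
        have hPP : Pk B U ((FreeGroup.of x)⁻¹ * k) = P.1 := hk'B.2.1.symm.trans hk'.2.1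
        rw [hPP] at hkB
        have := (B2 x _ Q.1 _ hkB).2
        rw [mul_inv_cancel_left] at this
        omega
    · -- disjB
      intro x P P' Q hPP hln hln'
      have hne := ypos x P Q hln
      have hne' := ypos x P' Q hln'
      rw [yst, yst, yln, yln] at *
      by_contra hcon
      push Not at hcon
      obtain ⟨k, hk, hki⟩ := B1 x P.1 Q.1 hne (max (b x P.1 Q.1) (b x P'.1 Q.1)) (by omega) (by omega)
      have hk' : k ∈ BdS B U x P'.1 Q.1 := by
        rw [((hab x _ Q.1).1 hne').2.1 k hk.2.2]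
        omega
      exact hPP (Subtype.ext (hk.2.1.symm.trans hk'.2.1))
    · -- ord1
      intro x P₁ Q₁ P₂ Q₂ hln1 hln2 hPP hQ1 hQ2
      have hne1 := ypos x P₁ Q₁ hln1
      have hne2 := ypos x P₂ Q₂ hln2
      have key : ∀ k1 ∈ BdS B U x P₁.1 Q₁.1, ∀ k2 ∈ BdS B U x P₂.1 Q₂.1,
          U (FreeGroup.of x * k2) ⊂ U (FreeGroup.of x * k1) := by
        intro k1 hk1 k2 hk2
        have h21 : U k2 ⊂ U k1 := C3_sub_of_P (B := B) hU (by rw [hk1.2.1, hk2.2.1]; exact hPP)
          (by rw [hk2.2.1]; exact C2_P_ne x hne2)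
        exact (C2_mono_ss hU (fun h => hQ2 ((C2_mem_Q x (hx x).1 hk2).1 h))
          (fun h => hQ1 ((C2_mem_Q x (hx x).1 hk1).1 h))).1 h21
      have hsub : Q₂.1 ⊆ Q₁.1 := by
        obtain ⟨k1, hk1⟩ := hne1
        obtain ⟨k2, hk2⟩ := hne2
        have := C3_Pk_mono (B := B) (key k1 hk1 k2 hk2).1
        rw [hk1.2.2, hk2.2.2] at this
        exact this
      by_cases hQQ : Q₁ = Q₂
      · right
        refine ⟨hQQ, ?_⟩
        rw [yst, yst, yln]
        have hnpos : 0 < (BdS B U x P₁.1 Q₁.1).ncard := by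
          have := (C3_ln_pos hU x P₁.1 Q₁.1).2 hne1; omega
        have hnpos2 : 0 < (BdS B U x P₂.1 Q₂.1).ncard := by
          have := (C3_ln_pos hU x P₂.1 Q₂.1).2 hne2; omega
        obtain ⟨k1, hk1, hki1⟩ := B1 x P₁.1 Q₁.1 hne1 (b x P₁.1 Q₁.1 + (BdS B U x P₁.1 Q₁.1).ncard - 1)
          (by omega) (by omega)
        obtain ⟨k2, hk2, hki2⟩ := B1 x P₂.1 Q₂.1 hne2 (b x P₂.1 Q₂.1) (by omega) (by omega)
        have hlt := C1_rk_lt_of (B := B) hU
          (by rw [hk1.2.2, hk2.2.2, hQQ] : Pk B U (FreeGroup.of x * k1) = Pk B U (FreeGroup.of x * k2))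
          (by rw [hk1.2.2]; exact C2_Q_ne hU x (hx x).1 hne1) (key k1 hk1 k2 hk2)
        omega
      · left
        exact lt_of_le_of_ne hsub (fun h => hQQ (Subtype.ext h.symm))
    · -- ord2
      intro x P Q₁ Q₂ hln1 hln2 hs hQ1 hQ2
      have hne1 := ypos x P Q₁ hln1
      have hne2 := ypos x P Q₂ hln2
      rw [ysf, ysf] at hs
      have hnpos : 0 < (BdS B U x P.1 Q₁.1).ncard := by
        have := (C3_ln_pos hU x P.1 Q₁.1).2 hne1; omega
      have hnpos2 : 0 < (BdS B U x P.1 Q₂.1).ncard := by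
        have := (C3_ln_pos hU x P.1 Q₂.1).2 hne2; omega
      obtain ⟨k1, hk1, hki1⟩ := A1 x P.1 Q₁.1 hne1 (a x P.1 Q₁.1) le_rfl (by omega)
      obtain ⟨k2, hk2, hki2⟩ := A1 x P.1 Q₂.1 hne2 (a x P.1 Q₂.1) le_rfl (by omega)
      have h21 : U k2 ⊂ U k1 := by
        rw [← rk_lt_iff (B := B) hU (hk1.2.1.trans hk2.2.1.symm)
          (by rw [hk1.2.1]; exact C2_P_ne x hne1)]
        omega
      have h3 := (C2_mono_ss hU (fun h => hQ2 ((C2_mem_Q x (hx x).1 hk2).1 h))
          (fun h => hQ1 ((C2_mem_Q x (hx x).1 hk1).1 h))).1 h21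
      have h4 := C3_Pk_mono (B := B) h3.1
      rw [hk1.2.2, hk2.2.2] at h4
      refine lt_of_le_of_ne h4 ?_
      intro h
      have : Q₂ = Q₁ := Subtype.ext h
      rw [this] at hs
      exact lt_irrefl _ hs
    · -- ord3
      intro x P₁ Q₁ P₂ Q₂ hln1 hln2 hPP hQ1 hQ2
      have hne1 := ypos x P₁ Q₁ hln1
      have hne2 := ypos x P₂ Q₂ hln2
      have key : ∀ k1 ∈ BdS B U x P₁.1 Q₁.1, ∀ k2 ∈ BdS B U x P₂.1 Q₂.1,
          U (FreeGroup.of x * k1) ⊂ U (FreeGroup.of x * k2) := by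
        intro k1 hk1 k2 hk2
        have h21 : U k2 ⊂ U k1 := C3_sub_of_P (B := B) hU (by rw [hk1.2.1, hk2.2.1]; exact hPP)
          (by rw [hk2.2.1]; exact C2_P_ne x hne2)
        exact (C2_anti_ss hU ((C2_mem_Q x (hx x).1 hk2).2 hQ2) ((C2_mem_Q x (hx x).1 hk1).2 hQ1)).1 h21
      have hsub : Q₁.1 ⊆ Q₂.1 := by
        obtain ⟨k1, hk1⟩ := hne1
        obtain ⟨k2, hk2⟩ := hne2
        have := C3_Pk_mono (B := B) (key k1 hk1 k2 hk2).1
        rw [hk1.2.2, hk2.2.2] at this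
        exact this
      by_cases hQQ : Q₁ = Q₂
      · right
        refine ⟨hQQ, ?_⟩
        rw [yst, yst, yln]
        have hnpos : 0 < (BdS B U x P₁.1 Q₁.1).ncard := by
          have := (C3_ln_pos hU x P₁.1 Q₁.1).2 hne1; omega
        have hnpos2 : 0 < (BdS B U x P₂.1 Q₂.1).ncard := by
          have := (C3_ln_pos hU x P₂.1 Q₂.1).2 hne2; omega
        obtain ⟨k1, hk1, hki1⟩ := B1 x P₁.1 Q₁.1 hne1 (b x P₁.1 Q₁.1) (by omega) (by omega)
        obtain ⟨k2, hk2, hki2⟩ := B1 x P₂.1 Q₂.1 hne2 (b x P₂.1 Q₂.1 + (BdS B U x P₂.1 Q₂.1).ncard - 1)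
          (by omega) (by omega)
        have hlt := C1_rk_lt_of (B := B) hU
          (by rw [hk1.2.2, hk2.2.2, hQQ] : Pk B U (FreeGroup.of x * k2) = Pk B U (FreeGroup.of x * k1))
          (by rw [hk2.2.2]; exact C2_Q_ne hU x (hx x).1 hne2) (key k1 hk1 k2 hk2)
        omega
      · left
        exact lt_of_le_of_ne hsub (fun h => hQQ (Subtype.ext h))
    · -- ord4
      intro x P Q₁ Q₂ hln1 hln2 hs hQ1 hQ2
      have hne1 := ypos x P Q₁ hln1
      have hne2 := ypos x P Q₂ hln2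
      rw [ysf, ysf] at hs
      have hnpos : 0 < (BdS B U x P.1 Q₁.1).ncard := by
        have := (C3_ln_pos hU x P.1 Q₁.1).2 hne1; omega
      have hnpos2 : 0 < (BdS B U x P.1 Q₂.1).ncard := by
        have := (C3_ln_pos hU x P.1 Q₂.1).2 hne2; omega
      obtain ⟨k1, hk1, hki1⟩ := A1 x P.1 Q₁.1 hne1 (a x P.1 Q₁.1) le_rfl (by omega)
      obtain ⟨k2, hk2, hki2⟩ := A1 x P.1 Q₂.1 hne2 (a x P.1 Q₂.1) le_rfl (by omega)
      have h21 : U k2 ⊂ U k1 := by
        rw [← rk_lt_iff (B := B) hU (hk1.2.1.trans hk2.2.1.symm)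
          (by rw [hk1.2.1]; exact C2_P_ne x hne1)]
        omega
      have h3 := (C2_anti_ss hU ((C2_mem_Q x (hx x).1 hk2).2 hQ2) ((C2_mem_Q x (hx x).1 hk1).2 hQ1)).1 h21
      have h4 := C3_Pk_mono (B := B) h3.1
      rw [hk1.2.2, hk2.2.2] at h4
      refine lt_of_le_of_ne h4 ?_
      intro h
      have : Q₁ = Q₂ := Subtype.ext h
      rw [this] at hs
      exact lt_irrefl _ hs
  · -- acyclicity
    refine ⟨C3_h B U, ?_⟩
    -- description of an incidence
    have inc : ∀ x P Q σ C p, y.Cov (x, P, Q) σ C p → C3_h B U (y.par (x, P, Q) σ p) ≤ C3_h B U (C, p) →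
        ∃ k, Pk B U k = C.1 ∧ (rk B U k : ℤ) = p ∧ C.1.Nonempty ∧ (∃ tl, k.toWord = (x, σ) :: tl) ∧
          P.1 = (if σ then Pk B U ((FreeGroup.of x)⁻¹ * k) else C.1) ∧
          Q.1 = (if σ then C.1 else Pk B U (FreeGroup.of x * k)) := by
      intro x P Q σ C p hc hle
      cases σ
      · obtain ⟨rfl, k, hk, hki, hpar⟩ := covf x P Q C p hc
        refine ⟨k, hk.2.1, hki, C2_P_ne x ⟨k, hk⟩, ?_, ?_, ?_⟩
        · rw [hpar, C3_h_eq hU Q (C2_Q_ne hU x (hx x).1 ⟨k, hk⟩) _ (FreeGroup.of x * k) hk.2.2 rfl,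
            C3_h_eq hU C (C2_P_ne x ⟨k, hk⟩) p k hk.2.1 hki] at hle
          exact C3_len_le (x := x) (e := true) (κ := k) hle
        · simp
        · simp [hk.2.2]
      · obtain ⟨rfl, k, hk, hki, hpar⟩ := covt x P Q C p hc
        refine ⟨FreeGroup.of x * k, hk.2.2, hki, C2_Q_ne hU x (hx x).1 ⟨k, hk⟩, ?_, ?_, ?_⟩
        · rw [hpar, C3_h_eq hU P (C2_P_ne x ⟨k, hk⟩) _ k hk.2.1 rfl,
            C3_h_eq hU C (C2_Q_ne hU x (hx x).1 ⟨k, hk⟩) p (FreeGroup.of x * k) hk.2.2 hki] at hle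
          have hle' : (C3_lt x false * (FreeGroup.of x * k)).toWord.length ≤
              (FreeGroup.of x * k).toWord.length := by
            have : C3_lt x false * (FreeGroup.of x * k) = k := by
              have : C3_lt x false = (FreeGroup.of x)⁻¹ := by
                rw [C3_lt, FreeGroup.of, FreeGroup.inv_mk]; rfl
              rw [this, inv_mul_cancel_left]
            rw [this]; exact hle
          exact C3_len_le (x := x) (e := false) (κ := FreeGroup.of x * k) hle'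
        · simp [hk.2.1]
        · simp
    rintro C p ⟨x, P, Q⟩ σ ⟨x', P', Q'⟩ σ' hc hc' hle hle'
    obtain ⟨k, hk1, hk2, hC, ⟨tl, htl⟩, hP, hQ⟩ := inc x P Q σ C p hc hle
    obtain ⟨k', hk1', hk2', _, ⟨tl', htl'⟩, hP', hQ'⟩ := inc x' P' Q' σ' C p hc' hle'
    have hkk : k = k' := rk_inj hU (hk1.trans hk1'.symm) (hk1 ▸ hC) (by
      have := hk2.trans hk2'.symm
      exact_mod_cast this)
    subst hkk
    rw [htl] at htl'
    have h3 : (x, σ) = (x', σ') := (List.cons.inj htl').1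
    have h4 : x = x' := (Prod.mk.inj h3).1
    have h5 : σ = σ' := (Prod.mk.inj h3).2
    subst h4; subst h5
    refine ⟨?_, rfl⟩
    have hPP : P = P' := Subtype.ext (hP.trans hP'.symm)
    have hQQ : Q = Q' := Subtype.ext (hQ.trans hQ'.symm)
    rw [hPP, hQQ]
  · -- counting
    intro g hg
    have hfin := hU.fin g
    unfold cnt
    rw [Set.ncard_eq_toFinset_card _ hfin]
    rw [Finset.card_eq_sum_card_fiberwise (f := fun k => (⟨Pk B U k, PkB k⟩ : Blk B)) (t := Finset.univ)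
      (fun _ _ => Finset.mem_coe.2 (Finset.mem_univ _))]
    push_cast
    apply Finset.sum_congr rfl
    intro P _
    split_ifs with hgP
    · rw [ylen P ⟨g, hgP⟩, Set.ncard_eq_toFinset_card _ (CP_finite (B := B) hU ⟨g, hgP⟩)]
      congr 1
      congr 1
      ext k
      rw [Finset.mem_filter, Set.Finite.mem_toFinset, Set.Finite.mem_toFinset]
      constructor
      · rintro ⟨_, h⟩
        exact congrArg Subtype.val h
      · intro h
        have h' : Pk B U k = P.1 := h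
        refine ⟨?_, Subtype.ext h'⟩
        rw [← h', mem_Pk] at hgP
        exact hgP.2
    · rw [Nat.cast_eq_zero, Finset.card_eq_zero, Finset.filter_eq_empty_iff]
      intro k hk h
      rw [Set.Finite.mem_toFinset] at hk
      apply hgP
      have h' : Pk B U k = P.1 := congrArg Subtype.val h
      rw [← h', mem_Pk]
      exact ⟨hg, hk⟩

end Pool.Agent.Helper59.TE
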