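import Pool.Agent.Helper59.TE.Defs

set_option autoImplicit false

/-! Definitions for module C (definitions only). -/

namespace Pool.Agent.Helper59.TE

open Classical in
/-- the elements of `B` separated from `1` by the wall `k` -/
noncomputable def Pk {r : ℕ} (B : Finset (FreeGroup (Fin r))) (U : FreeGroup (Fin r) → Set (FreeGroup (Fin r)))
    (k : FreeGroup (Fin r)) : Finset (FreeGroup (Fin r)) := B.filter (fun g => g ∈ U k)

/-- the walls with a given trace on `B` -/
def CP {r : ℕ} (B : Finset (FreeGroup (Fin r))) (U : FreeGroup (Fin r) → Set (FreeGroup (Fin r)))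
    (P : Finset (FreeGroup (Fin r))) : Set (FreeGroup (Fin r)) := {k | Pk B U k = P}

/-- the position of the wall `k` among the walls with the same trace (those closer to `1` come first) -/
noncomputable def rk {r : ℕ} (B : Finset (FreeGroup (Fin r))) (U : FreeGroup (Fin r) → Set (FreeGroup (Fin r)))
    (k : FreeGroup (Fin r)) : ℕ := Set.ncard {k' | Pk B U k' = Pk B U k ∧ U k ⊂ U k'}

/-- the walls of trace `P` moved by `x` to walls of trace `Q` -/
def BdS {r : ℕ} (B : Finset (FreeGroup (Fin r))) (U : FreeGroup (Fin r) → Set (FreeGroup (Fin r)))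
    (x : Fin r) (P Q : Finset (FreeGroup (Fin r))) : Set (FreeGroup (Fin r)) :=
  {k | (∃ g ∈ P, FreeGroup.of x * g ∈ B) ∧ Pk B U k = P ∧ Pk B U (FreeGroup.of x * k) = Q}

end Pool.Agent.Helper59.TE
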