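import Pool.Agent.Helper59.TE.Defs

set_option autoImplicit false

namespace Pool.Agent.Helper59.TE
open Sys

section D1
variable {β γ : Type}

theorem Le.refl' (y : Sys β γ) : y.Le y := ⟨rfl, rfl, fun _ _ _ h => h⟩

theorem Le.blk_eq {y w : Sys β γ} (h : y.Le w) (e : EP β γ) : w.blk e = y.blk e := by
  rcases e with ⟨C, e⟩ | ⟨⟨k, σ⟩, e⟩
  · rfl
  · simp only [Sys.blk]; rw [h.b_eq]

theorem Le.trans' {x y z : Sys β γ} (h : x.Le y) (h' : y.Le z) : x.Le z :=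
  ⟨h'.b_eq.trans h.b_eq, h'.fl_eq.trans h.fl_eq, fun e e' hb hp => by
    apply h'.mono e e' _ (h.mono e e' hb hp)
    rw [Le.blk_eq h, Le.blk_eq h, hb]⟩

theorem Le.wf {y w : Sys β γ} (h : y.Le w) (hy : y.WF) : w.WF where
  len_nonneg C := by
    simpa [Sys.pos] using h.mono (Sum.inl (C, false)) (Sum.inl (C, true)) rfl
      (by simpa [Sys.pos] using hy.len_nonneg C)
  ln_nonneg k := by
    have := h.mono (Sum.inr ((k, false), false)) (Sum.inr ((k, false), true)) rfl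
      (by simpa [Sys.pos] using hy.ln_nonneg k)
    simpa [Sys.pos] using this
  s_nonneg k σ := by
    have := h.mono (Sum.inl (y.b k σ, false)) (Sum.inr ((k, σ), false)) rfl
      (by simpa [Sys.pos] using hy.s_nonneg k σ)
    simpa [Sys.pos] using this
  s_le k σ := by
    have := h.mono (Sum.inr ((k, σ), true)) (Sum.inl (y.b k σ, true)) rfl
      (by simpa [Sys.pos] using hy.s_le k σ)
    rw [h.b_eq]
    simpa [Sys.pos] using this

theorem Le.len_zero {y w : Sys β γ} (h : y.Le w) {C : β} (hy : y.len C ≤ 0) (hwf : y.WF) :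
    w.len C = 0 := by
  have h1 := h.mono (Sum.inl (C, true)) (Sum.inl (C, false)) rfl (by simpa [Sys.pos] using hy)
  have h2 := (Le.wf h hwf).len_nonneg C
  simp [Sys.pos] at h1
  omega

theorem Le.ln_zero {y w : Sys β γ} (h : y.Le w) {k : γ} (hy : y.ln k ≤ 0) (hwf : y.WF) :
    w.ln k = 0 := by
  have h1 := h.mono (Sum.inr ((k, false), true)) (Sum.inr ((k, false), false)) rfl
    (by simpa [Sys.pos] using hy)
  have h2 := (Le.wf h hwf).ln_nonneg k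
  simp [Sys.pos] at h1
  omega

/-! affine functionals -/

theorem aff_one : (fun _ => (1 : ℚ)) ∈ Aff β γ :=
  Submodule.subset_span (Or.inl rfl)

theorem aff_const (c : ℚ) : (fun _ => c) ∈ Aff β γ := by
  have := Submodule.smul_mem (Aff β γ) c aff_one
  have e : (fun _ : Sys β γ => c) = c • (fun _ : Sys β γ => (1 : ℚ)) := by funext w; simp
  rw [e]; exact this

theorem aff_s (k : γ) (σ : Bool) : (fun w : Sys β γ => (w.s k σ : ℚ)) ∈ Aff β γ :=
  Submodule.subset_span (Or.inr (Or.inl ⟨(k, σ), rfl⟩))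

theorem aff_ln (k : γ) : (fun w : Sys β γ => (w.ln k : ℚ)) ∈ Aff β γ :=
  Submodule.subset_span (Or.inr (Or.inr (Or.inl ⟨k, rfl⟩)))

theorem aff_len (C : β) : (fun w : Sys β γ => (w.len C : ℚ)) ∈ Aff β γ :=
  Submodule.subset_span (Or.inr (Or.inr (Or.inr ⟨C, rfl⟩)))

theorem aff_add {f g : Sys β γ → ℚ} (hf : f ∈ Aff β γ) (hg : g ∈ Aff β γ) :
    (fun w => f w + g w) ∈ Aff β γ := Submodule.add_mem _ hf hg

theorem aff_sub {f g : Sys β γ → ℚ} (hf : f ∈ Aff β γ) (hg : g ∈ Aff β γ) :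
    (fun w => f w - g w) ∈ Aff β γ := Submodule.sub_mem _ hf hg

theorem aff_smul {f : Sys β γ → ℚ} (c : ℚ) (hf : f ∈ Aff β γ) :
    (fun w => c * f w) ∈ Aff β γ := Submodule.smul_mem _ c hf

theorem aff_sum {ι : Type} (T : Finset ι) {f : ι → Sys β γ → ℚ} (hf : ∀ i ∈ T, f i ∈ Aff β γ) :
    (fun w => ∑ i ∈ T, f i w) ∈ Aff β γ := by
  have := Submodule.sum_mem (Aff β γ) hf
  have e : (fun w => ∑ i ∈ T, f i w) = ∑ i ∈ T, f i := by funext w; simp
  rw [e]; exact this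

/-- induction principle -/
theorem aff_induction {p : (Sys β γ → ℚ) → Prop} (h1 : p (fun _ => 1))
    (hs : ∀ k σ, p (fun w => (w.s k σ : ℚ))) (hln : ∀ k, p (fun w => (w.ln k : ℚ)))
    (hlen : ∀ C, p (fun w => (w.len C : ℚ)))
    (hadd : ∀ f g, p f → p g → p (fun w => f w + g w)) (hsmul : ∀ (c : ℚ) f, p f → p (fun w => c * f w))
    {f : Sys β γ → ℚ} (hf : f ∈ Aff β γ) : p f := by
  unfold Aff at hf
  induction hf using Submodule.span_induction with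
  | mem x hx =>
    rcases hx with rfl | ⟨⟨k, σ⟩, rfl⟩ | ⟨k, rfl⟩ | ⟨C, rfl⟩
    · exact h1
    · exact hs k σ
    · exact hln k
    · exact hlen C
  | zero =>
    have := hsmul 0 _ h1
    have e : (0 : Sys β γ → ℚ) = fun _ => 0 * 1 := by funext w; simp
    rw [e]; exact this
  | add x y _ _ hx hy => exact hadd x y hx hy
  | smul a x _ hx => exact hsmul a x hx

/-- f ∘ Λ is affine if the coordinates of Λ are. -/
theorem aff_comp {β' γ' : Type} (Λ : Sys β' γ' → Sys β γ)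
    (hs : ∀ k σ, (fun w => ((Λ w).s k σ : ℚ)) ∈ Aff β' γ')
    (hln : ∀ k, (fun w => ((Λ w).ln k : ℚ)) ∈ Aff β' γ')
    (hlen : ∀ C, (fun w => ((Λ w).len C : ℚ)) ∈ Aff β' γ')
    {f : Sys β γ → ℚ} (hf : f ∈ Aff β γ) : (fun w => f (Λ w)) ∈ Aff β' γ' := by
  refine aff_induction (p := fun f => (fun w => f (Λ w)) ∈ Aff β' γ') aff_one hs hln hlen ?_ ?_ hf
  · intro f g hf hg; exact aff_add hf hg
  · intro c f hf; exact aff_smul c hf

theorem aff_combo {y y1 y2 : Sys β γ} (c : ℚ)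
    (hs : ∀ k σ, (y.s k σ : ℚ) = c * y1.s k σ + (1 - c) * y2.s k σ)
    (hln : ∀ k, (y.ln k : ℚ) = c * y1.ln k + (1 - c) * y2.ln k)
    (hlen : ∀ C, (y.len C : ℚ) = c * y1.len C + (1 - c) * y2.len C)
    {f : Sys β γ → ℚ} (hf : f ∈ Aff β γ) : f y = c * f y1 + (1 - c) * f y2 := by
  refine aff_induction (p := fun f => f y = c * f y1 + (1 - c) * f y2) ?_ hs hln hlen ?_ ?_ hf
  · ring
  · intro f g hf hg; simp only [hf, hg]; ring
  · intro a f hf; simp only [hf]; ring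

variable [Fintype β]

theorem Claim.mono {N N' : ℤ} {y : Sys β γ} (h : Claim N y) (hN : N ≤ N') : Claim N' y :=
  fun f hf hw => h f hf (fun w h1 h2 h3 => hw w h1 h2 (h3.trans hN))

/-- one lift -/
theorem claim_of_lift {N N' : ℤ} {y y' : Sys β γ} (Λ : Sys β γ → Sys β γ)
    (hΛ : ∀ f ∈ Aff β γ, (fun w => f (Λ w)) ∈ Aff β γ)
    (hl : ∀ w', y'.Le w' → w'.Acyc → w'.size ≤ N → y.Le (Λ w') ∧ (Λ w').Acyc ∧ (Λ w').size ≤ N')
    (hy : Λ y' = y) (h : Claim N y') : Claim N' y := by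
  intro f hf hw
  have := h _ (hΛ f hf) (fun w' h1 h2 h3 => by
    obtain ⟨a, b, c⟩ := hl w' h1 h2 h3
    exact hw _ a b c)
  simpa [hy] using this

/-- two lifts -/
theorem claim_of_lift2 {N N' : ℤ} {y y' : Sys β γ} (Λ1 Λ2 : Sys β γ → Sys β γ)
    (hΛ1 : ∀ f ∈ Aff β γ, (fun w => f (Λ1 w)) ∈ Aff β γ)
    (hΛ2 : ∀ f ∈ Aff β γ, (fun w => f (Λ2 w)) ∈ Aff β γ)
    (hl1 : ∀ w', y'.Le w' → w'.Acyc → w'.size ≤ N → y.Le (Λ1 w') ∧ (Λ1 w').Acyc ∧ (Λ1 w').size ≤ N')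
    (hl2 : ∀ w', y'.Le w' → w'.Acyc → w'.size ≤ N → y.Le (Λ2 w') ∧ (Λ2 w').Acyc ∧ (Λ2 w').size ≤ N')
    (c : ℚ) (hy : ∀ f ∈ Aff β γ, f y = c * f (Λ1 y') + (1 - c) * f (Λ2 y'))
    (h : Claim N y') : Claim N' y := by
  intro f hf hw
  have h1 : f (Λ1 y') = 0 := h _ (hΛ1 f hf) (fun w' h1 h2 h3 => by
    obtain ⟨a, b, c⟩ := hl1 w' h1 h2 h3
    exact hw _ a b c)
  have h2 : f (Λ2 y') = 0 := h _ (hΛ2 f hf) (fun w' h1 h2 h3 => by
    obtain ⟨a, b, c⟩ := hl2 w' h1 h2 h3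
    exact hw _ a b c)
  rw [hy f hf, h1, h2]; ring

end D1
end Pool.Agent.Helper59.TE
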