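import Pool.Agent.Helper59.TE.Defs

set_option autoImplicit false

/-!
The elementary moves on band systems and their (affine) inverses; definitions only.
-/

namespace Pool.Agent.Helper59.TE
namespace Sys

variable {β γ : Type}

/-- put all inactive sides at position 0 -/
def cleanAll (y : Sys β γ) : Sys β γ :=
  { y with s := fun k σ => if y.ln k = 0 then 0 else y.s k σ }

variable [DecidableEq β] [DecidableEq γ]

/-! #### cutting out an uncovered interval `[j0, j1)` of the block `C`; the part behind it becomes block `C2` -/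

structure CutOK (y : Sys β γ) (C C2 : β) (j0 j1 : ℤ) : Prop where
  ne : C ≠ C2
  spare : y.len C2 = 0
  h0 : 0 ≤ j0
  h01 : j0 < j1
  h1 : j1 ≤ y.len C
  unc : ∀ k σ, y.b k σ = C → y.s k σ + y.ln k ≤ j0 ∨ j1 ≤ y.s k σ

def cut (y : Sys β γ) (C C2 : β) (j0 j1 : ℤ) : Sys β γ where
  b k σ := if y.b k σ = C ∧ j1 ≤ y.s k σ then C2 else y.b k σ
  fl := y.fl
  s k σ := if y.b k σ = C ∧ j1 ≤ y.s k σ then y.s k σ - j1 else y.s k σ
  ln := y.ln
  len E := if E = C then j0 else if E = C2 then y.len C - j1 else y.len E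

/-- inverse of `cut`, inserting an uncovered interval of length `m` -/
def uncut (y : Sys β γ) (C C2 : β) (j1 m : ℤ) (w : Sys β γ) : Sys β γ where
  b := y.b
  fl := y.fl
  s k σ := if y.b k σ = C ∧ j1 ≤ y.s k σ then w.len C + m + w.s k σ else w.s k σ
  ln := w.ln
  len E := if E = C then w.len C + m + w.len C2 else if E = C2 then 0 else w.len E

/-! #### removing the part over `[j0, j1)` from the side `(k, σ)`; the part behind it becomes band `k2` -/

structure FillOK (y : Sys β γ) (k k2 : γ) (σ : Bool) (j0 j1 : ℤ) : Prop where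
  ne : k ≠ k2
  spare : y.ln k2 = 0
  spare0 : ∀ τ, y.s k2 τ = 0
  h0 : y.s k σ ≤ j0
  h01 : j0 < j1
  h1 : j1 ≤ y.s k σ + y.ln k
  unc : ∀ k' σ', y.b k' σ' = y.b k σ → (k', σ') ≠ (k, σ) → y.s k' σ' + y.ln k' ≤ j0 ∨ j1 ≤ y.s k' σ'

def unfill (y : Sys β γ) (k k2 : γ) (σ : Bool) (j0 j1 : ℤ) : Sys β γ where
  b k' σ' := if k' = k2 then y.b k σ' else y.b k' σ'
  fl k' := if k' = k2 then y.fl k else y.fl k'
  s k' σ' :=
    if k' = k then
      if σ' = σ then y.s k σ
      else if y.fl k then y.s k (!σ) + (y.s k σ + y.ln k - j0) else y.s k (!σ)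
    else if k' = k2 then
      if σ' = σ then j1
      else if y.fl k then y.s k (!σ) else y.s k (!σ) + (j1 - y.s k σ)
    else y.s k' σ'
  ln k' := if k' = k then j0 - y.s k σ else if k' = k2 then y.s k σ + y.ln k - j1 else y.ln k'
  len := y.len

/-- inverse of `unfill`: glue the bands `k` and `k2` over the gap between them -/
def fill (y : Sys β γ) (k k2 : γ) (σ : Bool) (w : Sys β γ) : Sys β γ where
  b := y.b
  fl := y.fl
  s k' σ' :=
    if k' = k then
      if σ' = σ then w.s k σ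
      else if y.fl k then w.s k2 (!σ) else w.s k (!σ)
    else if k' = k2 then 0
    else w.s k' σ'
  ln k' := if k' = k then w.s k2 σ + w.ln k2 - w.s k σ else if k' = k2 then 0 else w.ln k'
  len := w.len

/-- length of the gap between the bands `k` and `k2` measured at the side `!σ` -/
def gap (y : Sys β γ) (k k2 : γ) (σ : Bool) (w : Sys β γ) : ℤ :=
  if y.fl k then w.s k (!σ) - (w.s k2 (!σ) + w.ln k2) else w.s k2 (!σ) - (w.s k (!σ) + w.ln k)

/-- in move A we need: if a non-empty part of the band `k` remains on the left, then some other active side ends at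
`j0`, and symmetrically on the right. -/
structure ABdry (y : Sys β γ) (k : γ) (σ : Bool) (j0 j1 : ℤ) : Prop where
  l : y.s k σ < j0 → ∃ k' σ', (k', σ') ≠ (k, σ) ∧ 0 < y.ln k' ∧ y.b k' σ' = y.b k σ ∧
    y.s k' σ' + y.ln k' = j0
  r : j1 < y.s k σ + y.ln k → ∃ k' σ', (k', σ') ≠ (k, σ) ∧ 0 < y.ln k' ∧ y.b k' σ' = y.b k σ ∧
    y.s k' σ' = j1

/-! #### removing a block `C` with exactly two active sides, both equal to `C` -/

structure MrgOK (y : Sys β γ) (C : β) (k1 k2 : γ) (σ1 σ2 : Bool) : Prop where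
  ne : k1 ≠ k2
  b1 : y.b k1 σ1 = C
  b2 : y.b k2 σ2 = C
  s1 : y.s k1 σ1 = 0
  s2 : y.s k2 σ2 = 0
  l1 : y.ln k1 = y.len C
  l2 : y.ln k2 = y.len C
  act : 0 < y.len C
  only : ∀ k' σ', y.b k' σ' = C → 0 < y.ln k' → (k', σ') = (k1, σ1) ∨ (k', σ') = (k2, σ2)

def mrg (y : Sys β γ) (C : β) (k1 k2 : γ) (σ1 σ2 : Bool) : Sys β γ where
  b k' σ' := if k' = k1 ∧ σ' = σ1 then y.b k2 (!σ2) else y.b k' σ'
  fl k' := if k' = k1 then xor (y.fl k1) (y.fl k2) else y.fl k'
  s k' σ' := if k' = k1 ∧ σ' = σ1 then y.s k2 (!σ2) else if k' = k2 then 0 else y.s k' σ'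
  ln k' := if k' = k2 then 0 else y.ln k'
  len E := if E = C then 0 else y.len E

def unmrg (y : Sys β γ) (C : β) (k1 k2 : γ) (σ1 σ2 : Bool) (w : Sys β γ) : Sys β γ where
  b := y.b
  fl := y.fl
  s k' σ' := if k' = k1 ∧ σ' = σ1 then 0
    else if k' = k2 then (if σ' = σ2 then 0 else w.s k1 σ1) else w.s k' σ'
  ln k' := if k' = k2 then w.ln k1 else w.ln k'
  len E := if E = C then w.ln k1 else w.len E

end Sys
end Pool.Agent.Helper59.TE
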