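import Pool.Agent.Helper59.TE.D1
import Pool.Agent.Helper59.TE.Ops

set_option autoImplicit false

namespace Pool.Agent.Helper59.TE
open Sys

section D2a
variable {β γ : Type}

theorem cleanAll_wf {y : Sys β γ} (hy : y.WF) : y.cleanAll.WF where
  len_nonneg := hy.len_nonneg
  ln_nonneg := hy.ln_nonneg
  s_nonneg k σ := by
    simp only [Sys.cleanAll]
    split_ifs
    · exact le_refl _
    · exact hy.s_nonneg k σ
  s_le k σ := by
    simp only [Sys.cleanAll]
    split_ifs with h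
    · rw [h]; simpa using hy.len_nonneg _
    · exact hy.s_le k σ

theorem cleanAll_clean (y : Sys β γ) : y.cleanAll.Clean := by
  intro k σ h
  have h' : y.ln k = 0 := h
  simp [Sys.cleanAll, h']

theorem cleanAll_acyc {y : Sys β γ} (hy : y.Acyc) : y.cleanAll.Acyc := by
  obtain ⟨h, hh⟩ := hy
  refine ⟨h, ?_⟩
  have key : ∀ k σ C p, y.cleanAll.Cov k σ C p → y.Cov k σ C p ∧ y.cleanAll.par k σ p = y.par k σ p := by
    intro k σ C p hc
    obtain ⟨hb, h1, h2⟩ := hc
    have hne : y.ln k ≠ 0 := by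
      intro h0
      have e1 : y.cleanAll.s k σ = 0 := by simp [Sys.cleanAll, h0]
      have e2 : y.cleanAll.ln k = 0 := h0
      rw [e1] at h1 h2; rw [e2] at h2; omega
    have e1 : ∀ τ, y.cleanAll.s k τ = y.s k τ := by intro τ; simp [Sys.cleanAll, hne]
    refine ⟨⟨hb, by rw [← e1]; exact h1, by rw [← e1]; exact h2⟩, ?_⟩
    unfold Sys.par
    rw [e1, e1]
    rfl
  intro C p k σ k' σ' h1 h2 h3 h4
  obtain ⟨a, b⟩ := key _ _ _ _ h1
  obtain ⟨a', b'⟩ := key _ _ _ _ h2
  rw [b] at h3; rw [b'] at h4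
  exact hh C p k σ k' σ' a a' h3 h4

theorem D2_aff_pos (e : EP β γ) : (fun w : Sys β γ => (w.pos e : ℚ)) ∈ Aff β γ := by
  rcases e with ⟨C, e⟩ | ⟨⟨k, σ⟩, e⟩
  · cases e
    · simpa [Sys.pos] using aff_const (β := β) (γ := γ) 0
    · simpa [Sys.pos] using aff_len C
  · cases e
    · simpa [Sys.pos] using aff_s k σ
    · have := aff_add (aff_s (β := β) k σ) (aff_ln k)
      simpa [Sys.pos] using this

end D2a

section D2b
variable {β γ : Type} [DecidableEq β] [DecidableEq γ]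

/-- change the position of one side -/
def D2_set (w : Sys β γ) (k : γ) (σ : Bool) (a : ℤ) : Sys β γ :=
  { w with s := fun k' σ' => if k' = k ∧ σ' = σ then a else w.s k' σ' }

/-- the end points of the side `(k,σ)` -/
def D2_own (k : γ) (σ : Bool) (e : EP β γ) : Prop := ∃ t, e = Sum.inr ((k, σ), t)

omit [DecidableEq β] in
theorem D2_pos_set (w : Sys β γ) (k : γ) (σ : Bool) (a : ℤ) (e : EP β γ) (he : ¬ D2_own k σ e) :
    (D2_set w k σ a).pos e = w.pos e := by
  rcases e with ⟨C, e⟩ | ⟨⟨k', σ'⟩, e⟩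
  · rfl
  · have : ¬ (k' = k ∧ σ' = σ) := by
      rintro ⟨rfl, rfl⟩; exact he ⟨e, rfl⟩
    simp [Sys.pos, D2_set, this]

omit [DecidableEq β] in
theorem D2_pos_own (w : Sys β γ) (k : γ) (σ : Bool) (a : ℤ) (hz : w.ln k = 0) (e : EP β γ)
    (he : D2_own k σ e) : (D2_set w k σ a).pos e = a := by
  obtain ⟨t, rfl⟩ := he
  cases t <;> simp [Sys.pos, D2_set, hz]

omit [DecidableEq β] in
theorem D2_blk_set (w : Sys β γ) (k : γ) (σ : Bool) (a : ℤ) (e : EP β γ) :
    (D2_set w k σ a).blk e = w.blk e := by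
  rcases e with ⟨C, e⟩ | ⟨⟨k', σ'⟩, e⟩ <;> rfl

omit [DecidableEq β] in
theorem D2_acyc {w : Sys β γ} (ha : w.Acyc) (k : γ) (σ : Bool) (a : ℤ) (hz : w.ln k = 0) :
    (D2_set w k σ a).Acyc := by
  obtain ⟨h, hh⟩ := ha
  refine ⟨h, ?_⟩
  have key : ∀ k' σ' C p, (D2_set w k σ a).Cov k' σ' C p → w.Cov k' σ' C p ∧
      (D2_set w k σ a).par k' σ' p = w.par k' σ' p := by
    intro k' σ' C p hc
    obtain ⟨hb, h1, h2⟩ := hc
    have hne : k' ≠ k := by
      rintro rfl
      have e2 : (D2_set w k' σ a).ln k' = 0 := hz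
      rw [e2] at h2; omega
    have e1 : ∀ τ, (D2_set w k σ a).s k' τ = w.s k' τ := by intro τ; simp [D2_set, hne]
    refine ⟨⟨hb, by rw [← e1]; exact h1, by rw [← e1]; exact h2⟩, ?_⟩
    unfold Sys.par
    rw [e1, e1]
    rfl
  intro C p k1 σ1 k' σ' h1 h2 h3 h4
  obtain ⟨a1, b⟩ := key _ _ _ _ h1
  obtain ⟨a', b'⟩ := key _ _ _ _ h2
  rw [b] at h3; rw [b'] at h4
  exact hh C p k1 σ1 k' σ' a1 a' h3 h4

omit [DecidableEq β] in
theorem D2_wf {y : Sys β γ} (hy : y.WF) (k : γ) (σ : Bool) (hz : y.ln k = 0) :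
    (D2_set y k σ 0).WF where
  len_nonneg := hy.len_nonneg
  ln_nonneg := hy.ln_nonneg
  s_nonneg k' σ' := by
    simp only [D2_set]
    split_ifs
    · exact le_refl _
    · exact hy.s_nonneg k' σ'
  s_le k' σ' := by
    simp only [D2_set]
    split_ifs with h
    · obtain ⟨rfl, rfl⟩ := h; rw [hz]; simpa using hy.len_nonneg _
    · exact hy.s_le k' σ'

omit [DecidableEq β] in
theorem D2_le {y : Sys β γ} (hy : y.WF) (k : γ) (σ : Bool) (hz : y.ln k = 0) (e : EP β γ)
    (he : ¬ D2_own k σ e) (heb : y.blk e = y.b k σ)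
    (hn1 : ∀ e', ¬ D2_own k σ e' → y.blk e' = y.b k σ → y.pos e' ≤ y.s k σ → y.pos e' ≤ y.pos e)
    (hn2 : ∀ e', ¬ D2_own k σ e' → y.blk e' = y.b k σ → y.s k σ ≤ y.pos e' → y.pos e ≤ y.pos e')
    {w : Sys β γ} (hw : (D2_set y k σ 0).Le w) : y.Le (D2_set w k σ (w.pos e)) := by
  have hz' : w.ln k = 0 := Le.ln_zero hw (le_of_eq hz) (D2_wf hy k σ hz)
  refine ⟨hw.b_eq, hw.fl_eq, ?_⟩
  have howny : ∀ e', D2_own k σ e' → y.pos e' = y.s k σ ∧ y.blk e' = y.b k σ := by
    rintro e' ⟨t, rfl⟩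
    cases t <;> simp [Sys.pos, Sys.blk, hz]
  intro e1 e2 hb hp
  by_cases h1 : D2_own k σ e1
  · by_cases h2 : D2_own k σ e2
    · rw [D2_pos_own w k σ _ hz' e1 h1, D2_pos_own w k σ _ hz' e2 h2]
    · rw [D2_pos_own w k σ _ hz' e1 h1, D2_pos_set w k σ _ e2 h2]
      rw [(howny e1 h1).1] at hp
      rw [(howny e1 h1).2] at hb
      apply hw.mono
      · rw [D2_blk_set, D2_blk_set, heb, hb]
      · rw [D2_pos_set y k σ 0 e he, D2_pos_set y k σ 0 e2 h2]
        exact hn2 e2 h2 hb.symm hp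
  · by_cases h2 : D2_own k σ e2
    · rw [D2_pos_own w k σ _ hz' e2 h2, D2_pos_set w k σ _ e1 h1]
      rw [(howny e2 h2).1] at hp
      rw [(howny e2 h2).2] at hb
      apply hw.mono
      · rw [D2_blk_set, D2_blk_set, heb, hb]
      · rw [D2_pos_set y k σ 0 e he, D2_pos_set y k σ 0 e1 h1]
        exact hn1 e1 h1 hb hp
    · rw [D2_pos_set w k σ _ e1 h1, D2_pos_set w k σ _ e2 h2]
      apply hw.mono
      · rw [D2_blk_set, D2_blk_set, hb]
      · rw [D2_pos_set y k σ 0 e1 h1, D2_pos_set y k σ 0 e2 h2]; exact hp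

omit [DecidableEq β] in
theorem D2_aff (k : γ) (σ : Bool) (e : EP β γ) {f : Sys β γ → ℚ} (hf : f ∈ Aff β γ) :
    (fun w => f (D2_set w k σ (w.pos e))) ∈ Aff β γ := by
  refine aff_comp _ ?_ ?_ ?_ hf
  · intro k' σ'
    by_cases h : k' = k ∧ σ' = σ
    · have := D2_aff_pos (β := β) (γ := γ) e
      simpa [D2_set, h] using this
    · simpa [D2_set, h] using aff_s (β := β) k' σ'
  · intro k'; exact aff_ln k'
  · intro C; exact aff_len C

variable [Fintype β] [Fintype γ]

theorem D2_one {N : ℤ} {y : Sys β γ} (hy : y.WF) (k : γ) (σ : Bool) (hz : y.ln k = 0)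
    (h : Claim N (D2_set y k σ 0)) : Claim N y := by
  classical
  let E : Finset (EP β γ) := Finset.univ.filter (fun e => ¬ D2_own k σ e ∧ y.blk e = y.b k σ)
  have hE : ∀ e, e ∈ E ↔ (¬ D2_own k σ e ∧ y.blk e = y.b k σ) := by intro e; simp [E]
  have n1 : (E.filter (fun e => y.pos e ≤ y.s k σ)).Nonempty := by
    refine ⟨Sum.inl (y.b k σ, false), Finset.mem_filter.2 ⟨(hE _).2 ⟨?_, rfl⟩, ?_⟩⟩
    · rintro ⟨t, ht⟩; cases ht
    · simpa [Sys.pos] using hy.s_nonneg k σ
  have n2 : (E.filter (fun e => y.s k σ ≤ y.pos e)).Nonempty := by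
    refine ⟨Sum.inl (y.b k σ, true), Finset.mem_filter.2 ⟨(hE _).2 ⟨?_, rfl⟩, ?_⟩⟩
    · rintro ⟨t, ht⟩; cases ht
    · have := hy.s_le k σ
      rw [hz] at this
      simpa [Sys.pos] using this
  obtain ⟨e1, he1, hmax⟩ := Finset.exists_max_image _ (fun e => y.pos e) n1
  obtain ⟨e2, he2, hmin⟩ := Finset.exists_min_image _ (fun e => y.pos e) n2
  rw [Finset.mem_filter, hE] at he1 he2
  have hmax' : ∀ e', ¬ D2_own k σ e' → y.blk e' = y.b k σ → y.pos e' ≤ y.s k σ → y.pos e' ≤ y.pos e1 :=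
    fun e' a b c => hmax e' (Finset.mem_filter.2 ⟨(hE _).2 ⟨a, b⟩, c⟩)
  have hmin' : ∀ e', ¬ D2_own k σ e' → y.blk e' = y.b k σ → y.s k σ ≤ y.pos e' → y.pos e2 ≤ y.pos e' :=
    fun e' a b c => hmin e' (Finset.mem_filter.2 ⟨(hE _).2 ⟨a, b⟩, c⟩)
  have wfy' := D2_wf hy k σ hz
  have ex : ∃ c : ℚ, (y.s k σ : ℚ) = c * y.pos e1 + (1 - c) * y.pos e2 := by
    rcases eq_or_ne (y.pos e1) (y.pos e2) with heq | hne
    · refine ⟨1, ?_⟩
      have : y.s k σ = y.pos e1 := le_antisymm (heq ▸ he2.2) he1.2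
      rw [this]; ring
    · refine ⟨((y.pos e2 : ℚ) - y.s k σ) / ((y.pos e2 : ℚ) - y.pos e1), ?_⟩
      have : ((y.pos e2 : ℚ) - y.pos e1) ≠ 0 := by
        intro h0
        apply hne
        have : (y.pos e1 : ℚ) = y.pos e2 := by linarith
        exact_mod_cast this
      field_simp
      ring
  obtain ⟨c, hc⟩ := ex
  refine claim_of_lift2 (fun w => D2_set w k σ (w.pos e1)) (fun w => D2_set w k σ (w.pos e2))
    (fun f hf => D2_aff k σ e1 hf) (fun f hf => D2_aff k σ e2 hf) ?_ ?_ c ?_ h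
  · intro w hw ha hs
    exact ⟨D2_le hy k σ hz e1 he1.1.1 he1.1.2 hmax' (fun e' a b c => he1.2.trans c) hw,
      D2_acyc ha k σ _ (Le.ln_zero hw (le_of_eq hz) wfy'), hs⟩
  · intro w hw ha hs
    exact ⟨D2_le hy k σ hz e2 he2.1.1 he2.1.2 (fun e' a b c => c.trans he2.2) hmin' hw,
      D2_acyc ha k σ _ (Le.ln_zero hw (le_of_eq hz) wfy'), hs⟩
  · intro f hf
    refine aff_combo c ?_ ?_ ?_ hf
    · intro k' σ'
      by_cases hk : k' = k ∧ σ' = σ
      · simp only [D2_pos_set y k σ 0 e1 he1.1.1, D2_pos_set y k σ 0 e2 he2.1.1]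
        obtain ⟨rfl, rfl⟩ := hk
        simpa [D2_set] using hc
      · simp only [D2_set, if_neg hk]
        ring
    · intro k'; simp only [D2_set]; ring
    · intro C; simp only [D2_set]; ring

/-- clean a set of sides -/
def D2_cleanOn (y : Sys β γ) (T : Finset (γ × Bool)) : Sys β γ :=
  { y with s := fun k σ => if (k, σ) ∈ T ∧ y.ln k = 0 then 0 else y.s k σ }

theorem D2_cleanOn_wf {y : Sys β γ} (hy : y.WF) (T : Finset (γ × Bool)) : (D2_cleanOn y T).WF where
  len_nonneg := hy.len_nonneg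
  ln_nonneg := hy.ln_nonneg
  s_nonneg k σ := by
    simp only [D2_cleanOn]
    split_ifs
    · exact le_refl _
    · exact hy.s_nonneg k σ
  s_le k σ := by
    simp only [D2_cleanOn]
    split_ifs with h
    · rw [h.2]; simpa using hy.len_nonneg _
    · exact hy.s_le k σ

theorem cleanAll_size (y : Sys β γ) : y.cleanAll.size = y.size := rfl
theorem cleanAll_kap (y : Sys β γ) : y.cleanAll.kap = y.kap := rfl
theorem cleanAll_low (y : Sys β γ) : y.cleanAll.low = y.low := rfl

theorem claim_clean {N : ℤ} {y : Sys β γ} (hy : y.WF) (h : Claim N y.cleanAll) : Claim N y := by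
  have key : ∀ T : Finset (γ × Bool), Claim N (D2_cleanOn y T) → Claim N y := by
    intro T
    induction T using Finset.induction_on with
    | empty =>
      intro h
      have : D2_cleanOn y ∅ = y := by simp [D2_cleanOn]
      rwa [this] at h
    | insert a T ha ih =>
      intro h
      apply ih
      by_cases hz : y.ln a.1 = 0
      · apply D2_one (D2_cleanOn_wf hy T) a.1 a.2 hz
        have : D2_set (D2_cleanOn y T) a.1 a.2 0 = D2_cleanOn y (insert a T) := by
          unfold D2_set D2_cleanOn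
          ext1
          · rfl
          · rfl
          · funext k σ
            simp only [Finset.mem_insert]
            by_cases h1 : k = a.1 ∧ σ = a.2
            · obtain ⟨rfl, rfl⟩ := h1
              simp [hz]
            · have h2 : (k, σ) ≠ a := by
                rintro rfl; exact h1 ⟨rfl, rfl⟩
              simp [h1, h2]
          · rfl
          · rfl
        rw [this]; exact h
      · have : D2_cleanOn y T = D2_cleanOn y (insert a T) := by
          unfold D2_cleanOn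
          ext1
          · rfl
          · rfl
          · funext k σ
            simp only [Finset.mem_insert]
            by_cases h2 : (k, σ) = a
            · subst h2; simp [hz]
            · simp [h2]
          · rfl
          · rfl
        rw [this]; exact h
  apply key Finset.univ
  have : D2_cleanOn y Finset.univ = y.cleanAll := by
    simp [D2_cleanOn, Sys.cleanAll]
  rw [this]; exact h

end D2b
end Pool.Agent.Helper59.TE
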