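import Pool.Agent.Helper59.TE.D1
import Pool.Agent.Helper59.TE.Ops

set_option autoImplicit false

/-!
# Module D3: cutting out an uncovered interval (helper98)
-/

namespace Pool.Agent.Helper59.TE
open Sys

/-- transport of acyclicity along a map of cells -/
theorem D3_acyc_transport {β γ : Type} {y1 y2 : Sys β γ} (Ψ : β × ℤ → β × ℤ)
    (hln : ∀ k, y1.ln k = y2.ln k) (hfl : ∀ k, y1.fl k = y2.fl k)
    (hΨ : ∀ k τ q, y1.s k τ ≤ q → q < y1.s k τ + y1.ln k →
      Ψ (y1.b k τ, q) = (y2.b k τ, q - y1.s k τ + y2.s k τ)) (h : y2.Acyc) : y1.Acyc := by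
  obtain ⟨h2, hh⟩ := h
  have hpar : ∀ k σ C p, y1.Cov k σ C p → y2.Cov k σ (Ψ (C, p)).1 (Ψ (C, p)).2 ∧
      Ψ (y1.par k σ p) = y2.par k σ (Ψ (C, p)).2 := by
    intro k σ C p hc
    obtain ⟨hb, h1, h2⟩ := hc
    have e1 := hΨ k σ p h1 h2
    rw [hb] at e1
    refine ⟨⟨?_, ?_, ?_⟩, ?_⟩
    · rw [e1]
    · rw [e1]; change y2.s k σ ≤ p - y1.s k σ + y2.s k σ; omega
    · rw [e1, ← hln]; change p - y1.s k σ + y2.s k σ < y2.s k σ + y1.ln k; omega
    · rw [e1]
      unfold par
      rw [← hfl, ← hln]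
      by_cases hf : y1.fl k = true
      · rw [if_pos hf, if_pos hf, hΨ k (!σ) _ (by omega) (by omega)]
        refine Prod.ext rfl ?_
        change y1.s k (!σ) + y1.s k σ + y1.ln k - 1 - p - y1.s k (!σ) + y2.s k (!σ) =
          y2.s k (!σ) + y2.s k σ + y1.ln k - 1 - (p - y1.s k σ + y2.s k σ)
        omega
      · rw [if_neg hf, if_neg hf, hΨ k (!σ) _ (by omega) (by omega)]
        refine Prod.ext rfl ?_
        change y1.s k (!σ) + (p - y1.s k σ) - y1.s k (!σ) + y2.s k (!σ) =
          y2.s k (!σ) + ((p - y1.s k σ + y2.s k σ) - y2.s k σ)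
        omega
  refine ⟨fun c => h2 (Ψ c), ?_⟩
  intro C p k σ k' σ' hc hc' hr hr'
  obtain ⟨a1, a2⟩ := hpar k σ C p hc
  obtain ⟨b1, b2⟩ := hpar k' σ' C p hc'
  refine hh _ _ k σ k' σ' a1 b1 ?_ ?_
  · rw [← a2]; exact hr
  · rw [← b2]; exact hr'

set_option linter.unusedSectionVars false
set_option linter.unusedVariables false

variable {β γ : Type} [DecidableEq β] [DecidableEq γ] [Fintype β] [Fintype γ]

section
variable {y : Sys β γ} {C C2 : β} {j0 j1 : ℤ}

theorem cut_wf (hy : y.WF) (h : y.CutOK C C2 j0 j1) : (y.cut C C2 j0 j1).WF := by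
  obtain ⟨hne, hsp, h0, h01, h1, hunc⟩ := h
  refine ⟨?_, hy.ln_nonneg, ?_, ?_⟩
  · intro E
    simp only [cut]
    split_ifs
    · exact h0
    · omega
    · exact hy.len_nonneg E
  · intro k σ
    simp only [cut]
    split_ifs with hc
    · omega
    · exact hy.s_nonneg k σ
  · intro k σ
    have a1 := hy.s_le k σ
    have a2 := hunc k σ
    simp only [cut]
    by_cases hc : y.b k σ = C ∧ j1 ≤ y.s k σ
    · rw [if_pos hc, if_pos hc, if_neg hne.symm, if_pos rfl]
      rw [hc.1] at a1
      omega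
    · rw [if_neg hc, if_neg hc]
      split_ifs with h2 h3
      · rcases a2 h2 with h4 | h4
        · exact h4
        · exact absurd ⟨h2, h4⟩ hc
      · rw [h3, hsp] at a1
        omega
      · exact a1

theorem cut_clean (hy : y.Clean) (h : y.CutOK C C2 j0 j1) : (y.cut C C2 j0 j1).Clean := by
  intro k σ hk
  have h1 : y.s k σ = 0 := hy k σ hk
  have h2 := h.h0
  have h3 := h.h01
  simp only [cut]
  rw [if_neg, h1]
  rintro ⟨-, h4⟩
  omega

theorem uncut_cut (hy : y.WF) (h : y.CutOK C C2 j0 j1) :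
    y.uncut C C2 j1 (j1 - j0) (y.cut C C2 j0 j1) = y := by
  have hne := h.ne
  ext k σ
  · rfl
  · rfl
  · simp only [uncut, cut, if_true]
    split_ifs with hc
    · omega
    · rfl
  · rfl
  · rename_i E
    simp only [uncut, cut, if_true, if_neg hne.symm]
    split_ifs with h1 h2
    · rw [h1]; omega
    · rw [h2, h.spare]
    · rfl

/-- the end points after cutting -/
theorem D3_form (hy : y.WF) (h : y.CutOK C C2 j0 j1) (w : Sys β γ) (m : ℤ) (e : EP β γ) :
    (∃ e1, (y.cut C C2 j0 j1).blk e1 = y.blk e ∧ (y.cut C C2 j0 j1).pos e1 = y.pos e ∧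
      (y.uncut C C2 j1 m w).pos e = w.pos e1 ∧ (y.blk e = C → y.pos e ≤ j0)) ∨
    (∃ e1, y.blk e = C ∧ (y.cut C C2 j0 j1).blk e1 = C2 ∧
      (y.cut C C2 j0 j1).pos e1 = y.pos e - j1 ∧
      (y.uncut C C2 j1 m w).pos e = w.pos e1 + w.len C + m ∧ j1 ≤ y.pos e) := by
  have hne := h.ne
  have hh0 := h.h0
  have hh1 := h.h1
  have hsp := h.spare
  rcases e with ⟨E, ε⟩ | ⟨⟨k, σ⟩, ε⟩
  · cases ε
    · left
      refine ⟨Sum.inl (E, false), rfl, rfl, rfl, ?_⟩
      intro _
      simp only [pos]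
      exact hh0
    · by_cases h1 : E = C
      · right
        refine ⟨Sum.inl (C2, true), h1, rfl, ?_, ?_, ?_⟩
        · simp only [pos, cut, if_neg hne.symm, if_true, h1]
        · simp only [pos, uncut, if_true, h1]
          omega
        · simp only [pos, if_true, h1]
          exact hh1
      · by_cases h2 : E = C2
        · left
          refine ⟨Sum.inl (C2, false), ?_, ?_, ?_, ?_⟩
          · simp only [blk, h2]
          · simp only [pos, h2, hsp, if_true]
            rfl
          · simp only [pos, uncut, h2, if_neg hne.symm, if_true]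
            rfl
          · intro h3
            exact absurd (h2.symm.trans h3) hne.symm
        · left
          refine ⟨Sum.inl (E, true), rfl, ?_, ?_, ?_⟩
          · simp only [pos, cut, if_neg h1, if_neg h2]
          · simp only [pos, uncut, if_neg h1, if_neg h2]
          · intro h3
            exact absurd h3 h1
  · have hln := hy.ln_nonneg k
    by_cases hc : y.b k σ = C ∧ j1 ≤ y.s k σ
    · right
      refine ⟨Sum.inr ((k, σ), ε), hc.1, ?_, ?_, ?_, ?_⟩
      · simp only [blk, cut, if_pos hc]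
      · simp only [pos, cut, if_pos hc]
        split_ifs <;> omega
      · simp only [pos, uncut, if_pos hc]
        split_ifs <;> omega
      · simp only [pos]
        have := hc.2
        split_ifs <;> omega
    · left
      refine ⟨Sum.inr ((k, σ), ε), ?_, ?_, ?_, ?_⟩
      · simp only [blk, cut, if_neg hc]
      · simp only [pos, cut, if_neg hc]
      · simp only [pos, uncut, if_neg hc]
      · intro hb
        have h2 : y.b k σ = C := hb
        have h3 := h.unc k σ h2
        have h4 : ¬ j1 ≤ y.s k σ := fun h5 => hc ⟨h2, h5⟩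
        simp only [pos]
        split_ifs <;> omega

theorem D3_pos_nonneg {w : Sys β γ} (hw : w.WF) (e : EP β γ) : 0 ≤ w.pos e := by
  rcases e with ⟨E, ε⟩ | ⟨⟨k, σ⟩, ε⟩
  · have := hw.len_nonneg E
    simp only [pos]
    split_ifs <;> omega
  · have h1 := hw.ln_nonneg k
    have h2 := hw.s_nonneg k σ
    simp only [pos]
    split_ifs <;> omega

theorem uncut_le (hy : y.WF) (h : y.CutOK C C2 j0 j1) {w : Sys β γ} (hw : (y.cut C C2 j0 j1).Le w)
    {m : ℤ} (hm : 0 ≤ m) : y.Le (y.uncut C C2 j1 m w) := by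
  have hwf : w.WF := Le.wf hw (cut_wf hy h)
  refine ⟨rfl, rfl, ?_⟩
  intro e e' hb hp
  have h01 := h.h01
  have hlen : (y.cut C C2 j0 j1).pos (Sum.inl (C, true)) = j0 := by
    simp only [pos, cut, if_true]
  rcases D3_form hy h w m e with ⟨e1, a1, a2, a3, a4⟩ | ⟨e1, a1, a2, a3, a4, a5⟩ <;>
  rcases D3_form hy h w m e' with ⟨e1', b1, b2, b3, b4⟩ | ⟨e1', b1, b2, b3, b4, b5⟩
  · rw [a3, b3]
    exact hw.mono e1 e1' (by rw [a1, b1, hb]) (by rw [a2, b2]; exact hp)
  · rw [a3, b4]
    have h1 := hw.mono e1 (Sum.inl (C, true)) (by rw [a1, hb, b1]; rfl)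
      (by rw [a2, hlen]; exact a4 (by rw [hb, b1]))
    have h2 : w.pos (Sum.inl (C, true)) = w.len C := by simp only [pos, if_true]
    have h3 := D3_pos_nonneg hwf e1'
    omega
  · have := b4 (by rw [← hb, a1])
    omega
  · rw [a4, b4]
    have := hw.mono e1 e1' (by rw [a2, b2]) (by rw [a3, b3]; omega)
    omega

theorem cut_acyc (hy : y.WF) (h : y.CutOK C C2 j0 j1) (ha : y.Acyc) :
    (y.cut C C2 j0 j1).Acyc := by
  refine D3_acyc_transport (y2 := y) (fun c => if c.1 = C2 then (C, c.2 + j1) else c)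
    (fun k => rfl) (fun k => rfl) ?_ ha
  intro k τ q h1 h2
  have hle := hy.s_le k τ
  have hs := hy.s_nonneg k τ
  have eln : (y.cut C C2 j0 j1).ln k = y.ln k := rfl
  rw [eln] at h2
  by_cases hc : y.b k τ = C ∧ j1 ≤ y.s k τ
  · have eb : (y.cut C C2 j0 j1).b k τ = C2 := if_pos hc
    have es : (y.cut C C2 j0 j1).s k τ = y.s k τ - j1 := if_pos hc
    rw [es] at h1 h2
    rw [eb, es]
    refine (if_pos rfl).trans ?_
    rw [hc.1]
    refine Prod.ext rfl ?_
    change q + j1 = q - (y.s k τ - j1) + y.s k τ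
    omega
  · have eb : (y.cut C C2 j0 j1).b k τ = y.b k τ := if_neg hc
    have es : (y.cut C C2 j0 j1).s k τ = y.s k τ := if_neg hc
    rw [es] at h1 h2
    rw [eb, es]
    refine (if_neg ?_).trans ?_
    · intro hb
      change y.b k τ = C2 at hb
      rw [hb, h.spare] at hle
      omega
    · refine Prod.ext rfl ?_
      change q = q - y.s k τ + y.s k τ
      omega

theorem D3_w_le (hy : y.WF) (h : y.CutOK C C2 j0 j1) {w : Sys β γ} (hw : (y.cut C C2 j0 j1).Le w)
    {k : γ} {σ : Bool} (hb : y.b k σ = C) (hc : ¬ j1 ≤ y.s k σ) : w.s k σ + w.ln k ≤ w.len C := by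
  have h1 := hw.mono (Sum.inr ((k, σ), true)) (Sum.inl (C, true)) (by
    simp only [blk, cut]
    rw [if_neg (fun h' => hc h'.2), hb]) (by
    have := h.unc k σ hb
    simp only [pos, cut, if_true]
    rw [if_neg (fun h' => hc h'.2)]
    omega)
  simpa only [pos, if_true] using h1

theorem uncut_acyc (hy : y.WF) (h : y.CutOK C C2 j0 j1) {w : Sys β γ} (hw : (y.cut C C2 j0 j1).Le w)
    {m : ℤ} (hm : 0 ≤ m) (ha : w.Acyc) : (y.uncut C C2 j1 m w).Acyc := by
  have hwf : w.WF := Le.wf hw (cut_wf hy h)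
  refine D3_acyc_transport (y2 := w)
    (fun c => if c.1 = C ∧ w.len C + m ≤ c.2 then (C2, c.2 - w.len C - m) else c)
    (fun k => rfl) (fun k => ?_) ?_ ha
  · rw [hw.fl_eq]; rfl
  intro k τ q h1 h2
  have hs := hwf.s_nonneg k τ
  have hwb : w.b k τ = (y.cut C C2 j0 j1).b k τ := by rw [hw.b_eq]
  have eln : (y.uncut C C2 j1 m w).ln k = w.ln k := rfl
  have eb : (y.uncut C C2 j1 m w).b k τ = y.b k τ := rfl
  rw [eln] at h2
  rw [eb]
  by_cases hc : y.b k τ = C ∧ j1 ≤ y.s k τ
  · have eb2 : (y.cut C C2 j0 j1).b k τ = C2 := if_pos hc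
    have es : (y.uncut C C2 j1 m w).s k τ = w.len C + m + w.s k τ := if_pos hc
    rw [es] at h1 h2
    rw [es, hwb, eb2]
    refine (if_pos ⟨hc.1, by change w.len C + m ≤ q; omega⟩).trans ?_
    refine Prod.ext rfl ?_
    change q - w.len C - m = q - (w.len C + m + w.s k τ) + w.s k τ
    omega
  · have eb2 : (y.cut C C2 j0 j1).b k τ = y.b k τ := if_neg hc
    have es : (y.uncut C C2 j1 m w).s k τ = w.s k τ := if_neg hc
    rw [es] at h1 h2
    rw [es, hwb, eb2]
    refine (if_neg ?_).trans ?_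
    · rintro ⟨hb, hq⟩
      change w.len C + m ≤ q at hq
      have := D3_w_le hy h hw hb (fun h' => hc ⟨hb, h'⟩)
      omega
    · refine Prod.ext rfl ?_
      change q = q - w.s k τ + w.s k τ
      omega

theorem size_cut (h : y.CutOK C C2 j0 j1) : (y.cut C C2 j0 j1).size = y.size - (j1 - j0) := by
  have hne := h.ne
  have h1 : ∀ E, (y.cut C C2 j0 j1).len E = y.len E + (if E = C then j0 - y.len C else 0) +
      (if E = C2 then y.len C - j1 else 0) := by
    intro E
    simp only [cut]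
    by_cases hE : E = C
    · subst hE
      rw [if_pos rfl, if_pos rfl, if_neg hne]
      omega
    · by_cases hE2 : E = C2
      · rw [if_neg hE, if_pos hE2, if_neg hE, if_pos hE2, hE2, h.spare]
        omega
      · rw [if_neg hE, if_neg hE2, if_neg hE, if_neg hE2]
        omega
  unfold size
  rw [Finset.sum_congr rfl fun E _ => h1 E, Finset.sum_add_distrib, Finset.sum_add_distrib,
    Finset.sum_ite_eq', Finset.sum_ite_eq', if_pos (Finset.mem_univ _), if_pos (Finset.mem_univ _)]
  omega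

theorem size_uncut (hne : C ≠ C2) (m : ℤ) (w : Sys β γ) :
    (y.uncut C C2 j1 m w).size = w.size + m := by
  have h1 : ∀ E, (y.uncut C C2 j1 m w).len E = w.len E + (if E = C then m + w.len C2 else 0) +
      (if E = C2 then - w.len C2 else 0) := by
    intro E
    simp only [uncut]
    by_cases hE : E = C
    · subst hE
      rw [if_pos rfl, if_pos rfl, if_neg hne]
      omega
    · by_cases hE2 : E = C2
      · rw [if_neg hE, if_pos hE2, if_neg hE, if_pos hE2, hE2]
        omega
      · rw [if_neg hE, if_neg hE2, if_neg hE, if_neg hE2]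
        omega
  unfold size
  rw [Finset.sum_congr rfl fun E _ => h1 E, Finset.sum_add_distrib, Finset.sum_add_distrib,
    Finset.sum_ite_eq', Finset.sum_ite_eq', if_pos (Finset.mem_univ _), if_pos (Finset.mem_univ _)]
  omega

theorem uncut_gap (hy : y.WF) (h : y.CutOK C C2 j0 j1) {w : Sys β γ} (hw : (y.cut C C2 j0 j1).Le w)
    {m : ℤ} (hm : 0 ≤ m) (k : γ) (σ : Bool) (hb : y.b k σ = C) :
    (y.uncut C C2 j1 m w).s k σ + (y.uncut C C2 j1 m w).ln k ≤ w.len C ∨
      w.len C + m ≤ (y.uncut C C2 j1 m w).s k σ := by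
  have hwf : w.WF := Le.wf hw (cut_wf hy h)
  have hs := hwf.s_nonneg k σ
  by_cases hc : j1 ≤ y.s k σ
  · right
    simp only [uncut]
    rw [if_pos ⟨hb, hc⟩]
    omega
  · left
    simp only [uncut]
    rw [if_neg (fun h' => hc h'.2)]
    exact D3_w_le hy h hw hb hc

theorem uncut_aff {μ : Sys β γ → ℤ} (hμ : (fun w => (μ w : ℚ)) ∈ Aff β γ) {f : Sys β γ → ℚ}
    (hf : f ∈ Aff β γ) : (fun w => f (y.uncut C C2 j1 (μ w) w)) ∈ Aff β γ := by
  refine aff_comp (fun w => y.uncut C C2 j1 (μ w) w) ?_ ?_ ?_ hf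
  · intro k σ
    by_cases hc : y.b k σ = C ∧ j1 ≤ y.s k σ
    · have e : (fun w => (((y.uncut C C2 j1 (μ w) w).s k σ : ℤ) : ℚ)) =
          fun w => ((w.len C : ℚ) + (μ w : ℚ)) + (w.s k σ : ℚ) := by
        funext w
        simp only [uncut, if_pos hc]
        push_cast
        ring
      rw [e]
      exact aff_add (aff_add (aff_len C) hμ) (aff_s k σ)
    · have e : (fun w => (((y.uncut C C2 j1 (μ w) w).s k σ : ℤ) : ℚ)) =
          fun w => (w.s k σ : ℚ) := by
        funext w
        simp only [uncut, if_neg hc]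
      rw [e]
      exact aff_s k σ
  · intro k
    exact aff_ln k
  · intro E
    by_cases h1 : E = C
    · have e : (fun w => (((y.uncut C C2 j1 (μ w) w).len E : ℤ) : ℚ)) =
          fun w => ((w.len C : ℚ) + (μ w : ℚ)) + (w.len C2 : ℚ) := by
        funext w
        simp only [uncut, if_pos h1]
        push_cast
        ring
      rw [e]
      exact aff_add (aff_add (aff_len C) hμ) (aff_len C2)
    · by_cases h2 : E = C2
      · have e : (fun w => (((y.uncut C C2 j1 (μ w) w).len E : ℤ) : ℚ)) = fun _ => (0 : ℚ) := by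
          funext w
          simp only [uncut, if_neg h1, if_pos h2]
          norm_num
        rw [e]
        exact aff_const 0
      · have e : (fun w => (((y.uncut C C2 j1 (μ w) w).len E : ℤ) : ℚ)) =
            fun w => (w.len E : ℚ) := by
          funext w
          simp only [uncut, if_neg h1, if_neg h2]
        rw [e]
        exact aff_len E

/-- removing an uncovered interval -/
theorem opB {N : ℤ} (hy : y.WF) (h : y.CutOK C C2 j0 j1) (hc : Claim N (y.cut C C2 j0 j1)) :
    Claim (N + 1) y := by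
  refine claim_of_lift2 (y' := y.cut C C2 j0 j1) (fun w => y.uncut C C2 j1 0 w)
    (fun w => y.uncut C C2 j1 1 w) (fun f hf => ?_) (fun f hf => ?_) ?_ ?_
    (1 - ((j1 - j0 : ℤ) : ℚ)) ?_ hc
  · refine uncut_aff (μ := fun _ => 0) ?_ hf
    have := aff_const (β := β) (γ := γ) (0 : ℚ)
    simpa only [Int.cast_zero] using this
  · refine uncut_aff (μ := fun _ => 1) ?_ hf
    have := aff_const (β := β) (γ := γ) (1 : ℚ)
    simpa only [Int.cast_one] using this
  · intro w' h1 h2 h3
    refine ⟨uncut_le hy h h1 le_rfl, uncut_acyc hy h h1 le_rfl h2, ?_⟩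
    rw [size_uncut h.ne]
    omega
  · intro w' h1 h2 h3
    refine ⟨uncut_le hy h h1 (by norm_num), uncut_acyc hy h h1 (by norm_num) h2, ?_⟩
    rw [size_uncut h.ne]
    omega
  · intro f hf
    have hyy := uncut_cut hy h
    have e1 : ∀ m : ℤ, ∀ k σ, (y.uncut C C2 j1 m (y.cut C C2 j0 j1)).s k σ =
        (y.uncut C C2 j1 0 (y.cut C C2 j0 j1)).s k σ +
          m * (if y.b k σ = C ∧ j1 ≤ y.s k σ then 1 else 0) := by
      intro m k σ
      simp only [uncut]
      split_ifs <;> ring
    have e2 : ∀ m : ℤ, ∀ E, (y.uncut C C2 j1 m (y.cut C C2 j0 j1)).len E =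
        (y.uncut C C2 j1 0 (y.cut C C2 j0 j1)).len E + m * (if E = C then 1 else 0) := by
      intro m E
      simp only [uncut]
      split_ifs <;> ring
    refine aff_combo _ ?_ ?_ ?_ hf
    · intro k σ
      have a1 := e1 (j1 - j0) k σ
      have a2 := e1 1 k σ
      rw [hyy] at a1
      rw [a1, a2]
      push_cast
      ring
    · intro k
      change ((y.ln k : ℤ) : ℚ) = (1 - ((j1 - j0 : ℤ) : ℚ)) * (y.ln k : ℚ) +
        (1 - (1 - ((j1 - j0 : ℤ) : ℚ))) * (y.ln k : ℚ)
      ring
    · intro E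
      have a1 := e2 (j1 - j0) E
      have a2 := e2 1 E
      rw [hyy] at a1
      rw [a1, a2]
      push_cast
      ring

end

end Pool.Agent.Helper59.TE
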