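import Pool.Agent.Helper59.TE.D1
import Pool.Agent.Helper59.TE.Ops

set_option autoImplicit false

/-!
# Module D4: filling (helper98)
-/

set_option linter.unusedSectionVars false
set_option linter.unusedVariables false

namespace Pool.Agent.Helper59.TE
open Sys

variable {β γ : Type} [DecidableEq β] [DecidableEq γ] [Fintype β] [Fintype γ]

section
variable {y : Sys β γ} {k k2 : γ} {σ : Bool} {j0 j1 : ℤ}

section fields

theorem D4_u1 : (y.unfill k k2 σ j0 j1).s k σ = y.s k σ := by simp [unfill]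

theorem D4_u2 : (y.unfill k k2 σ j0 j1).s k (!σ) =
    if y.fl k then y.s k (!σ) + (y.s k σ + y.ln k - j0) else y.s k (!σ) := by simp [unfill]

theorem D4_u3 (h : k ≠ k2) : (y.unfill k k2 σ j0 j1).s k2 σ = j1 := by
  simp [unfill, h.symm]

theorem D4_u4 (h : k ≠ k2) : (y.unfill k k2 σ j0 j1).s k2 (!σ) =
    if y.fl k then y.s k (!σ) else y.s k (!σ) + (j1 - y.s k σ) := by
  simp [unfill, h.symm]

theorem D4_u5 {k' : γ} (h1 : k' ≠ k) (h2 : k' ≠ k2) (τ : Bool) :
    (y.unfill k k2 σ j0 j1).s k' τ = y.s k' τ := by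
  simp [unfill, h1, h2]

theorem D4_ul1 : (y.unfill k k2 σ j0 j1).ln k = j0 - y.s k σ := by simp [unfill]

theorem D4_ul2 (h : k ≠ k2) : (y.unfill k k2 σ j0 j1).ln k2 = y.s k σ + y.ln k - j1 := by
  simp [unfill, h.symm]

theorem D4_ul3 {k' : γ} (h1 : k' ≠ k) (h2 : k' ≠ k2) :
    (y.unfill k k2 σ j0 j1).ln k' = y.ln k' := by
  simp [unfill, h1, h2]

theorem D4_ub1 {k' : γ} (h : k' ≠ k2) (τ : Bool) :
    (y.unfill k k2 σ j0 j1).b k' τ = y.b k' τ := by
  simp [unfill, h]

theorem D4_ub2 (τ : Bool) : (y.unfill k k2 σ j0 j1).b k2 τ = y.b k τ := by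
  simp [unfill]

theorem D4_uf1 {k' : γ} (h : k' ≠ k2) : (y.unfill k k2 σ j0 j1).fl k' = y.fl k' := by
  simp [unfill, h]

theorem D4_uf2 : (y.unfill k k2 σ j0 j1).fl k2 = y.fl k := by
  simp [unfill]

theorem D4_f1 (w : Sys β γ) : (y.fill k k2 σ w).s k σ = w.s k σ := by simp [fill]

theorem D4_f2 (w : Sys β γ) : (y.fill k k2 σ w).s k (!σ) =
    if y.fl k then w.s k2 (!σ) else w.s k (!σ) := by simp [fill]

theorem D4_f3 (h : k ≠ k2) (w : Sys β γ) (τ : Bool) : (y.fill k k2 σ w).s k2 τ = 0 := by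
  simp [fill, h.symm]

theorem D4_f4 {k' : γ} (h1 : k' ≠ k) (h2 : k' ≠ k2) (w : Sys β γ) (τ : Bool) :
    (y.fill k k2 σ w).s k' τ = w.s k' τ := by
  simp [fill, h1, h2]

theorem D4_fl1 (w : Sys β γ) : (y.fill k k2 σ w).ln k = w.s k2 σ + w.ln k2 - w.s k σ := by
  simp [fill]

theorem D4_fl2 (h : k ≠ k2) (w : Sys β γ) : (y.fill k k2 σ w).ln k2 = 0 := by
  simp [fill, h.symm]

theorem D4_fl3 {k' : γ} (h1 : k' ≠ k) (h2 : k' ≠ k2) (w : Sys β γ) :
    (y.fill k k2 σ w).ln k' = w.ln k' := by
  simp [fill, h1, h2]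

end fields

theorem unfill_wf (hy : y.WF) (h : y.FillOK k k2 σ j0 j1) :
    (y.unfill k k2 σ j0 j1).WF := by
  obtain ⟨hne, hsp, hsp0, hh0, hh01, hh1, hunc⟩ := h
  have a1 := hy.s_nonneg k σ
  have a2 := hy.s_nonneg k (!σ)
  have a3 := hy.s_le k σ
  have a4 := hy.s_le k (!σ)
  refine ⟨hy.len_nonneg, ?_, ?_, ?_⟩
  · intro k'
    by_cases h1 : k' = k
    · subst h1
      rw [D4_ul1]
      omega
    by_cases h2 : k' = k2
    · subst h2
      rw [D4_ul2 hne]
      omega
    rw [D4_ul3 h1 h2]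
    exact hy.ln_nonneg k'
  · intro k' τ
    by_cases h1 : k' = k
    · subst h1
      rcases Bool.eq_or_eq_not τ σ with ht | ht
      · rw [ht, D4_u1]
        exact a1
      · rw [ht, D4_u2]
        split_ifs <;> omega
    by_cases h2 : k' = k2
    · subst h2
      rcases Bool.eq_or_eq_not τ σ with ht | ht
      · rw [ht, D4_u3 hne]
        omega
      · rw [ht, D4_u4 hne]
        split_ifs <;> omega
    rw [D4_u5 h1 h2]
    exact hy.s_nonneg k' τ
  · intro k' τ
    by_cases h1 : k' = k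
    · subst h1
      rcases Bool.eq_or_eq_not τ σ with ht | ht
      · rw [ht, D4_u1, D4_ul1, D4_ub1 hne]
        change _ ≤ y.len _
        omega
      · rw [ht, D4_u2, D4_ul1, D4_ub1 hne]
        change _ ≤ y.len _
        split_ifs <;> omega
    by_cases h2 : k' = k2
    · subst h2
      rcases Bool.eq_or_eq_not τ σ with ht | ht
      · rw [ht, D4_u3 hne, D4_ul2 hne, D4_ub2]
        change _ ≤ y.len _
        omega
      · rw [ht, D4_u4 hne, D4_ul2 hne, D4_ub2]
        change _ ≤ y.len _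
        split_ifs <;> omega
    rw [D4_u5 h1 h2, D4_ul3 h1 h2, D4_ub1 h2]
    exact hy.s_le k' τ

theorem fill_unfill (hy : y.WF) (h : y.FillOK k k2 σ j0 j1) :
    y.fill k k2 σ (y.unfill k k2 σ j0 j1) = y := by
  have hne := h.ne
  ext k' τ
  · rfl
  · rfl
  · by_cases h1 : k' = k
    · subst h1
      rcases Bool.eq_or_eq_not τ σ with ht | ht
      · rw [ht, D4_f1, D4_u1]
      · rw [ht, D4_f2]
        split_ifs with hf
        · rw [D4_u4 hne, if_pos hf]
        · rw [D4_u2, if_neg hf]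
    by_cases h2 : k' = k2
    · subst h2
      rw [D4_f3 hne, h.spare0]
    rw [D4_f4 h1 h2, D4_u5 h1 h2]
  · rename_i k'
    by_cases h1 : k' = k
    · subst h1
      rw [D4_fl1, D4_u3 hne, D4_ul2 hne, D4_u1]
      omega
    by_cases h2 : k' = k2
    · subst h2
      rw [D4_fl2 hne, h.spare]
    rw [D4_fl3 h1 h2, D4_ul3 h1 h2]
  · rfl

/-- the band of `y` under a band of `unfill` -/
def D4_kap (k k2 k' : γ) : γ := if k' = k2 then k else k'

theorem D4_cov (hy : y.WF) (h : y.FillOK k k2 σ j0 j1) {k' : γ} {τ : Bool} {E : β} {p : ℤ}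
    (hc : (y.unfill k k2 σ j0 j1).Cov k' τ E p) :
    y.Cov (D4_kap k k2 k') τ E p ∧ y.par (D4_kap k k2 k') τ p = (y.unfill k k2 σ j0 j1).par k' τ p := by
  obtain ⟨hne, hsp, hsp0, hh0, hh01, hh1, hunc⟩ := h
  obtain ⟨hb, hc1, hc2⟩ := hc
  by_cases h2 : k' = k2
  · subst h2
    have hk : D4_kap k k' k' = k := if_pos rfl
    rw [D4_ub2] at hb
    rw [D4_ul2 hne] at hc2
    rw [hk]
    refine ⟨⟨hb, ?_⟩, ?_⟩
    · rcases Bool.eq_or_eq_not τ σ with ht | ht
      · rw [ht, D4_u3 hne] at hc1 hc2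
        rw [ht]
        constructor <;> omega
      · rw [ht, D4_u4 hne] at hc1 hc2
        rw [ht]
        split_ifs at hc1 hc2 <;> constructor <;> omega
    · unfold par
      rw [D4_ub2, D4_uf2, D4_ul2 hne]
      refine Prod.ext rfl ?_
      rcases Bool.eq_or_eq_not τ σ with ht | ht
      · rw [ht, D4_u3 hne, D4_u4 hne]
        dsimp only
        split_ifs <;> omega
      · rw [ht, Bool.not_not, D4_u3 hne, D4_u4 hne]
        dsimp only
        split_ifs <;> omega
  · have hk : D4_kap k k2 k' = k' := if_neg h2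
    rw [hk]
    rw [D4_ub1 h2] at hb
    by_cases h1 : k' = k
    · subst h1
      rw [D4_ul1] at hc2
      refine ⟨⟨hb, ?_⟩, ?_⟩
      · rcases Bool.eq_or_eq_not τ σ with ht | ht
        · rw [ht, D4_u1] at hc1 hc2
          rw [ht]
          constructor <;> omega
        · rw [ht, D4_u2] at hc1 hc2
          rw [ht]
          split_ifs at hc1 hc2 <;> constructor <;> omega
      · unfold par
        rw [D4_ub1 h2, D4_uf1 h2, D4_ul1]
        refine Prod.ext rfl ?_
        rcases Bool.eq_or_eq_not τ σ with ht | ht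
        · rw [ht, D4_u1, D4_u2]
          dsimp only
          split_ifs <;> omega
        · rw [ht, Bool.not_not, D4_u1, D4_u2]
          dsimp only
          split_ifs <;> omega
    · rw [D4_u5 h1 h2] at hc1 hc2
      rw [D4_ul3 h1 h2] at hc2
      refine ⟨⟨hb, hc1, hc2⟩, ?_⟩
      unfold par
      rw [D4_ub1 h2, D4_uf1 h2, D4_ul3 h1 h2, D4_u5 h1 h2, D4_u5 h1 h2]

theorem unfill_acyc (hy : y.WF) (h : y.FillOK k k2 σ j0 j1) (ha : y.Acyc) :
    (y.unfill k k2 σ j0 j1).Acyc := by
  have hne := h.ne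
  have hh0 := h.h0
  have hh01 := h.h01
  have hh1 := h.h1
  obtain ⟨r, hr⟩ := ha
  refine ⟨r, ?_⟩
  intro E p k1 τ1 k3 τ3 c1 c3 r1 r3
  obtain ⟨a1, a2⟩ := D4_cov hy h c1
  obtain ⟨b1, b2⟩ := D4_cov hy h c3
  obtain ⟨e1, e2⟩ := hr E p _ _ _ _ a1 b1 (by rw [a2]; exact r1) (by rw [b2]; exact r3)
  refine ⟨?_, e2⟩
  subst e2
  obtain ⟨-, c1a, c1b⟩ := c1
  obtain ⟨-, c3a, c3b⟩ := c3
  -- the two parts are disjoint
  have hdis : ∀ q : ℤ, (y.unfill k k2 σ j0 j1).s k τ1 ≤ q →
      q < (y.unfill k k2 σ j0 j1).s k τ1 + (y.unfill k k2 σ j0 j1).ln k →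
      (y.unfill k k2 σ j0 j1).s k2 τ1 ≤ q →
      q < (y.unfill k k2 σ j0 j1).s k2 τ1 + (y.unfill k k2 σ j0 j1).ln k2 → False := by
    intro q
    rw [D4_ul1, D4_ul2 hne]
    rcases Bool.eq_or_eq_not τ1 σ with ht | ht
    · rw [ht, D4_u1, D4_u3 hne]
      intros
      omega
    · rw [ht, D4_u2, D4_u4 hne]
      split_ifs <;> intros <;> omega
  unfold D4_kap at e1
  by_cases g1 : k1 = k2 <;> by_cases g3 : k3 = k2
  · rw [g1, g3]
  · rw [if_pos g1, if_neg g3] at e1
    exfalso
    rw [g1] at c1a c1b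
    rw [← e1] at c3a c3b
    exact hdis p c3a c3b c1a c1b
  · rw [if_neg g1, if_pos g3] at e1
    exfalso
    rw [e1] at c1a c1b
    rw [g3] at c3a c3b
    exact hdis p c1a c1b c3a c3b
  · rw [if_neg g1, if_neg g3] at e1
    exact e1

/-- in `unfill` the interval is uncovered -/
theorem unfill_unc (hy : y.WF) (h : y.FillOK k k2 σ j0 j1) (k' : γ) (σ' : Bool)
    (hb : (y.unfill k k2 σ j0 j1).b k' σ' = y.b k σ) :
    (y.unfill k k2 σ j0 j1).s k' σ' + (y.unfill k k2 σ j0 j1).ln k' ≤ j0 ∨
      j1 ≤ (y.unfill k k2 σ j0 j1).s k' σ' := by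
  obtain ⟨hne, hsp, hsp0, hh0, hh01, hh1, hunc⟩ := h
  have hns : ((k, !σ) : γ × Bool) ≠ (k, σ) := by
    intro h
    exact Bool.not_ne_self σ (Prod.ext_iff.mp h).2
  by_cases h1 : k' = k
  · subst h1
    rcases Bool.eq_or_eq_not σ' σ with ht | ht
    · subst ht
      left
      rw [D4_u1, D4_ul1]
      omega
    · rw [ht, D4_ub1 hne] at hb
      have h3 := hunc k' (!σ) hb hns
      rw [ht, D4_u2, D4_ul1]
      split_ifs <;> omega
  by_cases h2 : k' = k2
  · subst h2
    rcases Bool.eq_or_eq_not σ' σ with ht | ht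
    · right
      rw [ht, D4_u3 hne]
    · rw [ht, D4_ub2] at hb
      have h3 := hunc k (!σ) hb hns
      rw [ht, D4_u4 hne, D4_ul2 hne]
      split_ifs <;> omega
  rw [D4_ub1 h2] at hb
  rw [D4_u5 h1 h2, D4_ul3 h1 h2]
  exact hunc k' σ' hb (fun h => h1 (Prod.ext_iff.mp h).1)

theorem unfill_gap (hy : y.WF) (h : y.FillOK k k2 σ j0 j1) :
    y.gap k k2 σ (y.unfill k k2 σ j0 j1) = j1 - j0 := by
  have hne := h.ne
  unfold gap
  rw [D4_u2, D4_u4 hne, D4_ul1, D4_ul2 hne]
  split_ifs <;> omega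

theorem D4_form (hy : y.WF) (h : y.FillOK k k2 σ j0 j1) {w : Sys β γ}
    (hg : w.s k2 σ - (w.s k σ + w.ln k) = y.gap k k2 σ w) (e : EP β γ) :
    ∃ e1, (y.unfill k k2 σ j0 j1).blk e1 = y.blk e ∧
      (y.unfill k k2 σ j0 j1).pos e1 = y.pos e ∧ (y.fill k k2 σ w).pos e = w.pos e1 := by
  have hne := h.ne
  unfold gap at hg
  rcases e with ⟨E, ε⟩ | ⟨⟨k', τ⟩, ε⟩
  · exact ⟨Sum.inl (E, ε), rfl, rfl, rfl⟩
  by_cases h1 : k' = k
  · subst h1
    rcases Bool.eq_or_eq_not τ σ with ht | ht
    · subst ht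
      cases ε
      · refine ⟨Sum.inr ((k', τ), false), ?_, ?_, ?_⟩
        · simp only [blk]; exact D4_ub1 hne τ
        · simp only [pos]; exact D4_u1
        · simp only [pos]; exact D4_f1 w
      · refine ⟨Sum.inr ((k2, τ), true), ?_, ?_, ?_⟩
        · simp only [blk]; exact D4_ub2 τ
        · simp only [pos, if_true]
          rw [D4_u3 hne, D4_ul2 hne]
          omega
        · simp only [pos, if_true]
          rw [D4_f1, D4_fl1]
          omega
    · subst ht
      by_cases hf : y.fl k' = true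
      · rw [if_pos hf] at hg
        cases ε
        · refine ⟨Sum.inr ((k2, !σ), false), ?_, ?_, ?_⟩
          · simp only [blk]; exact D4_ub2 _
          · simp only [pos]
            rw [D4_u4 hne, if_pos hf]
            rfl
          · simp only [pos]
            rw [D4_f2, if_pos hf]
            rfl
        · refine ⟨Sum.inr ((k', !σ), true), ?_, ?_, ?_⟩
          · simp only [blk]; exact D4_ub1 hne _
          · simp only [pos, if_true]
            rw [D4_u2, if_pos hf, D4_ul1]
            omega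
          · simp only [pos, if_true]
            rw [D4_f2, if_pos hf, D4_fl1]
            omega
      · rw [if_neg hf] at hg
        cases ε
        · refine ⟨Sum.inr ((k', !σ), false), ?_, ?_, ?_⟩
          · simp only [blk]; exact D4_ub1 hne _
          · simp only [pos]
            rw [D4_u2, if_neg hf]
            rfl
          · simp only [pos]
            rw [D4_f2, if_neg hf]
            rfl
        · refine ⟨Sum.inr ((k2, !σ), true), ?_, ?_, ?_⟩
          · simp only [blk]; exact D4_ub2 _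
          · simp only [pos, if_true]
            rw [D4_u4 hne, if_neg hf, D4_ul2 hne]
            omega
          · simp only [pos, if_true]
            rw [D4_f2, if_neg hf, D4_fl1]
            omega
  by_cases h2 : k' = k2
  · subst h2
    refine ⟨Sum.inl (y.b k' τ, false), rfl, ?_, ?_⟩
    · simp [pos, h.spare0, h.spare]
    · simp [pos, D4_f3 hne, D4_fl2 hne]
  · refine ⟨Sum.inr ((k', τ), ε), ?_, ?_, ?_⟩
    · simp only [blk]; exact D4_ub1 h2 τ
    · simp only [pos]; rw [D4_u5 h1 h2, D4_ul3 h1 h2]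
    · simp only [pos]; rw [D4_f4 h1 h2, D4_fl3 h1 h2]

theorem fill_le (hy : y.WF) (h : y.FillOK k k2 σ j0 j1) {w : Sys β γ}
    (hw : (y.unfill k k2 σ j0 j1).Le w)
    (hg : w.s k2 σ - (w.s k σ + w.ln k) = y.gap k k2 σ w) : y.Le (y.fill k k2 σ w) := by
  refine ⟨rfl, rfl, ?_⟩
  intro e e' hb hp
  obtain ⟨e1, a1, a2, a3⟩ := D4_form hy h hg e
  obtain ⟨e2, b1, b2, b3⟩ := D4_form hy h hg e'
  rw [a3, b3]
  exact hw.mono e1 e2 (by rw [a1, b1, hb]) (by rw [a2, b2]; exact hp)

theorem fill_acyc (hy : y.WF) (h : y.FillOK k k2 σ j0 j1) {w : Sys β γ}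
    (hw : (y.unfill k k2 σ j0 j1).Le w)
    (hg : w.s k2 σ - (w.s k σ + w.ln k) = y.gap k k2 σ w)
    (hu : ∀ k' σ', w.b k' σ' = w.b k σ →
      w.s k' σ' + w.ln k' ≤ w.s k σ + w.ln k ∨ w.s k2 σ ≤ w.s k' σ')
    (ha : w.Acyc) : (y.fill k k2 σ w).Acyc := by
  have hwf : w.WF := Le.wf hw (unfill_wf hy h)
  have hne := h.ne
  have hln := hwf.ln_nonneg k
  have hln2 := hwf.ln_nonneg k2
  have hwb : ∀ k' τ, k' ≠ k2 → w.b k' τ = y.b k' τ := by
    intro k' τ hk
    rw [hw.b_eq, D4_ub1 hk]
  have hwb2 : ∀ τ, w.b k2 τ = y.b k τ := by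
    intro τ
    rw [hw.b_eq, D4_ub2]
  have hwf1 : ∀ k', k' ≠ k2 → w.fl k' = y.fl k' := by
    intro k' hk
    rw [hw.fl_eq, D4_uf1 hk]
  have hwf2 : w.fl k2 = y.fl k := by
    rw [hw.fl_eq, D4_uf2]
  have hgap : w.s k σ + w.ln k ≤ w.s k2 σ := by
    have := hw.mono (Sum.inr ((k, σ), true)) (Sum.inr ((k2, σ), false))
      (by simp only [blk]; rw [D4_ub1 hne, D4_ub2]) (by
        simp only [pos, if_true]
        rw [D4_u1, D4_ul1, D4_u3 hne]
        have := h.h01
        simp only [Bool.false_eq_true, if_false]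
        omega)
    simpa only [pos, if_true, Bool.false_eq_true, if_false] using this
  -- the side `(k, !σ)` of the filled system does not meet the gap
  have hdisj : y.b k (!σ) = y.b k σ →
      (y.fill k k2 σ w).s k (!σ) + (y.fill k k2 σ w).ln k ≤ w.s k σ + w.ln k ∨
      w.s k2 σ ≤ (y.fill k k2 σ w).s k (!σ) := by
    intro hb
    have hns : ((k, !σ) : γ × Bool) ≠ (k, σ) := by
      intro h
      exact Bool.not_ne_self σ (Prod.ext_iff.mp h).2
    rcases h.unc k (!σ) hb hns with h3 | h3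
    · left
      obtain ⟨e1, a1, a2, a3⟩ := D4_form hy h hg (Sum.inr ((k, !σ), true))
      have h4 := hw.mono e1 (Sum.inr ((k, σ), true)) (by
        rw [a1]; simp only [blk]; rw [D4_ub1 hne, hb]) (by
        rw [a2]; simp only [pos, if_true]; rw [D4_u1, D4_ul1]; omega)
      rw [← a3] at h4
      simpa only [pos, if_true] using h4
    · right
      obtain ⟨e1, a1, a2, a3⟩ := D4_form hy h hg (Sum.inr ((k, !σ), false))
      have h4 := hw.mono (Sum.inr ((k2, σ), false)) e1 (by
        rw [a1]; simp only [blk]; rw [D4_ub2, hb]) (by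
        rw [a2]; simp only [pos, Bool.false_eq_true, if_false]; rw [D4_u3 hne]; exact h3)
      rw [← a3] at h4
      simpa only [pos, Bool.false_eq_true, if_false] using h4
  -- only `(k, σ)` covers the gap
  have honly : ∀ k' τ q, (y.fill k k2 σ w).Cov k' τ (y.b k σ) q → w.s k σ + w.ln k ≤ q →
      q < w.s k2 σ → k' = k ∧ τ = σ := by
    intro k' τ q ⟨hb, hc1, hc2⟩ hq1 hq2
    by_cases h1 : k' = k
    · subst h1
      refine ⟨rfl, ?_⟩
      rcases Bool.eq_or_eq_not τ σ with ht | ht
      · exact ht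
      · exfalso
        subst ht
        rcases hdisj hb with h3 | h3 <;> omega
    · exfalso
      by_cases h2 : k' = k2
      · subst h2
        rw [D4_fl2 hne] at hc2
        omega
      · rw [D4_f4 h1 h2] at hc1 hc2
        rw [D4_fl3 h1 h2] at hc2
        have hb' : w.b k' τ = w.b k σ := by
          rw [hwb k' τ h2, hwb k σ hne]
          exact hb
        rcases hu k' τ hb' with h3 | h3 <;> omega
  obtain ⟨r, hr⟩ := ha
  unfold gap at hg
  classical
  -- `J c`: the cell `c` is in the gap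
  let J : β × ℤ → Prop := fun c => c.1 = y.b k σ ∧ w.s k σ + w.ln k ≤ c.2 ∧ c.2 < w.s k2 σ
  let H : β × ℤ → ℕ := fun c => if J c then 1 + r ((y.fill k k2 σ w).par k σ c.2) else r c
  -- partners are covered
  have hparcov : ∀ (k' : γ) (τ : Bool) (E : β) (p : ℤ), (y.fill k k2 σ w).Cov k' τ E p →
      (y.fill k k2 σ w).Cov k' (!τ) ((y.fill k k2 σ w).par k' τ p).1
        ((y.fill k k2 σ w).par k' τ p).2 := by
    intro k' τ E p ⟨hb, hc1, hc2⟩
    refine ⟨rfl, ?_⟩
    unfold par
    dsimp only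
    split_ifs <;> constructor <;> omega
  have hinv : ∀ (p : ℤ), (y.fill k k2 σ w).par k σ ((y.fill k k2 σ w).par k (!σ) p).2 =
      (y.b k (!σ), p) := by
    intro p
    unfold par
    rw [Bool.not_not]
    refine Prod.ext rfl ?_
    dsimp only
    split_ifs <;> omega
  -- the main correspondence
  have hmain : ∀ k' τ E p, (y.fill k k2 σ w).Cov k' τ E p → ¬ J (E, p) →
      H ((y.fill k k2 σ w).par k' τ p) ≤ H (E, p) →
      ∃ κ, w.Cov κ τ E p ∧ r (w.par κ τ p) ≤ r (E, p) ∧
        ((k' ≠ k ∧ k' ≠ k2 ∧ κ = k') ∨ (k' = k ∧ (κ = k ∨ κ = k2))) := by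
    intro k' τ E p hc hJ hH
    have hHE : H (E, p) = r (E, p) := if_neg hJ
    rw [hHE] at hH
    obtain ⟨hb, hc1, hc2⟩ := hc
    by_cases h1 : k' = k
    · subst h1
      -- values of `par`
      have hpc := hparcov k' τ E p ⟨hb, hc1, hc2⟩
      rcases Bool.eq_or_eq_not τ σ with ht | ht
      · subst ht
        have hnJ : ¬ J ((y.fill k' k2 τ w).par k' τ p) := by
          rintro ⟨j1, j2, j3⟩
          rw [j1] at hpc
          exact Bool.not_ne_self τ (honly k' (!τ) _ hpc j2 j3).2
        have hH' : H ((y.fill k' k2 τ w).par k' τ p) = r ((y.fill k' k2 τ w).par k' τ p) :=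
          if_neg hnJ
        rw [hH'] at hH
        rw [D4_f1] at hc1 hc2
        rw [D4_fl1] at hc2
        have hb' : y.b k' τ = E := hb
        by_cases hp : p < w.s k' τ + w.ln k'
        · refine ⟨k', ⟨by rw [hwb k' τ hne]; exact hb', hc1, hp⟩, ?_, Or.inr ⟨rfl, Or.inl rfl⟩⟩
          have e : w.par k' τ p = (y.fill k' k2 τ w).par k' τ p := by
            unfold par
            rw [hwb k' _ hne, hwf1 k' hne]
            change _ = (y.b k' (!τ), if y.fl k' then _ else _)
            refine Prod.ext rfl ?_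
            dsimp only
            rw [D4_f1, D4_f2, D4_fl1]
            split_ifs at hg ⊢ <;> omega
          rw [e]; exact hH
        · have hp2 : w.s k2 τ ≤ p := by
            by_contra hcon
            exact hJ ⟨hb'.symm, not_lt.mp hp, not_le.mp hcon⟩
          refine ⟨k2, ⟨by rw [hwb2]; exact hb', hp2, by omega⟩, ?_, Or.inr ⟨rfl, Or.inr rfl⟩⟩
          have e : w.par k2 τ p = (y.fill k' k2 τ w).par k' τ p := by
            unfold par
            rw [hwb2, hwf2]
            change _ = (y.b k' (!τ), if y.fl k' then _ else _)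
            refine Prod.ext rfl ?_
            dsimp only
            rw [D4_f1, D4_f2, D4_fl1]
            split_ifs at hg ⊢ <;> omega
          rw [e]; exact hH
      · subst ht
        have hb' : y.b k' (!σ) = E := hb
        by_cases hjp : J ((y.fill k' k2 σ w).par k' (!σ) p)
        · exfalso
          have hH' : H ((y.fill k' k2 σ w).par k' (!σ) p) = 1 + r (E, p) := by
            refine (if_pos hjp).trans ?_
            rw [hinv, hb']
          rw [hH'] at hH
          omega
        · have hH' : H ((y.fill k' k2 σ w).par k' (!σ) p) =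
              r ((y.fill k' k2 σ w).par k' (!σ) p) := if_neg hjp
          rw [hH'] at hH
          have hval : (y.fill k' k2 σ w).par k' (!σ) p = (y.b k' σ,
              if y.fl k' then w.s k' σ + w.s k2 (!σ) + (w.s k2 σ + w.ln k2 - w.s k' σ) - 1 - p
              else w.s k' σ + (p - w.s k' (!σ))) := by
            unfold par
            rw [Bool.not_not]
            change (y.b k' σ, if y.fl k' then _ else _) = _
            refine Prod.ext rfl ?_
            dsimp only
            rw [D4_f1, D4_f2, D4_fl1]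
            split_ifs <;> rfl
          rw [D4_f2] at hc1 hc2
          rw [D4_fl1] at hc2
          have hnj : ¬ (w.s k' σ + w.ln k' ≤ ((y.fill k' k2 σ w).par k' (!σ) p).2 ∧
              ((y.fill k' k2 σ w).par k' (!σ) p).2 < w.s k2 σ) := by
            intro hcon
            refine hjp ⟨?_, hcon⟩
            rw [hval]
          rw [hval] at hnj hH
          dsimp only at hnj
          by_cases hf : y.fl k' = true
          · rw [if_pos hf] at hc1 hc2 hnj hH hg
            by_cases hp : p < w.s k2 (!σ) + w.ln k2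
            · refine ⟨k2, ⟨by rw [hwb2]; exact hb', by omega, hp⟩, ?_, Or.inr ⟨rfl, Or.inr rfl⟩⟩
              have e : w.par k2 (!σ) p = (y.b k' σ,
                  w.s k' σ + w.s k2 (!σ) + (w.s k2 σ + w.ln k2 - w.s k' σ) - 1 - p) := by
                unfold par
                rw [Bool.not_not, hwb2, hwf2, if_pos hf]
                refine Prod.ext rfl ?_
                dsimp only
                omega
              rw [e]; exact hH
            · refine ⟨k', ⟨by rw [hwb k' _ hne]; exact hb', by omega, by omega⟩, ?_,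
                Or.inr ⟨rfl, Or.inl rfl⟩⟩
              have e : w.par k' (!σ) p = (y.b k' σ,
                  w.s k' σ + w.s k2 (!σ) + (w.s k2 σ + w.ln k2 - w.s k' σ) - 1 - p) := by
                unfold par
                rw [Bool.not_not, hwb k' _ hne, hwf1 k' hne, if_pos hf]
                refine Prod.ext rfl ?_
                dsimp only
                omega
              rw [e]; exact hH
          · rw [if_neg hf] at hc1 hc2 hnj hH hg
            by_cases hp : p < w.s k' (!σ) + w.ln k'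
            · refine ⟨k', ⟨by rw [hwb k' _ hne]; exact hb', by omega, by omega⟩, ?_,
                Or.inr ⟨rfl, Or.inl rfl⟩⟩
              have e : w.par k' (!σ) p = (y.b k' σ, w.s k' σ + (p - w.s k' (!σ))) := by
                unfold par
                rw [Bool.not_not, hwb k' _ hne, hwf1 k' hne, if_neg hf]
              rw [e]; exact hH
            · refine ⟨k2, ⟨by rw [hwb2]; exact hb', by omega, by omega⟩, ?_,
                Or.inr ⟨rfl, Or.inr rfl⟩⟩
              have e : w.par k2 (!σ) p = (y.b k' σ, w.s k' σ + (p - w.s k' (!σ))) := by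
                unfold par
                rw [Bool.not_not, hwb2, hwf2, if_neg hf]
                refine Prod.ext rfl ?_
                dsimp only
                omega
              rw [e]; exact hH
    · by_cases h2 : k' = k2
      · exfalso
        subst h2
        rw [D4_fl2 hne] at hc2
        omega
      · have hpc := hparcov k' τ E p ⟨hb, hc1, hc2⟩
        have hnJ : ¬ J ((y.fill k k2 σ w).par k' τ p) := by
          rintro ⟨j1, j2, j3⟩
          rw [j1] at hpc
          exact h1 (honly k' (!τ) _ hpc j2 j3).1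
        have hH' : H ((y.fill k k2 σ w).par k' τ p) = r ((y.fill k k2 σ w).par k' τ p) :=
          if_neg hnJ
        rw [hH'] at hH
        have e : w.par k' τ p = (y.fill k k2 σ w).par k' τ p := by
          unfold par
          rw [hwb k' _ h2, hwf1 k' h2, D4_f4 h1 h2, D4_f4 h1 h2, D4_fl3 h1 h2]
          rfl
        rw [D4_f4 h1 h2] at hc1 hc2
        rw [D4_fl3 h1 h2] at hc2
        have hb' : y.b k' τ = E := hb
        refine ⟨k', ⟨by rw [hwb k' τ h2]; exact hb', hc1, hc2⟩, ?_, Or.inl ⟨h1, h2, rfl⟩⟩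
        rw [e]
        exact hH
  refine ⟨H, ?_⟩
  intro E p k1 τ1 k3 τ3 c1 c3 r1 r3
  by_cases hJ : J (E, p)
  · obtain ⟨j1, j2, j3⟩ := hJ
    dsimp only at j1 j2 j3
    subst j1
    obtain ⟨a1, a2⟩ := honly _ _ _ c1 j2 j3
    obtain ⟨b1, b2⟩ := honly _ _ _ c3 j2 j3
    exact ⟨a1.trans b1.symm, a2.trans b2.symm⟩
  · obtain ⟨κ1, a1, a2, a3⟩ := hmain k1 τ1 E p c1 hJ r1
    obtain ⟨κ3, b1, b2, b3⟩ := hmain k3 τ3 E p c3 hJ r3
    obtain ⟨e1, e2⟩ := hr E p κ1 τ1 κ3 τ3 a1 b1 a2 b2
    refine ⟨?_, e2⟩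
    rcases a3 with ⟨g1, g2, g3⟩ | ⟨g1, g2⟩ <;> rcases b3 with ⟨f1, f2, f3⟩ | ⟨f1, f2⟩
    · rw [← g3, ← f3, e1]
    · exfalso
      rcases f2 with f2 | f2
      · exact g1 (by rw [← g3, e1, f2])
      · exact g2 (by rw [← g3, e1, f2])
    · exfalso
      rcases g2 with g2 | g2
      · exact f1 (by rw [← f3, ← e1, g2])
      · exact f2 (by rw [← f3, ← e1, g2])
    · rw [g1, f1]

theorem fill_size (w : Sys β γ) : (y.fill k k2 σ w).size = w.size := rfl

theorem fill_aff {f : Sys β γ → ℚ} (hf : f ∈ Aff β γ) :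
    (fun w => f (y.fill k k2 σ w)) ∈ Aff β γ := by
  refine aff_comp (fun w => y.fill k k2 σ w) ?_ ?_ ?_ hf
  · intro k' τ
    by_cases h1 : k' = k
    · subst h1
      rcases Bool.eq_or_eq_not τ σ with ht | ht
      · subst ht
        simp only [D4_f1]
        exact aff_s k' τ
      · subst ht
        simp only [D4_f2]
        split_ifs
        · exact aff_s k2 (!σ)
        · exact aff_s k' (!σ)
    by_cases h2 : k' = k2
    · subst h2
      simp only [D4_f3 (Ne.symm h1), Int.cast_zero]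
      exact aff_const 0
    simp only [D4_f4 h1 h2]
    exact aff_s k' τ
  · intro k'
    by_cases h1 : k' = k
    · subst h1
      have e : (fun w => (((y.fill k' k2 σ w).ln k' : ℤ) : ℚ)) =
          fun w => ((w.s k2 σ : ℚ) + (w.ln k2 : ℚ)) - (w.s k' σ : ℚ) := by
        funext w
        rw [D4_fl1]
        push_cast
        rfl
      rw [e]
      exact aff_sub (aff_add (aff_s k2 σ) (aff_ln k2)) (aff_s k' σ)
    by_cases h2 : k' = k2
    · subst h2
      simp only [D4_fl2 (Ne.symm h1), Int.cast_zero]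
      exact aff_const 0
    simp only [D4_fl3 h1 h2]
    exact aff_ln k'
  · intro E
    exact aff_len E

theorem gap_aff : (fun w => (y.gap k k2 σ w : ℚ)) ∈ Aff β γ := by
  by_cases hf : y.fl k = true
  · have e : (fun w => (y.gap k k2 σ w : ℚ)) =
        fun w : Sys β γ => (w.s k (!σ) : ℚ) - ((w.s k2 (!σ) : ℚ) + (w.ln k2 : ℚ)) := by
      funext w
      unfold gap
      rw [if_pos hf]
      push_cast
      rfl
    rw [e]
    exact aff_sub (aff_s k (!σ)) (aff_add (aff_s k2 (!σ)) (aff_ln k2))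
  · have e : (fun w => (y.gap k k2 σ w : ℚ)) =
        fun w : Sys β γ => (w.s k2 (!σ) : ℚ) - ((w.s k (!σ) : ℚ) + (w.ln k : ℚ)) := by
      funext w
      unfold gap
      rw [if_neg hf]
      push_cast
      rfl
    rw [e]
    exact aff_sub (aff_s k2 (!σ)) (aff_add (aff_s k (!σ)) (aff_ln k))

end

end Pool.Agent.Helper59.TE
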