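import Pool.Agent.Helper59.TE.D3
import Pool.Agent.Helper59.TE.D4

set_option autoImplicit false

namespace Pool.Agent.Helper59.TE
open Sys

variable {β γ : Type} [DecidableEq β] [DecidableEq γ] [Fintype β] [Fintype γ]

section
variable {y : Sys β γ} {k k2 : γ} {σ : Bool} {j0 j1 : ℤ} {C2 : β}

theorem opA_cutOK (hy : y.WF) (h : y.FillOK k k2 σ j0 j1) (hC : y.b k σ ≠ C2) (hC2 : y.len C2 = 0) :
    (y.unfill k k2 σ j0 j1).CutOK (y.b k σ) C2 j0 j1 where
  ne := hC
  spare := hC2
  h0 := le_trans (hy.s_nonneg k σ) h.h0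
  h01 := h.h01
  h1 := le_trans h.h1 (hy.s_le k σ)
  unc := unfill_unc hy h

omit [Fintype β] [Fintype γ] [DecidableEq β] in
theorem D4b_moved (h : y.FillOK k k2 σ j0 j1) :
    ((y.unfill k k2 σ j0 j1).b k (!σ) = y.b k σ ∧ j1 ≤ (y.unfill k k2 σ j0 j1).s k (!σ)) ↔
    ((y.unfill k k2 σ j0 j1).b k2 (!σ) = y.b k σ ∧ j1 ≤ (y.unfill k k2 σ j0 j1).s k2 (!σ)) := by
  have hne := h.ne
  have hu := h.unc k (!σ)
  have h0 := h.h0
  have h01 := h.h01
  have h1 := h.h1
  have hs : (!σ) ≠ σ := by cases σ <;> simp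
  have e1 : (y.unfill k k2 σ j0 j1).b k (!σ) = y.b k (!σ) := by simp [Sys.unfill, hne]
  have e2 : (y.unfill k k2 σ j0 j1).b k2 (!σ) = y.b k (!σ) := by simp [Sys.unfill]
  rw [e1, e2]
  constructor
  · rintro ⟨hb, hs1⟩
    refine ⟨hb, ?_⟩
    have hu' := hu hb (by simp)
    simp only [Sys.unfill, if_true, if_neg hs, if_neg hne.symm] at hs1 ⊢
    by_cases hf : y.fl k = true
    · simp only [hf, if_true] at hs1 ⊢; omega
    · simp only [hf] at hs1 ⊢; simp at hs1 ⊢; omega
  · rintro ⟨hb, hs1⟩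
    refine ⟨hb, ?_⟩
    have hu' := hu hb (by simp)
    simp only [Sys.unfill, if_true, if_neg hs, if_neg hne.symm] at hs1 ⊢
    by_cases hf : y.fl k = true
    · simp only [hf, if_true] at hs1 ⊢; omega
    · simp only [hf] at hs1 ⊢; simp at hs1 ⊢; omega

omit [Fintype β] [Fintype γ] in
theorem D4b_gap (h : y.FillOK k k2 σ j0 j1) (m : ℤ) (w : Sys β γ) :
    y.gap k k2 σ ((y.unfill k k2 σ j0 j1).uncut (y.b k σ) C2 j1 m w) = y.gap k k2 σ w := by
  have hm := D4b_moved h
  unfold Sys.gap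
  by_cases hb : (y.unfill k k2 σ j0 j1).b k (!σ) = y.b k σ ∧ j1 ≤ (y.unfill k k2 σ j0 j1).s k (!σ)
  · have hb' := hm.1 hb
    simp only [Sys.uncut, if_pos hb, if_pos hb']
    split_ifs <;> ring
  · have hb' := fun h' => hb (hm.2 h')
    simp only [Sys.uncut, if_neg hb, if_neg hb']

omit [Fintype γ] in
theorem D4b_len_le_size {w : Sys β γ} (hw : w.WF) (E : β) : w.len E ≤ w.size :=
  Finset.single_le_sum (f := w.len) (fun i _ => hw.len_nonneg i) (Finset.mem_univ E)

theorem opA {N : ℤ} (hy : y.WF) (h : y.FillOK k k2 σ j0 j1) (hC : y.b k σ ≠ C2) (hC2 : y.len C2 = 0)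
    (hc : Claim N ((y.unfill k k2 σ j0 j1).cut (y.b k σ) C2 j0 j1)) : Claim (2 * N) y := by
  set C := y.b k σ with hCdef
  set y1 := y.unfill k k2 σ j0 j1 with hy1
  have hcut : y1.CutOK C C2 j0 j1 := opA_cutOK hy h hC hC2
  set yc := y1.cut C C2 j0 j1 with hyc
  have y1wf : y1.WF := unfill_wf hy h
  have ycwf : yc.WF := cut_wf y1wf hcut
  have hgapyc : y.gap k k2 σ yc = j1 - j0 := by
    rw [← D4b_gap (C2 := C2) h (j1 - j0) yc, ← hy1, ← hCdef, uncut_cut y1wf hcut]
    exact unfill_gap hy h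
  refine claim_of_lift (fun w => y.fill k k2 σ (y1.uncut C C2 j1 (y.gap k k2 σ w) w)) ?_ ?_ ?_ hc
  · intro f hf
    exact uncut_aff (f := fun w => f (y.fill k k2 σ w)) gap_aff (fill_aff hf)
  · intro w hw ha hN
    have wwf : w.WF := Le.wf hw ycwf
    have hs : (!σ) ≠ σ := by cases σ <;> simp
    have hne := h.ne
    -- blocks
    have hm := D4b_moved h
    rw [← hy1, ← hCdef] at hm
    have hblk : yc.b k (!σ) = yc.b k2 (!σ) := by
      have e : y1.b k (!σ) = y1.b k2 (!σ) := by simp [hy1, Sys.unfill, hne]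
      simp only [hyc, Sys.cut]
      by_cases hb : y1.b k (!σ) = C ∧ j1 ≤ y1.s k (!σ)
      · rw [if_pos hb, if_pos (hm.1 hb)]
      · rw [if_neg hb, if_neg (fun h' => hb (hm.2 h')), e]
    have hm0 : 0 ≤ y.gap k k2 σ w := by
      have h01 := h.h01
      unfold Sys.gap at hgapyc ⊢
      by_cases hf : y.fl k = true
      · rw [if_pos hf] at hgapyc ⊢
        have := hw.mono (Sum.inr ((k2, !σ), true)) (Sum.inr ((k, !σ), false))
          (by simpa [Sys.blk] using hblk.symm) (by simp [Sys.pos]; omega)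
        simp [Sys.pos] at this
        omega
      · rw [if_neg hf] at hgapyc ⊢
        have := hw.mono (Sum.inr ((k, !σ), true)) (Sum.inr ((k2, !σ), false))
          (by simpa [Sys.blk] using hblk) (by simp [Sys.pos]; omega)
        simp [Sys.pos] at this
        omega
    set m := y.gap k k2 σ w with hmdef
    set w1 := y1.uncut C C2 j1 m w with hw1
    have hle1 : y1.Le w1 := uncut_le y1wf hcut hw hm0
    have hg1 : y.gap k k2 σ w1 = m := by
      rw [hw1, hy1, hCdef, D4b_gap h m w]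
    -- positions
    have hyck : yc.s k σ = y1.s k σ ∧ yc.b k σ = C := by
      have h0 := h.h0
      have h01 := h.h01
      have e : y1.s k σ = y.s k σ := by simp [hy1, Sys.unfill]
      have : ¬ (y1.b k σ = C ∧ j1 ≤ y1.s k σ) := by rw [e]; intro h'; omega
      simp only [hyc, Sys.cut, if_neg this]
      refine ⟨trivial, ?_⟩
      simp [hy1, Sys.unfill, hne, hCdef]
    have hyck2 : yc.s k2 σ = 0 ∧ yc.b k2 σ = C2 := by
      have e : y1.s k2 σ = j1 := by simp [hy1, Sys.unfill, hne.symm]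
      have e' : y1.b k2 σ = C := by simp [hy1, Sys.unfill, hCdef]
      have : (y1.b k2 σ = C ∧ j1 ≤ y1.s k2 σ) := by rw [e, e']; exact ⟨rfl, le_refl _⟩
      simp only [hyc, Sys.cut, if_pos this]
      refine ⟨by rw [e]; ring, trivial⟩
    have hlnk : yc.ln k = j0 - y.s k σ := by simp [hyc, Sys.cut, hy1, Sys.unfill]
    have hlenC : yc.len C = j0 := by simp [hyc, Sys.cut]
    have hend : w.s k σ + w.ln k = w.len C := by
      have a := hw.mono (Sum.inr ((k, σ), true)) (Sum.inl (C, true))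
        (by simpa [Sys.blk] using hyck.2) (by
          simp only [Sys.pos, if_true, hlnk, hlenC, hyck.1]
          have e : y1.s k σ = y.s k σ := by simp [hy1, Sys.unfill]
          omega)
      have b := hw.mono (Sum.inl (C, true)) (Sum.inr ((k, σ), true))
        (by simpa [Sys.blk] using hyck.2.symm) (by
          simp only [Sys.pos, if_true, hlnk, hlenC, hyck.1]
          have e : y1.s k σ = y.s k σ := by simp [hy1, Sys.unfill]
          omega)
      simp [Sys.pos] at a b
      omega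
    have hst : w.s k2 σ = 0 := by
      have a := hw.mono (Sum.inr ((k2, σ), false)) (Sum.inl (C2, false))
        (by simpa [Sys.blk] using hyck2.2) (by simp [Sys.pos, hyck2.1])
      have b := wwf.s_nonneg k2 σ
      simp [Sys.pos] at a
      omega
    have hw1k : w1.s k σ = w.s k σ := by
      have h0 := h.h0
      have h01 := h.h01
      have e : y1.s k σ = y.s k σ := by simp [hy1, Sys.unfill]
      have : ¬ (y1.b k σ = C ∧ j1 ≤ y1.s k σ) := by rw [e]; intro h'; omega
      simp only [hw1, Sys.uncut, if_neg this]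
    have hw1k2 : w1.s k2 σ = w.len C + m := by
      have e : y1.s k2 σ = j1 := by simp [hy1, Sys.unfill, hne.symm]
      have e' : y1.b k2 σ = C := by simp [hy1, Sys.unfill, hCdef]
      have : (y1.b k2 σ = C ∧ j1 ≤ y1.s k2 σ) := by rw [e, e']; exact ⟨rfl, le_refl _⟩
      simp only [hw1, Sys.uncut, if_pos this, hst]
      ring
    have hw1ln : w1.ln k = w.ln k := rfl
    have hg : w1.s k2 σ - (w1.s k σ + w1.ln k) = y.gap k k2 σ w1 := by
      rw [hg1, hw1k, hw1k2, hw1ln, hend]; ring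
    have hw1b : w1.b k σ = C := by
      have : w1.b k σ = y1.b k σ := rfl
      rw [this]; simp [hy1, Sys.unfill, hne, hCdef]
    have hu : ∀ k' σ', w1.b k' σ' = w1.b k σ →
        w1.s k' σ' + w1.ln k' ≤ w1.s k σ + w1.ln k ∨ w1.s k2 σ ≤ w1.s k' σ' := by
      intro k' σ' hb
      rw [hw1b] at hb
      have := uncut_gap y1wf hcut hw hm0 k' σ' hb
      rw [← hw1] at this
      rw [hw1k, hw1k2, hw1ln, hend]
      exact this
    refine ⟨fill_le hy h hle1 hg, fill_acyc hy h hle1 hg hu (uncut_acyc y1wf hcut hw hm0 ha), ?_⟩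
    have hsz : (y.fill k k2 σ w1).size = w.size + m := by
      rw [fill_size, hw1, size_uncut hC]
    have hmle : m ≤ w.size := by
      rw [hmdef]
      unfold Sys.gap
      have a1 := wwf.s_le k (!σ)
      have a2 := wwf.s_le k2 (!σ)
      have a3 := wwf.s_nonneg k (!σ)
      have a4 := wwf.s_nonneg k2 (!σ)
      have a5 := wwf.ln_nonneg k
      have a6 := wwf.ln_nonneg k2
      have a7 := D4b_len_le_size wwf (w.b k (!σ))
      have a8 := D4b_len_le_size wwf (w.b k2 (!σ))
      split_ifs <;> omega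
    show (y.fill k k2 σ w1).size ≤ 2 * N
    rw [hsz]; omega
  · show y.fill k k2 σ (y1.uncut C C2 j1 (y.gap k k2 σ yc) yc) = y
    rw [hgapyc, uncut_cut y1wf hcut]
    exact fill_unfill hy h
end
end Pool.Agent.Helper59.TE
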