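import Pool.Agent.Helper59.TE.D1
import Pool.Agent.Helper59.TE.Ops

set_option autoImplicit false

namespace Pool.Agent.Helper59.TE
open Sys

theorem D5_neq {a b : Bool} (h : ¬ a = b) : a = !b := by
  revert h; cases a <;> cases b <;> decide

theorem D5_neq' {a b : Bool} (h : ¬ a = !b) : a = b := by
  revert h; cases a <;> cases b <;> decide

section D5a
variable {β γ : Type} [DecidableEq β] [DecidableEq γ]
variable {y : Sys β γ} {C : β} {k1 k2 : γ} {σ1 σ2 : Bool}

theorem D5_b2 (h : y.MrgOK C k1 k2 σ1 σ2) : y.b k2 (!σ2) ≠ C := by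
  intro hb
  have := h.only k2 (!σ2) hb (by rw [h.l2]; exact h.act)
  rcases this with h' | h' <;> rw [Prod.mk.injEq] at h'
  · exact h.ne h'.1.symm
  · have := h'.2; cases σ2 <;> simp at this

theorem D5_b1 (h : y.MrgOK C k1 k2 σ1 σ2) : y.b k1 (!σ1) ≠ C := by
  intro hb
  have := h.only k1 (!σ1) hb (by rw [h.l1]; exact h.act)
  rcases this with h' | h' <;> rw [Prod.mk.injEq] at h'
  · have := h'.2; cases σ1 <;> simp at this
  · exact h.ne h'.1

theorem mrg_wf (hy : y.WF) (h : y.MrgOK C k1 k2 σ1 σ2) (hcl : y.Clean) : (y.mrg C k1 k2 σ1 σ2).WF where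
  len_nonneg E := by
    simp only [Sys.mrg]; split_ifs
    · exact le_refl _
    · exact hy.len_nonneg E
  ln_nonneg k := by
    simp only [Sys.mrg]; split_ifs
    · exact le_refl _
    · exact hy.ln_nonneg k
  s_nonneg k σ := by
    simp only [Sys.mrg]; split_ifs
    · exact hy.s_nonneg _ _
    · exact le_refl _
    · exact hy.s_nonneg k σ
  s_le k σ := by
    have b2 := D5_b2 h
    have b1 := D5_b1 h
    have a2 := hy.s_le k2 (!σ2)
    have hne := h.ne
    have l1 := h.l1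
    have l2 := h.l2
    by_cases hk : k = k1 ∧ σ = σ1
    · obtain ⟨rfl, rfl⟩ := hk
      simp only [Sys.mrg, and_self, if_true, if_neg hne, if_neg b2]
      omega
    · by_cases hk2 : k = k2
      · subst hk2
        simp only [Sys.mrg, if_neg hk, if_true]
        split_ifs
        · simp
        · simpa using hy.len_nonneg _
      · simp only [Sys.mrg, if_neg hk, if_neg hk2]
        split_ifs with hb
        · rcases eq_or_lt_of_le (hy.ln_nonneg k) with hz | hpos
          · rw [hcl k σ hz.symm, ← hz]; simp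
          · exfalso
            rcases h.only k σ hb hpos with h' | h' <;> rw [Prod.mk.injEq] at h'
            · exact hk h'
            · exact hk2 h'.1
        · exact hy.s_le k σ

theorem mrg_clean (hcl : y.Clean) (h : y.MrgOK C k1 k2 σ1 σ2) : (y.mrg C k1 k2 σ1 σ2).Clean := by
  intro k σ hz
  simp only [Sys.mrg] at hz ⊢
  have hne := h.ne
  by_cases hk : k = k1 ∧ σ = σ1
  · obtain ⟨rfl, rfl⟩ := hk
    rw [if_neg hne, h.l1] at hz
    exact absurd hz (ne_of_gt h.act)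
  · rw [if_neg hk]
    split_ifs with hk2
    · rfl
    · rw [if_neg hk2] at hz
      exact hcl k σ hz

/-- through the block `C` in `y` : from the side `(k1, !σ1)` -/
theorem D5_thru1 (h : y.MrgOK C k1 k2 σ1 σ2) (E : β) (p : ℤ) (hc : y.Cov k1 (!σ1) E p) :
    ∃ q, y.par k1 (!σ1) p = (C, q) ∧ y.Cov k1 σ1 C q ∧ y.Cov k2 σ2 C q ∧ y.par k1 σ1 q = (E, p) ∧
      y.par k2 σ2 q = (y.mrg C k1 k2 σ1 σ2).par k1 (!σ1) p := by
  obtain ⟨hb, h1, h2⟩ := hc
  have hne := h.ne
  have l1 := h.l1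
  have l2 := h.l2
  have s1 := h.s1
  have s2 := h.s2
  have e1 : (y.mrg C k1 k2 σ1 σ2).b k1 (!!σ1) = y.b k2 (!σ2) := by simp [Sys.mrg]
  have e2 : (y.mrg C k1 k2 σ1 σ2).s k1 (!!σ1) = y.s k2 (!σ2) := by simp [Sys.mrg]
  have e3 : (y.mrg C k1 k2 σ1 σ2).s k1 (!σ1) = y.s k1 (!σ1) := by simp [Sys.mrg, hne]
  have e4 : (y.mrg C k1 k2 σ1 σ2).ln k1 = y.ln k1 := by simp [Sys.mrg, hne]
  have e5 : (y.mrg C k1 k2 σ1 σ2).fl k1 = xor (y.fl k1) (y.fl k2) := by simp [Sys.mrg]
  refine ⟨(y.par k1 (!σ1) p).2, ?_, ?_, ?_, ?_, ?_⟩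
  · unfold Sys.par
    rw [Bool.not_not, h.b1]
  · unfold Sys.par
    rw [Bool.not_not]
    refine ⟨h.b1, ?_⟩
    simp only
    split_ifs <;> constructor <;> omega
  · unfold Sys.par
    rw [Bool.not_not]
    refine ⟨h.b2, ?_⟩
    simp only
    split_ifs <;> constructor <;> omega
  · unfold Sys.par
    rw [Bool.not_not, hb]
    simp only
    congr 1
    split_ifs <;> omega
  · unfold Sys.par
    rw [e1, e2, e3, e4, e5, Bool.not_not]
    simp only
    congr 1
    cases y.fl k1 <;> cases y.fl k2 <;> simp <;> omega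

/-- through the block `C` in `y` : from the side `(k2, !σ2)` -/
theorem D5_thru2 (h : y.MrgOK C k1 k2 σ1 σ2) (E : β) (p : ℤ) (hc : y.Cov k2 (!σ2) E p) :
    ∃ q, y.par k2 (!σ2) p = (C, q) ∧ y.Cov k1 σ1 C q ∧ y.Cov k2 σ2 C q ∧ y.par k2 σ2 q = (E, p) ∧
      y.par k1 σ1 q = (y.mrg C k1 k2 σ1 σ2).par k1 σ1 p := by
  obtain ⟨hb, h1, h2⟩ := hc
  have hne := h.ne
  have l1 := h.l1
  have l2 := h.l2
  have s1 := h.s1
  have s2 := h.s2
  have hs : (!σ1) ≠ σ1 := by cases σ1 <;> simp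
  have e1 : (y.mrg C k1 k2 σ1 σ2).b k1 (!σ1) = y.b k1 (!σ1) := by simp [Sys.mrg]
  have e2 : (y.mrg C k1 k2 σ1 σ2).s k1 σ1 = y.s k2 (!σ2) := by simp [Sys.mrg]
  have e3 : (y.mrg C k1 k2 σ1 σ2).s k1 (!σ1) = y.s k1 (!σ1) := by simp [Sys.mrg, hne]
  have e4 : (y.mrg C k1 k2 σ1 σ2).ln k1 = y.ln k1 := by simp [Sys.mrg, hne]
  have e5 : (y.mrg C k1 k2 σ1 σ2).fl k1 = xor (y.fl k1) (y.fl k2) := by simp [Sys.mrg]
  refine ⟨(y.par k2 (!σ2) p).2, ?_, ?_, ?_, ?_, ?_⟩
  · unfold Sys.par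
    rw [Bool.not_not, h.b2]
  · unfold Sys.par
    rw [Bool.not_not]
    refine ⟨h.b1, ?_⟩
    simp only
    split_ifs <;> constructor <;> omega
  · unfold Sys.par
    rw [Bool.not_not]
    refine ⟨h.b2, ?_⟩
    simp only
    split_ifs <;> constructor <;> omega
  · unfold Sys.par
    rw [Bool.not_not, hb]
    simp only
    congr 1
    split_ifs <;> omega
  · unfold Sys.par
    rw [e1, e2, e3, e4, e5, Bool.not_not]
    simp only
    congr 1
    cases y.fl k1 <;> cases y.fl k2 <;> simp <;> omega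

theorem mrg_acyc (_hy : y.WF) (h : y.MrgOK C k1 k2 σ1 σ2) (ha : y.Acyc) :
    (y.mrg C k1 k2 σ1 σ2).Acyc := by
  obtain ⟨r, hr⟩ := ha
  have hne := h.ne
  refine ⟨r, ?_⟩
  -- correspondence of counting incidences
  let ι : γ × Bool → γ × Bool := fun s => if s.1 = k1 then (if s.2 = σ1 then (k2, !σ2) else (k1, !σ1)) else s
  have key : ∀ k σ E p, (y.mrg C k1 k2 σ1 σ2).Cov k σ E p →
      r ((y.mrg C k1 k2 σ1 σ2).par k σ p) ≤ r (E, p) →
      k ≠ k2 ∧ y.Cov (ι (k, σ)).1 (ι (k, σ)).2 E p ∧ r (y.par (ι (k, σ)).1 (ι (k, σ)).2 p) ≤ r (E, p) := by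
    intro k σ E p hc hcount
    have hk2 : k ≠ k2 := by
      rintro rfl
      obtain ⟨_, h1, h2⟩ := hc
      have e0 : (y.mrg C k1 k σ1 σ2).ln k = 0 := by simp [Sys.mrg]
      rw [e0] at h2
      omega
    refine ⟨hk2, ?_⟩
    by_cases hk1 : k = k1
    · subst hk1
      by_cases hσ : σ = σ1
      · subst hσ
        have hc' : y.Cov k2 (!σ2) E p := by
          obtain ⟨hb, h1, h2⟩ := hc
          simp only [Sys.mrg, and_self, if_true, if_neg hne] at hb h1 h2
          refine ⟨hb, h1, ?_⟩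
          rw [h.l2, ← h.l1]; exact h2
        have hι : ι (k, σ) = (k2, !σ2) := by simp [ι]
        rw [hι]
        refine ⟨hc', ?_⟩
        obtain ⟨q, q1, q2, q3, q4, q5⟩ := D5_thru2 h E p hc'
        simp only [q1]
        by_contra hcon
        push Not at hcon
        have := hr C q k σ k2 σ2 q2 q3 (by rw [q5]; omega) (by rw [q4]; omega)
        exact hne this.1
      · have hσ' : σ = !σ1 := D5_neq hσ
        subst hσ'
        have hc' : y.Cov k (!σ1) E p := by
          obtain ⟨hb, h1, h2⟩ := hc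
          simp only [Sys.mrg, hσ, and_false, if_false, if_neg hne] at hb h1 h2
          exact ⟨hb, h1, h2⟩
        have hι : ι (k, !σ1) = (k, !σ1) := by simp [ι]
        rw [hι]
        refine ⟨hc', ?_⟩
        obtain ⟨q, q1, q2, q3, q4, q5⟩ := D5_thru1 h E p hc'
        simp only [q1]
        by_contra hcon
        push Not at hcon
        have := hr C q k σ1 k2 σ2 q2 q3 (by rw [q4]; omega) (by rw [q5]; omega)
        exact hne this.1
    · have hι : ι (k, σ) = (k, σ) := by simp [ι, hk1]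
      rw [hι]
      simp only [Sys.Cov, Sys.par, Sys.mrg, hk1, hk2, false_and, if_false] at hc hcount ⊢
      exact ⟨hc, hcount⟩
  intro E p k σ k' σ' c c' cc cc'
  obtain ⟨a1, a2, a3⟩ := key k σ E p c cc
  obtain ⟨b1, b2, b3⟩ := key k' σ' E p c' cc'
  have := hr E p _ _ _ _ a2 b2 a3 b3
  -- injectivity of ι away from k2
  have hσs : (!σ1) ≠ σ1 := by cases σ1 <;> simp
  by_cases h1 : k = k1 <;> by_cases h2 : k' = k1
  · subst h1; subst h2
    refine ⟨rfl, ?_⟩
    by_cases g1 : σ = σ1 <;> by_cases g2 : σ' = σ1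
    · rw [g1, g2]
    · simp only [ι, g1, g2, if_true, if_false] at this
      exact absurd this.1.symm hne
    · simp only [ι, g1, g2, if_true, if_false] at this
      exact absurd this.1 hne
    · rw [D5_neq g1, D5_neq g2]
  · exfalso
    simp only [ι, h1, h2, if_true, if_false] at this
    split_ifs at this
    · exact b1 this.1.symm
    · exact h2 this.1.symm
  · exfalso
    simp only [ι, h1, h2, if_true, if_false] at this
    split_ifs at this
    · exact a1 this.1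
    · exact h1 this.1
  · simp only [ι, h1, h2, if_false] at this
    exact this

/-! the lift -/

theorem D5_inact {w : Sys β γ} (hy : y.WF) (h : y.MrgOK C k1 k2 σ1 σ2) (hcl : y.Clean)
    (hw : (y.mrg C k1 k2 σ1 σ2).Le w) : w.WF ∧ w.len C = 0 ∧ w.b k1 σ1 = y.b k2 (!σ2) ∧
      w.fl k1 = xor (y.fl k1) (y.fl k2) ∧
      (∀ k σ, ¬ (k = k1 ∧ σ = σ1) → w.b k σ = y.b k σ) ∧ (∀ k, k ≠ k1 → w.fl k = y.fl k) ∧
      (∀ k σ, y.b k σ = C → (k, σ) ≠ (k1, σ1) → (k, σ) ≠ (k2, σ2) → w.ln k = 0 ∧ w.s k σ = 0) ∧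
      0 ≤ w.ln k1 := by
  have hwf := mrg_wf hy h hcl
  have wwf := Le.wf hw hwf
  have hC : w.len C = 0 := Le.len_zero hw (by simp [Sys.mrg]) hwf
  refine ⟨wwf, hC, ?_, ?_, ?_, ?_, ?_, wwf.ln_nonneg k1⟩
  · rw [hw.b_eq]; simp [Sys.mrg]
  · rw [hw.fl_eq]; simp [Sys.mrg]
  · intro k σ hk; rw [hw.b_eq]; simp only [Sys.mrg, if_neg hk]
  · intro k hk; rw [hw.fl_eq]; simp only [Sys.mrg, if_neg hk]
  · intro k σ hb h1 h2
    have hn1 : ¬ (k = k1 ∧ σ = σ1) := by rintro ⟨rfl, rfl⟩; exact h1 rfl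
    have hz : y.ln k = 0 := by
      by_contra hne
      have := h.only k σ hb (lt_of_le_of_ne (hy.ln_nonneg k) (Ne.symm hne))
      rcases this with h' | h'
      · exact h1 h'
      · exact h2 h'
    have hz' : (y.mrg C k1 k2 σ1 σ2).ln k ≤ 0 := by
      simp only [Sys.mrg]; split_ifs
      · exact le_refl _
      · exact le_of_eq hz
    have e1 := Le.ln_zero hw hz' hwf
    refine ⟨e1, ?_⟩
    have a1 := wwf.s_le k σ
    have a2 := wwf.s_nonneg k σ
    have hbw : w.b k σ = C := by rw [hw.b_eq]; simp only [Sys.mrg, if_neg hn1]; exact hb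
    rw [hbw, hC, e1] at a1
    omega

/-- end points outside the block `C` -/
theorem D5_ep (hy : y.WF) (h : y.MrgOK C k1 k2 σ1 σ2) (hcl : y.Clean) {w : Sys β γ}
    (hw : (y.mrg C k1 k2 σ1 σ2).Le w) (e : EP β γ) (he : y.blk e ≠ C) :
    ∃ e', (y.mrg C k1 k2 σ1 σ2).blk e' = y.blk e ∧ (y.mrg C k1 k2 σ1 σ2).pos e' = y.pos e ∧
      w.pos e' = (y.unmrg C k1 k2 σ1 σ2 w).pos e := by
  have hne := h.ne
  have l1 := h.l1
  have l2 := h.l2
  have hs1 : (!σ1) ≠ σ1 := by cases σ1 <;> simp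
  have hs2 : (!σ2) ≠ σ2 := by cases σ2 <;> simp
  rcases e with ⟨E, t⟩ | ⟨⟨k, σ⟩, t⟩
  · refine ⟨Sum.inl (E, t), rfl, ?_, ?_⟩
    · have : E ≠ C := he
      cases t <;> simp [Sys.pos, Sys.mrg, this]
    · have : E ≠ C := he
      cases t <;> simp [Sys.pos, Sys.unmrg, this]
  · by_cases hk2 : k = k2
    · have hσ : σ = !σ2 := by
        by_contra hcon
        apply he
        show y.b k σ = C
        rw [hk2, D5_neq' hcon]; exact h.b2
      refine ⟨Sum.inr ((k1, σ1), t), ?_, ?_, ?_⟩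
      · show (y.mrg C k1 k2 σ1 σ2).b k1 σ1 = y.b k σ
        rw [hk2, hσ]; simp [Sys.mrg]
      · rw [hk2, hσ]
        cases t <;> simp [Sys.pos, Sys.mrg, hne, l1, l2]
      · rw [hk2, hσ]
        cases t <;> simp [Sys.pos, Sys.unmrg, hne.symm, hs2]
    · have hk1 : ¬ (k = k1 ∧ σ = σ1) := by
        rintro ⟨rfl, rfl⟩
        exact he h.b1
      refine ⟨Sum.inr ((k, σ), t), ?_, ?_, ?_⟩
      · show (y.mrg C k1 k2 σ1 σ2).b k σ = y.b k σ
        simp only [Sys.mrg, if_neg hk1]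
      · cases t <;> simp [Sys.pos, Sys.mrg, hk1, hk2]
      · cases t <;> simp [Sys.pos, Sys.unmrg, hk1, hk2]

theorem D5_posC (hy : y.WF) (h : y.MrgOK C k1 k2 σ1 σ2) (hcl : y.Clean) {w : Sys β γ}
    (hw : (y.mrg C k1 k2 σ1 σ2).Le w) (e : EP β γ) (he : y.blk e = C) :
    (y.pos e = 0 ∧ (y.unmrg C k1 k2 σ1 σ2 w).pos e = 0) ∨
      (y.pos e = y.len C ∧ (y.unmrg C k1 k2 σ1 σ2 w).pos e = w.ln k1) := by
  obtain ⟨wwf, hC, hb1, hf1, hb, hf, hin, hln⟩ := D5_inact hy h hcl hw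
  have hne := h.ne
  have l1 := h.l1
  have l2 := h.l2
  have s1 := h.s1
  have s2 := h.s2
  rcases e with ⟨E, t⟩ | ⟨⟨k, σ⟩, t⟩
  · have hE : E = C := he
    subst hE
    cases t
    · left; simp [Sys.pos]
    · right; simp [Sys.pos, Sys.unmrg]
  · have hbk : y.b k σ = C := he
    by_cases c1 : (k, σ) = (k1, σ1)
    · rw [Prod.mk.injEq] at c1
      obtain ⟨rfl, rfl⟩ := c1
      cases t
      · left; simp [Sys.pos, Sys.unmrg, s1]
      · right; simp [Sys.pos, Sys.unmrg, s1, l1, hne]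
    · by_cases c2 : (k, σ) = (k2, σ2)
      · rw [Prod.mk.injEq] at c2
        obtain ⟨rfl, rfl⟩ := c2
        cases t
        · left; simp [Sys.pos, Sys.unmrg, s2, hne.symm]
        · right; simp [Sys.pos, Sys.unmrg, s2, l2, hne.symm]
      · left
        have hi := hin k σ hbk c1 c2
        have hz : y.ln k = 0 := by
          by_contra hne'
          have := h.only k σ hbk (lt_of_le_of_ne (hy.ln_nonneg k) (Ne.symm hne'))
          rcases this with h' | h'
          · exact c1 h'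
          · exact c2 h'
        have hs := hcl k σ hz
        have hk2 : k ≠ k2 := by
          rintro rfl
          rw [l2] at hz; have := h.act; omega
        have hk1 : ¬ (k = k1 ∧ σ = σ1) := by rintro ⟨rfl, rfl⟩; exact c1 rfl
        cases t
        · simp [Sys.pos, Sys.unmrg, hk1, hk2, hs, hi.2]
        · simp [Sys.pos, Sys.unmrg, hk1, hk2, hs, hi.2, hz, hi.1]

theorem D5_le (hy : y.WF) (h : y.MrgOK C k1 k2 σ1 σ2) (hcl : y.Clean) {w : Sys β γ}
    (hw : (y.mrg C k1 k2 σ1 σ2).Le w) : y.Le (y.unmrg C k1 k2 σ1 σ2 w) := by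
  refine ⟨rfl, rfl, ?_⟩
  intro e e' hb hp
  by_cases he : y.blk e = C
  · have hln := (D5_inact hy h hcl hw).2.2.2.2.2.2.2
    have hact := h.act
    rcases D5_posC hy h hcl hw e he with ⟨a, b⟩ | ⟨a, b⟩ <;>
      rcases D5_posC hy h hcl hw e' (hb ▸ he) with ⟨a', b'⟩ | ⟨a', b'⟩ <;> rw [b, b']
    · exact hln
    · exfalso; omega
  · obtain ⟨f, f1, f2, f3⟩ := D5_ep hy h hcl hw e he
    obtain ⟨f', f1', f2', f3'⟩ := D5_ep hy h hcl hw e' (hb ▸ he)
    rw [← f3, ← f3']
    exact hw.mono f f' (by rw [f1, f1', hb]) (by rw [f2, f2']; exact hp)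

theorem D5_acyc (hy : y.WF) (h : y.MrgOK C k1 k2 σ1 σ2) (hcl : y.Clean) {w : Sys β γ}
    (hw : (y.mrg C k1 k2 σ1 σ2).Le w) (ha : w.Acyc) : (y.unmrg C k1 k2 σ1 σ2 w).Acyc := by
  obtain ⟨wwf, hC, hb1, hf1, hb, hf, hin, hln⟩ := D5_inact hy h hcl hw
  obtain ⟨r, hr⟩ := ha
  have hne := h.ne
  have hs1 : (!σ1) ≠ σ1 := by cases σ1 <;> simp
  have hs2 : (!σ2) ≠ σ2 := by cases σ2 <;> simp
  have bb2 := D5_b2 h
  have bb1 := D5_b1 h
  set v := y.unmrg C k1 k2 σ1 σ2 w with hv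
  -- coordinates of v
  have vb : ∀ k σ, v.b k σ = y.b k σ := fun _ _ => rfl
  have vf : ∀ k, v.fl k = y.fl k := fun _ => rfl
  have v1 : v.s k1 σ1 = 0 := by simp [hv, Sys.unmrg]
  have v2 : v.s k1 (!σ1) = w.s k1 (!σ1) := by simp [hv, Sys.unmrg, hne]
  have v3 : v.s k2 σ2 = 0 := by simp [hv, Sys.unmrg, hne.symm]
  have v4 : v.s k2 (!σ2) = w.s k1 σ1 := by simp [hv, Sys.unmrg, hne.symm, hs2]
  have v5 : v.ln k1 = w.ln k1 := by simp [hv, Sys.unmrg, hne]
  have v6 : v.ln k2 = w.ln k1 := by simp [hv, Sys.unmrg]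
  have v7 : ∀ k σ, k ≠ k1 → k ≠ k2 → v.s k σ = w.s k σ := by
    intro k σ h1 h2; simp [hv, Sys.unmrg, h1, h2]
  have v8 : ∀ k, k ≠ k2 → v.ln k = w.ln k := by
    intro k h2; simp [hv, Sys.unmrg, h2]
  have w1 : w.b k1 (!σ1) = y.b k1 (!σ1) := hb k1 (!σ1) (by rintro ⟨_, h'⟩; exact hs1 h')
  -- neighbours of the cells of C
  let d1 : ℤ → β × ℤ := fun q => v.par k1 σ1 q
  let d2 : ℤ → β × ℤ := fun q => v.par k2 σ2 q
  -- d2 of the cell reached from (E,p) through (k1,!σ1)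
  have t1 : ∀ E p, v.Cov k1 (!σ1) E p → ∃ q, v.par k1 (!σ1) p = (C, q) ∧ d1 q = (E, p) ∧
      d2 q = w.par k1 (!σ1) p ∧ w.Cov k1 (!σ1) E p := by
    intro E p hc
    refine ⟨(v.par k1 (!σ1) p).2, ?_, ?_, ?_, ?_⟩
    · unfold Sys.par; rw [Bool.not_not, vb, h.b1]
    · obtain ⟨hbb, _, _⟩ := hc
      show v.par k1 σ1 _ = _
      unfold Sys.par
      rw [Bool.not_not, hbb]
      simp only
      congr 1
      split_ifs <;> omega
    · show v.par k2 σ2 _ = _
      unfold Sys.par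
      rw [Bool.not_not, hb1, hf1, vb, vf, vf, v1, v2, v3, v4, v5, v6]
      simp only
      congr 1
      cases y.fl k1 <;> cases y.fl k2 <;> simp <;> omega
    · obtain ⟨hbb, c1, c2⟩ := hc
      rw [v2] at c1; rw [v2, v5] at c2
      exact ⟨by rw [w1]; exact hbb, c1, c2⟩
  have t2 : ∀ E p, v.Cov k2 (!σ2) E p → ∃ q, v.par k2 (!σ2) p = (C, q) ∧ d2 q = (E, p) ∧
      d1 q = w.par k1 σ1 p ∧ w.Cov k1 σ1 E p := by
    intro E p hc
    refine ⟨(v.par k2 (!σ2) p).2, ?_, ?_, ?_, ?_⟩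
    · unfold Sys.par; rw [Bool.not_not, vb, h.b2]
    · obtain ⟨hbb, _, _⟩ := hc
      show v.par k2 σ2 _ = _
      unfold Sys.par
      rw [Bool.not_not, hbb]
      simp only
      congr 1
      split_ifs <;> omega
    · show v.par k1 σ1 _ = _
      unfold Sys.par
      rw [Bool.not_not, w1, hf1, vb, vf, vf, v1, v2, v3, v4, v5, v6]
      simp only
      congr 1
      cases y.fl k1 <;> cases y.fl k2 <;> simp <;> omega
    · obtain ⟨hbb, c1, c2⟩ := hc
      rw [v4] at c1; rw [v4, v6] at c2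
      exact ⟨by rw [hb1]; exact hbb, c1, c2⟩
  let g : β × ℤ → ℕ := fun c => if c.1 = C then
    (if r (d1 c.2) = r (d2 c.2) then 3 * r (d1 c.2) + 2 else 3 * min (r (d1 c.2)) (r (d2 c.2)) + 4)
    else 3 * r c + 3
  have gC : ∀ q, g (C, q) = (if r (d1 q) = r (d2 q) then 3 * r (d1 q) + 2 else
      3 * min (r (d1 q)) (r (d2 q)) + 4) := by intro q; simp [g]
  have gE : ∀ E p, E ≠ C → g (E, p) = 3 * r (E, p) + 3 := by intro E p hE; simp [g, hE]
  refine ⟨g, ?_⟩
  let ι : γ × Bool → γ × Bool := fun s => if s.1 = k2 then (k1, σ1) else s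
  have key : ∀ k σ E p, E ≠ C → v.Cov k σ E p → g (v.par k σ p) ≤ g (E, p) →
      (k, σ) ≠ (k1, σ1) ∧ (k, σ) ≠ (k2, σ2) ∧
      w.Cov (ι (k, σ)).1 (ι (k, σ)).2 E p ∧ r (w.par (ι (k, σ)).1 (ι (k, σ)).2 p) ≤ r (E, p) := by
    intro k σ E p hE hc hcount
    have n1 : (k, σ) ≠ (k1, σ1) := by
      intro h'; rw [Prod.mk.injEq] at h'; obtain ⟨rfl, rfl⟩ := h'
      exact hE (hc.1.symm.trans h.b1)
    have n2 : (k, σ) ≠ (k2, σ2) := by
      intro h'; rw [Prod.mk.injEq] at h'; obtain ⟨rfl, rfl⟩ := h'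
      exact hE (hc.1.symm.trans h.b2)
    refine ⟨n1, n2, ?_⟩
    by_cases hk2 : k = k2
    · have hσ : σ = !σ2 := by
        by_contra hcon
        have : σ = σ2 := by cases σ <;> cases σ2 <;> simp_all
        exact n2 (by rw [hk2, this])
      subst hk2; subst hσ
      obtain ⟨q, q1, q2, q3, q4⟩ := t2 E p hc
      have hι : ι (k, !σ2) = (k1, σ1) := by simp [ι]
      rw [hι]
      refine ⟨q4, ?_⟩
      rw [q1, gC, gE E p hE, q2, q3] at hcount
      simp only
      split_ifs at hcount with hh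
      · omega
      · rcases le_total (r (w.par k1 σ1 p)) (r (E, p)) with hle | hle
        · exact hle
        · rw [min_eq_right hle] at hcount; omega
    · by_cases hk1 : k = k1
      · have hσ : σ = !σ1 := by
          by_contra hcon
          exact n1 (by rw [hk1, D5_neq' hcon])
        subst hk1; subst hσ
        obtain ⟨q, q1, q2, q3, q4⟩ := t1 E p hc
        have hι : ι (k, !σ1) = (k, !σ1) := by simp [ι, hk2]
        rw [hι]
        refine ⟨q4, ?_⟩
        rw [q1, gC, gE E p hE, q2, q3] at hcount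
        simp only
        split_ifs at hcount with hh
        · omega
        · rcases le_total (r (w.par k (!σ1) p)) (r (E, p)) with hle | hle
          · exact hle
          · rw [min_eq_left hle] at hcount; omega
      · have hι : ι (k, σ) = (k, σ) := by simp [ι, hk2]
        rw [hι]
        have hwb : ∀ τ, w.b k τ = y.b k τ := fun τ => hb k τ (by rintro ⟨h', _⟩; exact hk1 h')
        have hcw : w.Cov k σ E p := by
          obtain ⟨c1, c2, c3⟩ := hc
          rw [v7 k σ hk1 hk2] at c2 c3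
          rw [v8 k hk2] at c3
          exact ⟨by rw [hwb]; exact c1, c2, c3⟩
        have hpe : v.par k σ p = w.par k σ p := by
          unfold Sys.par
          rw [vb, vf, v7 k _ hk1 hk2, v7 k _ hk1 hk2, v8 k hk2, hwb, hf k hk1]
        refine ⟨hcw, ?_⟩
        have hpC : (w.par k σ p).1 ≠ C := by
          intro hcon
          have hbk : y.b k (!σ) = C := by rw [← hwb]; exact hcon
          have := hin k (!σ) hbk (by intro h'; rw [Prod.mk.injEq] at h'; exact hk1 h'.1)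
            (by intro h'; rw [Prod.mk.injEq] at h'; exact hk2 h'.1)
          obtain ⟨c1, c2, c3⟩ := hcw
          rw [this.1] at c3
          omega
        rw [hpe, gE E p hE] at hcount
        have : g (w.par k σ p) = 3 * r (w.par k σ p) + 3 := by
          have e : w.par k σ p = ((w.par k σ p).1, (w.par k σ p).2) := rfl
          rw [e, gE _ _ hpC]
        rw [this] at hcount
        show r (w.par k σ p) ≤ r (E, p)
        omega
  have keyC : ∀ k σ q, v.Cov k σ C q → (k, σ) = (k1, σ1) ∨ (k, σ) = (k2, σ2) := by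
    intro k σ q hc
    by_contra hcon
    push Not at hcon
    have hi := hin k σ hc.1 hcon.1 hcon.2
    have hk2 : k ≠ k2 := by
      rintro rfl
      have hσ : σ = !σ2 := by
        by_contra hcon'
        exact hcon.2 (by rw [D5_neq' hcon'])
      rw [hσ] at hc
      exact bb2 hc.1
    obtain ⟨_, c2, c3⟩ := hc
    rw [v8 k hk2, hi.1] at c3
    omega
  intro E p k σ k' σ' c c' cc cc'
  by_cases hE : E = C
  · subst hE
    have hp1 : v.par k1 σ1 p ≠ v.par k1 σ1 p → False := fun h => h rfl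
    have g1 : g (d1 p) = 3 * r (d1 p) + 3 := by
      have e : d1 p = ((d1 p).1, (d1 p).2) := rfl
      rw [e]; exact gE _ _ bb1
    have g2 : g (d2 p) = 3 * r (d2 p) + 3 := by
      have e : d2 p = ((d2 p).1, (d2 p).2) := rfl
      rw [e]; exact gE _ _ bb2
    have hboth : ¬ (g (d1 p) ≤ g (E, p) ∧ g (d2 p) ≤ g (E, p)) := by
      rintro ⟨a1, a2⟩
      rw [g1, gC] at a1
      rw [g2, gC] at a2
      split_ifs at a1 a2 with hh
      · omega
      · rcases le_total (r (d1 p)) (r (d2 p)) with hle | hle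
        · rw [min_eq_left hle] at a2; omega
        · rw [min_eq_right hle] at a1; omega
    rcases keyC k σ p c with h1 | h1 <;> rcases keyC k' σ' p c' with h2 | h2 <;>
      rw [Prod.mk.injEq] at h1 h2 <;> obtain ⟨rfl, rfl⟩ := h1 <;> obtain ⟨rfl, rfl⟩ := h2
    · exact ⟨rfl, rfl⟩
    · exact absurd ⟨cc, cc'⟩ hboth
    · exact absurd ⟨cc', cc⟩ hboth
    · exact ⟨rfl, rfl⟩
  · obtain ⟨n1, n2, a2, a3⟩ := key k σ E p hE c cc
    obtain ⟨m1, m2, b2, b3⟩ := key k' σ' E p hE c' cc'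
    have := hr E p _ _ _ _ a2 b2 a3 b3
    by_cases h1 : k = k2 <;> by_cases h2 : k' = k2
    · subst h1; subst h2
      refine ⟨rfl, ?_⟩
      have e1 : σ = !σ2 := by
        by_contra hcon
        exact n2 (by rw [D5_neq' hcon])
      have e2 : σ' = !σ2 := by
        by_contra hcon
        exact m2 (by rw [D5_neq' hcon])
      rw [e1, e2]
    · exfalso
      simp only [ι, h1, h2, if_true, if_false] at this
      exact m1 (by rw [← this.1, ← this.2])
    · exfalso
      simp only [ι, h1, h2, if_true, if_false] at this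
      exact n1 (by rw [this.1, this.2])
    · simp only [ι, h1, h2, if_false] at this
      exact this

theorem D5_aff {f : Sys β γ → ℚ} (hf : f ∈ Aff β γ) :
    (fun w => f (y.unmrg C k1 k2 σ1 σ2 w)) ∈ Aff β γ := by
  refine aff_comp _ ?_ ?_ ?_ hf
  · intro k σ
    simp only [Sys.unmrg]
    split_ifs
    · simpa using aff_const (β := β) (γ := γ) 0
    · simpa using aff_const (β := β) (γ := γ) 0
    · exact aff_s k1 σ1
    · exact aff_s k σ
  · intro k
    simp only [Sys.unmrg]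
    split_ifs
    · exact aff_ln k1
    · exact aff_ln k
  · intro E
    simp only [Sys.unmrg]
    split_ifs
    · exact aff_ln k1
    · exact aff_len E

theorem D5_unmrg_mrg (h : y.MrgOK C k1 k2 σ1 σ2) :
    y.unmrg C k1 k2 σ1 σ2 (y.mrg C k1 k2 σ1 σ2) = y := by
  have hne := h.ne
  have hs2 : (!σ2) ≠ σ2 := by cases σ2 <;> simp
  ext1
  · rfl
  · rfl
  · funext k σ
    simp only [Sys.unmrg, Sys.mrg]
    by_cases c1 : k = k1 ∧ σ = σ1
    · rw [if_pos c1, c1.1, c1.2, h.s1]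
    · rw [if_neg c1, if_neg c1]
      by_cases c2 : k = k2
      · subst c2
        rw [if_pos rfl]
        by_cases c3 : σ = σ2
        · rw [if_pos c3, c3, h.s2]
        · rw [if_neg c3]
          have : σ = !σ2 := D5_neq c3
          rw [this]; simp
      · simp [c2]
  · funext k
    simp only [Sys.unmrg, Sys.mrg, if_neg hne]
    by_cases c2 : k = k2
    · rw [if_pos c2, c2, h.l1, h.l2]
    · simp [c2]
  · funext E
    simp only [Sys.unmrg, Sys.mrg, if_neg hne]
    by_cases c2 : E = C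
    · rw [if_pos c2, c2, h.l1]
    · simp [c2]

end D5a

section D5b
variable {β γ : Type} [DecidableEq β] [DecidableEq γ] [Fintype β] [Fintype γ]
variable {y : Sys β γ} {C : β} {k1 k2 : γ} {σ1 σ2 : Bool}

omit [Fintype γ] in
theorem mrg_size (h : y.MrgOK C k1 k2 σ1 σ2) : (y.mrg C k1 k2 σ1 σ2).size = y.size - y.len C := by
  unfold Sys.size
  rw [← Finset.add_sum_erase Finset.univ y.len (Finset.mem_univ C),
    ← Finset.add_sum_erase Finset.univ (y.mrg C k1 k2 σ1 σ2).len (Finset.mem_univ C)]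
  have : ∑ x ∈ Finset.univ.erase C, (y.mrg C k1 k2 σ1 σ2).len x = ∑ x ∈ Finset.univ.erase C, y.len x := by
    apply Finset.sum_congr rfl
    intro x hx
    simp [Sys.mrg, (Finset.mem_erase.1 hx).1]
  rw [this]
  have : (y.mrg C k1 k2 σ1 σ2).len C = 0 := by simp [Sys.mrg]
  rw [this]; ring

omit [Fintype γ] in
theorem D5_size (w : Sys β γ) (hC : w.len C = 0) :
    (y.unmrg C k1 k2 σ1 σ2 w).size = w.size + w.ln k1 := by
  unfold Sys.size
  rw [← Finset.add_sum_erase Finset.univ w.len (Finset.mem_univ C),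
    ← Finset.add_sum_erase Finset.univ (y.unmrg C k1 k2 σ1 σ2 w).len (Finset.mem_univ C)]
  have : ∑ x ∈ Finset.univ.erase C, (y.unmrg C k1 k2 σ1 σ2 w).len x = ∑ x ∈ Finset.univ.erase C, w.len x := by
    apply Finset.sum_congr rfl
    intro x hx
    simp [Sys.unmrg, (Finset.mem_erase.1 hx).1]
  rw [this, hC]
  have : (y.unmrg C k1 k2 σ1 σ2 w).len C = w.ln k1 := by simp [Sys.unmrg]
  rw [this]; ring

omit [Fintype γ] in
theorem opC {N : ℤ} (hy : y.WF) (h : y.MrgOK C k1 k2 σ1 σ2) (hcl : y.Clean)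
    (hc : Claim N (y.mrg C k1 k2 σ1 σ2)) : Claim (2 * N) y := by
  refine claim_of_lift (y.unmrg C k1 k2 σ1 σ2) (fun f hf => D5_aff hf) ?_ (D5_unmrg_mrg h) hc
  intro w hw ha hN
  obtain ⟨wwf, hC, -⟩ := D5_inact hy h hcl hw
  refine ⟨D5_le hy h hcl hw, D5_acyc hy h hcl hw ha, ?_⟩
  rw [D5_size w hC]
  have h1 : w.ln k1 ≤ w.size := by
    have a := wwf.s_le k1 σ1
    have b := wwf.s_nonneg k1 σ1
    have c : w.len (w.b k1 σ1) ≤ w.size :=
      Finset.single_le_sum (f := w.len) (fun i _ => wwf.len_nonneg i) (Finset.mem_univ _)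
    omega
  omega

theorem D5_nsd (h : y.MrgOK C k1 k2 σ1 σ2) (E : β) (hE : E ≠ C) :
    (y.mrg C k1 k2 σ1 σ2).nsd E = y.nsd E := by
  have hne := h.ne
  have hs2 : (!σ2) ≠ σ2 := by cases σ2 <;> simp
  unfold Sys.nsd
  apply Finset.card_equiv (Equiv.swap (k1, σ1) (k2, !σ2))
  rintro ⟨k, σ⟩
  simp only [Finset.mem_filter, Finset.mem_univ, true_and]
  by_cases c1 : (k, σ) = (k1, σ1)
  · obtain ⟨rfl, rfl⟩ := Prod.mk.inj c1
    rw [Equiv.swap_apply_left]
    simp only [Sys.mrg, and_self, if_true, if_neg hne, h.l1, h.l2]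
  · by_cases c2 : (k, σ) = (k2, !σ2)
    · obtain ⟨rfl, rfl⟩ := Prod.mk.inj c2
      rw [Equiv.swap_apply_right]
      simp only [Sys.mrg, if_true, h.b1]
      constructor
      · rintro ⟨h', _⟩; exact absurd h' (lt_irrefl _)
      · rintro ⟨_, h'⟩; exact absurd h'.symm hE
    · rw [Equiv.swap_apply_of_ne_of_ne c1 c2]
      have n1 : ¬ (k = k1 ∧ σ = σ1) := by rintro ⟨rfl, rfl⟩; exact c1 rfl
      simp only [Sys.mrg, if_neg n1]
      by_cases c3 : k = k2
      · subst c3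
        have : σ = σ2 := by
          by_contra hcon
          exact c2 (by rw [D5_neq hcon])
        rw [this, h.b2]
        simp only [if_true]
        constructor
        · rintro ⟨h', _⟩; exact absurd h' (lt_irrefl _)
        · rintro ⟨_, h'⟩; exact absurd h'.symm hE
      · rw [if_neg c3]

theorem D5_nsdC (hy : y.WF) (h : y.MrgOK C k1 k2 σ1 σ2) (hcl : y.Clean) :
    (y.mrg C k1 k2 σ1 σ2).nsd C = 0 := by
  have hwf := mrg_wf hy h hcl
  unfold Sys.nsd
  rw [Finset.card_eq_zero, Finset.filter_eq_empty_iff]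
  rintro ⟨k, σ⟩ _ ⟨h1, h2⟩
  have a := hwf.s_le k σ
  have b := hwf.s_nonneg k σ
  have c : (y.mrg C k1 k2 σ1 σ2).len C = 0 := by simp [Sys.mrg]
  rw [h2, c] at a
  simp only at h1
  omega

theorem mrg_kap (hy : y.WF) (h : y.MrgOK C k1 k2 σ1 σ2) (hcl : y.Clean) :
    (y.mrg C k1 k2 σ1 σ2).kap ≤ y.kap := by
  unfold Sys.kap
  apply Finset.sum_le_sum
  intro E _
  by_cases hE : E = C
  · subst hE; rw [D5_nsdC hy h hcl]; omega
  · rw [D5_nsd h E hE]

theorem mrg_low (hy : y.WF) (h : y.MrgOK C k1 k2 σ1 σ2) (hcl : y.Clean) :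
    (y.mrg C k1 k2 σ1 σ2).kap + (y.mrg C k1 k2 σ1 σ2).low ≤ y.kap + y.low := by
  apply Nat.add_le_add (mrg_kap hy h hcl)
  unfold Sys.low
  apply Finset.card_le_card
  intro E hE
  simp only [Finset.mem_filter, Finset.mem_univ, true_and] at hE ⊢
  by_cases hEC : E = C
  · subst hEC
    have c : (y.mrg E k1 k2 σ1 σ2).len E = 0 := by simp [Sys.mrg]
    rw [c] at hE; exact absurd hE.1 (lt_irrefl _)
  · rw [D5_nsd h E hEC] at hE
    have c : (y.mrg C k1 k2 σ1 σ2).len E = y.len E := by simp [Sys.mrg, hEC]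
    rw [c] at hE
    exact hE

end D5b

end Pool.Agent.Helper59.TE
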