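import Pool.Agent.Helper59.TE.D1
import Pool.Agent.Helper59.TE.Ops

set_option autoImplicit false

/-!
Counting lemmas for the moves B (cutting out an uncovered interval) and A (unfill and cut).
-/

namespace Pool.Agent.Helper59.TE
open Sys

variable {β γ : Type} [DecidableEq β] [DecidableEq γ] [Fintype β] [Fintype γ]

/-- indicator of an active side in the block `E` -/
def D6_i (w : Sys β γ) (E : β) (k : γ) (τ : Bool) : ℕ := if 0 < w.ln k ∧ w.b k τ = E then 1 else 0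

omit [Fintype β] [DecidableEq γ] in
theorem D6_nsd (w : Sys β γ) (E : β) (σ : Bool) :
    w.nsd E = ∑ k, (D6_i w E k σ + D6_i w E k (!σ)) := by
  unfold Sys.nsd
  rw [Finset.card_filter, Fintype.sum_prod_type]
  refine Finset.sum_congr rfl fun k _ => ?_
  rw [Fintype.sum_bool]
  unfold D6_i
  cases σ
  · simp only [Bool.not_false]
    rw [add_comm]
  · simp only [Bool.not_true]

omit [Fintype β] [DecidableEq γ] in
theorem D6_nsd_zero {y : Sys β γ} (hy : y.WF) {E : β} (h : y.len E = 0) : y.nsd E = 0 := by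
  unfold Sys.nsd
  rw [Finset.card_eq_zero, Finset.filter_eq_empty_iff]
  rintro ⟨k, τ⟩ _ ⟨h1, h2⟩
  have h3 := hy.s_le k τ
  have h4 := hy.s_nonneg k τ
  simp only at h1 h2
  rw [h2, h] at h3
  omega

omit [DecidableEq γ] [Fintype γ] in
theorem D6_sum2 {F' F : β → ℕ} {C C2 : β} (hne : C ≠ C2) (h : F' C + F' C2 ≤ F C + F C2)
    (ho : ∀ E, E ≠ C → E ≠ C2 → F' E ≤ F E) : ∑ E, F' E ≤ ∑ E, F E := by
  classical
  have hm : C2 ∈ (Finset.univ : Finset β).erase C := by simp [hne.symm]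
  rw [← Finset.add_sum_erase Finset.univ F (Finset.mem_univ C),
    ← Finset.add_sum_erase Finset.univ F' (Finset.mem_univ C),
    ← Finset.add_sum_erase _ F hm, ← Finset.add_sum_erase _ F' hm]
  have h1 : ∑ x ∈ ((Finset.univ : Finset β).erase C).erase C2, F' x ≤
      ∑ x ∈ ((Finset.univ : Finset β).erase C).erase C2, F x := by
    refine Finset.sum_le_sum fun E hE => ho E ?_ ?_
    · exact (Finset.mem_erase.1 (Finset.mem_erase.1 hE).2).1
    · exact (Finset.mem_erase.1 hE).1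
  omega

omit [DecidableEq γ] [Fintype γ] in
theorem D6_sum3 {F' F : β → ℕ} {C C2 D : β} (hne : C ≠ C2) (h1 : D ≠ C) (h2 : D ≠ C2)
    (h : F' C + F' C2 + F' D ≤ F C + F C2 + F D)
    (ho : ∀ E, E ≠ C → E ≠ C2 → E ≠ D → F' E ≤ F E) : ∑ E, F' E ≤ ∑ E, F E := by
  classical
  have hm : C2 ∈ (Finset.univ : Finset β).erase C := by simp [hne.symm]
  have hm3 : D ∈ ((Finset.univ : Finset β).erase C).erase C2 := by simp [h1, h2]
  rw [← Finset.add_sum_erase Finset.univ F (Finset.mem_univ C),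
    ← Finset.add_sum_erase Finset.univ F' (Finset.mem_univ C),
    ← Finset.add_sum_erase _ F hm, ← Finset.add_sum_erase _ F' hm,
    ← Finset.add_sum_erase _ F hm3, ← Finset.add_sum_erase _ F' hm3]
  have h4 : ∑ x ∈ (((Finset.univ : Finset β).erase C).erase C2).erase D, F' x ≤
      ∑ x ∈ (((Finset.univ : Finset β).erase C).erase C2).erase D, F x := by
    refine Finset.sum_le_sum fun E hE => ho E ?_ ?_ ?_
    · exact (Finset.mem_erase.1 (Finset.mem_erase.1 (Finset.mem_erase.1 hE).2).2).1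
    · exact (Finset.mem_erase.1 (Finset.mem_erase.1 hE).2).1
    · exact (Finset.mem_erase.1 hE).1
  omega

omit [DecidableEq γ] in
theorem D6_low (w : Sys β γ) : w.low = ∑ E, (if 0 < w.len E ∧ w.nsd E ≤ 2 then 1 else 0) := by
  unfold Sys.low
  rw [Finset.card_filter]

/-! ### cut -/
section
variable {y : Sys β γ} {C C2 : β} {j0 j1 : ℤ}

omit [Fintype β] in
theorem D6_cut_ne {E : β} (h1 : E ≠ C) (h2 : E ≠ C2) :
    (y.cut C C2 j0 j1).nsd E = y.nsd E := by
  rw [D6_nsd _ _ false, D6_nsd _ _ false]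
  refine Finset.sum_congr rfl fun k _ => ?_
  unfold D6_i Sys.cut
  congr 1
  · by_cases hc : y.b k false = C ∧ j1 ≤ y.s k false
    · have : y.b k false ≠ E := fun h => h1 (h.symm.trans hc.1)
      simp [hc, h1.symm, h2.symm]
    · simp [hc]
  · by_cases hc : y.b k (!false) = C ∧ j1 ≤ y.s k (!false)
    · have : y.b k (!false) ≠ E := fun h => h1 (h.symm.trans hc.1)
      simp only [Bool.not_false] at hc
      simp [hc, h1.symm, h2.symm]
    · simp only [Bool.not_false] at hc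
      simp [hc]

omit [Fintype β] in
theorem D6_cut_add (hne : C ≠ C2) :
    (y.cut C C2 j0 j1).nsd C + (y.cut C C2 j0 j1).nsd C2 = y.nsd C + y.nsd C2 := by
  rw [D6_nsd _ _ false, D6_nsd _ _ false, D6_nsd _ _ false, D6_nsd _ _ false, ← Finset.sum_add_distrib,
    ← Finset.sum_add_distrib]
  refine Finset.sum_congr rfl fun k _ => ?_
  have key : ∀ τ, D6_i (y.cut C C2 j0 j1) C k τ + D6_i (y.cut C C2 j0 j1) C2 k τ =
      D6_i y C k τ + D6_i y C2 k τ := by
    intro τ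
    unfold D6_i Sys.cut
    by_cases hc : y.b k τ = C ∧ j1 ≤ y.s k τ
    · simp [hc, hne, hne.symm]
    · simp [hc]
  have h1 := key false
  have h2 := key (!false)
  omega

theorem cut_kap (hy : y.WF) (h : y.CutOK C C2 j0 j1) : (y.cut C C2 j0 j1).kap ≤ y.kap := by
  unfold Sys.kap
  refine D6_sum2 h.ne ?_ ?_
  · have h1 := D6_cut_add (y := y) (j0 := j0) (j1 := j1) h.ne
    have h2 := D6_nsd_zero hy h.spare
    omega
  · intro E h1 h2
    rw [D6_cut_ne h1 h2]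

theorem cut_low (hy : y.WF) (h : y.CutOK C C2 j0 j1) (hend : j0 = 0 ∨ j1 = y.len C)
    (hn : y.nsd C ≤ 2) :
    (y.cut C C2 j0 j1).kap + (y.cut C C2 j0 j1).low ≤ y.kap + y.low := by
  refine Nat.add_le_add (cut_kap hy h) ?_
  rw [D6_low, D6_low]
  refine D6_sum2 h.ne ?_ ?_
  · have h0 := h.h0
    have h01 := h.h01
    have h1 := h.h1
    have hl : 0 < y.len C := by omega
    have hC : (y.cut C C2 j0 j1).len C = j0 := by simp [Sys.cut]
    have hC2 : (y.cut C C2 j0 j1).len C2 = y.len C - j1 := by simp [Sys.cut, h.ne.symm]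
    rw [hC, hC2, if_pos (show 0 < y.len C ∧ y.nsd C ≤ 2 from ⟨hl, hn⟩)]
    rcases hend with h3 | h3
    · rw [if_neg (show ¬ (0 < j0 ∧ _) from fun h => by omega)]
      split_ifs <;> omega
    · rw [if_neg (show ¬ (0 < y.len C - j1 ∧ _) from fun h => by omega)]
      split_ifs <;> omega
  · intro E h1 h2
    rw [D6_cut_ne h1 h2]
    have : (y.cut C C2 j0 j1).len E = y.len E := by simp [Sys.cut, h1, h2]
    rw [this]

theorem cut_low3 (hy : y.WF) (h : y.CutOK C C2 j0 j1) (hn : y.low = 0) :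
    (y.cut C C2 j0 j1).low ≤ 3 := by
  have h1 : (Finset.univ.filter (fun E : β => 0 < (y.cut C C2 j0 j1).len E ∧
      (y.cut C C2 j0 j1).nsd E ≤ 2)) ⊆ {C, C2} := by
    intro E hE
    by_contra hne
    simp only [Finset.mem_insert, Finset.mem_singleton, not_or] at hne
    have hE' := (Finset.mem_filter.1 hE).2
    rw [D6_cut_ne hne.1 hne.2] at hE'
    have : (y.cut C C2 j0 j1).len E = y.len E := by simp [Sys.cut, hne.1, hne.2]
    rw [this] at hE'
    unfold Sys.low at hn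
    rw [Finset.card_eq_zero] at hn
    have : E ∈ (∅ : Finset β) := by
      rw [← hn]
      exact Finset.mem_filter.2 ⟨Finset.mem_univ _, hE'⟩
    simp at this
  have h2 := Finset.card_le_card h1
  have h3 := Finset.card_le_two (a := C) (b := C2)
  unfold Sys.low
  omega

end

/-! ### move A -/
section
variable {y : Sys β γ} {C2 : β} {j0 j1 : ℤ} {k k2 : γ} {σ : Bool}

/-- contribution of the bands other than `k`, `k2` -/
def D6_R (w : Sys β γ) (k k2 : γ) (E : β) (σ : Bool) : ℕ :=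
  ∑ k' ∈ (Finset.univ.erase k).erase k2, (D6_i w E k' σ + D6_i w E k' (!σ))

omit [Fintype β] in
theorem D6_split (w : Sys β γ) (hne : k ≠ k2) (E : β) :
    w.nsd E = (D6_i w E k σ + D6_i w E k (!σ)) + (D6_i w E k2 σ + D6_i w E k2 (!σ)) +
      D6_R w k k2 E σ := by
  have hm : k2 ∈ (Finset.univ : Finset γ).erase k := by simp [hne.symm]
  rw [D6_nsd w E σ, ← Finset.add_sum_erase Finset.univ _ (Finset.mem_univ k),
    ← Finset.add_sum_erase _ _ hm, D6_R]
  ring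

/-- the system after move A -/
abbrev D6_y2 (y : Sys β γ) (k k2 : γ) (σ : Bool) (j0 j1 : ℤ) (C2 : β) : Sys β γ :=
  (y.unfill k k2 σ j0 j1).cut (y.b k σ) C2 j0 j1

omit [Fintype β] [Fintype γ] in
theorem D6_i_other {k' : γ} (h1 : k' ≠ k) (h2 : k' ≠ k2) {τ : Bool} {E : β} :
    D6_i (D6_y2 y k k2 σ j0 j1 C2) E k' τ =
      if 0 < y.ln k' ∧ (if y.b k' τ = y.b k σ ∧ j1 ≤ y.s k' τ then C2 else y.b k' τ) = E then 1 else 0 := by
  simp [D6_i, Sys.cut, Sys.unfill, h1, h2]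

omit [Fintype β] [Fintype γ] in
theorem D6_i_k (h : y.FillOK k k2 σ j0 j1) {E : β} :
    D6_i (D6_y2 y k k2 σ j0 j1 C2) E k σ =
      if y.s k σ < j0 ∧ y.b k σ = E then 1 else 0 := by
  have h1 : ¬ (j1 ≤ y.s k σ) := by have := h.h0; have := h.h01; omega
  simp [D6_i, Sys.cut, Sys.unfill, h.ne, h1]

omit [Fintype β] [Fintype γ] in
theorem D6_i_k2 (h : y.FillOK k k2 σ j0 j1) {E : β} :
    D6_i (D6_y2 y k k2 σ j0 j1 C2) E k2 σ =
      if j1 < y.s k σ + y.ln k ∧ C2 = E then 1 else 0 := by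
  simp [D6_i, Sys.cut, Sys.unfill, h.ne.symm]

omit [Fintype β] [Fintype γ] in
/-- `(k, !σ)` in another block -/
theorem D6_i_kn (h : y.FillOK k k2 σ j0 j1) (hD : y.b k (!σ) ≠ y.b k σ) {E : β} :
    D6_i (D6_y2 y k k2 σ j0 j1 C2) E k (!σ) =
      if y.s k σ < j0 ∧ y.b k (!σ) = E then 1 else 0 := by
  simp [D6_i, Sys.cut, Sys.unfill, h.ne, hD]

omit [Fintype β] [Fintype γ] in
theorem D6_i_k2n (h : y.FillOK k k2 σ j0 j1) (hD : y.b k (!σ) ≠ y.b k σ) {E : β} :
    D6_i (D6_y2 y k k2 σ j0 j1 C2) E k2 (!σ) =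
      if j1 < y.s k σ + y.ln k ∧ y.b k (!σ) = E then 1 else 0 := by
  simp [D6_i, Sys.cut, Sys.unfill, h.ne.symm, hD]

omit [Fintype β] [Fintype γ] in
/-- `(k, !σ)` in the same block, left of the gap -/
theorem D6_i_kl (h : y.FillOK k k2 σ j0 j1) (hD : y.b k (!σ) = y.b k σ)
    (hl : y.s k (!σ) + y.ln k ≤ j0) {E : β} :
    D6_i (D6_y2 y k k2 σ j0 j1 C2) E k (!σ) =
      if y.s k σ < j0 ∧ y.b k σ = E then 1 else 0 := by
  have h01 := h.h01
  have h0 := h.h0
  have h1 := h.h1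
  by_cases ha : y.s k σ < j0
  · by_cases hf : y.fl k = true
    · have : ¬ (j1 ≤ y.s k (!σ) + (y.s k σ + y.ln k - j0)) := by omega
      simp [D6_i, Sys.cut, Sys.unfill, h.ne, hD, hf, this, ha]
    · have : ¬ (j1 ≤ y.s k (!σ)) := by omega
      simp [D6_i, Sys.cut, Sys.unfill, h.ne, hD, hf, this, ha]
  · simp [D6_i, Sys.cut, Sys.unfill, ha]

omit [Fintype β] [Fintype γ] in
theorem D6_i_k2l (h : y.FillOK k k2 σ j0 j1) (hD : y.b k (!σ) = y.b k σ)
    (hl : y.s k (!σ) + y.ln k ≤ j0) {E : β} :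
    D6_i (D6_y2 y k k2 σ j0 j1 C2) E k2 (!σ) =
      if j1 < y.s k σ + y.ln k ∧ y.b k σ = E then 1 else 0 := by
  have h01 := h.h01
  have h0 := h.h0
  have h1 := h.h1
  by_cases ha : j1 < y.s k σ + y.ln k
  · by_cases hf : y.fl k = true
    · have : ¬ (j1 ≤ y.s k (!σ)) := by omega
      simp [D6_i, Sys.cut, Sys.unfill, h.ne.symm, hD, hf, this, ha]
    · have : ¬ (j1 ≤ y.s k (!σ) + (j1 - y.s k σ)) := by omega
      simp [D6_i, Sys.cut, Sys.unfill, h.ne.symm, hD, hf, this, ha]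
  · simp [D6_i, Sys.cut, Sys.unfill, h.ne.symm, ha]

omit [Fintype β] [Fintype γ] in
/-- `(k, !σ)` in the same block, right of the gap -/
theorem D6_i_kr (h : y.FillOK k k2 σ j0 j1) (hD : y.b k (!σ) = y.b k σ)
    (hr : j1 ≤ y.s k (!σ)) {E : β} :
    D6_i (D6_y2 y k k2 σ j0 j1 C2) E k (!σ) =
      if y.s k σ < j0 ∧ C2 = E then 1 else 0 := by
  have h01 := h.h01
  have h0 := h.h0
  have h1 := h.h1
  by_cases ha : y.s k σ < j0
  · by_cases hf : y.fl k = true
    · have : j1 ≤ y.s k (!σ) + (y.s k σ + y.ln k - j0) := by omega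
      simp [D6_i, Sys.cut, Sys.unfill, h.ne, hD, hf, this, ha]
    · simp [D6_i, Sys.cut, Sys.unfill, h.ne, hD, hf, hr, ha]
  · simp [D6_i, Sys.cut, Sys.unfill, ha]

omit [Fintype β] [Fintype γ] in
theorem D6_i_k2r (h : y.FillOK k k2 σ j0 j1) (hD : y.b k (!σ) = y.b k σ)
    (hr : j1 ≤ y.s k (!σ)) {E : β} :
    D6_i (D6_y2 y k k2 σ j0 j1 C2) E k2 (!σ) =
      if j1 < y.s k σ + y.ln k ∧ C2 = E then 1 else 0 := by
  have h01 := h.h01
  have h0 := h.h0
  have h1 := h.h1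
  by_cases ha : j1 < y.s k σ + y.ln k
  · by_cases hf : y.fl k = true
    · simp [D6_i, Sys.cut, Sys.unfill, h.ne.symm, hD, hf, hr, ha]
    · have : j1 ≤ y.s k (!σ) + (j1 - y.s k σ) := by omega
      simp [D6_i, Sys.cut, Sys.unfill, h.ne.symm, hD, hf, this, ha]
  · simp [D6_i, Sys.cut, Sys.unfill, h.ne.symm, ha]

omit [Fintype β] in
theorem D6_R_ne {E : β} (h1 : E ≠ y.b k σ) (h2 : E ≠ C2) :
    D6_R (D6_y2 y k k2 σ j0 j1 C2) k k2 E σ = D6_R y k k2 E σ := by
  unfold D6_R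
  refine Finset.sum_congr rfl fun k' hk' => ?_
  have hk2 := (Finset.mem_erase.1 hk').1
  have hk := (Finset.mem_erase.1 (Finset.mem_erase.1 hk').2).1
  have key : ∀ τ, D6_i (D6_y2 y k k2 σ j0 j1 C2) E k' τ = D6_i y E k' τ := by
    intro τ
    rw [D6_i_other hk hk2]
    unfold D6_i
    by_cases hc : y.b k' τ = y.b k σ ∧ j1 ≤ y.s k' τ
    · rw [if_pos hc, if_neg (fun h => h2 h.2.symm), if_neg (fun h => h1 (h.2.symm.trans hc.1))]
    · rw [if_neg hc]
  rw [key, key]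

omit [Fintype β] in
theorem D6_R_add (hne : y.b k σ ≠ C2) :
    D6_R (D6_y2 y k k2 σ j0 j1 C2) k k2 (y.b k σ) σ + D6_R (D6_y2 y k k2 σ j0 j1 C2) k k2 C2 σ =
      D6_R y k k2 (y.b k σ) σ + D6_R y k k2 C2 σ := by
  unfold D6_R
  rw [← Finset.sum_add_distrib, ← Finset.sum_add_distrib]
  refine Finset.sum_congr rfl fun k' hk' => ?_
  have hk2 := (Finset.mem_erase.1 hk').1
  have hk := (Finset.mem_erase.1 (Finset.mem_erase.1 hk').2).1
  have key : ∀ τ, D6_i (D6_y2 y k k2 σ j0 j1 C2) (y.b k σ) k' τ + D6_i (D6_y2 y k k2 σ j0 j1 C2) C2 k' τ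
      = D6_i y (y.b k σ) k' τ + D6_i y C2 k' τ := by
    intro τ
    rw [D6_i_other hk hk2, D6_i_other hk hk2]
    unfold D6_i
    by_cases hc : y.b k' τ = y.b k σ ∧ j1 ≤ y.s k' τ
    · rw [if_pos hc, hc.1]
      simp [hne, hne.symm]
    · rw [if_neg hc]
  have h1 := key σ
  have h2 := key (!σ)
  omega

omit [Fintype β] in
theorem D6_R_pos_left {k' : γ} {σ' : Bool} (hk : k' ≠ k) (hk2 : k' ≠ k2) (hl : 0 < y.ln k')
    (hb : y.b k' σ' = y.b k σ) (hs : ¬ j1 ≤ y.s k' σ') :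
    1 ≤ D6_R (D6_y2 y k k2 σ j0 j1 C2) k k2 (y.b k σ) σ := by
  unfold D6_R
  have hm : k' ∈ ((Finset.univ : Finset γ).erase k).erase k2 := by simp [hk, hk2]
  refine le_trans ?_ (Finset.single_le_sum (f := fun k' =>
    D6_i (D6_y2 y k k2 σ j0 j1 C2) (y.b k σ) k' σ + D6_i (D6_y2 y k k2 σ j0 j1 C2) (y.b k σ) k' (!σ))
    (fun _ _ => Nat.zero_le _) hm)
  have h1 : D6_i (D6_y2 y k k2 σ j0 j1 C2) (y.b k σ) k' σ' = 1 := by
    rw [D6_i_other hk hk2, if_neg (show ¬ (y.b k' σ' = y.b k σ ∧ j1 ≤ y.s k' σ') from fun h => hs h.2),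
      if_pos ⟨hl, hb⟩]
  show 1 ≤ D6_i (D6_y2 y k k2 σ j0 j1 C2) (y.b k σ) k' σ + D6_i (D6_y2 y k k2 σ j0 j1 C2) (y.b k σ) k' (!σ)
  by_cases hσ : σ' = σ
  · rw [hσ] at h1
    omega
  · have : σ' = !σ := by cases σ <;> cases σ' <;> simp_all
    rw [this] at h1
    omega

omit [Fintype β] in
theorem D6_R_pos_right {k' : γ} {σ' : Bool} (hk : k' ≠ k) (hk2 : k' ≠ k2) (hl : 0 < y.ln k')
    (hb : y.b k' σ' = y.b k σ) (hs : j1 ≤ y.s k' σ') :
    1 ≤ D6_R (D6_y2 y k k2 σ j0 j1 C2) k k2 C2 σ := by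
  unfold D6_R
  have hm : k' ∈ ((Finset.univ : Finset γ).erase k).erase k2 := by simp [hk, hk2]
  refine le_trans ?_ (Finset.single_le_sum (f := fun k' =>
    D6_i (D6_y2 y k k2 σ j0 j1 C2) C2 k' σ + D6_i (D6_y2 y k k2 σ j0 j1 C2) C2 k' (!σ))
    (fun _ _ => Nat.zero_le _) hm)
  have h1 : D6_i (D6_y2 y k k2 σ j0 j1 C2) C2 k' σ' = 1 := by
    rw [D6_i_other hk hk2, if_pos (show y.b k' σ' = y.b k σ ∧ j1 ≤ y.s k' σ' from ⟨hb, hs⟩),
      if_pos ⟨hl, rfl⟩]
  show 1 ≤ D6_i (D6_y2 y k k2 σ j0 j1 C2) C2 k' σ + D6_i (D6_y2 y k k2 σ j0 j1 C2) C2 k' (!σ)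
  by_cases hσ : σ' = σ
  · rw [hσ] at h1
    omega
  · have : σ' = !σ := by cases σ <;> cases σ' <;> simp_all
    rw [this] at h1
    omega

omit [Fintype β] in
/-- blocks that are not touched -/
theorem D6_A_ne (h : y.FillOK k k2 σ j0 j1) {E : β} (h1 : E ≠ y.b k σ) (h2 : E ≠ C2)
    (h3 : E ≠ y.b k (!σ)) :
    (D6_y2 y k k2 σ j0 j1 C2).nsd E = y.nsd E := by
  have hs := h.spare
  rw [D6_split _ h.ne E (σ := σ), D6_split y h.ne E (σ := σ), D6_R_ne h1 h2, D6_i_k h, D6_i_k2 h]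
  have e1 : D6_i (D6_y2 y k k2 σ j0 j1 C2) E k (!σ) = 0 := by
    unfold D6_i
    refine if_neg fun hh => ?_
    have := hh.2
    simp only [Sys.cut, Sys.unfill, h.ne, if_false, if_true] at this
    split_ifs at this
    all_goals first
      | exact h2 this.symm
      | exact h3 this.symm
  have e2 : D6_i (D6_y2 y k k2 σ j0 j1 C2) E k2 (!σ) = 0 := by
    unfold D6_i
    refine if_neg fun hh => ?_
    have := hh.2
    simp only [Sys.cut, Sys.unfill, h.ne.symm, if_false, if_true] at this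
    split_ifs at this
    all_goals first
      | exact h2 this.symm
      | exact h3 this.symm
  rw [e1, e2, if_neg (fun h => h1 h.2.symm), if_neg (fun h => h2 h.2.symm)]
  unfold D6_i
  rw [if_neg (fun h => h1 h.2.symm), if_neg (fun h => h3 h.2.symm),
    if_neg (fun h => by omega), if_neg (fun h => by omega)]

omit [Fintype β] in
/-- all the numbers after move A -/
theorem D6_A_counts (hy : y.WF) (h : y.FillOK k k2 σ j0 j1) (hC : y.b k σ ≠ C2)
    (hC2 : y.len C2 = 0) (hD : y.b k (!σ) = y.b k σ) :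
    ∃ R1 R2 : ℕ, ∃ a r : ℕ, (a = if y.s k σ < j0 then 1 else 0) ∧
      (r = if j1 < y.s k σ + y.ln k then 1 else 0) ∧
      R1 = D6_R (D6_y2 y k k2 σ j0 j1 C2) k k2 (y.b k σ) σ ∧
      R2 = D6_R (D6_y2 y k k2 σ j0 j1 C2) k k2 C2 σ ∧
      y.nsd (y.b k σ) = R1 + R2 + 2 ∧ y.nsd C2 = 0 ∧
      ((y.s k (!σ) + y.ln k ≤ j0 ∧ (D6_y2 y k k2 σ j0 j1 C2).nsd (y.b k σ) = R1 + 2 * a + r ∧
        (D6_y2 y k k2 σ j0 j1 C2).nsd C2 = R2 + r) ∨
      (j1 ≤ y.s k (!σ) ∧ (D6_y2 y k k2 σ j0 j1 C2).nsd (y.b k σ) = R1 + a ∧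
        (D6_y2 y k k2 σ j0 j1 C2).nsd C2 = R2 + a + 2 * r)) := by
  have h0 := h.h0
  have h01 := h.h01
  have h1 := h.h1
  have hsp := h.spare
  have hz := D6_nsd_zero hy hC2
  have hz' := hz
  rw [D6_split y h.ne C2 (σ := σ)] at hz'
  have hadd := D6_R_add (y := y) (k := k) (k2 := k2) (σ := σ) (j0 := j0) (j1 := j1) hC
  refine ⟨_, _, _, _, rfl, rfl, rfl, rfl, ?_, hz, ?_⟩
  · rw [D6_split y h.ne (y.b k σ) (σ := σ)]
    have e1 : D6_i y (y.b k σ) k σ = 1 := if_pos ⟨by omega, rfl⟩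
    have e2 : D6_i y (y.b k σ) k (!σ) = 1 := if_pos ⟨by omega, hD⟩
    have e3 : ∀ τ, D6_i y (y.b k σ) k2 τ = 0 := fun τ => if_neg (fun hh => by omega)
    rw [e1, e2, e3, e3]
    omega
  · rcases h.unc k (!σ) hD (by simp) with hl | hr
    · left
      refine ⟨hl, ?_, ?_⟩
      · rw [D6_split _ h.ne (y.b k σ) (σ := σ), D6_i_k h, D6_i_k2 h, D6_i_kl h hD hl, D6_i_k2l h hD hl]
        simp only [hC.symm, and_true, and_false, if_false]
        omega
      · rw [D6_split _ h.ne C2 (σ := σ), D6_i_k h, D6_i_k2 h, D6_i_kl h hD hl, D6_i_k2l h hD hl]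
        simp only [hC, and_true, and_false, if_false]
        omega
    · right
      refine ⟨hr, ?_, ?_⟩
      · rw [D6_split _ h.ne (y.b k σ) (σ := σ), D6_i_k h, D6_i_k2 h, D6_i_kr h hD hr, D6_i_k2r h hD hr]
        simp only [hC.symm, and_true, and_false, if_false]
        omega
      · rw [D6_split _ h.ne C2 (σ := σ), D6_i_k h, D6_i_k2 h, D6_i_kr h hD hr, D6_i_k2r h hD hr]
        simp only [hC, and_true, and_false, if_false]
        omega

omit [Fintype β] in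
theorem D6_A_counts' (hy : y.WF) (h : y.FillOK k k2 σ j0 j1) (hC : y.b k σ ≠ C2)
    (hC2 : y.len C2 = 0) (hD : y.b k (!σ) ≠ y.b k σ) :
    ∃ R1 R2 R3 : ℕ, ∃ a r : ℕ, (a = if y.s k σ < j0 then 1 else 0) ∧
      (r = if j1 < y.s k σ + y.ln k then 1 else 0) ∧
      R1 = D6_R (D6_y2 y k k2 σ j0 j1 C2) k k2 (y.b k σ) σ ∧
      R2 = D6_R (D6_y2 y k k2 σ j0 j1 C2) k k2 C2 σ ∧ y.b k (!σ) ≠ C2 ∧
      y.nsd (y.b k σ) = R1 + R2 + 1 ∧ y.nsd C2 = 0 ∧ y.nsd (y.b k (!σ)) = R3 + 1 ∧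
      (D6_y2 y k k2 σ j0 j1 C2).nsd (y.b k σ) = R1 + a ∧
      (D6_y2 y k k2 σ j0 j1 C2).nsd C2 = R2 + r ∧
      (D6_y2 y k k2 σ j0 j1 C2).nsd (y.b k (!σ)) = R3 + a + r := by
  have h0 := h.h0
  have h01 := h.h01
  have h1 := h.h1
  have hsp := h.spare
  have hz := D6_nsd_zero hy hC2
  have hz' := hz
  rw [D6_split y h.ne C2 (σ := σ)] at hz'
  have hadd := D6_R_add (y := y) (k := k) (k2 := k2) (σ := σ) (j0 := j0) (j1 := j1) hC
  have hDC2 : y.b k (!σ) ≠ C2 := by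
    intro hh
    have h3 := hy.s_le k (!σ)
    have h4 := hy.s_nonneg k (!σ)
    rw [hh, hC2] at h3
    omega
  have e3 : ∀ E τ, D6_i y E k2 τ = 0 := fun E τ => if_neg (fun hh => by omega)
  refine ⟨_, _, D6_R y k k2 (y.b k (!σ)) σ, _, _, rfl, rfl, rfl, rfl, hDC2, ?_, hz, ?_, ?_, ?_, ?_⟩
  · rw [D6_split y h.ne (y.b k σ) (σ := σ)]
    have e1 : D6_i y (y.b k σ) k σ = 1 := if_pos ⟨by omega, rfl⟩
    have e2 : D6_i y (y.b k σ) k (!σ) = 0 := if_neg (fun hh => hD hh.2)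
    rw [e1, e2, e3, e3]
    omega
  · rw [D6_split y h.ne (y.b k (!σ)) (σ := σ)]
    have e1 : D6_i y (y.b k (!σ)) k (!σ) = 1 := if_pos ⟨by omega, rfl⟩
    have e2 : D6_i y (y.b k (!σ)) k σ = 0 := if_neg (fun hh => hD hh.2.symm)
    rw [e1, e2, e3, e3]
    omega
  · rw [D6_split _ h.ne (y.b k σ) (σ := σ), D6_i_k h, D6_i_k2 h, D6_i_kn h hD, D6_i_k2n h hD]
    simp only [hC.symm, hD, and_true, and_false, if_false]
    omega
  · rw [D6_split _ h.ne C2 (σ := σ), D6_i_k h, D6_i_k2 h, D6_i_kn h hD, D6_i_k2n h hD]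
    simp only [hC, hDC2, and_true, and_false, if_false]
    omega
  · rw [D6_split _ h.ne (y.b k (!σ)) (σ := σ), D6_i_k h, D6_i_k2 h, D6_i_kn h hD, D6_i_k2n h hD,
      D6_R_ne hD hDC2]
    simp only [hD.symm, hDC2.symm, and_true, and_false, if_false]
    omega

omit [Fintype β] in
theorem D6_left (h : y.FillOK k k2 σ j0 j1) (hb : y.ABdry k σ j0 j1) (ha : y.s k σ < j0)
    (hn : y.b k (!σ) = y.b k σ → j1 ≤ y.s k (!σ)) :
    1 ≤ D6_R (D6_y2 y k k2 σ j0 j1 C2) k k2 (y.b k σ) σ := by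
  have h01 := h.h01
  have hsp := h.spare
  obtain ⟨k', σ', hne, hl, hbb, he⟩ := hb.l ha
  have hk2 : k' ≠ k2 := by rintro rfl; omega
  have hk : k' ≠ k := by
    rintro rfl
    have hs : σ' = !σ := by
      cases σ <;> cases σ' <;> simp_all
    subst hs
    have := hn hbb
    omega
  exact D6_R_pos_left hk hk2 hl hbb (by omega)

omit [Fintype β] in
theorem D6_right (h : y.FillOK k k2 σ j0 j1) (hb : y.ABdry k σ j0 j1) (hr : j1 < y.s k σ + y.ln k)
    (hn : y.b k (!σ) = y.b k σ → y.s k (!σ) + y.ln k ≤ j0) :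
    1 ≤ D6_R (D6_y2 y k k2 σ j0 j1 C2) k k2 C2 σ := by
  have h01 := h.h01
  have hsp := h.spare
  obtain ⟨k', σ', hne, hl, hbb, he⟩ := hb.r hr
  have hk2 : k' ≠ k2 := by rintro rfl; omega
  have hk : k' ≠ k := by
    rintro rfl
    have hs : σ' = !σ := by
      cases σ <;> cases σ' <;> simp_all
    subst hs
    have := hn hbb
    omega
  exact D6_R_pos_right hk hk2 hl hbb (by omega)

theorem opA_kap (hy : y.WF) (h : y.FillOK k k2 σ j0 j1) (hb : y.ABdry k σ j0 j1) (hC : y.b k σ ≠ C2)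
    (hC2 : y.len C2 = 0) :
    ((y.unfill k k2 σ j0 j1).cut (y.b k σ) C2 j0 j1).kap ≤ y.kap := by
  unfold Sys.kap
  by_cases hD : y.b k (!σ) = y.b k σ
  · obtain ⟨R1, R2, a, r, ha, hr, h1, h2, h3, h4, h5⟩ := D6_A_counts hy h hC hC2 hD
    refine D6_sum2 hC ?_ ?_
    · rcases h5 with ⟨hl, h5, h6⟩ | ⟨hl, h5, h6⟩
      · rw [h5, h6, h3, h4]
        by_cases ha' : y.s k σ < j0
        · by_cases hr' : j1 < y.s k σ + y.ln k
          · have := D6_right (C2 := C2) h hb hr' (fun _ => hl)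
            rw [if_pos ha'] at ha
            rw [if_pos hr'] at hr
            omega
          · rw [if_pos ha'] at ha
            rw [if_neg hr'] at hr
            omega
        · rw [if_neg ha'] at ha
          split_ifs at hr <;> omega
      · rw [h5, h6, h3, h4]
        by_cases ha' : y.s k σ < j0
        · by_cases hr' : j1 < y.s k σ + y.ln k
          · have := D6_left (C2 := C2) h hb ha' (fun _ => hl)
            rw [if_pos ha'] at ha
            rw [if_pos hr'] at hr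
            omega
          · rw [if_pos ha'] at ha
            rw [if_neg hr'] at hr
            omega
        · rw [if_neg ha'] at ha
          split_ifs at hr <;> omega
    · intro E e1 e2
      rw [D6_A_ne h e1 e2 (by rw [hD]; exact e1)]
  · obtain ⟨R1, R2, R3, a, r, ha, hr, h1, h2, hDC2, h3, h4, h5, h6, h7, h8⟩ :=
      D6_A_counts' hy h hC hC2 hD
    refine D6_sum3 hC hD hDC2 ?_ ?_
    · rw [h3, h4, h5, h6, h7, h8]
      by_cases ha' : y.s k σ < j0
      · by_cases hr' : j1 < y.s k σ + y.ln k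
        · have e1 := D6_left (C2 := C2) h hb ha' (fun hh => absurd hh hD)
          have e2 := D6_right (C2 := C2) h hb hr' (fun hh => absurd hh hD)
          rw [if_pos ha'] at ha
          rw [if_pos hr'] at hr
          omega
        · rw [if_pos ha'] at ha
          rw [if_neg hr'] at hr
          omega
      · rw [if_neg ha'] at ha
        split_ifs at hr <;> omega
    · intro E e1 e2 e3
      rw [D6_A_ne h e1 e2 e3]

omit [DecidableEq β] [DecidableEq γ] [Fintype β] [Fintype γ] in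
theorem D6_b_act (hy : y.WF) (h : y.FillOK k k2 σ j0 j1) (τ : Bool) : 0 < y.len (y.b k τ) := by
  have h0 := h.h0
  have h01 := h.h01
  have h1 := h.h1
  have h3 := hy.s_le k τ
  have h4 := hy.s_nonneg k τ
  omega

theorem opA_low (hy : y.WF) (h : y.FillOK k k2 σ j0 j1) (hb : y.ABdry k σ j0 j1) (hC : y.b k σ ≠ C2)
    (hC2 : y.len C2 = 0) (hend : j0 = 0 ∨ j1 = y.len (y.b k σ)) (hn : y.nsd (y.b k σ) ≤ 2) :
    ((y.unfill k k2 σ j0 j1).cut (y.b k σ) C2 j0 j1).kap +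
      ((y.unfill k k2 σ j0 j1).cut (y.b k σ) C2 j0 j1).low ≤ y.kap + y.low := by
  rw [D6_low, D6_low, Sys.kap, Sys.kap, ← Finset.sum_add_distrib, ← Finset.sum_add_distrib]
  have h0 := h.h0
  have h01 := h.h01
  have h1 := h.h1
  have hs0 := hy.s_nonneg k σ
  have hs1 := hy.s_le k σ
  have hlC : (D6_y2 y k k2 σ j0 j1 C2).len (y.b k σ) = j0 := by simp [Sys.cut]
  have hlC2 : (D6_y2 y k k2 σ j0 j1 C2).len C2 = y.len (y.b k σ) - j1 := by
    simp [Sys.cut, Sys.unfill, hC.symm]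
  have hactC := D6_b_act hy h σ
  by_cases hD : y.b k (!σ) = y.b k σ
  · obtain ⟨R1, R2, a, r, ha, hr, h1, h2, h3, h4, h5⟩ := D6_A_counts hy h hC hC2 hD
    refine D6_sum2 hC ?_ ?_
    · rw [hlC, hlC2, hC2]
      have har : a + r ≤ 1 := by
        rcases hend with hh | hh
        · rw [if_neg (by omega)] at ha
          split_ifs at hr <;> omega
        · rw [if_neg (by omega)] at hr
          split_ifs at ha <;> omega
      rw [if_pos (show 0 < y.len (y.b k σ) ∧ y.nsd (y.b k σ) ≤ 2 from ⟨hactC, hn⟩)]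
      rcases hend with hh | hh
      · rw [if_neg (show ¬ (0 < j0 ∧ _) from fun hx => by omega)]
        rcases h5 with ⟨hl, h5, h6⟩ | ⟨hl, h5, h6⟩
        · rw [h5, h6, h3, h4]
          split_ifs <;> omega
        · rw [h5, h6, h3, h4]
          split_ifs <;> omega
      · rw [if_neg (show ¬ (0 < y.len (y.b k σ) - j1 ∧ _) from fun hx => by omega)]
        rcases h5 with ⟨hl, h5, h6⟩ | ⟨hl, h5, h6⟩
        · rw [h5, h6, h3, h4]
          split_ifs <;> omega
        · rw [h5, h6, h3, h4]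
          split_ifs <;> omega
    · intro E e1 e2
      rw [D6_A_ne h e1 e2 (by rw [hD]; exact e1)]
      have : (D6_y2 y k k2 σ j0 j1 C2).len E = y.len E := by simp [Sys.cut, Sys.unfill, e1, e2]
      rw [this]
  · obtain ⟨R1, R2, R3, a, r, ha, hr, h1, h2, hDC2, h3, h4, h5, h6, h7, h8⟩ :=
      D6_A_counts' hy h hC hC2 hD
    have hlD : (D6_y2 y k k2 σ j0 j1 C2).len (y.b k (!σ)) = y.len (y.b k (!σ)) := by
      simp [Sys.cut, Sys.unfill, hD, hDC2]
    have hactD := D6_b_act hy h (!σ)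
    refine D6_sum3 hC hD hDC2 ?_ ?_
    · rw [hlC, hlC2, hC2, hlD]
      have har : a + r ≤ 1 := by
        rcases hend with hh | hh
        · rw [if_neg (by omega)] at ha
          split_ifs at hr <;> omega
        · rw [if_neg (by omega)] at hr
          split_ifs at ha <;> omega
      rw [if_pos (show 0 < y.len (y.b k σ) ∧ y.nsd (y.b k σ) ≤ 2 from ⟨hactC, hn⟩)]
      rw [h3] at hn
      have q1 : (R3 + a + r - 2) + (if 0 < y.len (y.b k (!σ)) ∧ R3 + a + r ≤ 2 then 1 else 0) ≤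
          (R3 + 1 - 2) + (if 0 < y.len (y.b k (!σ)) ∧ R3 + 1 ≤ 2 then 1 else 0) := by
        simp only [hactD, true_and]
        split_ifs <;> omega
      have q2 : (if 0 < y.len (y.b k σ) - j1 ∧ R2 + r ≤ 2 then 1 else 0) ≤ 1 := by
        split_ifs <;> omega
      have q3 : (if 0 < j0 ∧ R1 + a ≤ 2 then 1 else 0) ≤ 1 := by
        split_ifs <;> omega
      rcases hend with hh | hh
      · rw [if_neg (show ¬ (0 < j0 ∧ _) from fun hx => by omega)]
        rw [h3, h4, h5, h6, h7, h8]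
        omega
      · rw [if_neg (show ¬ (0 < y.len (y.b k σ) - j1 ∧ _) from fun hx => by omega)]
        rw [h3, h4, h5, h6, h7, h8]
        omega
    · intro E e1 e2 e3
      rw [D6_A_ne h e1 e2 e3]
      have : (D6_y2 y k k2 σ j0 j1 C2).len E = y.len E := by simp [Sys.cut, Sys.unfill, e1, e2]
      rw [this]

theorem opA_low3 (hy : y.WF) (h : y.FillOK k k2 σ j0 j1) (hb : y.ABdry k σ j0 j1) (hC : y.b k σ ≠ C2)
    (hC2 : y.len C2 = 0) (hn : y.low = 0) :
    ((y.unfill k k2 σ j0 j1).cut (y.b k σ) C2 j0 j1).low ≤ 3 := by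
  have h1 : (Finset.univ.filter (fun E : β => 0 < (D6_y2 y k k2 σ j0 j1 C2).len E ∧
      (D6_y2 y k k2 σ j0 j1 C2).nsd E ≤ 2)) ⊆ {y.b k σ, C2, y.b k (!σ)} := by
    intro E hE
    by_contra hne
    simp only [Finset.mem_insert, Finset.mem_singleton, not_or] at hne
    have hE' := (Finset.mem_filter.1 hE).2
    rw [D6_A_ne h hne.1 hne.2.1 hne.2.2] at hE'
    have : (D6_y2 y k k2 σ j0 j1 C2).len E = y.len E := by simp [Sys.cut, Sys.unfill, hne.1, hne.2.1]
    rw [this] at hE'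
    unfold Sys.low at hn
    rw [Finset.card_eq_zero] at hn
    have : E ∈ (∅ : Finset β) := by
      rw [← hn]
      exact Finset.mem_filter.2 ⟨Finset.mem_univ _, hE'⟩
    simp at this
  exact le_trans (Finset.card_le_card h1) Finset.card_le_three

end

end Pool.Agent.Helper59.TE
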