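import Pool.Agent.Helper59.TE.D2
import Pool.Agent.Helper59.TE.D4b
import Pool.Agent.Helper59.TE.D5
import Pool.Agent.Helper59.TE.D6

set_option autoImplicit false

namespace Pool.Agent.Helper59.TE
open Sys

variable {β γ : Type} [DecidableEq β] [DecidableEq γ] [Fintype β] [Fintype γ]

/-! spare slots -/

theorem D7_nsd_inactive (y : Sys β γ) (hy : y.WF) {C : β} (hC : y.len C = 0) : y.nsd C = 0 := by
  unfold Sys.nsd
  rw [Finset.card_eq_zero, Finset.filter_eq_empty_iff]
  rintro ⟨k, σ⟩ _ ⟨h1, h2⟩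
  have a := hy.s_le k σ
  have b := hy.s_nonneg k σ
  rw [h2, hC] at a
  simp only at h1
  omega

theorem exists_spare_block (y : Sys β γ) (hy : y.WF) (h : y.kap + y.low < Fintype.card β) :
    ∃ C, y.len C = 0 := by
  by_contra hcon
  push Not at hcon
  have hpos : ∀ C, 0 < y.len C := fun C => lt_of_le_of_ne (hy.len_nonneg C) (hcon C).symm
  have : Fintype.card β ≤ y.kap + y.low := by
    unfold Sys.kap Sys.low
    rw [Finset.card_filter, ← Finset.sum_add_distrib, Fintype.card_eq_sum_ones]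
    apply Finset.sum_le_sum
    intro C _
    by_cases h2 : y.nsd C ≤ 2
    · rw [if_pos ⟨hpos C, h2⟩]; omega
    · omega
  omega

theorem exists_spare_band (y : Sys β γ) (hy : y.WF) (h : y.kap + 2 * (y.kap + y.low) < 2 * Fintype.card γ) :
    ∃ k, y.ln k = 0 := by
  by_contra hcon
  push Not at hcon
  have hpos : ∀ k, 0 < y.ln k := fun k => lt_of_le_of_ne (hy.ln_nonneg k) (hcon k).symm
  have h1 : ∑ C, y.nsd C = 2 * Fintype.card γ := by
    unfold Sys.nsd
    rw [← Finset.card_biUnion]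
    · have : (Finset.univ.biUnion fun C => Finset.univ.filter (fun k : γ × Bool => 0 < y.ln k.1 ∧ y.b k.1 k.2 = C))
          = (Finset.univ : Finset (γ × Bool)) := by
        ext k
        simp [hpos]
      rw [this, Finset.card_univ, Fintype.card_prod, Fintype.card_bool, mul_comm]
    · intro C _ C' _ hne
      rw [Function.onFun, Finset.disjoint_left]
      intro k hk hk'
      simp only [Finset.mem_filter] at hk hk'
      exact hne (hk.2.2.symm.trans hk'.2.2)
  have h2 : ∑ C, y.nsd C ≤ y.kap + 2 * (y.kap + y.low) := by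
    unfold Sys.kap Sys.low
    rw [Finset.card_filter, ← Finset.sum_add_distrib, Finset.mul_sum, ← Finset.sum_add_distrib]
    apply Finset.sum_le_sum
    intro C _
    by_cases hC : 0 < y.len C
    · by_cases h2 : y.nsd C ≤ 2
      · rw [if_pos ⟨hC, h2⟩]; omega
      · omega
    · have := D7_nsd_inactive y hy (C := C) (le_antisymm (not_lt.1 hC) (hy.len_nonneg C))
      omega
  omega

/-! atoms -/

omit [Fintype β] in
theorem D7_atom (y : Sys β γ) (hy : y.WF) (C : β) (p0 : ℤ) (h0 : 0 ≤ p0) (h1 : p0 < y.len C) :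
    ∃ j0 j1 : ℤ, 0 ≤ j0 ∧ j0 ≤ p0 ∧ p0 < j1 ∧ j1 ≤ y.len C ∧
      (∀ k σ, 0 < y.ln k → y.b k σ = C → (y.s k σ ≤ p0 → y.s k σ ≤ j0) ∧ (p0 < y.s k σ → j1 ≤ y.s k σ) ∧
        (y.s k σ + y.ln k ≤ p0 → y.s k σ + y.ln k ≤ j0) ∧
        (p0 < y.s k σ + y.ln k → j1 ≤ y.s k σ + y.ln k)) ∧
      (j0 = 0 ∨ ∃ k σ, 0 < y.ln k ∧ y.b k σ = C ∧ (y.s k σ = j0 ∨ y.s k σ + y.ln k = j0)) ∧
      (j1 = y.len C ∨ ∃ k σ, 0 < y.ln k ∧ y.b k σ = C ∧ (y.s k σ = j1 ∨ y.s k σ + y.ln k = j1)) := by
  classical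
  let S : Finset (γ × Bool) := Finset.univ.filter (fun k => 0 < y.ln k.1 ∧ y.b k.1 k.2 = C)
  let A : Finset ℤ := {0, y.len C} ∪ (S.image (fun k => y.s k.1 k.2) ∪ S.image (fun k => y.s k.1 k.2 + y.ln k.1))
  have hA : ∀ e, e ∈ A ↔ (e = 0 ∨ e = y.len C) ∨ ((∃ k σ, 0 < y.ln k ∧ y.b k σ = C ∧ y.s k σ = e) ∨
      (∃ k σ, 0 < y.ln k ∧ y.b k σ = C ∧ y.s k σ + y.ln k = e)) := by
    intro e
    simp only [A, S, Finset.mem_union, Finset.mem_insert, Finset.mem_singleton, Finset.mem_image,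
      Finset.mem_filter, Finset.mem_univ, true_and, Prod.exists]
    constructor
    · rintro ((h | h) | (⟨k, σ, ⟨a, b⟩, c⟩ | ⟨k, σ, ⟨a, b⟩, c⟩))
      · exact Or.inl (Or.inl h)
      · exact Or.inl (Or.inr h)
      · exact Or.inr (Or.inl ⟨k, σ, a, b, c⟩)
      · exact Or.inr (Or.inr ⟨k, σ, a, b, c⟩)
    · rintro ((h | h) | (⟨k, σ, a, b, c⟩ | ⟨k, σ, a, b, c⟩))
      · exact Or.inl (Or.inl h)
      · exact Or.inl (Or.inr h)
      · exact Or.inr (Or.inl ⟨k, σ, ⟨a, b⟩, c⟩)
      · exact Or.inr (Or.inr ⟨k, σ, ⟨a, b⟩, c⟩)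
  have n0 : (A.filter (fun e => e ≤ p0)).Nonempty := ⟨0, Finset.mem_filter.2 ⟨(hA 0).2 (Or.inl (Or.inl rfl)), h0⟩⟩
  have n1 : (A.filter (fun e => p0 < e)).Nonempty :=
    ⟨y.len C, Finset.mem_filter.2 ⟨(hA _).2 (Or.inl (Or.inr rfl)), h1⟩⟩
  have m0 := Finset.mem_filter.1 (Finset.max'_mem _ n0)
  have m1 := Finset.mem_filter.1 (Finset.min'_mem _ n1)
  have l0 : ∀ e ∈ A, e ≤ p0 → e ≤ (A.filter (fun e => e ≤ p0)).max' n0 := fun e he h =>
    Finset.le_max' _ e (Finset.mem_filter.2 ⟨he, h⟩)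
  have l1 : ∀ e ∈ A, p0 < e → (A.filter (fun e => p0 < e)).min' n1 ≤ e := fun e he h =>
    Finset.min'_le _ e (Finset.mem_filter.2 ⟨he, h⟩)
  refine ⟨_, _, l0 0 ((hA 0).2 (Or.inl (Or.inl rfl))) h0, m0.2, m1.2,
    l1 _ ((hA _).2 (Or.inl (Or.inr rfl))) h1, ?_, ?_, ?_⟩
  · intro k σ hk hb
    have a : y.s k σ ∈ A := (hA _).2 (Or.inr (Or.inl ⟨k, σ, hk, hb, rfl⟩))
    have b : y.s k σ + y.ln k ∈ A := (hA _).2 (Or.inr (Or.inr ⟨k, σ, hk, hb, rfl⟩))
    exact ⟨l0 _ a, l1 _ a, l0 _ b, l1 _ b⟩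
  · rcases (hA _).1 m0.1 with ((h | h) | (⟨k, σ, a, b, c⟩ | ⟨k, σ, a, b, c⟩))
    · exact Or.inl h
    · exfalso; have := m0.2; omega
    · exact Or.inr ⟨k, σ, a, b, Or.inl c⟩
    · exact Or.inr ⟨k, σ, a, b, Or.inr c⟩
  · rcases (hA _).1 m1.1 with ((h | h) | (⟨k, σ, a, b, c⟩ | ⟨k, σ, a, b, c⟩))
    · exfalso; have := m1.2; omega
    · exact Or.inl h
    · exact Or.inr ⟨k, σ, a, b, Or.inl c⟩
    · exact Or.inr ⟨k, σ, a, b, Or.inr c⟩

/-- removing the atom containing a cell which is covered at most once -/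
theorem D7_atomstep (y : Sys β γ) (hy : y.WF) (hcl : y.Clean) (ha : y.Acyc) (C : β) (p0 : ℤ)
    (h0 : 0 ≤ p0) (h1 : p0 < y.len C)
    (huniq : ∀ k σ k' σ', y.Cov k σ C p0 → y.Cov k' σ' C p0 → k = k' ∧ σ = σ')
    (C2 : β) (hC2 : y.len C2 = 0) (k2 : γ) (hk2 : y.ln k2 = 0) :
    ∃ y' : Sys β γ, y'.WF ∧ y'.Clean ∧ y'.Acyc ∧ y'.kap ≤ y.kap ∧
      ((p0 = 0 ∨ p0 = y.len C - 1) → y.nsd C ≤ 2 → y'.kap + y'.low ≤ y.kap + y.low) ∧
      (y.low = 0 → y'.low ≤ 3) ∧
      y'.size < y.size ∧ ∀ N : ℤ, 0 ≤ N → Claim N y' → Claim (2 * N + 1) y := by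
  obtain ⟨j0, j1, a0, a1, a2, a3, a4, a5, a6⟩ := D7_atom y hy C p0 h0 h1
  have hne : C ≠ C2 := by rintro rfl; omega
  have hend : (p0 = 0 ∨ p0 = y.len C - 1) → (j0 = 0 ∨ j1 = y.len C) := by
    rintro (h | h)
    · left; omega
    · right; omega
  by_cases hcov : ∃ k σ, y.Cov k σ C p0
  · obtain ⟨k, σ, hc⟩ := hcov
    obtain ⟨hb, hc1, hc2⟩ := hc
    have hkpos : 0 < y.ln k := by omega
    have hk := a4 k σ hkpos hb
    have hkk2 : k ≠ k2 := by rintro rfl; omega
    have hother : ∀ k' σ', 0 < y.ln k' → y.b k' σ' = C → (k', σ') ≠ (k, σ) →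
        ¬ (y.s k' σ' ≤ p0 ∧ p0 < y.s k' σ' + y.ln k') := by
      intro k' σ' hk' hb' hne' hcv
      have := huniq k' σ' k σ ⟨hb', hcv.1, hcv.2⟩ ⟨hb, hc1, hc2⟩
      exact hne' (by rw [this.1, this.2])
    have hfill : y.FillOK k k2 σ j0 j1 := by
      refine ⟨hkk2, hk2, fun τ => hcl k2 τ hk2, hk.1 hc1, by omega, hk.2.2.2 hc2, ?_⟩
      intro k' σ' hb' hne'
      rw [hb] at hb'
      rcases eq_or_lt_of_le (hy.ln_nonneg k') with hz | hpos
      · left; rw [hcl k' σ' hz.symm, ← hz]; simpa using a0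
      · have hh := a4 k' σ' hpos hb'
        have hn := hother k' σ' hpos hb' hne'
        by_cases hs : y.s k' σ' ≤ p0
        · left; apply hh.2.2.1; by_contra hcon; exact hn ⟨hs, by omega⟩
        · right; exact hh.2.1 (by omega)
    have hbd : y.ABdry k σ j0 j1 := by
      constructor
      · intro hl
        rcases a5 with h | ⟨k', σ', hk', hb', he⟩
        · have := hy.s_nonneg k σ; omega
        · have hh := a4 k' σ' hk' hb'
          have hne' : (k', σ') ≠ (k, σ) := by
            rintro heq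
            rw [Prod.mk.injEq] at heq
            obtain ⟨rfl, rfl⟩ := heq
            rcases he with he | he
            · omega
            · have := hh.2.2.2 hc2; omega
          refine ⟨k', σ', hne', hk', by rw [hb', hb], ?_⟩
          rcases he with he | he
          · exfalso
            apply hother k' σ' hk' hb' hne'
            refine ⟨by omega, ?_⟩
            by_contra hcon
            have := hh.2.2.1 (by omega)
            omega
          · exact he
      · intro hr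
        rcases a6 with h | ⟨k', σ', hk', hb', he⟩
        · have := hy.s_le k σ; rw [hb] at this; omega
        · have hh := a4 k' σ' hk' hb'
          have hne' : (k', σ') ≠ (k, σ) := by
            rintro heq
            rw [Prod.mk.injEq] at heq
            obtain ⟨rfl, rfl⟩ := heq
            rcases he with he | he
            · omega
            · omega
          refine ⟨k', σ', hne', hk', by rw [hb', hb], ?_⟩
          rcases he with he | he
          · exact he
          · exfalso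
            apply hother k' σ' hk' hb' hne'
            refine ⟨?_, by omega⟩
            by_contra hcon
            have := hh.2.1 (by omega)
            omega
    subst hb
    have hcut := opA_cutOK hy hfill hne hC2
    have hwf1 := unfill_wf hy hfill
    have hwf := cut_wf hwf1 hcut
    refine ⟨((y.unfill k k2 σ j0 j1).cut (y.b k σ) C2 j0 j1).cleanAll, cleanAll_wf hwf, cleanAll_clean _,
      cleanAll_acyc (cut_acyc hwf1 hcut (unfill_acyc hy hfill ha)), ?_, ?_, ?_, ?_, ?_⟩
    · rw [cleanAll_kap]; exact opA_kap hy hfill hbd hne hC2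
    · intro hp hn
      rw [cleanAll_kap, cleanAll_low]
      exact opA_low hy hfill hbd hne hC2 (hend hp) hn
    · intro hlow
      rw [cleanAll_low]; exact opA_low3 hy hfill hbd hne hC2 hlow
    · rw [cleanAll_size, size_cut hcut]
      have : (y.unfill k k2 σ j0 j1).size = y.size := rfl
      omega
    · intro N hN hcN
      exact Claim.mono (opA hy hfill hne hC2 (claim_clean hwf hcN)) (by omega)
  · push Not at hcov
    have hcut : y.CutOK C C2 j0 j1 := by
      refine ⟨hne, hC2, a0, by omega, a3, ?_⟩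
      intro k σ hb
      rcases eq_or_lt_of_le (hy.ln_nonneg k) with hz | hpos
      · left; rw [hcl k σ hz.symm, ← hz]; simpa using a0
      · have hh := a4 k σ hpos hb
        have hn := hcov k σ
        by_cases hs : y.s k σ ≤ p0
        · left; apply hh.2.2.1; by_contra hcon; exact hn ⟨hb, hs, by omega⟩
        · right; exact hh.2.1 (by omega)
    refine ⟨y.cut C C2 j0 j1, cut_wf hy hcut, cut_clean hcl hcut, cut_acyc hy hcut ha, cut_kap hy hcut, ?_, ?_, ?_, ?_⟩
    · intro hp hn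
      exact cut_low hy hcut (hend hp) hn
    · intro hl; exact cut_low3 hy hcut hl
    · rw [size_cut hcut]; omega
    · intro N hN hcN
      exact Claim.mono (opB hy hcut hcN) (by omega)

theorem D7_two {S : Finset (γ × Bool)} (hS : S.card ≤ 2) {a a' b b' : γ × Bool} (ha : a ∈ S) (ha' : a' ∈ S)
    (hne : a ≠ a') (hb : b ∈ S) (hb' : b' ∈ S) (hne' : b ≠ b') : (a = b ∨ a = b') ∧ (a' = b ∨ a' = b') := by
  have h1 : ({a, a'} : Finset (γ × Bool)) = S := by
    apply Finset.eq_of_subset_of_card_le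
    · intro x hx; simp at hx; rcases hx with rfl | rfl <;> assumption
    · rw [Finset.card_pair hne]; exact hS
  have h2 : ({b, b'} : Finset (γ × Bool)) = S := by
    apply Finset.eq_of_subset_of_card_le
    · intro x hx; simp at hx; rcases hx with rfl | rfl <;> assumption
    · rw [Finset.card_pair hne']; exact hS
  rw [← h2] at ha ha'
  simpa using And.intro ha ha'

theorem step (K : ℕ) (hβ : K + 4 ≤ Fintype.card β) (hγ : 2 * K + 4 ≤ Fintype.card γ) (y : Sys β γ)
    (hy : y.WF) (hcl : y.Clean) (ha : y.Acyc) (hk : y.kap ≤ K) (hkl : y.kap + y.low ≤ K + 3)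
    (hs : 0 < y.size) :
    ∃ y' : Sys β γ, y'.WF ∧ y'.Clean ∧ y'.Acyc ∧ y'.kap ≤ K ∧ y'.kap + y'.low ≤ K + 3 ∧
      y'.size < y.size ∧ ∀ N : ℤ, 0 ≤ N → Claim N y' → Claim (2 * N + 1) y := by
  obtain ⟨C2, hC2⟩ := exists_spare_block y hy (by omega)
  obtain ⟨k2, hk2⟩ := exists_spare_band y hy (by omega)
  by_cases hlow : ∃ C, 0 < y.len C ∧ y.nsd C ≤ 2
  · obtain ⟨C, hCpos, hCn⟩ := hlow
    by_cases hu1 : ∀ k σ k' σ', y.Cov k σ C 0 → y.Cov k' σ' C 0 → k = k' ∧ σ = σ'
    · obtain ⟨y', b1, b2, b3, b4, b5, b6, b7, b8⟩ :=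
        D7_atomstep y hy hcl ha C 0 (le_refl _) hCpos hu1 C2 hC2 k2 hk2
      have := b5 (Or.inl rfl) hCn
      exact ⟨y', b1, b2, b3, by omega, by omega, b7, b8⟩
    by_cases hu2 : ∀ k σ k' σ', y.Cov k σ C (y.len C - 1) → y.Cov k' σ' C (y.len C - 1) → k = k' ∧ σ = σ'
    · obtain ⟨y', b1, b2, b3, b4, b5, b6, b7, b8⟩ :=
        D7_atomstep y hy hcl ha C (y.len C - 1) (by omega) (by omega) hu2 C2 hC2 k2 hk2
      have := b5 (Or.inr rfl) hCn
      exact ⟨y', b1, b2, b3, by omega, by omega, b7, b8⟩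
    push Not at hu1 hu2
    obtain ⟨k1, σ1, k3, σ3, c1, c3, hne⟩ := hu1
    obtain ⟨k1', σ1', k3', σ3', c1', c3', hne'⟩ := hu2
    have hmem : ∀ k σ p, y.Cov k σ C p →
        (k, σ) ∈ Finset.univ.filter (fun k : γ × Bool => 0 < y.ln k.1 ∧ y.b k.1 k.2 = C) := by
      intro k σ p hc
      simp only [Finset.mem_filter, Finset.mem_univ, true_and]
      exact ⟨by have := hc.2.1; have := hc.2.2; omega, hc.1⟩
    have n1 : (k1, σ1) ≠ (k3, σ3) := by
      intro he; rw [Prod.mk.injEq] at he; exact hne he.1 he.2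
    have n2 : (k1', σ1') ≠ (k3', σ3') := by
      intro he; rw [Prod.mk.injEq] at he; exact hne' he.1 he.2
    have htwo := D7_two (S := Finset.univ.filter (fun k : γ × Bool => 0 < y.ln k.1 ∧ y.b k.1 k.2 = C))
      hCn (hmem _ _ _ c1) (hmem _ _ _ c3) n1 (hmem _ _ _ c1') (hmem _ _ _ c3') n2
    have d1 : y.Cov k1 σ1 C (y.len C - 1) := by
      rcases htwo.1 with h | h <;> rw [Prod.mk.injEq] at h <;> obtain ⟨rfl, rfl⟩ := h <;> assumption
    have d3 : y.Cov k3 σ3 C (y.len C - 1) := by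
      rcases htwo.2 with h | h <;> rw [Prod.mk.injEq] at h <;> obtain ⟨rfl, rfl⟩ := h <;> assumption
    have s1 : y.s k1 σ1 = 0 := le_antisymm c1.2.1 (hy.s_nonneg _ _)
    have s3 : y.s k3 σ3 = 0 := le_antisymm c3.2.1 (hy.s_nonneg _ _)
    have l1 : y.ln k1 = y.len C := by
      have a := hy.s_le k1 σ1; rw [c1.1] at a
      have b := d1.2.2
      omega
    have l3 : y.ln k3 = y.len C := by
      have a := hy.s_le k3 σ3; rw [c3.1] at a
      have b := d3.2.2
      omega
    have hkk : k1 ≠ k3 := by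
      rintro rfl
      have hσ : σ3 = !σ1 := by
        cases σ1 <;> cases σ3 <;> simp at n1 ⊢
      subst hσ
      obtain ⟨h, hh⟩ := ha
      obtain ⟨p, hp, hmax⟩ := Finset.exists_max_image (Finset.Ico 0 (y.len C)) (fun p => h (C, p))
        ⟨0, Finset.mem_Ico.2 ⟨le_refl _, hCpos⟩⟩
      rw [Finset.mem_Ico] at hp
      have e1 : y.b k1 (!σ1) = C := c3.1
      have e2 : y.b k1 (!!σ1) = C := by rw [Bool.not_not]; exact c1.1
      have := hh C p k1 σ1 k1 (!σ1) ⟨c1.1, by omega, by omega⟩ ⟨c3.1, by omega, by omega⟩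
        (by
          unfold Sys.par
          rw [e1, s1, s3]
          split_ifs
          · exact hmax _ (Finset.mem_Ico.2 ⟨by omega, by omega⟩)
          · exact hmax _ (Finset.mem_Ico.2 ⟨by omega, by omega⟩))
        (by
          unfold Sys.par
          rw [e2, Bool.not_not, s1, s3]
          split_ifs
          · exact hmax _ (Finset.mem_Ico.2 ⟨by omega, by omega⟩)
          · exact hmax _ (Finset.mem_Ico.2 ⟨by omega, by omega⟩))
      have := this.2
      cases σ1 <;> simp at this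
    have hm : y.MrgOK C k1 k3 σ1 σ3 := by
      refine ⟨hkk, c1.1, c3.1, s1, s3, l1, l3, hCpos, ?_⟩
      intro k' σ' hb' hk'
      have hin : (k', σ') ∈ Finset.univ.filter (fun k : γ × Bool => 0 < y.ln k.1 ∧ y.b k.1 k.2 = C) := by
        simp only [Finset.mem_filter, Finset.mem_univ, true_and]; exact ⟨hk', hb'⟩
      have he : ({(k1, σ1), (k3, σ3)} : Finset (γ × Bool)) =
          Finset.univ.filter (fun k : γ × Bool => 0 < y.ln k.1 ∧ y.b k.1 k.2 = C) := by
        apply Finset.eq_of_subset_of_card_le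
        · intro x hx; simp only [Finset.mem_insert, Finset.mem_singleton] at hx
          rcases hx with rfl | rfl
          · exact hmem _ _ _ c1
          · exact hmem _ _ _ c3
        · rw [Finset.card_pair n1]; exact hCn
      rw [← he] at hin
      simpa using hin
    refine ⟨y.mrg C k1 k3 σ1 σ3, mrg_wf hy hm hcl, mrg_clean hcl hm, mrg_acyc hy hm ha,
      le_trans (mrg_kap hy hm hcl) hk, le_trans (mrg_low hy hm hcl) hkl, ?_, ?_⟩
    · rw [mrg_size hm]; omega
    · intro N hN hcN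
      exact Claim.mono (opC hy hm hcl hcN) (by omega)
  · push Not at hlow
    have hlow0 : y.low = 0 := by
      unfold Sys.low
      rw [Finset.card_eq_zero, Finset.filter_eq_empty_iff]
      rintro C _ ⟨h1, h2⟩
      have := hlow C h1
      omega
    have ha' := ha
    obtain ⟨h, hh⟩ := ha
    -- cell of maximal rank
    let cells : Finset (β × ℤ) := Finset.univ.biUnion (fun C => (Finset.Ico 0 (y.len C)).image (fun p => (C, p)))
    have hcells : ∀ C p, (C, p) ∈ cells ↔ 0 ≤ p ∧ p < y.len C := by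
      intro C p
      simp only [cells, Finset.mem_biUnion, Finset.mem_univ, true_and, Finset.mem_image, Finset.mem_Ico,
        Prod.mk.injEq]
      constructor
      · rintro ⟨C', p', hp', rfl, rfl⟩; exact hp'
      · intro hp; exact ⟨C, p, hp, rfl, rfl⟩
    have hne : cells.Nonempty := by
      by_contra hcon
      rw [Finset.not_nonempty_iff_eq_empty] at hcon
      have : ∀ C, y.len C = 0 := by
        intro C
        apply le_antisymm _ (hy.len_nonneg C)
        by_contra hC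
        have : (C, (0 : ℤ)) ∈ cells := (hcells C 0).2 ⟨le_refl _, by omega⟩
        rw [hcon] at this
        simp at this
      unfold Sys.size at hs
      simp [this] at hs
    obtain ⟨⟨C, p⟩, hp, hmax⟩ := Finset.exists_max_image cells h hne
    rw [hcells] at hp
    have hpar : ∀ k σ, y.Cov k σ C p → h (y.par k σ p) ≤ h (C, p) := by
      intro k σ hc
      have a1 := hy.s_nonneg k (!σ)
      have a2 := hy.s_le k (!σ)
      have a3 := hc.2.1
      have a4 := hc.2.2
      apply hmax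
      have e : y.par k σ p = ((y.par k σ p).1, (y.par k σ p).2) := rfl
      rw [e, hcells]
      unfold Sys.par
      simp only
      split_ifs <;> constructor <;> omega
    obtain ⟨y', b1, b2, b3, b4, b5, b6, b7, b8⟩ :=
      D7_atomstep y hy hcl ha' C p hp.1 hp.2
        (fun k σ k' σ' c c' => hh C p k σ k' σ' c c' (hpar k σ c) (hpar k' σ' c')) C2 hC2 k2 hk2
    have := b6 hlow0
    exact ⟨y', b1, b2, b3, by omega, by omega, b7, b8⟩

end Pool.Agent.Helper59.TE
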