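import Pool.Agent.Helper59.TE.D1

set_option autoImplicit false

/-! Module D8: the chain of subspaces stabilises with an explicit bound. -/

namespace Pool.Agent.Helper59.TE
open Sys

/-- patterns -/
abbrev D8_Pat (β γ : Type) := (γ → Bool → β) × (γ → Bool) × (EP β γ → EP β γ → Bool)

/-- the acyclic systems of a given pattern of size at most `N` -/
def D8_S {β γ : Type} [Fintype β] [Fintype γ] (N : ℕ) (π : D8_Pat β γ) : Set (Sys β γ) :=
  {w | w.b = π.1 ∧ w.fl = π.2.1 ∧ (∀ e e', π.2.2 e e' = true → w.pos e ≤ w.pos e') ∧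
    w.Acyc ∧ w.size ≤ (N : ℤ)}

/-- the affine functionals vanishing on `D8_S N π`. -/
def D8_K {β γ : Type} [Fintype β] [Fintype γ] (N : ℕ) (π : D8_Pat β γ) :
    Submodule ℚ (Sys β γ → ℚ) where
  carrier := {f | f ∈ Aff β γ ∧ ∀ w ∈ D8_S N π, f w = 0}
  zero_mem' := ⟨Submodule.zero_mem _, fun _ _ => rfl⟩
  add_mem' := by
    rintro f g ⟨hf, hf'⟩ ⟨hg, hg'⟩
    exact ⟨Submodule.add_mem _ hf hg, fun w hw => by simp [hf' w hw, hg' w hw]⟩
  smul_mem' := by
    rintro a f ⟨hf, hf'⟩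
    exact ⟨Submodule.smul_mem _ _ hf, fun w hw => by simp [hf' w hw]⟩

theorem D8_Aff_eq (β γ : Type) [Fintype β] [Fintype γ] :
    Aff β γ = Submodule.span ℚ (Set.range (Sum.elim (fun (_ : Unit) => (fun _ : Sys β γ => (1 : ℚ)))
      (Sum.elim (fun (k : γ × Bool) (w : Sys β γ) => (w.s k.1 k.2 : ℚ))
        (Sum.elim (fun (k : γ) (w : Sys β γ) => (w.ln k : ℚ))
          (fun (C : β) (w : Sys β γ) => (w.len C : ℚ)))))) := by
  rw [Set.Sum.elim_range, Set.Sum.elim_range, Set.Sum.elim_range, Set.range_const]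
  rfl

theorem D8_Aff_finite (β γ : Type) [Fintype β] [Fintype γ] : Module.Finite ℚ (Aff β γ) := by
  rw [D8_Aff_eq]
  exact FiniteDimensional.span_of_finite ℚ (Set.finite_range _)

theorem D8_Aff_finrank (β γ : Type) [Fintype β] [Fintype γ] :
    Module.finrank ℚ (Aff β γ) ≤ 1 + 3 * Fintype.card γ + Fintype.card β := by
  rw [D8_Aff_eq]
  refine (finrank_range_le_card _).trans ?_
  simp only [Fintype.card_sum, Fintype.card_prod, Fintype.card_bool, Fintype.card_unit]
  omega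

theorem D8_K_le_Aff {β γ : Type} [Fintype β] [Fintype γ] (N : ℕ) (π : D8_Pat β γ) :
    D8_K N π ≤ Aff β γ := fun _ hf => hf.1

theorem D8_K_finite {β γ : Type} [Fintype β] [Fintype γ] (N : ℕ) (π : D8_Pat β γ) :
    Module.Finite ℚ (D8_K N π) := by
  have := D8_Aff_finite β γ
  exact Submodule.finiteDimensional_of_le (D8_K_le_Aff N π)

theorem D8_K_anti {β γ : Type} [Fintype β] [Fintype γ] {N N' : ℕ} (h : N ≤ N') (π : D8_Pat β γ) :
    D8_K N' π ≤ D8_K N π := by
  rintro f ⟨hf, hf'⟩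
  refine ⟨hf, fun w hw => hf' w ⟨hw.1, hw.2.1, hw.2.2.1, hw.2.2.2.1, ?_⟩⟩
  exact hw.2.2.2.2.trans (by exact_mod_cast h)

theorem D8_K_finrank_le {β γ : Type} [Fintype β] [Fintype γ] (N : ℕ) (π : D8_Pat β γ) :
    Module.finrank ℚ (D8_K N π) ≤ 1 + 3 * Fintype.card γ + Fintype.card β := by
  have := D8_Aff_finite β γ
  exact (Submodule.finrank_mono (D8_K_le_Aff N π)).trans (D8_Aff_finrank β γ)

/-- a decreasing sequence of natural numbers bounded by `B` at the start is constant at some step `≤ B`. -/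
theorem D8_stab (a : ℕ → ℕ) (ha : ∀ i, a (i + 1) ≤ a i) (B : ℕ) (h0 : a 0 ≤ B) :
    ∃ i ≤ B, a (i + 1) = a i := by
  by_contra hcon
  push Not at hcon
  have h : ∀ i, i ≤ B + 1 → a i + i ≤ B := by
    intro i
    induction i with
    | zero => intro _; simpa using h0
    | succ i ih =>
      intro hi
      have h1 := ih (by omega)
      have h2 := hcon i (by omega)
      have h3 := ha i
      omega
  have := h (B + 1) le_rfl
  omega

theorem chain (β γ : Type) [Fintype β] [Fintype γ] :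
    ∃ N : ℕ, N ≤ Nstar0 (Fintype.card β) (Fintype.card γ) ∧
      ∀ y : Sys β γ, Claim (2 * (N : ℤ) + 1) y → Claim (N : ℤ) y := by
  classical
  have hfin : ∀ (N : ℕ) (π : D8_Pat β γ), Module.Finite ℚ (D8_K N π) := D8_K_finite
  obtain ⟨i, hi, hi'⟩ := D8_stab (fun i => ∑ π : D8_Pat β γ, Module.finrank ℚ (D8_K (2 ^ i - 1) π))
    (fun i => Finset.sum_le_sum fun π _ => Submodule.finrank_mono (D8_K_anti (by
      have : 2 ^ i ≤ 2 ^ (i + 1) := Nat.pow_le_pow_right (by norm_num) (by omega)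
      omega) π)) (chainB (Fintype.card β) (Fintype.card γ)) (by
      refine (Finset.sum_le_card_nsmul _ _ _ fun π _ => D8_K_finrank_le _ π).trans ?_
      rw [Finset.card_univ, smul_eq_mul, mul_comm]
      unfold chainB
      apply Nat.mul_le_mul_left
      simp only [Fintype.card_prod, Fintype.card_fun, Fintype.card_bool, Fintype.card_sum]
      apply le_of_eq
      rw [← mul_assoc, ← pow_mul, ← pow_mul]
      congr 2
      ring)
  refine ⟨2 ^ i - 1, ?_, ?_⟩
  · unfold Nstar0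
    exact (Nat.sub_le _ _).trans (Nat.pow_le_pow_right (by norm_num) hi)
  · have hstep : 2 * (2 ^ i - 1) + 1 = 2 ^ (i + 1) - 1 := by
      have : 1 ≤ 2 ^ i := Nat.one_le_two_pow
      rw [pow_succ]
      omega
    have hK : ∀ π : D8_Pat β γ, D8_K (2 ^ (i + 1) - 1) π = D8_K (2 ^ i - 1) π := by
      intro π
      have hle : ∀ π : D8_Pat β γ, D8_K (2 ^ (i + 1) - 1) π ≤ D8_K (2 ^ i - 1) π := fun π =>
        D8_K_anti (by
          have : 2 ^ i ≤ 2 ^ (i + 1) := Nat.pow_le_pow_right (by norm_num) (by omega)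
          omega) π
      refine Submodule.eq_of_le_of_finrank_eq (hle π) ?_
      have := (Finset.sum_eq_sum_iff_of_le (fun π _ => Submodule.finrank_mono (hle π))).1 hi'
      exact this π (Finset.mem_univ π)
    intro y hy f hf hfw
    set π : D8_Pat β γ := (y.b, y.fl, fun e e' => decide (y.blk e = y.blk e' ∧ y.pos e ≤ y.pos e'))
      with hπ
    have h1 : ∀ N : ℕ, ∀ w, w ∈ D8_S N π ↔ y.Le w ∧ w.Acyc ∧ w.size ≤ (N : ℤ) := by
      intro N w
      constructor
      · rintro ⟨h1, h2, h3, h4, h5⟩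
        exact ⟨⟨h1, h2, fun e e' he he' => h3 e e' (by simp [hπ, he, he'])⟩, h4, h5⟩
      · rintro ⟨h1, h4, h5⟩
        refine ⟨h1.b_eq, h1.fl_eq, fun e e' he => ?_, h4, h5⟩
        simp only [hπ, decide_eq_true_eq] at he
        exact h1.mono e e' he.1 he.2
    have h2 : f ∈ D8_K (2 ^ i - 1) π := by
      refine ⟨hf, fun w hw => ?_⟩
      obtain ⟨h3, h4, h5⟩ := (h1 _ w).1 hw
      exact hfw w h3 h4 h5
    rw [← hK π, ← hstep] at h2
    refine hy f hf fun w h3 h4 h5 => h2.2 w ((h1 _ w).2 ⟨h3, h4, ?_⟩)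
    push_cast at h5 ⊢
    exact h5

end Pool.Agent.Helper59.TE
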