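import Pool.Agent.Helper59.TE.D7
import Pool.Agent.Helper59.TE.D8

set_option autoImplicit false

namespace Pool.Agent.Helper59.TE
open Sys

section pad
variable {β γ : Type}

/-- add `m` spare blocks and bands -/
def D9_pad (m : ℕ) (y : Sys β γ) : Sys (β ⊕ Fin m) (γ ⊕ Fin m) where
  b := Sum.elim (fun k σ => Sum.inl (y.b k σ)) (fun i _ => Sum.inr i)
  fl := Sum.elim y.fl (fun _ => false)
  s := Sum.elim y.s (fun _ _ => 0)
  ln := Sum.elim y.ln (fun _ => 0)
  len := Sum.elim y.len (fun _ => 0)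

def D9_restr (m : ℕ) (y : Sys β γ) (w : Sys (β ⊕ Fin m) (γ ⊕ Fin m)) : Sys β γ where
  b := y.b
  fl := y.fl
  s k σ := w.s (Sum.inl k) σ
  ln k := w.ln (Sum.inl k)
  len C := w.len (Sum.inl C)

theorem D9_restr_pad (m : ℕ) (y : Sys β γ) : D9_restr m y (D9_pad m y) = y := rfl

theorem D9_pad_wf {m : ℕ} {y : Sys β γ} (hy : y.WF) : (D9_pad m y).WF where
  len_nonneg := by rintro (C | C); exacts [hy.len_nonneg C, le_refl _]
  ln_nonneg := by rintro (C | C); exacts [hy.ln_nonneg C, le_refl _]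
  s_nonneg := by rintro (C | C) σ; exacts [hy.s_nonneg C σ, le_refl _]
  s_le := by
    rintro (C | C) σ
    · exact hy.s_le C σ
    · simp [D9_pad]

theorem D9_pad_acyc {m : ℕ} {y : Sys β γ} (ha : y.Acyc) : (D9_pad m y).Acyc := by
  obtain ⟨h, hh⟩ := ha
  refine ⟨fun c => match c with | (Sum.inl C, p) => h (C, p) | (Sum.inr _, _) => 0, ?_⟩
  rintro C p (k | k) σ (k' | k') σ' h1 h2 h3 h4
  · obtain ⟨hb, h1a, h1b⟩ := h1
    obtain ⟨hb', h2a, h2b⟩ := h2
    rcases C with C | C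
    · have e1 : y.b k σ = C := by simpa [D9_pad] using hb
      have e2 : y.b k' σ' = C := by simpa [D9_pad] using hb'
      have := hh C p k σ k' σ' ⟨e1, h1a, h1b⟩ ⟨e2, h2a, h2b⟩ h3 h4
      exact ⟨by rw [this.1], this.2⟩
    · simp [D9_pad] at hb
  all_goals
    exfalso
    first
      | (obtain ⟨_, h1a, h1b⟩ := h1; simp [D9_pad] at h1a h1b; omega)
      | (obtain ⟨_, h1a, h1b⟩ := h2; simp [D9_pad] at h1a h1b; omega)

def D9_ep (m : ℕ) : EP β γ → EP (β ⊕ Fin m) (γ ⊕ Fin m)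
  | Sum.inl (C, e) => Sum.inl (Sum.inl C, e)
  | Sum.inr ((k, σ), e) => Sum.inr ((Sum.inl k, σ), e)

theorem D9_restr_le {m : ℕ} {y : Sys β γ} {w : Sys (β ⊕ Fin m) (γ ⊕ Fin m)} (hw : (D9_pad m y).Le w) :
    y.Le (D9_restr m y w) := by
  refine ⟨rfl, rfl, ?_⟩
  have hblk : ∀ e : EP β γ, (D9_pad m y).blk (D9_ep m e) = Sum.inl (y.blk e) := by
    rintro (⟨C, e⟩ | ⟨⟨k, σ⟩, e⟩) <;> rfl
  have hpos : ∀ e : EP β γ, (D9_pad m y).pos (D9_ep m e) = y.pos e := by
    rintro (⟨C, e⟩ | ⟨⟨k, σ⟩, e⟩) <;> rfl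
  have hpos' : ∀ e : EP β γ, w.pos (D9_ep m e) = (D9_restr m y w).pos e := by
    rintro (⟨C, e⟩ | ⟨⟨k, σ⟩, e⟩) <;> rfl
  intro e e' hb hp
  rw [← hpos', ← hpos']
  exact hw.mono _ _ (by rw [hblk, hblk, hb]) (by rw [hpos, hpos]; exact hp)

theorem D9_restr_acyc {m : ℕ} {y : Sys β γ} {w : Sys (β ⊕ Fin m) (γ ⊕ Fin m)} (hw : (D9_pad m y).Le w)
    (ha : w.Acyc) : (D9_restr m y w).Acyc := by
  obtain ⟨h, hh⟩ := ha
  have hb : ∀ k σ, w.b (Sum.inl k) σ = Sum.inl (y.b k σ) := by
    intro k σ; rw [hw.b_eq]; rfl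
  have hf : ∀ k, w.fl (Sum.inl k) = y.fl k := by
    intro k; rw [hw.fl_eq]; rfl
  have hpar : ∀ k σ p, w.par (Sum.inl k) σ p =
      (Sum.inl ((D9_restr m y w).par k σ p).1, ((D9_restr m y w).par k σ p).2) := by
    intro k σ p
    simp only [Sys.par, hb, hf]
    rfl
  refine ⟨fun c => h (Sum.inl c.1, c.2), ?_⟩
  intro C p k σ k' σ' h1 h2 h3 h4
  have := hh (Sum.inl C) p (Sum.inl k) σ (Sum.inl k') σ'
    ⟨by rw [hb]; exact congrArg _ h1.1, h1.2⟩ ⟨by rw [hb]; exact congrArg _ h2.1, h2.2⟩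
    (by rw [hpar]; exact h3) (by rw [hpar]; exact h4)
  exact ⟨Sum.inl_injective this.1, this.2⟩

theorem D9_restr_aff {m : ℕ} {y : Sys β γ} {f : Sys β γ → ℚ} (hf : f ∈ Aff β γ) :
    (fun w => f (D9_restr m y w)) ∈ Aff (β ⊕ Fin m) (γ ⊕ Fin m) := by
  refine aff_comp _ ?_ ?_ ?_ hf
  · intro k σ; exact aff_s (Sum.inl k) σ
  · intro k; exact aff_ln (Sum.inl k)
  · intro C; exact aff_len (Sum.inl C)

variable [Fintype β]

theorem D9_claim_pad {m : ℕ} {N : ℤ} {y : Sys β γ} (hy : y.WF) (h : Claim N (D9_pad m y)) : Claim N y := by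
  intro f hf hw
  have := h _ (D9_restr_aff (m := m) (y := y) hf) (fun w h1 h2 h3 => by
    refine hw _ (D9_restr_le h1) (D9_restr_acyc h1 h2) ?_
    have wwf := Le.wf h1 (D9_pad_wf hy)
    refine le_trans ?_ h3
    unfold Sys.size
    rw [Fintype.sum_sum_type]
    have : 0 ≤ ∑ i : Fin m, w.len (Sum.inr i) := Finset.sum_nonneg (fun i _ => wwf.len_nonneg _)
    show ∑ C, w.len (Sum.inl C) ≤ _
    omega)
  exact this

variable [Fintype γ] [DecidableEq β] [DecidableEq γ]

theorem D9_pad_bound (m : ℕ) (y : Sys β γ) :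
    (D9_pad m y).kap + (D9_pad m y).low ≤ 2 * Fintype.card γ + Fintype.card β := by
  have h1 : (D9_pad m y).kap ≤ 2 * Fintype.card γ := by
    unfold Sys.kap
    calc ∑ C, ((D9_pad m y).nsd C - 2) ≤ ∑ C, (D9_pad m y).nsd C :=
          Finset.sum_le_sum (fun C _ => Nat.sub_le _ _)
      _ = (Finset.univ.filter (fun k : (γ ⊕ Fin m) × Bool => 0 < (D9_pad m y).ln k.1)).card := by
          unfold Sys.nsd
          rw [← Finset.card_biUnion]
          · congr 1
            ext k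
            simp
          · intro C _ C' _ hne
            rw [Function.onFun, Finset.disjoint_left]
            intro k hk hk'
            simp only [Finset.mem_filter] at hk hk'
            exact hne (hk.2.2.symm.trans hk'.2.2)
      _ ≤ (Finset.univ.image (fun k : γ × Bool => ((Sum.inl k.1 : γ ⊕ Fin m), k.2))).card := by
          apply Finset.card_le_card
          rintro ⟨k | k, σ⟩ hk
          · simp
          · exfalso
            have := (Finset.mem_filter.1 hk).2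
            simp [D9_pad] at this
      _ ≤ Fintype.card (γ × Bool) := Finset.card_image_le
      _ = 2 * Fintype.card γ := by rw [Fintype.card_prod, Fintype.card_bool, mul_comm]
  have h2 : (D9_pad m y).low ≤ Fintype.card β := by
    unfold Sys.low
    calc _ ≤ (Finset.univ.image (fun C : β => (Sum.inl C : β ⊕ Fin m))).card := by
          apply Finset.card_le_card
          rintro (C | C) hC
          · simp
          · exfalso
            have := (Finset.mem_filter.1 hC).2.1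
            simp [D9_pad] at this
      _ ≤ Fintype.card β := Finset.card_image_le
  omega

end pad

theorem D9_main {β γ : Type} [Fintype β] [Fintype γ] [DecidableEq β] [DecidableEq γ] (K : ℕ)
    (hβ : K + 4 ≤ Fintype.card β) (hγ : 2 * K + 4 ≤ Fintype.card γ) (N : ℕ)
    (hN : ∀ y : Sys β γ, Claim (2 * (N : ℤ) + 1) y → Claim (N : ℤ) y) (n : ℕ) :
    ∀ y : Sys β γ, y.WF → y.Clean → y.Acyc → y.kap ≤ K → y.kap + y.low ≤ K + 3 → y.size ≤ n →
      Claim (N : ℤ) y := by
  induction n with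
  | zero =>
    intro y hy hcl ha hk hkl hs f hf hw
    exact hw y (Le.refl' y) ha (le_trans hs (by exact_mod_cast Nat.zero_le N))
  | succ n ih =>
    intro y hy hcl ha hk hkl hs
    by_cases h0 : 0 < y.size
    · obtain ⟨y', a1, a2, a3, a4, a5, a6, a7⟩ := step K hβ hγ y hy hcl ha hk hkl h0
      apply hN
      apply a7 N (by exact_mod_cast Nat.zero_le N)
      refine ih y' a1 a2 a3 a4 a5 ?_
      push_cast at hs
      omega
    · intro f hf hw
      exact hw y (Le.refl' y) ha (le_trans (not_lt.1 h0) (by exact_mod_cast Nat.zero_le N))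

theorem span_main (β γ : Type) [Fintype β] [Fintype γ] (y : Sys β γ) (hy : y.WF) (ha : y.Acyc) :
    Claim (Nstar (Fintype.card β) (Fintype.card γ) : ℤ) y := by
  classical
  set m := 4 * Fintype.card γ + 2 * Fintype.card β + 8 with hm
  apply D9_claim_pad (m := m) hy
  have hY := D9_pad_wf (m := m) hy
  have hA := D9_pad_acyc (m := m) ha
  apply claim_clean hY
  obtain ⟨N, hN, hch⟩ := chain (β ⊕ Fin m) (γ ⊕ Fin m)
  have hcard1 : Fintype.card (β ⊕ Fin m) = Fintype.card β + m := by simp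
  have hcard2 : Fintype.card (γ ⊕ Fin m) = Fintype.card γ + m := by simp
  have hb := D9_pad_bound m y
  refine Claim.mono (N := (N : ℤ)) ?_ ?_
  · refine D9_main ((D9_pad m y).kap + (D9_pad m y).low) ?_ ?_ N hch
      (D9_pad m y).size.toNat _ (cleanAll_wf hY) (cleanAll_clean _) (cleanAll_acyc hA) ?_ ?_ ?_
    · rw [hcard1]; omega
    · rw [hcard2]; omega
    · rw [cleanAll_kap]; omega
    · rw [cleanAll_kap, cleanAll_low]; omega
    · rw [cleanAll_size]; exact Int.self_le_toNat _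
  · rw [hcard1, hcard2] at hN
    exact_mod_cast hN

end Pool.Agent.Helper59.TE
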