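import Mathlib

set_option autoImplicit false

/-!
Definitions for the decision procedure for translation equivalence in free groups (MP_c34bd5_al).
-/

namespace Pool.Agent.Helper59.TE

/-! ### Words and tests -/

abbrev Wd := List (ℕ × Bool)

/-- substitute: letter (i,true) becomes W_i x_i, letter (i,false) its inverse. -/
def sub (W : List Wd) (l : Wd) : Wd :=
  l.flatMap (fun p => if p.2 then W.getD p.1 [] ++ [(p.1, true)]
    else (p.1, false) :: FreeGroup.invRev (W.getD p.1 []))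

/-- number of letters with index at least r in the reduced form -/
def nt (r : ℕ) (l : Wd) : ℕ :=
  ((FreeGroup.reduce l).filter (fun p => decide (r ≤ p.1))).length

/-- every W_i becomes trivial when the letters of index at least r are deleted -/
def Kill (r : ℕ) (W : List Wd) : Prop :=
  ∀ l ∈ W, FreeGroup.reduce (l.filter (fun p => decide (p.1 < r))) = []

def TestOK (r : ℕ) (u v : Wd) (W : List Wd) : Prop :=
  W.length = r → Kill r W →
    nt r (sub W (u ++ u)) + nt r (sub W v) = nt r (sub W (v ++ v)) + nt r (sub W u)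

/-- words over `Fin r` as words over `ℕ` -/
def toN {r : ℕ} (l : List (Fin r × Bool)) : Wd := l.map (fun p => (p.1.1, p.2))

/-! ### Trees -/

structure IsRTree (T : Type) [MetricSpace T] : Prop where
  geo : ∀ a b : T, ∃ γ : ℝ → T, γ 0 = a ∧ γ (dist a b) = b ∧
      ∀ s ∈ Set.Icc (0 : ℝ) (dist a b), ∀ t ∈ Set.Icc (0 : ℝ) (dist a b),
        dist (γ s) (γ t) = |s - t|
  four : ∀ a b c d : T, dist a b + dist c d ≤
      max (dist a c + dist b d) (dist a d + dist b c)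

/-- translation equivalence as in the frozen statement -/
def TransEq (r : ℕ) (u v : FreeGroup (Fin r)) : Prop :=
  ∀ (T : Type) [MetricSpace T] [MulAction (FreeGroup (Fin r)) T],
    (∀ a b : T, ∃ γ : ℝ → T, γ 0 = a ∧ γ (dist a b) = b ∧
        ∀ s ∈ Set.Icc (0 : ℝ) (dist a b), ∀ t ∈ Set.Icc (0 : ℝ) (dist a b),
          dist (γ s) (γ t) = |s - t|) →
    (∀ a b c d : T, dist a b + dist c d ≤
        max (dist a c + dist b d) (dist a d + dist b c)) →
    (∀ g : FreeGroup (Fin r), Isometry (fun p : T => g • p)) →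
    (∀ (g : FreeGroup (Fin r)) (p : T), g • p = p → g = 1) →
    (∀ p : T, ∃ ε : ℝ, 0 < ε ∧ ∀ g : FreeGroup (Fin r), g ≠ 1 → ε ≤ dist p (g • p)) →
    (⨅ p : T, dist p (u • p)) = (⨅ p : T, dist p (v • p))

/-! ### Separation families -/

/-- `U k` is the set of all `g` such that the `k`-th translate of the wall separates `1` and `g`. -/
structure Sepr {G : Type} [Group G] (U : G → Set G) : Prop where
  one : ∀ k, (1 : G) ∉ U k
  coc : ∀ x g k, g ∈ U k ↔ ¬ (x * g ∈ U (x * k) ↔ x ∈ U (x * k))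
  nest : ∀ k k', U k ⊆ U k' ∨ U k' ⊆ U k ∨ Disjoint (U k) (U k')
  inj : ∀ k k', (U k).Nonempty → U k = U k' → k = k'
  fin : ∀ g, {k | g ∈ U k}.Finite

noncomputable def cnt {G : Type} (U : G → Set G) (g : G) : ℕ := Set.ncard {k | g ∈ U k}

/-! ### Band systems -/

/-- A band system. Blocks `C : β` are the integer intervals `[0, len C)`. Each band `k : γ` has two sides
`(k, false)` and `(k, true)`; the side `(k, σ)` is the interval `[s k σ, s k σ + ln k)` of the block `b k σ`;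
the band identifies its two sides, reversing the order iff `fl k`. -/
@[ext] structure Sys (β γ : Type) where
  b : γ → Bool → β
  fl : γ → Bool
  s : γ → Bool → ℤ
  ln : γ → ℤ
  len : β → ℤ

namespace Sys

variable {β γ : Type}

/-- well-formedness -/
structure WF (w : Sys β γ) : Prop where
  len_nonneg : ∀ C, 0 ≤ w.len C
  ln_nonneg : ∀ k, 0 ≤ w.ln k
  s_nonneg : ∀ k σ, 0 ≤ w.s k σ
  s_le : ∀ k σ, w.s k σ + w.ln k ≤ w.len (w.b k σ)

end Sys

/-- names of end points: `inl (C, false)`, `inl (C, true)` are the two ends of block `C`;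
`inr ((k, σ), false)`, `inr ((k, σ), true)` are the two ends of the side `(k, σ)`. -/
abbrev EP (β γ : Type) := (β × Bool) ⊕ ((γ × Bool) × Bool)

namespace Sys

variable {β γ : Type}

def blk (w : Sys β γ) : EP β γ → β
  | Sum.inl (C, _) => C
  | Sum.inr ((k, σ), _) => w.b k σ

def pos (w : Sys β γ) : EP β γ → ℤ
  | Sum.inl (C, e) => if e then w.len C else 0
  | Sum.inr ((k, σ), e) => if e then w.s k σ + w.ln k else w.s k σ

/-- `y.Le w`: `w` has the same combinatorial data as `y`, and every weak inequality between end points lying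
in the same block which holds in `y` holds in `w`. -/
structure Le (y w : Sys β γ) : Prop where
  b_eq : w.b = y.b
  fl_eq : w.fl = y.fl
  mono : ∀ e e', y.blk e = y.blk e' → y.pos e ≤ y.pos e' → w.pos e ≤ w.pos e'

/-- the side `(k, σ)` covers the cell `p` of block `C` -/
def Cov (w : Sys β γ) (k : γ) (σ : Bool) (C : β) (p : ℤ) : Prop :=
  w.b k σ = C ∧ w.s k σ ≤ p ∧ p < w.s k σ + w.ln k

/-- the cell identified by band `k` with the cell `p` of the block of the side `(k, σ)` -/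
def par (w : Sys β γ) (k : γ) (σ : Bool) (p : ℤ) : β × ℤ :=
  (w.b k (!σ), if w.fl k then w.s k (!σ) + w.s k σ + w.ln k - 1 - p
    else w.s k (!σ) + (p - w.s k σ))

/-- the graph of cells is a forest: there is a rank function such that every cell has at most one incidence
(= covering side) whose partner has rank at most its own rank. -/
def Acyc (w : Sys β γ) : Prop :=
  ∃ h : β × ℤ → ℕ, ∀ C p k σ k' σ', w.Cov k σ C p → w.Cov k' σ' C p →
    h (w.par k σ p) ≤ h (C, p) → h (w.par k' σ' p) ≤ h (C, p) → k = k' ∧ σ = σ'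

/-- inactive bands sit at position 0 -/
def Clean (w : Sys β γ) : Prop := ∀ k σ, w.ln k = 0 → w.s k σ = 0

variable [Fintype β] [Fintype γ]

def size (w : Sys β γ) : ℤ := ∑ C, w.len C

/-- affine functionals in the coordinates -/
def Aff (β γ : Type) : Submodule ℚ (Sys β γ → ℚ) :=
  Submodule.span ℚ ({fun _ => 1} ∪ (Set.range (fun (k : γ × Bool) (w : Sys β γ) => (w.s k.1 k.2 : ℚ)) ∪
    (Set.range (fun (k : γ) (w : Sys β γ) => (w.ln k : ℚ)) ∪
      Set.range (fun (C : β) (w : Sys β γ) => (w.len C : ℚ)))))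

/-- `y` is in the affine span of the acyclic systems of the same weak type of size at most `N`. -/
def Claim (N : ℤ) (y : Sys β γ) : Prop :=
  ∀ f ∈ Aff β γ, (∀ w, y.Le w → w.Acyc → w.size ≤ N → f w = 0) → f y = 0

/-- number of active sides in block `C` -/
def nsd [DecidableEq β] (w : Sys β γ) (C : β) : ℕ :=
  (Finset.univ.filter (fun k : γ × Bool => 0 < w.ln k.1 ∧ w.b k.1 k.2 = C)).card

/-- complexity -/
def kap [DecidableEq β] (w : Sys β γ) : ℕ := ∑ C, (w.nsd C - 2)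

/-- number of active blocks with at most two active sides -/
def low [DecidableEq β] (w : Sys β γ) : ℕ :=
  (Finset.univ.filter (fun C : β => 0 < w.len C ∧ w.nsd C ≤ 2)).card

end Sys

/-! ### Systems attached to finite subsets of a free group -/

abbrev Blk {r : ℕ} (B : Finset (FreeGroup (Fin r))) := ↥B.powerset
abbrev Bnd {r : ℕ} (B : Finset (FreeGroup (Fin r))) := Fin r × Blk B × Blk B

open FreeGroup in
structure Good {r : ℕ} (B : Finset (FreeGroup (Fin r))) (y : Sys (Blk B) (Bnd B)) : Prop where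
  wf : y.WF
  b_false : ∀ x P Q, y.b (x, P, Q) false = P
  b_true : ∀ x P Q, y.b (x, P, Q) true = Q
  fl_iff : ∀ x P Q, y.fl (x, P, Q) = true ↔ of x ∈ Q.1
  one : ∀ P, 0 < y.len P → (1 : FreeGroup (Fin r)) ∉ P.1
  ne : ∀ P, 0 < y.len P → P.1.Nonempty
  lam : ∀ P P', 0 < y.len P → 0 < y.len P' → P.1 ⊆ P'.1 ∨ P'.1 ⊆ P.1 ∨ Disjoint P.1 P'.1
  compat : ∀ x P Q, 0 < y.ln (x, P, Q) → ∀ g ∈ B, of x * g ∈ B →
    (g ∈ P.1 ↔ ¬ (of x * g ∈ Q.1 ↔ of x ∈ Q.1))
  covA0 : ∀ x P, 0 < y.len P → (∃ g ∈ P.1, of x * g ∈ B) →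
    ∃ Q, 0 < y.ln (x, P, Q) ∧ y.s (x, P, Q) false = 0
  covA1 : ∀ x P Q, 0 < y.ln (x, P, Q) → y.s (x, P, Q) false + y.ln (x, P, Q) = y.len P ∨
    ∃ Q', 0 < y.ln (x, P, Q') ∧ y.s (x, P, Q') false = y.s (x, P, Q) false + y.ln (x, P, Q)
  disjA : ∀ x P Q Q', Q ≠ Q' → 0 < y.ln (x, P, Q) → 0 < y.ln (x, P, Q') →
    y.s (x, P, Q) false + y.ln (x, P, Q) ≤ y.s (x, P, Q') false ∨
    y.s (x, P, Q') false + y.ln (x, P, Q') ≤ y.s (x, P, Q) false
  covB0 : ∀ x Q, 0 < y.len Q → (∃ g ∈ B, of x * g ∈ B ∧ ¬ (of x * g ∈ Q.1 ↔ of x ∈ Q.1)) →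
    ∃ P, 0 < y.ln (x, P, Q) ∧ y.s (x, P, Q) true = 0
  covB1 : ∀ x P Q, 0 < y.ln (x, P, Q) → y.s (x, P, Q) true + y.ln (x, P, Q) = y.len Q ∨
    ∃ P', 0 < y.ln (x, P', Q) ∧ y.s (x, P', Q) true = y.s (x, P, Q) true + y.ln (x, P, Q)
  disjB : ∀ x P P' Q, P ≠ P' → 0 < y.ln (x, P, Q) → 0 < y.ln (x, P', Q) →
    y.s (x, P, Q) true + y.ln (x, P, Q) ≤ y.s (x, P', Q) true ∨
    y.s (x, P', Q) true + y.ln (x, P', Q) ≤ y.s (x, P, Q) true
  ord1 : ∀ x P₁ Q₁ P₂ Q₂, 0 < y.ln (x, P₁, Q₁) → 0 < y.ln (x, P₂, Q₂) → P₂.1 ⊂ P₁.1 →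
    of x ∉ Q₁.1 → of x ∉ Q₂.1 → Q₂.1 ⊂ Q₁.1 ∨
      (Q₁ = Q₂ ∧ y.s (x, P₁, Q₁) true + y.ln (x, P₁, Q₁) ≤ y.s (x, P₂, Q₂) true)
  ord2 : ∀ x P Q₁ Q₂, 0 < y.ln (x, P, Q₁) → 0 < y.ln (x, P, Q₂) →
    y.s (x, P, Q₁) false < y.s (x, P, Q₂) false → of x ∉ Q₁.1 → of x ∉ Q₂.1 → Q₂.1 ⊂ Q₁.1
  ord3 : ∀ x P₁ Q₁ P₂ Q₂, 0 < y.ln (x, P₁, Q₁) → 0 < y.ln (x, P₂, Q₂) → P₂.1 ⊂ P₁.1 →
    of x ∈ Q₁.1 → of x ∈ Q₂.1 → Q₁.1 ⊂ Q₂.1 ∨
      (Q₁ = Q₂ ∧ y.s (x, P₂, Q₂) true + y.ln (x, P₂, Q₂) ≤ y.s (x, P₁, Q₁) true)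
  ord4 : ∀ x P Q₁ Q₂, 0 < y.ln (x, P, Q₁) → 0 < y.ln (x, P, Q₂) →
    y.s (x, P, Q₁) false < y.s (x, P, Q₂) false → of x ∈ Q₁.1 → of x ∈ Q₂.1 → Q₁.1 ⊂ Q₂.1

/-! ### Explicit bounds -/

/-- bound for the chain of subspaces, `p` blocks and `q` bands -/
def chainB (p q : ℕ) : ℕ := (1 + 3 * q + p) * (p ^ (2 * q) * 2 ^ q * 2 ^ ((2 * p + 4 * q) ^ 2))

def Nstar0 (p q : ℕ) : ℕ := 2 ^ chainB p q

/-- with room for spare blocks and bands -/
def Nstar (p q : ℕ) : ℕ := Nstar0 (p + (4 * q + 2 * p + 8)) (q + (4 * q + 2 * p + 8))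

/-- size bound for the system attached to a set of at most `b` elements of the free group of rank `r` -/
def sysB (r b : ℕ) : ℕ := Nstar (2 ^ b) (r * 2 ^ b * 2 ^ b)

/-- bound for the length of the words and the indices of the letters of the test attached to a system of size at most `N` -/
def testB (r N : ℕ) : ℕ := r + N + N * (2 * N + 1)

/-- final bound -/
def finalB (r m : ℕ) : ℕ := testB r (sysB r (2 * r + 2 * m + 3))

end Pool.Agent.Helper59.TE
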