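import Pool.Agent.Helper59.TE.D1
import Pool.Agent.Helper59.TE.Defs2

set_option autoImplicit false

/-! Cell level conditions are inherited. -/

namespace Pool.Agent.Helper59.TE
open Sys

section E1
variable {β γ : Type}

theorem E1_ln {y w : Sys β γ} (h : y.Le w) (hy : y.WF) {k : γ} (hk : 0 < w.ln k) : 0 < y.ln k := by
  by_contra hc
  have := Le.ln_zero h (k := k) (by omega) hy
  omega

theorem E1_len {y w : Sys β γ} (h : y.Le w) (hy : y.WF) {C : β} (hk : 0 < w.len C) : 0 < y.len C := by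
  by_contra hc
  have := Le.len_zero h (C := C) (by omega) hy
  omega

/-- end of a side before the start of a side -/
theorem E1_es {y w : Sys β γ} (h : y.Le w) {k k' : γ} {σ σ' : Bool} (hb : y.b k σ = y.b k' σ')
    (hs : y.s k σ + y.ln k ≤ y.s k' σ') : w.s k σ + w.ln k ≤ w.s k' σ' := by
  have := h.mono (Sum.inr ((k, σ), true)) (Sum.inr ((k', σ'), false)) (by simpa [Sys.blk] using hb)
    (by simpa [Sys.pos] using hs)
  simpa [Sys.pos] using this

theorem E1_se {y w : Sys β γ} (h : y.Le w) {k k' : γ} {σ σ' : Bool} (hb : y.b k σ = y.b k' σ')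
    (hs : y.s k' σ' ≤ y.s k σ + y.ln k) : w.s k' σ' ≤ w.s k σ + w.ln k := by
  have := h.mono (Sum.inr ((k', σ'), false)) (Sum.inr ((k, σ), true)) (by simpa [Sys.blk] using hb.symm)
    (by simpa [Sys.pos] using hs)
  simpa [Sys.pos] using this

theorem E1_zero {y w : Sys β γ} (h : y.Le w) (hy : y.WF) {k : γ} {σ : Bool}
    (hs : y.s k σ = 0) : w.s k σ = 0 := by
  have := h.mono (Sum.inr ((k, σ), false)) (Sum.inl (y.b k σ, false)) rfl (by simp [Sys.pos, hs])
  have h2 := (Le.wf h hy).s_nonneg k σ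
  simp [Sys.pos] at this
  omega

theorem E1_end {y w : Sys β γ} (h : y.Le w) (hy : y.WF) {k : γ} {σ : Bool} {C : β} (hb : y.b k σ = C)
    (hs : y.s k σ + y.ln k = y.len C) : w.s k σ + w.ln k = w.len C := by
  have := h.mono (Sum.inl (y.b k σ, true)) (Sum.inr ((k, σ), true)) rfl (by simp [Sys.pos, hs, hb])
  have h2 := (Le.wf h hy).s_le k σ
  rw [h.b_eq, hb] at h2
  simp [Sys.pos, hb] at this
  omega

/-- the covering argument -/
theorem E1_cov {y w : Sys β γ} (h : y.Le w) (hy : y.WF) {ι : Type} [Finite ι] (C : β) (f : ι → γ) (σ : Bool)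
    (hf : ∀ a, y.b (f a) σ = C)
    (h0 : ∃ a, 0 < y.ln (f a) ∧ y.s (f a) σ = 0)
    (h1 : ∀ a, 0 < y.ln (f a) → y.s (f a) σ + y.ln (f a) = y.len C ∨
      ∃ a', 0 < y.ln (f a') ∧ y.s (f a') σ = y.s (f a) σ + y.ln (f a)) (i : ℤ) (hi0 : 0 ≤ i)
    (hi : i < w.len C) : ∃ a, w.Cov (f a) σ C i := by
  classical
  have := Fintype.ofFinite ι
  let S : Finset ι := Finset.univ.filter (fun a => 0 < y.ln (f a) ∧ w.s (f a) σ ≤ i)
  have hS : S.Nonempty := by
    obtain ⟨a, ha, ha0⟩ := h0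
    refine ⟨a, ?_⟩
    simp only [S, Finset.mem_filter, Finset.mem_univ, true_and]
    exact ⟨ha, by rw [E1_zero h hy ha0]; exact hi0⟩
  obtain ⟨a, haS, hmax⟩ := Finset.exists_max_image S (fun a => y.s (f a) σ) hS
  simp only [S, Finset.mem_filter, Finset.mem_univ, true_and] at haS hmax
  refine ⟨a, by rw [h.b_eq, hf], haS.2, ?_⟩
  by_contra hc
  push Not at hc
  rcases h1 a haS.1 with he | ⟨a', ha', he⟩
  · have := E1_end h hy (hf a) he
    omega
  · have h2 := E1_se h (k := f a) (k' := f a') (σ := σ) (σ' := σ) (by rw [hf, hf]) he.le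
    have := hmax a' ⟨ha', by omega⟩
    have := haS.1
    omega

theorem cellGood_of_le {r : ℕ} {B : Finset (FreeGroup (Fin r))} {y w : Sys (Blk B) (Bnd B)}
    (hy : Good B y) (hw : y.Le w) : CellGood B w where
  wf := Le.wf hw hy.wf
  b_false x P Q := by rw [hw.b_eq]; exact hy.b_false x P Q
  b_true x P Q := by rw [hw.b_eq]; exact hy.b_true x P Q
  fl_iff x P Q := by rw [hw.fl_eq]; exact hy.fl_iff x P Q
  one P hP := hy.one P (E1_len hw hy.wf hP)
  lam P P' hP hP' := hy.lam P P' (E1_len hw hy.wf hP) (E1_len hw hy.wf hP')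
  compat x P Q hl := hy.compat x P Q (E1_ln hw hy.wf hl)
  covA x P i h0 h1 hg := by
    have hP : 0 < y.len P := E1_len hw hy.wf (by omega)
    exact E1_cov hw hy.wf P (fun Q => (x, P, Q)) false (fun Q => hy.b_false x P Q) (hy.covA0 x P hP hg)
      (fun Q hQ => hy.covA1 x P Q hQ) i h0 h1
  uniqA x P i Q Q' h1 h2 := by
    by_contra hne
    obtain ⟨-, h1a, h1b⟩ := h1
    obtain ⟨-, h2a, h2b⟩ := h2
    have l1 : 0 < y.ln (x, P, Q) := E1_ln hw hy.wf (by omega)
    have l2 : 0 < y.ln (x, P, Q') := E1_ln hw hy.wf (by omega)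
    have hb : y.b (x, P, Q) false = y.b (x, P, Q') false := by rw [hy.b_false, hy.b_false]
    rcases hy.disjA x P Q Q' hne l1 l2 with h3 | h3
    · have := E1_es hw hb h3; omega
    · have := E1_es hw hb.symm h3; omega
  covB x Q j h0 h1 hg := by
    have hQ : 0 < y.len Q := E1_len hw hy.wf (by omega)
    exact E1_cov hw hy.wf Q (fun P => (x, P, Q)) true (fun P => hy.b_true x P Q) (hy.covB0 x Q hQ hg)
      (fun P hP => hy.covB1 x P Q hP) j h0 h1
  uniqB x P P' Q j h1 h2 := by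
    by_contra hne
    obtain ⟨-, h1a, h1b⟩ := h1
    obtain ⟨-, h2a, h2b⟩ := h2
    have l1 : 0 < y.ln (x, P, Q) := E1_ln hw hy.wf (by omega)
    have l2 : 0 < y.ln (x, P', Q) := E1_ln hw hy.wf (by omega)
    have hb : y.b (x, P, Q) true = y.b (x, P', Q) true := by rw [hy.b_true, hy.b_true]
    rcases hy.disjB x P P' Q hne l1 l2 with h3 | h3
    · have := E1_es hw hb h3; omega
    · have := E1_es hw hb.symm h3; omega
  ordp x P₁ Q₁ i₁ P₂ Q₂ i₂ h1 h2 hx1 hx2 h12 := by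
    obtain ⟨-, h1a, h1b⟩ := h1
    obtain ⟨-, h2a, h2b⟩ := h2
    have l1 : 0 < y.ln (x, P₁, Q₁) := E1_ln hw hy.wf (by omega)
    have l2 : 0 < y.ln (x, P₂, Q₂) := E1_ln hw hy.wf (by omega)
    have f1 : w.fl (x, P₁, Q₁) = false := by
      rw [← Bool.not_eq_true, hw.fl_eq, hy.fl_iff]; exact hx1
    have f2 : w.fl (x, P₂, Q₂) = false := by
      rw [← Bool.not_eq_true, hw.fl_eq, hy.fl_iff]; exact hx2
    have p1 : (w.par (x, P₁, Q₁) false i₁).2 = w.s (x, P₁, Q₁) true + (i₁ - w.s (x, P₁, Q₁) false) := by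
      simp [Sys.par, f1]
    have p2 : (w.par (x, P₂, Q₂) false i₂).2 = w.s (x, P₂, Q₂) true + (i₂ - w.s (x, P₂, Q₂) false) := by
      simp [Sys.par, f2]
    rw [p1, p2]
    rcases h12 with h12 | ⟨h12, hi⟩
    · rcases hy.ord1 x P₁ Q₁ P₂ Q₂ l1 l2 h12 hx1 hx2 with h3 | ⟨h3, h4⟩
      · exact Or.inl h3
      · right
        refine ⟨h3, ?_⟩
        have := E1_es hw (by rw [hy.b_true, hy.b_true, h3]) h4
        omega
    · subst h12
      by_cases hQ : Q₁ = Q₂
      · subst hQ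
        right
        exact ⟨rfl, by omega⟩
      · left
        have hb : y.b (x, P₁, Q₁) false = y.b (x, P₁, Q₂) false := by rw [hy.b_false, hy.b_false]
        rcases hy.disjA x P₁ Q₁ Q₂ hQ l1 l2 with h3 | h3
        · exact hy.ord2 x P₁ Q₁ Q₂ l1 l2 (by omega) hx1 hx2
        · have := E1_es hw hb.symm h3; omega
  ordm x P₁ Q₁ i₁ P₂ Q₂ i₂ h1 h2 hx1 hx2 h12 := by
    obtain ⟨-, h1a, h1b⟩ := h1
    obtain ⟨-, h2a, h2b⟩ := h2
    have l1 : 0 < y.ln (x, P₁, Q₁) := E1_ln hw hy.wf (by omega)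
    have l2 : 0 < y.ln (x, P₂, Q₂) := E1_ln hw hy.wf (by omega)
    have f1 : w.fl (x, P₁, Q₁) = true := by
      rw [hw.fl_eq, hy.fl_iff]; exact hx1
    have f2 : w.fl (x, P₂, Q₂) = true := by
      rw [hw.fl_eq, hy.fl_iff]; exact hx2
    have p1 : (w.par (x, P₁, Q₁) false i₁).2 = w.s (x, P₁, Q₁) true + w.s (x, P₁, Q₁) false +
        w.ln (x, P₁, Q₁) - 1 - i₁ := by
      simp [Sys.par, f1]
    have p2 : (w.par (x, P₂, Q₂) false i₂).2 = w.s (x, P₂, Q₂) true + w.s (x, P₂, Q₂) false +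
        w.ln (x, P₂, Q₂) - 1 - i₂ := by
      simp [Sys.par, f2]
    rw [p1, p2]
    rcases h12 with h12 | ⟨h12, hi⟩
    · rcases hy.ord3 x P₁ Q₁ P₂ Q₂ l1 l2 h12 hx1 hx2 with h3 | ⟨h3, h4⟩
      · exact Or.inl h3
      · right
        refine ⟨h3, ?_⟩
        have := E1_es hw (by rw [hy.b_true, hy.b_true, h3]) h4
        omega
    · subst h12
      by_cases hQ : Q₁ = Q₂
      · subst hQ
        right
        exact ⟨rfl, by omega⟩
      · left
        have hb : y.b (x, P₁, Q₁) false = y.b (x, P₁, Q₂) false := by rw [hy.b_false, hy.b_false]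
        rcases hy.disjA x P₁ Q₁ Q₂ hQ l1 l2 with h3 | h3
        · exact hy.ord4 x P₁ Q₁ Q₂ l1 l2 (by omega) hx1 hx2
        · have := E1_es hw hb.symm h3; omega

end E1
end Pool.Agent.Helper59.TE
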