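import Pool.Agent.Helper59.TE.Defs2

set_option autoImplicit false

/-! The abstract pattern of cells of a band system. -/

namespace Pool.Agent.Helper59.TE
open Sys

section E1b

theorem E1b_par {β γ : Type} (w : Sys β γ) {k : γ} {σ : Bool} {C : β} {p : ℤ} (h : w.Cov k σ C p) :
    w.Cov k (!σ) (w.par k σ p).1 (w.par k σ p).2 ∧ w.par k (!σ) (w.par k σ p).2 = (C, p) := by
  obtain ⟨h1, h2, h3⟩ := h
  refine ⟨⟨rfl, ?_, ?_⟩, ?_⟩
  · simp only [Sys.par]; split_ifs <;> omega
  · simp only [Sys.par]; split_ifs <;> omega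
  · simp only [Sys.par, Bool.not_not]
    refine Prod.ext h1 ?_
    simp only
    split_ifs <;> omega

variable {r : ℕ} {B : Finset (FreeGroup (Fin r))}

/-- the cells -/
abbrev E1b_Om (w : Sys (Blk B) (Bnd B)) : Type := Σ P : Blk B, Fin (w.len P).toNat

def E1b_R (w : Sys (Blk B) (Bnd B)) (x : Fin r) (c d : E1b_Om w) : Prop :=
  w.Cov (x, c.1, d.1) false c.1 (c.2 : ℕ) ∧ w.par (x, c.1, d.1) false (c.2 : ℕ) = (d.1, ((d.2 : ℕ) : ℤ))

theorem E1b_R' {w : Sys (Blk B) (Bnd B)} {x : Fin r} {c d : E1b_Om w} (h : E1b_R w x c d) :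
    w.Cov (x, c.1, d.1) true d.1 (d.2 : ℕ) ∧ w.par (x, c.1, d.1) true (d.2 : ℕ) = (c.1, ((c.2 : ℕ) : ℤ)) := by
  have := E1b_par w h.1
  rw [h.2] at this
  exact this

theorem E1b_R_ln {w : Sys (Blk B) (Bnd B)} {x : Fin r} {c d : E1b_Om w} (h : E1b_R w x c d) :
    0 < w.ln (x, c.1, d.1) := by
  obtain ⟨⟨-, h1, h2⟩, -⟩ := h
  omega

theorem E1b_ext {w : Sys (Blk B) (Bnd B)} {c d : E1b_Om w} (h1 : c.1 = d.1)
    (h2 : ((c.2 : ℕ) : ℤ) = ((d.2 : ℕ) : ℤ)) : c = d := by
  obtain ⟨P, i⟩ := c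
  obtain ⟨Q, j⟩ := d
  simp only at h1
  subst h1
  simp only [Nat.cast_inj] at h2
  rw [Fin.ext h2]

theorem E1b_pos {w : Sys (Blk B) (Bnd B)} (c : E1b_Om w) : 0 < w.len c.1 ∧ ((c.2 : ℕ) : ℤ) < w.len c.1 := by
  have := c.2.2
  omega

theorem exists_cellPat {r : ℕ} {B : Finset (FreeGroup (Fin r))} {w : Sys (Blk B) (Bnd B)}
    (hw : CellGood B w) (ha : w.Acyc) :
    ∃ (Ω : Type) (_ : Fintype Ω) (_ : DecidableEq Ω) (P : Ω → Finset (FreeGroup (Fin r))) (i : Ω → ℤ)
      (R : Fin r → Ω → Ω → Prop), CellPat B P i R ∧ (Fintype.card Ω : ℤ) = w.size ∧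
      ∀ g, ((Finset.univ.filter (fun c => g ∈ P c)).card : ℤ) = ∑ Q : Blk B, if g ∈ Q.1 then w.len Q else 0 := by
  classical
  refine ⟨E1b_Om w, inferInstance, inferInstance, fun c => c.1.1, fun c => ((c.2 : ℕ) : ℤ), E1b_R w, ?_, ?_, ?_⟩
  · refine ⟨?_, ?_, ?_, ?_, ?_, ?_, ?_, ?_, ?_, ?_, ?_⟩
    · intro c; exact hw.one c.1 (E1b_pos c).1
    · intro c d h1 h2; exact E1b_ext (Subtype.ext h1) h2
    · intro c d; exact hw.lam c.1 d.1 (E1b_pos c).1 (E1b_pos d).1
    · intro x c d h; exact hw.compat x c.1 d.1 (E1b_R_ln h)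
    · intro x c hg
      obtain ⟨Q, hQ⟩ := hw.covA x c.1 (c.2 : ℕ) (by positivity) (E1b_pos c).2 hg
      have h1 := E1b_par w hQ
      have hb : (w.par (x, c.1, Q) false (c.2 : ℕ)).1 = Q := hw.b_true x c.1 Q
      rw [hb] at h1
      have h2 : 0 ≤ (w.par (x, c.1, Q) false (c.2 : ℕ)).2 := by
        have := hw.wf.s_nonneg (x, c.1, Q) true
        have := h1.1.2.1
        simp only [Bool.not_false] at this
        omega
      have h3 : (w.par (x, c.1, Q) false (c.2 : ℕ)).2 < w.len Q := by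
        have := hw.wf.s_le (x, c.1, Q) true
        rw [hw.b_true] at this
        have := h1.1.2.2
        simp only [Bool.not_false] at this
        omega
      refine ⟨⟨Q, ⟨(w.par (x, c.1, Q) false (c.2 : ℕ)).2.toNat, by omega⟩⟩, hQ, ?_⟩
      refine Prod.ext hb ?_
      simp only
      omega
    · intro x d hg
      obtain ⟨P, hP⟩ := hw.covB x d.1 (d.2 : ℕ) (by positivity) (E1b_pos d).2 hg
      have h1 := E1b_par w hP
      have hb : (w.par (x, P, d.1) true (d.2 : ℕ)).1 = P := hw.b_false x P d.1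
      rw [hb] at h1
      have h2 : 0 ≤ (w.par (x, P, d.1) true (d.2 : ℕ)).2 := by
        have := hw.wf.s_nonneg (x, P, d.1) false
        have := h1.1.2.1
        simp only [Bool.not_true] at this
        omega
      have h3 : (w.par (x, P, d.1) true (d.2 : ℕ)).2 < w.len P := by
        have := hw.wf.s_le (x, P, d.1) false
        rw [hw.b_false] at this
        have := h1.1.2.2
        simp only [Bool.not_true] at this
        omega
      have h4 : (((w.par (x, P, d.1) true (d.2 : ℕ)).2.toNat : ℕ) : ℤ) = (w.par (x, P, d.1) true (d.2 : ℕ)).2 := by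
        omega
      refine ⟨⟨P, ⟨(w.par (x, P, d.1) true (d.2 : ℕ)).2.toNat, by omega⟩⟩, ?_, ?_⟩
      · simp only [h4]; exact h1.1
      · simp only [h4]; exact h1.2
    · intro x c d d' h h'
      have hQ : d.1 = d'.1 := hw.uniqA x c.1 _ d.1 d'.1 h.1 h'.1
      apply E1b_ext hQ
      have h1 := (Prod.ext_iff.1 h.2).2
      have h2 := (Prod.ext_iff.1 h'.2).2
      simp only at h1 h2
      rw [← h1, ← h2, hQ]
    · intro x c c' d h h'
      have k := E1b_R' h
      have k' := E1b_R' h'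
      have hP : c.1 = c'.1 := hw.uniqB x c.1 c'.1 d.1 _ k.1 k'.1
      apply E1b_ext hP
      have h1 := (Prod.ext_iff.1 k.2).2
      have h2 := (Prod.ext_iff.1 k'.2).2
      simp only at h1 h2
      rw [← h1, ← h2, hP]
    · intro x c₁ d₁ c₂ d₂ h1 h2 hx1 hx2 h12
      have := hw.ordp x c₁.1 d₁.1 (c₁.2 : ℕ) c₂.1 d₂.1 (c₂.2 : ℕ) h1.1 h2.1 hx1 hx2
        (h12.imp id (fun h => ⟨Subtype.ext h.1, h.2⟩))
      rw [h1.2, h2.2] at this
      exact this.imp id (fun h => ⟨congrArg Subtype.val h.1, h.2⟩)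
    · intro x c₁ d₁ c₂ d₂ h1 h2 hx1 hx2 h12
      have := hw.ordm x c₁.1 d₁.1 (c₁.2 : ℕ) c₂.1 d₂.1 (c₂.2 : ℕ) h1.1 h2.1 hx1 hx2
        (h12.imp id (fun h => ⟨Subtype.ext h.1, h.2⟩))
      rw [h1.2, h2.2] at this
      exact this.imp id (fun h => ⟨congrArg Subtype.val h.1, h.2⟩)
    · -- forest
      obtain ⟨h, hh⟩ := ha
      let N := Fintype.card (E1b_Om w)
      let h' : E1b_Om w → ℕ := fun c => (N + 1) * h (c.1, ((c.2 : ℕ) : ℤ)) + (Fintype.equivFin (E1b_Om w) c : ℕ)
      have hidx : ∀ c, (Fintype.equivFin (E1b_Om w) c : ℕ) < N + 1 := fun c => by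
        have := (Fintype.equivFin (E1b_Om w) c).2
        omega
      have hle : ∀ c d, h' d < h' c → h (d.1, ((d.2 : ℕ) : ℤ)) ≤ h (c.1, ((c.2 : ℕ) : ℤ)) := by
        intro c d hlt
        by_contra hc
        push Not at hc
        have h1 : (N + 1) * (h (c.1, ((c.2 : ℕ) : ℤ)) + 1) ≤ (N + 1) * h (d.1, ((d.2 : ℕ) : ℤ)) :=
          Nat.mul_le_mul_left _ hc
        have h2 := hidx c
        have h3 := hidx d
        simp only [h'] at hlt
        rw [Nat.mul_add] at h1
        omega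
      refine ⟨h', ?_, ?_⟩
      · intro x c d hcd heq
        have hcd' : c = d := by
          have h2 := hidx c
          have h3 := hidx d
          simp only [h'] at heq
          have h4 : (Fintype.equivFin (E1b_Om w) c : ℕ) = (Fintype.equivFin (E1b_Om w) d : ℕ) := by
            have := congrArg (· % (N + 1)) heq
            simp only [Nat.mul_add_mod] at this
            rwa [Nat.mod_eq_of_lt h2, Nat.mod_eq_of_lt h3] at this
          exact (Fintype.equivFin (E1b_Om w)).injective (Fin.ext h4)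
        subst hcd'
        have k := E1b_R' hcd
        have := hh c.1 (c.2 : ℕ) (x, c.1, c.1) false (x, c.1, c.1) true hcd.1 k.1 (by rw [hcd.2]) (by rw [k.2])
        simp at this
      · have key : ∀ (c : E1b_Om w) (x : Fin r) (e : Bool) (d : E1b_Om w), Nb (E1b_R w) x e c d →
            ∃ k : Bnd B, k.1 = x ∧ w.Cov k (!e) c.1 (c.2 : ℕ) ∧
              w.par k (!e) (c.2 : ℕ) = (d.1, ((d.2 : ℕ) : ℤ)) := by
          intro c x e d hn
          cases e with
          | true =>
            have hn' : E1b_R w x c d := by simpa [Nb] using hn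
            exact ⟨_, rfl, hn'.1, hn'.2⟩
          | false =>
            have hn' : E1b_R w x d c := by simpa [Nb] using hn
            exact ⟨_, rfl, (E1b_R' hn').1, (E1b_R' hn').2⟩
        intro c x e d x' e' d' hn hn' hd hd'
        obtain ⟨k, hk, hc, hp⟩ := key c x e d hn
        obtain ⟨k', hk', hc', hp'⟩ := key c x' e' d' hn'
        have := hh c.1 (c.2 : ℕ) k (!e) k' (!e') hc hc' (by rw [hp]; exact hle c d hd)
          (by rw [hp']; exact hle c d' hd')
        refine ⟨by rw [← hk, ← hk', this.1], ?_⟩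
        have h2 := this.2
        revert h2
        cases e <;> cases e' <;> simp
  · simp only [Fintype.card_sigma, Fintype.card_fin, Sys.size]
    push_cast
    refine Finset.sum_congr rfl (fun P _ => ?_)
    exact Int.toNat_of_nonneg (hw.wf.len_nonneg P)
  · intro g
    rw [Finset.card_filter]
    push_cast
    rw [Fintype.sum_sigma]
    refine Finset.sum_congr rfl (fun P _ => ?_)
    have := hw.wf.len_nonneg P
    split_ifs
    · simp [this]
    · simp

end E1b
end Pool.Agent.Helper59.TE
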