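import Pool.Agent.Helper59.TE.Defs2

set_option autoImplicit false

/-! Labels on a forest of cells. -/

namespace Pool.Agent.Helper59.TE
open Sys

section E2

/-- a functional, cofunctional relation on a finite type is contained in the graph of a permutation -/
theorem E2_ext {Ω : Type} [Fintype Ω] [DecidableEq Ω] (R : Ω → Ω → Prop)
    (func : ∀ c d d', R c d → R c d' → d = d') (cofunc : ∀ c c' d, R c d → R c' d → c = c') :
    ∃ σ : Equiv.Perm Ω, ∀ c d, R c d → σ c = d := by
  classical
  let p : Ω → Prop := fun c => ∃ d, R c d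
  let q : Ω → Prop := fun d => ∃ c, R c d
  let e : { c // p c } ≃ { d // q d } :=
    { toFun := fun c => ⟨c.2.choose, ⟨c.1, c.2.choose_spec⟩⟩
      invFun := fun d => ⟨d.2.choose, ⟨d.1, d.2.choose_spec⟩⟩
      left_inv := by
        intro c
        apply Subtype.ext
        exact cofunc _ _ _ (Exists.choose_spec (p := fun c' => R c' c.2.choose) ⟨c.1, c.2.choose_spec⟩)
          c.2.choose_spec
      right_inv := by
        intro d
        apply Subtype.ext
        exact func _ _ _ (Exists.choose_spec (p := fun d' => R d.2.choose d') ⟨d.1, d.2.choose_spec⟩)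
          d.2.choose_spec }
  refine ⟨e.extendSubtype, fun c d hcd => ?_⟩
  have hc : p c := ⟨d, hcd⟩
  rw [Equiv.extendSubtype_apply_of_mem e c hc]
  exact func c _ _ hc.choose_spec hcd

variable {r : ℕ} {Ω : Type}

open Classical in
/-- the label: group element, root, parity -/
noncomputable def E2_lab (R : Fin r → Ω → Ω → Prop) (q : Fin r → Ω → Bool) (h : Ω → ℕ) :
    Ω → FreeGroup (Fin r) × Ω × Bool :=
  (measure h).wf.fix (fun c rec =>
    if H : ∃ t : Fin r × Bool × Ω, Nb R t.1 t.2.1 c t.2.2 ∧ h t.2.2 < h c then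
      let t := H.choose
      let l := rec t.2.2 H.choose_spec.2
      if t.2.1 then ((FreeGroup.of t.1)⁻¹ * l.1, l.2.1, xor l.2.2 (q t.1 t.2.2))
      else (FreeGroup.of t.1 * l.1, l.2.1, xor l.2.2 (q t.1 c))
    else (1, c, false))

open Classical in
theorem E2_lab_eq (R : Fin r → Ω → Ω → Prop) (q : Fin r → Ω → Bool) (h : Ω → ℕ) (c : Ω) :
    E2_lab R q h c = if H : ∃ t : Fin r × Bool × Ω, Nb R t.1 t.2.1 c t.2.2 ∧ h t.2.2 < h c then
      (if H.choose.2.1 then ((FreeGroup.of H.choose.1)⁻¹ * (E2_lab R q h H.choose.2.2).1,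
          (E2_lab R q h H.choose.2.2).2.1, xor (E2_lab R q h H.choose.2.2).2.2 (q H.choose.1 H.choose.2.2))
      else (FreeGroup.of H.choose.1 * (E2_lab R q h H.choose.2.2).1, (E2_lab R q h H.choose.2.2).2.1,
        xor (E2_lab R q h H.choose.2.2).2.2 (q H.choose.1 c)))
    else (1, c, false) := by
  conv_lhs => rw [E2_lab, WellFounded.fix_eq]
  rfl

theorem E2_lab_cases (R : Fin r → Ω → Ω → Prop) (q : Fin r → Ω → Bool) (h : Ω → ℕ) (c : Ω) :
    (∃ x d, R x c d ∧ h d < h c ∧ E2_lab R q h c = ((FreeGroup.of x)⁻¹ * (E2_lab R q h d).1,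
      (E2_lab R q h d).2.1, xor (E2_lab R q h d).2.2 (q x d))) ∨
    (∃ x d, R x d c ∧ h d < h c ∧ E2_lab R q h c = (FreeGroup.of x * (E2_lab R q h d).1,
      (E2_lab R q h d).2.1, xor (E2_lab R q h d).2.2 (q x c))) ∨
    ((∀ x e d, Nb R x e c d → ¬ h d < h c) ∧ E2_lab R q h c = (1, c, false)) := by
  classical
  by_cases H : ∃ t : Fin r × Bool × Ω, Nb R t.1 t.2.1 c t.2.2 ∧ h t.2.2 < h c
  · obtain ⟨h1, h2⟩ := H.choose_spec
    by_cases he : H.choose.2.1 = true
    · left
      refine ⟨H.choose.1, H.choose.2.2, ?_, h2, ?_⟩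
      · rw [Nb, if_pos he] at h1; exact h1
      · rw [E2_lab_eq, dif_pos H, if_pos he]
    · right; left
      refine ⟨H.choose.1, H.choose.2.2, ?_, h2, ?_⟩
      · rw [Nb, if_neg he] at h1; exact h1
      · rw [E2_lab_eq, dif_pos H, if_neg he]
  · right; right
    refine ⟨fun x e d h1 h2 => H ⟨(x, e, d), h1, h2⟩, ?_⟩
    rw [E2_lab_eq, dif_neg H]

theorem exists_labels {r : ℕ} {Ω : Type} [Fintype Ω] [DecidableEq Ω] (R : Fin r → Ω → Ω → Prop)
    (q : Fin r → Ω → Bool)
    (func : ∀ x c d d', R x c d → R x c d' → d = d') (cofunc : ∀ x c c' d, R x c d → R x c' d → c = c')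
    (hR : Forest R) :
    ∃ (a : Ω → FreeGroup (Fin r)) (o : Ω → ℕ) (e : Ω → Bool),
      (∀ x c d, R x c d → a d = FreeGroup.of x * a c ∧ o d = o c ∧ e d = xor (e c) (q x d)) ∧
      (∀ c d, a c = a d → o c = o d → c = d) ∧
      (∀ c, (a c).toWord.length ≤ Fintype.card Ω) ∧ ∀ c, o c < Fintype.card Ω := by
  classical
  obtain ⟨h, hne, hu⟩ := hR
  set L := E2_lab R q h with hL
  -- the permutations
  have hσ : ∀ x, ∃ σ : Equiv.Perm Ω, ∀ c d, R x c d → σ c = d := fun x => E2_ext (R x) (func x) (cofunc x)
  choose σ hσ using hσ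
  let F : FreeGroup (Fin r) →* Equiv.Perm Ω := FreeGroup.lift σ
  have hF : ∀ x, F (FreeGroup.of x) = σ x := fun x => by simp [F]
  -- the value of the action
  have hact : ∀ n, ∀ c, h c = n → F (L c).1 (L c).2.1 = c := by
    intro n
    induction n using Nat.strong_induction_on with
    | _ n ih =>
      intro c hc
      rcases E2_lab_cases R q h c with ⟨x, d, h1, h2, h3⟩ | ⟨x, d, h1, h2, h3⟩ | ⟨-, h3⟩
      · have := ih (h d) (hc ▸ h2) d rfl
        rw [hL, h3]
        simp only [map_mul, map_inv, Equiv.Perm.mul_apply]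
        rw [← hL, this, hF, Equiv.Perm.inv_eq_iff_eq]
        exact (hσ x c d h1).symm
      · have := ih (h d) (hc ▸ h2) d rfl
        rw [hL, h3]
        simp only [map_mul, Equiv.Perm.mul_apply]
        rw [← hL, this, hF]
        exact hσ x d c h1
      · rw [hL, h3]; simp
  have hlen : ∀ n, ∀ c, h c = n →
      (L c).1.toWord.length ≤ (Finset.univ.filter (fun c' => h c' < h c)).card := by
    intro n
    induction n using Nat.strong_induction_on with
    | _ n ih =>
      intro c hc
      have key : ∀ d, h d < h c → (Finset.univ.filter (fun c' => h c' < h d)).card + 1 ≤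
          (Finset.univ.filter (fun c' => h c' < h c)).card := by
        intro d hd
        apply Nat.succ_le_of_lt
        apply Finset.card_lt_card
        rw [Finset.ssubset_iff_of_subset]
        · exact ⟨d, by simp [hd], by simp⟩
        · intro c' hc'
          simp only [Finset.mem_filter, Finset.mem_univ, true_and] at hc' ⊢
          omega
      rcases E2_lab_cases R q h c with ⟨x, d, h1, h2, h3⟩ | ⟨x, d, h1, h2, h3⟩ | ⟨-, h3⟩
      · have := ih (h d) (hc ▸ h2) d rfl
        rw [hL, h3]
        have h4 := FreeGroup.norm_mul_le (FreeGroup.of x)⁻¹ (L d).1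
        rw [FreeGroup.norm_inv_eq, FreeGroup.norm_of] at h4
        have h5 := key d h2
        change FreeGroup.norm _ ≤ _
        change FreeGroup.norm _ ≤ _ at this
        simp only [← hL]
        omega
      · have := ih (h d) (hc ▸ h2) d rfl
        rw [hL, h3]
        have h4 := FreeGroup.norm_mul_le (FreeGroup.of x) (L d).1
        rw [FreeGroup.norm_of] at h4
        have h5 := key d h2
        change FreeGroup.norm _ ≤ _
        change FreeGroup.norm _ ≤ _ at this
        simp only [← hL]
        omega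
      · rw [hL, h3]; simp
  refine ⟨fun c => (L c).1, fun c => (Fintype.equivFin Ω (L c).2.1 : ℕ), fun c => (L c).2.2, ?_, ?_, ?_, ?_⟩
  · intro x c d hcd
    rcases lt_or_gt_of_ne (hne x c d hcd) with hlt | hlt
    · -- c is the lower neighbour of d
      have hnb : Nb R x false d c := by simpa [Nb] using hcd
      rcases E2_lab_cases R q h d with ⟨x', c', h1, h2, h3⟩ | ⟨x', c', h1, h2, h3⟩ | ⟨h0, -⟩
      · have hnb' : Nb R x' true d c' := by simpa [Nb] using h1
        have := (hu d x false c x' true c' hnb hnb' hlt h2).2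
        simp at this
      · have hnb' : Nb R x' false d c' := by simpa [Nb] using h1
        have hx := (hu d x false c x' false c' hnb hnb' hlt h2).1
        subst hx
        have hc := cofunc x c c' d hcd h1
        subst hc
        simp only [hL, h3]
        refine ⟨trivial, trivial, trivial⟩
      · exact absurd hlt (h0 x false c hnb)
    · have hnb : Nb R x true c d := by simpa [Nb] using hcd
      rcases E2_lab_cases R q h c with ⟨x', d', h1, h2, h3⟩ | ⟨x', d', h1, h2, h3⟩ | ⟨h0, -⟩
      · have hnb' : Nb R x' true c d' := by simpa [Nb] using h1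
        have hx := (hu c x true d x' true d' hnb hnb' hlt h2).1
        subst hx
        have hc := func x c d d' hcd h1
        subst hc
        simp only [hL, h3]
        refine ⟨by group, trivial, ?_⟩
        simp
      · have hnb' : Nb R x' false c d' := by simpa [Nb] using h1
        have := (hu c x true d x' false d' hnb hnb' hlt h2).2
        simp at this
      · exact absurd hlt (h0 x true d hnb)
  · intro c d h1 h2
    have h3 : (L c).2.1 = (L d).2.1 := by
      apply (Fintype.equivFin Ω).injective
      exact Fin.ext h2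
    rw [← hact _ c rfl, ← hact _ d rfl]
    simp only at h1
    rw [h1, h3]
  · intro c
    refine (hlen _ c rfl).trans ?_
    rw [← Finset.card_univ]
    exact Finset.card_le_card (Finset.filter_subset _ _)
  · intro c
    exact Fin.is_lt _

end E2
end Pool.Agent.Helper59.TE
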