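import Pool.Agent.Helper59.TE.D1
import Pool.Agent.Helper59.TE.Defs2

/-!
# E4: no cancellation in products of conjugates of new letters (by helper79)
-/

set_option autoImplicit false

namespace Pool.Agent.Helper59.TE

/-- the reduced word of the image of `g` -/
lemma E4_toWord_emb {r : ℕ} (g : FreeGroup (Fin r)) :
    (emb g).toWord = g.toWord.map (fun p => ((p.1 : ℕ), p.2)) := by
  have h1 : FreeGroup.IsReduced (g.toWord.map (fun p : Fin r × Bool => ((p.1 : ℕ), p.2))) := by
    unfold FreeGroup.IsReduced
    rw [List.isChain_map]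
    have h2 : FreeGroup.IsReduced g.toWord := FreeGroup.isReduced_toWord
    refine List.IsChain.imp ?_ h2
    intro a b hab h
    exact hab (Fin.ext h)
  rw [← h1.reduce_eq, ← FreeGroup.toWord_mk]
  congr 1
  conv_lhs => rw [← FreeGroup.mk_toWord (x := g)]
  unfold emb
  rw [FreeGroup.map.mk]

lemma E4_emb_lt {r : ℕ} (g : FreeGroup (Fin r)) : ∀ p ∈ (emb g).toWord, p.1 < r := by
  intro p hp
  rw [E4_toWord_emb] at hp
  obtain ⟨q, -, rfl⟩ := List.mem_map.mp hp
  exact q.1.2

lemma E4_emb_inj {r : ℕ} {g : FreeGroup (Fin r)} (h : emb g = 1) : g = 1 := by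
  have h1 := E4_toWord_emb g
  rw [h, FreeGroup.toWord_one] at h1
  have h2 : g.toWord = [] := List.map_eq_nil_iff.mp h1.symm
  exact FreeGroup.toWord_eq_nil_iff.mp h2

lemma E4_filter_lt {r : ℕ} {l : List (ℕ × Bool)} (h : ∀ p ∈ l, p.1 < r) :
    l.filter (fun p => decide (r ≤ p.1)) = [] := by
  rw [List.filter_eq_nil_iff]
  intro p hp
  have := h p hp
  simp only [decide_eq_true_eq, not_le]
  exact this

lemma E4_main {r : ℕ} (g : FreeGroup (Fin r)) (L : List (FreeGroup (Fin r) × ℕ × Bool)) :
    L.IsChain (fun p q => ¬ (p.1 = q.1 ∧ p.2.1 = q.2.1)) → ∀ b : FreeGroup (Fin r),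
    (((emb b * (L.map (fun p => fac p.1 p.2.1 p.2.2)).prod * emb g).toWord.filter
      (fun p => decide (r ≤ p.1))).length = L.length ∧
    ∀ k s rest, (emb b * (L.map (fun p => fac p.1 p.2.1 p.2.2)).prod * emb g).toWord =
      (k, s) :: rest → r ≤ k → ∃ a o e L', L = (a, o, e) :: L' ∧ b * a = 1 ∧ k = r + o) := by
  induction L with
  | nil =>
    intro _ b
    have h1 : emb b * (([] : List (FreeGroup (Fin r) × ℕ × Bool)).map
        (fun p => fac p.1 p.2.1 p.2.2)).prod * emb g = emb (b * g) := by
      simp
    rw [h1]
    refine ⟨?_, ?_⟩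
    · rw [E4_filter_lt (E4_emb_lt _)]; rfl
    · intro k s rest he hk
      have := E4_emb_lt (b * g) (k, s) (by rw [he]; exact List.mem_cons_self)
      simp only at this
      omega
  | cons p L ih =>
    intro hch b
    obtain ⟨a, o, e⟩ := p
    have hchL := hch.tail
    obtain ⟨ih1, ih2⟩ := ih hchL a⁻¹
    set u := (emb (b * a)).toWord with hu
    set v := (emb a⁻¹ * (L.map (fun p => fac p.1 p.2.1 p.2.2)).prod * emb g).toWord with hv
    have hred : FreeGroup.IsReduced (u ++ (r + o, e) :: v) := by
      have hu1 : FreeGroup.IsReduced u := FreeGroup.isReduced_toWord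
      have hv1 : FreeGroup.IsReduced v := FreeGroup.isReduced_toWord
      unfold FreeGroup.IsReduced at hu1 hv1 ⊢
      rw [List.isChain_append]
      refine ⟨hu1, ?_, ?_⟩
      · rw [List.isChain_cons]
        refine ⟨?_, hv1⟩
        rintro ⟨k, s⟩ hks heq
        exfalso
        simp only at heq
        obtain ⟨rest, hrest⟩ : ∃ rest, v = (k, s) :: rest := by
          cases hvv : v with
          | nil => rw [hvv] at hks; simp at hks
          | cons q rest =>
            rw [hvv] at hks
            simp only [List.head?_cons, Option.mem_some_iff] at hks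
            exact ⟨rest, by rw [hks]⟩
        obtain ⟨a', o', e', L', hL, hba, hk⟩ := ih2 k s rest hrest (by omega)
        rw [hL] at hch
        have h3 := (List.isChain_cons_cons.mp hch).1
        apply h3
        refine ⟨?_, ?_⟩
        · exact (inv_mul_eq_one.mp hba)
        · simp only; omega
      · rintro ⟨k, s⟩ hks q hq heq
        exfalso
        simp only [List.head?_cons, Option.mem_some_iff] at hq
        subst hq
        have h4 := E4_emb_lt (b * a) (k, s) (List.mem_of_mem_getLast? hks)
        simp only at heq h4
        omega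
    have heq : (emb b * (((a, o, e) :: L).map (fun p => fac p.1 p.2.1 p.2.2)).prod * emb g) =
        FreeGroup.mk (u ++ (r + o, e) :: v) := by
      have h5 : FreeGroup.mk (u ++ (r + o, e) :: v) =
          FreeGroup.mk u * (FreeGroup.mk [(r + o, e)] * FreeGroup.mk v) := by
        rw [FreeGroup.mul_mk, FreeGroup.mul_mk]; rfl
      rw [h5, hu, hv, FreeGroup.mk_toWord, FreeGroup.mk_toWord, List.map_cons, List.prod_cons]
      unfold fac
      rw [map_mul, map_inv]
      simp only [mul_assoc]
    have hw : (emb b * (((a, o, e) :: L).map (fun p => fac p.1 p.2.1 p.2.2)).prod * emb g).toWord =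
        u ++ (r + o, e) :: v := by
      rw [heq, FreeGroup.toWord_mk, hred.reduce_eq]
    refine ⟨?_, ?_⟩
    · rw [hw, List.filter_append, List.length_append, E4_filter_lt (E4_emb_lt _),
        List.filter_cons_of_pos (by simp), List.length_cons, ih1]
      simp
    · intro k s rest he hk
      rw [hw] at he
      refine ⟨a, o, e, L, rfl, ?_, ?_⟩
      · by_contra hne
        cases huu : u with
        | nil =>
          rw [hu, FreeGroup.toWord_eq_nil_iff] at huu
          exact hne (E4_emb_inj huu)
        | cons q u' =>
          rw [huu, List.cons_append] at he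
          have h6 := (List.cons.inj he).1
          have h7 := E4_emb_lt (b * a) q (by rw [← hu, huu]; exact List.mem_cons_self)
          rw [h6] at h7
          simp only at h7
          omega
      · cases huu : u with
        | nil =>
          rw [huu, List.nil_append] at he
          have h6 := (List.cons.inj he).1
          exact (congrArg Prod.fst h6).symm
        | cons q u' =>
          rw [huu, List.cons_append] at he
          have h6 := (List.cons.inj he).1
          have h7 := E4_emb_lt (b * a) q (by rw [← hu, huu]; exact List.mem_cons_self)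
          rw [h6] at h7
          simp only at h7
          omega

theorem fac_count {r : ℕ} (L : List (FreeGroup (Fin r) × ℕ × Bool))
    (hL : L.IsChain (fun p q => ¬ (p.1 = q.1 ∧ p.2.1 = q.2.1))) (g : FreeGroup (Fin r)) :
    (((L.map (fun p => fac p.1 p.2.1 p.2.2)).prod * emb g).toWord.filter
      (fun p => decide (r ≤ p.1))).length = L.length := by
  have h := (E4_main g L hL 1).1
  rwa [map_one, one_mul] at h

end Pool.Agent.Helper59.TE
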