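import Pool.Agent.Helper59.TE.D1
import Pool.Agent.Helper59.TE.Defs2
import Pool.Agent.Helper59.TE.E4

/-!
# E3: the test homomorphism of a cell pattern, from the labels (by helper79)
-/

set_option autoImplicit false
set_option linter.unusedSectionVars false

namespace Pool.Agent.Helper59.TE

section sort

variable {Ω κ : Type} [DecidableEq Ω] [LinearOrder κ] (key : Ω → κ)

/-- sorted list of the elements of a finite set -/
noncomputable def E3_srt (S : Finset Ω) : List Ω :=
  S.toList.insertionSort (fun c c' => key c ≤ key c')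

lemma E3_mem (S : Finset Ω) (c : Ω) : c ∈ E3_srt key S ↔ c ∈ S := by
  unfold E3_srt
  rw [List.mem_insertionSort, Finset.mem_toList]

lemma E3_perm (S : Finset Ω) : (E3_srt key S).Perm S.toList := List.perm_insertionSort _ _

lemma E3_nodup (S : Finset Ω) : (E3_srt key S).Nodup :=
  (E3_perm key S).nodup_iff.mpr S.nodup_toList

lemma E3_len (S : Finset Ω) : (E3_srt key S).length = S.card := by
  rw [(E3_perm key S).length_eq, Finset.length_toList]

lemma E3_pw (S : Finset Ω) : (E3_srt key S).Pairwise (fun c c' => key c ≤ key c') := by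
  have : Std.Total (fun c c' : Ω => key c ≤ key c') := ⟨fun a b => le_total _ _⟩
  have : IsTrans Ω (fun c c' : Ω => key c ≤ key c') := ⟨fun a b c h1 h2 => le_trans h1 h2⟩
  exact List.pairwise_insertionSort _ _

lemma E3_pwlt (S : Finset Ω) (hinj : ∀ c ∈ S, ∀ c' ∈ S, key c = key c' → c = c') :
    (E3_srt key S).Pairwise (fun c c' => key c < key c') := by
  have h1 := (E3_pw key S).and (E3_nodup key S)
  refine h1.imp_of_mem ?_
  intro a b ha hb hab
  exact lt_of_le_of_ne hab.1 fun h => hab.2 (hinj a ((E3_mem key S a).mp ha) b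
    ((E3_mem key S b).mp hb) h)

lemma E3_unique (S : Finset Ω) (hinj : ∀ c ∈ S, ∀ c' ∈ S, key c = key c' → c = c') (l : List Ω)
    (hp : l.Pairwise (fun c c' => key c < key c')) (hm : ∀ c, c ∈ l ↔ c ∈ S) : E3_srt key S = l := by
  have hnd : l.Nodup := hp.imp fun {a b} h e => by rw [e] at h; exact lt_irrefl _ h
  have hperm : (E3_srt key S).Perm l := by
    apply (List.perm_ext_iff_of_nodup (E3_nodup key S) hnd).mpr
    intro a
    rw [E3_mem, hm]
  refine List.Perm.eq_of_pairwise ?_ (E3_pw key S) (hp.imp fun {a b} h => h.le) hperm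
  intro a b ha hb h1 h2
  exact hinj a ((E3_mem key S a).mp ha) b ((hm b).mp hb) (le_antisymm h1 h2)

lemma E3_split (S S1 S2 : Finset Ω) (hinj : ∀ c ∈ S, ∀ c' ∈ S, key c = key c' → c = c')
    (hS : ∀ c, c ∈ S ↔ c ∈ S1 ∨ c ∈ S2) (hlt : ∀ c ∈ S1, ∀ c' ∈ S2, key c < key c') :
    E3_srt key S = E3_srt key S1 ++ E3_srt key S2 := by
  apply E3_unique key S hinj
  · rw [List.pairwise_append]
    refine ⟨E3_pwlt key S1 fun c hc c' hc' => hinj c ((hS c).mpr (Or.inl hc)) c'
      ((hS c').mpr (Or.inl hc')), E3_pwlt key S2 fun c hc c' hc' => hinj c ((hS c).mpr (Or.inr hc)) c'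
      ((hS c').mpr (Or.inr hc')), ?_⟩
    intro a ha b hb
    exact hlt a ((E3_mem key S1 a).mp ha) b ((E3_mem key S2 b).mp hb)
  · intro c
    rw [List.mem_append, E3_mem, E3_mem, hS]

lemma E3_inc (S S' : Finset Ω) (f : Ω → Ω) (hinj : ∀ c ∈ S, ∀ c' ∈ S, key c = key c' → c = c')
    (hinj' : ∀ c ∈ S', ∀ c' ∈ S', key c = key c' → c = c')
    (hf : ∀ d, d ∈ S' ↔ ∃ c ∈ S, f c = d)
    (hlt : ∀ c ∈ S, ∀ c' ∈ S, key c < key c' → key (f c) < key (f c')) :
    E3_srt key S' = (E3_srt key S).map f := by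
  apply E3_unique key S' hinj'
  · rw [List.pairwise_map]
    refine (E3_pwlt key S hinj).imp_of_mem ?_
    intro a b ha hb hab
    exact hlt a ((E3_mem key S a).mp ha) b ((E3_mem key S b).mp hb) hab
  · intro d
    rw [List.mem_map, hf]
    simp only [E3_mem]

lemma E3_dec (S S' : Finset Ω) (f : Ω → Ω) (hinj : ∀ c ∈ S, ∀ c' ∈ S, key c = key c' → c = c')
    (hinj' : ∀ c ∈ S', ∀ c' ∈ S', key c = key c' → c = c')
    (hf : ∀ d, d ∈ S' ↔ ∃ c ∈ S, f c = d)
    (hlt : ∀ c ∈ S, ∀ c' ∈ S, key c < key c' → key (f c') < key (f c)) :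
    E3_srt key S' = ((E3_srt key S).map f).reverse := by
  apply E3_unique key S' hinj'
  · rw [List.pairwise_reverse, List.pairwise_map]
    refine (E3_pwlt key S hinj).imp_of_mem ?_
    intro a b ha hb hab
    exact hlt a ((E3_mem key S a).mp ha) b ((E3_mem key S b).mp hb) hab
  · intro d
    rw [List.mem_reverse, List.mem_map, hf]
    simp only [E3_mem]

end sort

section path

variable {r : ℕ} {B : Finset (FreeGroup (Fin r))} {Ω : Type} [Fintype Ω] [DecidableEq Ω]
    {P : Ω → Finset (FreeGroup (Fin r))} {i : Ω → ℤ} {R : Fin r → Ω → Ω → Prop}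

/-- the key used for sorting -/
def E3_key (P : Ω → Finset (FreeGroup (Fin r))) (i : Ω → ℤ) (c : Ω) : ℤ ×ₗ ℤ :=
  toLex (-((P c).card : ℤ), i c)

lemma E3_key_lt {c c' : Ω} : E3_key P i c < E3_key P i c' ↔
    (P c').card < (P c).card ∨ ((P c).card = (P c').card ∧ i c < i c') := by
  unfold E3_key
  rw [Prod.Lex.toLex_lt_toLex]
  simp only [neg_lt_neg_iff, Nat.cast_lt, neg_inj, Nat.cast_inj]

/-- the set of cells crossed -/
def E3_S (P : Ω → Finset (FreeGroup (Fin r))) (g : FreeGroup (Fin r)) : Finset Ω :=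
  Finset.univ.filter fun c => g ∈ P c

lemma E3_mem_S {g : FreeGroup (Fin r)} {c : Ω} : c ∈ E3_S P g ↔ g ∈ P c := by
  unfold E3_S; simp

/-- two cells crossed by the same element -/
lemma E3_lt_iff (h : CellPat B P i R) {g : FreeGroup (Fin r)} {c c' : Ω} (hc : g ∈ P c)
    (hc' : g ∈ P c') : E3_key P i c < E3_key P i c' ↔ (P c' ⊂ P c ∨ P c = P c' ∧ i c < i c') := by
  rw [E3_key_lt]
  constructor
  · rintro (h1 | ⟨h1, h2⟩)
    · left
      rcases h.lam c c' with h3 | h3 | h3
      · exact absurd (Finset.card_le_card h3) (by omega)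
      · exact ⟨h3, fun h4 => absurd (Finset.card_le_card h4) (by omega)⟩
      · exact absurd hc' (Finset.disjoint_left.mp h3 hc)
    · right
      refine ⟨?_, h2⟩
      rcases h.lam c c' with h3 | h3 | h3
      · exact Finset.eq_of_subset_of_card_le h3 h1.ge
      · exact (Finset.eq_of_subset_of_card_le h3 h1.le).symm
      · exact absurd hc' (Finset.disjoint_left.mp h3 hc)
  · rintro (h1 | ⟨h1, h2⟩)
    · exact Or.inl (Finset.card_lt_card h1)
    · exact Or.inr ⟨by rw [h1], h2⟩

lemma E3_key_inj (h : CellPat B P i R) {g : FreeGroup (Fin r)} {c c' : Ω} (hc : g ∈ P c)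
    (hc' : g ∈ P c') (he : E3_key P i c = E3_key P i c') : c = c' := by
  unfold E3_key at he
  have h0 := toLex.injective he
  have h1 : (P c).card = (P c').card := by
    have := congrArg Prod.fst h0
    simpa using this
  have h2 : i c = i c' := congrArg Prod.snd h0
  apply h.inj c c' _ h2
  rcases h.lam c c' with h3 | h3 | h3
  · exact Finset.eq_of_subset_of_card_le h3 h1.ge
  · exact (Finset.eq_of_subset_of_card_le h3 h1.le).symm
  · exact absurd hc' (Finset.disjoint_left.mp h3 hc)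

/-- the new letters along the path from `1` to `g` -/
noncomputable def E3_path (P : Ω → Finset (FreeGroup (Fin r))) (i : Ω → ℤ) (τ : Ω → FreeGroup ℕ)
    (g : FreeGroup (Fin r)) : FreeGroup ℕ :=
  ((E3_srt (E3_key P i) (E3_S P g)).map τ).prod

/-- comparison of cells of which one is crossed by `y` and the other is not -/
lemma E3_cmp (h : CellPat B P i R) {g y : FreeGroup (Fin r)} {c c' : Ω} (hc : g ∈ P c)
    (hc' : g ∈ P c') (hy : y ∈ P c) (hy' : y ∉ P c') : E3_key P i c < E3_key P i c' := by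
  rw [E3_lt_iff h hc hc']
  left
  rcases h.lam c c' with h3 | h3 | h3
  · exact absurd (h3 hy) hy'
  · exact ⟨h3, fun h4 => hy' (h4 hy)⟩
  · exact absurd hc' (Finset.disjoint_left.mp h3 hc)

/-- the cocycle identity -/
lemma E3_cocycle (h : CellPat B P i R) (h1 : 1 ∈ B)
    (hx : ∀ x : Fin r, FreeGroup.of x ∈ B ∧ (FreeGroup.of x)⁻¹ ∈ B) (τ : Ω → FreeGroup ℕ)
    (hτp : ∀ x c d, R x c d → FreeGroup.of x ∉ P d →
      emb (FreeGroup.of x) * τ c * (emb (FreeGroup.of x))⁻¹ = τ d)
    (hτm : ∀ x c d, R x c d → FreeGroup.of x ∈ P d →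
      emb (FreeGroup.of x) * τ c * (emb (FreeGroup.of x))⁻¹ = (τ d)⁻¹)
    (x : Fin r) (g : FreeGroup (Fin r)) (hg : g ∈ B) (hxg : FreeGroup.of x * g ∈ B) :
    E3_path P i τ (FreeGroup.of x * g) = E3_path P i τ (FreeGroup.of x) *
      (emb (FreeGroup.of x) * E3_path P i τ g * (emb (FreeGroup.of x))⁻¹) := by
  classical
  set X := FreeGroup.of x with hX
  set key := E3_key P i with hkey
  let f : Ω → Ω := fun c => if hc : ∃ d, R x c d then hc.choose else c
  have hf : ∀ c d, R x c d → f c = d := by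
    intro c d hcd
    have hex : ∃ d, R x c d := ⟨d, hcd⟩
    simp only [f, dif_pos hex]
    exact h.func x c _ _ hex.choose_spec hcd
  have hfR : ∀ c, g ∈ P c → R x c (f c) := by
    intro c hc
    obtain ⟨d, hd⟩ := h.dom x c ⟨g, hc, hxg⟩
    rw [hf c d hd]; exact hd
  -- membership of the inverse
  have hinv : ∀ c d, R x c d → (X⁻¹ ∈ P c ↔ X ∈ P d) := by
    intro c d hcd
    have h2 := h.compat x c d hcd X⁻¹ (hx x).2 (by rw [← hX, mul_inv_cancel]; exact h1)
    rw [← hX, mul_inv_cancel] at h2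
    rw [h2]
    have h3 := h.one d
    tauto
  have hcomp : ∀ c d, R x c d → (g ∈ P c ↔ ¬ (X * g ∈ P d ↔ X ∈ P d)) := fun c d hcd =>
    h.compat x c d hcd g hg hxg
  set Sg := E3_S P g with hSg
  set Sx := E3_S P X with hSx
  set Sy := E3_S P (X * g) with hSy
  have inj : ∀ y : FreeGroup (Fin r), ∀ c ∈ E3_S P y, ∀ c' ∈ E3_S P y, key c = key c' → c = c' :=
    fun y c hc c' hc' he => E3_key_inj h (E3_mem_S.mp hc) (E3_mem_S.mp hc') he
  set M1 := Sg.filter fun c => X⁻¹ ∈ P c with hM1
  set M2 := Sg.filter fun c => X⁻¹ ∉ P c with hM2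
  set L0 := Sx.filter fun c => X * g ∈ P c with hL0
  set L1 := Sx.filter fun c => X * g ∉ P c with hL1
  set L2 := Sy.filter fun c => X ∉ P c with hL2
  have e1 : E3_srt key Sg = E3_srt key M1 ++ E3_srt key M2 := by
    apply E3_split key Sg M1 M2 (inj g)
    · intro c
      rw [hM1, hM2, Finset.mem_filter, Finset.mem_filter]
      tauto
    · intro c hc c' hc'
      obtain ⟨h3, h4⟩ := Finset.mem_filter.mp hc
      obtain ⟨h5, h6⟩ := Finset.mem_filter.mp hc'
      exact E3_cmp h (E3_mem_S.mp h3) (E3_mem_S.mp h5) h4 h6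
  have e2 : E3_srt key Sx = E3_srt key L0 ++ E3_srt key L1 := by
    apply E3_split key Sx L0 L1 (inj X)
    · intro c
      rw [hL0, hL1, Finset.mem_filter, Finset.mem_filter]
      tauto
    · intro c hc c' hc'
      obtain ⟨h3, h4⟩ := Finset.mem_filter.mp hc
      obtain ⟨h5, h6⟩ := Finset.mem_filter.mp hc'
      exact E3_cmp h (E3_mem_S.mp h3) (E3_mem_S.mp h5) h4 h6
  have e3 : E3_srt key Sy = E3_srt key L0 ++ E3_srt key L2 := by
    apply E3_split key Sy L0 L2 (inj (X * g))
    · intro c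
      rw [hL0, hL2, Finset.mem_filter, Finset.mem_filter, hSx, hSy, E3_mem_S, E3_mem_S]
      tauto
    · intro c hc c' hc'
      obtain ⟨h3, h4⟩ := Finset.mem_filter.mp hc
      obtain ⟨h5, h6⟩ := Finset.mem_filter.mp hc'
      exact E3_cmp h h4 (E3_mem_S.mp h5) (E3_mem_S.mp h3) h6
  have sub1 : ∀ (S : Finset Ω) (y : FreeGroup (Fin r)), (∀ c ∈ S, c ∈ E3_S P y) →
      ∀ c ∈ S, ∀ c' ∈ S, key c = key c' → c = c' := fun S y hS c hc c' hc' he =>
    inj y c (hS c hc) c' (hS c' hc') he
  have hM1g : ∀ c ∈ M1, g ∈ P c := fun c hc => E3_mem_S.mp (Finset.mem_filter.mp hc).1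
  have hM2g : ∀ c ∈ M2, g ∈ P c := fun c hc => E3_mem_S.mp (Finset.mem_filter.mp hc).1
  have hM1x : ∀ c ∈ M1, X ∈ P (f c) := fun c hc =>
    (hinv c (f c) (hfR c (hM1g c hc))).mp (Finset.mem_filter.mp hc).2
  have hM2x : ∀ c ∈ M2, X ∉ P (f c) := fun c hc h3 =>
    (Finset.mem_filter.mp hc).2 ((hinv c (f c) (hfR c (hM2g c hc))).mpr h3)
  have e4 : E3_srt key L2 = (E3_srt key M2).map f := by
    apply E3_inc key M2 L2 f (sub1 M2 g fun c hc => (Finset.mem_filter.mp hc).1)
      (sub1 L2 (X * g) fun c hc => (Finset.mem_filter.mp hc).1)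
    · intro d
      rw [hL2, Finset.mem_filter, hSy, E3_mem_S]
      constructor
      · rintro ⟨h3, h4⟩
        obtain ⟨c, hc⟩ := h.img x d ⟨g, hg, hxg, fun h5 => h4 (h5.mp h3)⟩
        have h6 : g ∈ P c := (hcomp c d hc).mpr fun h5 => h4 (h5.mp h3)
        refine ⟨c, ?_, hf c d hc⟩
        rw [hM2, Finset.mem_filter, hSg, E3_mem_S]
        exact ⟨h6, fun h7 => h4 ((hinv c d hc).mp h7)⟩
      · rintro ⟨c, hc, rfl⟩
        have h3 := hM2g c hc
        have h4 := hM2x c hc
        have h5 := (hcomp c (f c) (hfR c h3)).mp h3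
        tauto
    · intro c hc c' hc' hlt
      have h3 := hM2g c hc
      have h3' := hM2g c' hc'
      have h4 := hM2x c hc
      have h4' := hM2x c' hc'
      have h5 := (hcomp c (f c) (hfR c h3)).mp h3
      have h5' := (hcomp c' (f c') (hfR c' h3')).mp h3'
      have h6 := h.ordp x c (f c) c' (f c') (hfR c h3) (hfR c' h3') h4 h4'
        ((E3_lt_iff h h3 h3').mp hlt)
      exact (E3_lt_iff h (g := X * g) (by tauto) (by tauto)).mpr h6
  have e5 : E3_srt key L1 = ((E3_srt key M1).map f).reverse := by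
    apply E3_dec key M1 L1 f (sub1 M1 g fun c hc => (Finset.mem_filter.mp hc).1)
      (sub1 L1 X fun c hc => (Finset.mem_filter.mp hc).1)
    · intro d
      rw [hL1, Finset.mem_filter, hSx, E3_mem_S]
      constructor
      · rintro ⟨h3, h4⟩
        obtain ⟨c, hc⟩ := h.img x d ⟨g, hg, hxg, fun h5 => h4 (h5.mpr h3)⟩
        have h6 : g ∈ P c := (hcomp c d hc).mpr fun h5 => h4 (h5.mpr h3)
        refine ⟨c, ?_, hf c d hc⟩
        rw [hM1, Finset.mem_filter, hSg, E3_mem_S]
        exact ⟨h6, (hinv c d hc).mpr h3⟩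
      · rintro ⟨c, hc, rfl⟩
        have h3 := hM1g c hc
        have h4 := hM1x c hc
        have h5 := (hcomp c (f c) (hfR c h3)).mp h3
        tauto
    · intro c hc c' hc' hlt
      have h3 := hM1g c hc
      have h3' := hM1g c' hc'
      have h4 := hM1x c hc
      have h4' := hM1x c' hc'
      have h6 := h.ordm x c (f c) c' (f c') (hfR c h3) (hfR c' h3') h4 h4'
        ((E3_lt_iff h h3 h3').mp hlt)
      refine (E3_lt_iff h (g := X) h4' h4).mpr ?_
      rcases h6 with h6 | ⟨h6, h7⟩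
      · exact Or.inl h6
      · exact Or.inr ⟨h6.symm, h7⟩
  -- products
  have conj : ∀ l : List Ω, emb X * (l.map τ).prod * (emb X)⁻¹ =
      (l.map fun c => emb X * τ c * (emb X)⁻¹).prod := by
    intro l
    induction l with
    | nil => simp
    | cons c l ih =>
      rw [List.map_cons, List.prod_cons, List.map_cons, List.prod_cons, ← ih]
      group
  have p2 : emb X * ((E3_srt key M2).map τ).prod * (emb X)⁻¹ = ((E3_srt key L2).map τ).prod := by
    rw [conj, e4, List.map_map]
    congr 1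
    apply List.map_congr_left
    intro c hc
    have hc' := (E3_mem key M2 c).mp hc
    exact hτp x c (f c) (hfR c (hM2g c hc')) (hM2x c hc')
  have p1 : emb X * ((E3_srt key M1).map τ).prod * (emb X)⁻¹ = (((E3_srt key L1).map τ).prod)⁻¹ := by
    rw [conj, e5, List.prod_inv_reverse, ← List.map_reverse, ← List.map_reverse, List.reverse_reverse,
      List.map_map, List.map_map]
    congr 1
    apply List.map_congr_left
    intro c hc
    have hc' := (E3_mem key M1 c).mp hc
    exact hτm x c (f c) (hfR c (hM1g c hc')) (hM1x c hc')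
  unfold E3_path
  rw [← hkey, ← hSg, ← hSx, ← hSy, e1, e2, e3]
  simp only [List.map_append, List.prod_append]
  have : emb X * (((E3_srt key M1).map τ).prod * ((E3_srt key M2).map τ).prod) * (emb X)⁻¹ =
      (emb X * ((E3_srt key M1).map τ).prod * (emb X)⁻¹) *
      (emb X * ((E3_srt key M2).map τ).prod * (emb X)⁻¹) := by group
  rw [this, p1, p2]
  group

end path

section test

variable {r : ℕ}

lemma E3_fac_not (a : FreeGroup (Fin r)) (o : ℕ) (e : Bool) : fac a o (!e) = (fac a o e)⁻¹ := by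
  unfold fac
  have : FreeGroup.mk [(r + o, !e)] = (FreeGroup.mk [(r + o, e)])⁻¹ := by
    rw [FreeGroup.inv_mk]; rfl
  rw [this]
  group

lemma E3_fac_conj (g a : FreeGroup (Fin r)) (o : ℕ) (e : Bool) :
    emb g * fac a o e * (emb g)⁻¹ = fac (g * a) o e := by
  unfold fac
  rw [map_mul]
  group

/-- deletion of the letters of index at least `r` -/
noncomputable def E3_del (r : ℕ) : FreeGroup ℕ →* FreeGroup ℕ :=
  FreeGroup.lift (fun n => if n < r then FreeGroup.of n else 1)

lemma E3_del_mk (r : ℕ) (l : List (ℕ × Bool)) :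
    E3_del r (FreeGroup.mk l) = FreeGroup.mk (l.filter (fun p => decide (p.1 < r))) := by
  induction l with
  | nil => rw [← FreeGroup.one_eq_mk, map_one]; rfl
  | cons p l ih =>
    have h1 : FreeGroup.mk (p :: l) = FreeGroup.mk [p] * FreeGroup.mk l := by
      rw [FreeGroup.mul_mk]; rfl
    rw [h1, map_mul, ih]
    obtain ⟨n, b⟩ := p
    by_cases hn : n < r
    · rw [List.filter_cons_of_pos (by simpa using hn)]
      have h2 : FreeGroup.mk ((n, b) :: l.filter (fun p => decide (p.1 < r))) =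
          FreeGroup.mk [(n, b)] * FreeGroup.mk (l.filter (fun p => decide (p.1 < r))) := by
        rw [FreeGroup.mul_mk]; rfl
      rw [h2]
      congr 1
      unfold E3_del
      rw [FreeGroup.lift_mk]
      cases b
      · simp [hn, FreeGroup.of, FreeGroup.inv_mk, FreeGroup.invRev]
      · simp [hn, FreeGroup.of]
    · rw [List.filter_cons_of_neg (by simpa using hn)]
      have h3 : E3_del r (FreeGroup.mk [(n, b)]) = 1 := by
        unfold E3_del
        rw [FreeGroup.lift_mk]
        cases b <;> simp [hn]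
      rw [h3, one_mul]

lemma E3_del_fac (a : FreeGroup (Fin r)) (o : ℕ) (e : Bool) : E3_del r (fac a o e) = 1 := by
  unfold fac
  have h1 : E3_del r (FreeGroup.mk [(r + o, e)]) = 1 := by
    rw [E3_del_mk, List.filter_cons_of_neg (by simp), List.filter_nil]; rfl
  rw [map_mul, map_mul, h1, mul_one, map_inv, mul_inv_cancel]

lemma E3_norm_emb (a : FreeGroup (Fin r)) : (emb a).norm = a.toWord.length := by
  unfold FreeGroup.norm
  rw [E4_toWord_emb, List.length_map]

lemma E3_norm_fac (a : FreeGroup (Fin r)) (o : ℕ) (e : Bool) :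
    (fac a o e).norm ≤ 2 * a.toWord.length + 1 := by
  unfold fac
  have h1 := FreeGroup.norm_mul_le (emb a * FreeGroup.mk [(r + o, e)]) (emb a)⁻¹
  have h2 := FreeGroup.norm_mul_le (emb a) (FreeGroup.mk [(r + o, e)])
  rw [FreeGroup.norm_inv_eq, E3_norm_emb] at h1
  rw [E3_norm_emb] at h2
  have h3 : (FreeGroup.mk [(r + o, e)]).norm ≤ 1 := FreeGroup.norm_mk_le
  omega

lemma E3_norm_prod {Ω : Type} (τ : Ω → FreeGroup ℕ) (M : ℕ) (hM : ∀ c, (τ c).norm ≤ M) (l : List Ω) :
    ((l.map τ).prod).norm ≤ l.length * M := by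
  induction l with
  | nil => simp
  | cons c l ih =>
    rw [List.map_cons, List.prod_cons, List.length_cons]
    have h1 := FreeGroup.norm_mul_le (τ c) (l.map τ).prod
    have h2 := hM c
    rw [Nat.add_mul, one_mul]
    omega

/-- all letters have index less than `N` -/
def E3_lt (N : ℕ) (g : FreeGroup ℕ) : Prop := ∀ p ∈ g.toWord, p.1 < N

lemma E3_lt_one (N : ℕ) : E3_lt N 1 := by
  intro p hp; rw [FreeGroup.toWord_one] at hp; simp at hp

lemma E3_lt_mul {N : ℕ} {g h : FreeGroup ℕ} (hg : E3_lt N g) (hh : E3_lt N h) : E3_lt N (g * h) := by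
  intro p hp
  have h1 := (FreeGroup.toWord_mul_sublist g h).subset hp
  rcases List.mem_append.mp h1 with h2 | h2
  · exact hg p h2
  · exact hh p h2

lemma E3_lt_inv {N : ℕ} {g : FreeGroup ℕ} (hg : E3_lt N g) : E3_lt N g⁻¹ := by
  intro p hp
  rw [FreeGroup.toWord_inv, FreeGroup.invRev, List.mem_reverse, List.mem_map] at hp
  obtain ⟨q, hq, rfl⟩ := hp
  exact hg q hq

lemma E3_lt_emb {N : ℕ} (hN : r ≤ N) (a : FreeGroup (Fin r)) : E3_lt N (emb a) := fun p hp =>
  lt_of_lt_of_le (E4_emb_lt a p hp) hN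

lemma E3_lt_fac {N : ℕ} (hN : r ≤ N) (a : FreeGroup (Fin r)) {o : ℕ} (ho : r + o < N) (e : Bool) :
    E3_lt N (fac a o e) := by
  unfold fac
  apply E3_lt_mul (E3_lt_mul (E3_lt_emb hN a) _) (E3_lt_inv (E3_lt_emb hN a))
  intro p hp
  rw [FreeGroup.toWord_mk, FreeGroup.reduce_singleton] at hp
  rw [List.mem_singleton] at hp
  rw [hp]; exact ho

lemma E3_lt_prod {Ω : Type} (τ : Ω → FreeGroup ℕ) (N : ℕ) (hM : ∀ c, E3_lt N (τ c)) (l : List Ω) :
    E3_lt N ((l.map τ).prod) := by
  induction l with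
  | nil => exact E3_lt_one N
  | cons c l ih =>
    rw [List.map_cons, List.prod_cons]
    exact E3_lt_mul (hM c) ih

lemma E3_path_one {B : Finset (FreeGroup (Fin r))} {Ω : Type} [Fintype Ω] [DecidableEq Ω]
    {P : Ω → Finset (FreeGroup (Fin r))} {i : Ω → ℤ} {R : Fin r → Ω → Ω → Prop} (h : CellPat B P i R)
    (τ : Ω → FreeGroup ℕ) : E3_path P i τ 1 = 1 := by
  unfold E3_path
  have : E3_srt (E3_key P i) (E3_S P 1) = [] := by
    rw [List.eq_nil_iff_forall_not_mem]
    intro c hc
    rw [E3_mem, E3_mem_S] at hc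
    exact h.one c hc
  rw [this]; simp

lemma E3_sub {B : Finset (FreeGroup (Fin r))} {Ω : Type} [Fintype Ω] [DecidableEq Ω]
    {P : Ω → Finset (FreeGroup (Fin r))} {i : Ω → ℤ} {R : Fin r → Ω → Ω → Prop} (h : CellPat B P i R)
    (τ : Ω → FreeGroup ℕ)
    (hco : ∀ (x : Fin r) (g : FreeGroup (Fin r)), g ∈ B → FreeGroup.of x * g ∈ B →
      E3_path P i τ (FreeGroup.of x * g) = E3_path P i τ (FreeGroup.of x) *
      (emb (FreeGroup.of x) * E3_path P i τ g * (emb (FreeGroup.of x))⁻¹))
    (wd : List (Fin r × Bool)) : (∀ s, s <:+ wd → FreeGroup.mk s ∈ B) →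
    FreeGroup.mk (sub (List.ofFn fun x : Fin r => (E3_path P i τ (FreeGroup.of x)).toWord) (toN wd)) =
      E3_path P i τ (FreeGroup.mk wd) * emb (FreeGroup.mk wd) := by
  set W := List.ofFn fun x : Fin r => (E3_path P i τ (FreeGroup.of x)).toWord with hW
  have hget : ∀ x : Fin r, W.getD (x : ℕ) [] = (E3_path P i τ (FreeGroup.of x)).toWord := by
    intro x
    rw [hW, List.getD_eq_getElem _ _ (by rw [List.length_ofFn]; exact x.2), List.getElem_ofFn]
  induction wd with
  | nil =>
    intro _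
    have h1 : sub W (toN ([] : List (Fin r × Bool))) = [] := rfl
    have h2 : FreeGroup.mk ([] : List (Fin r × Bool)) = 1 := rfl
    rw [h1, h2, E3_path_one h, one_mul, map_one]
    rfl
  | cons p wd ih =>
    intro hs
    have h1 := ih fun s hs' => hs s (hs'.trans (List.suffix_cons p wd))
    have h2 : FreeGroup.mk wd ∈ B := hs wd (List.suffix_cons p wd)
    have h3 : FreeGroup.mk (p :: wd) ∈ B := hs _ List.suffix_rfl
    obtain ⟨x, b⟩ := p
    have h4 : ∀ y : Fin r × Bool, FreeGroup.mk (y :: wd) = FreeGroup.mk [y] * FreeGroup.mk wd := by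
      intro y; rw [FreeGroup.mul_mk]; rfl
    cases b
    · have h5 : sub W (toN ((x, false) :: wd)) = [((x : ℕ), false)] ++ (FreeGroup.invRev
          (E3_path P i τ (FreeGroup.of x)).toWord ++ sub W (toN wd)) := by
        have : sub W (toN ((x, false) :: wd)) = (((x : ℕ), false) :: FreeGroup.invRev
          (W.getD (x : ℕ) [])) ++ sub W (toN wd) := by
          simp [sub, toN]
        rw [this, hget]; rfl
      have h6 : FreeGroup.mk [(x, false)] = (FreeGroup.of x)⁻¹ := by
        simp [FreeGroup.of, FreeGroup.inv_mk, FreeGroup.invRev]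
      have h7 : FreeGroup.mk [((x : ℕ), false)] = (emb (FreeGroup.of x))⁻¹ := by
        simp [emb, FreeGroup.of, FreeGroup.inv_mk, FreeGroup.invRev]
      have h8 : FreeGroup.mk ((x, false) :: wd) = (FreeGroup.of x)⁻¹ * FreeGroup.mk wd := by
        rw [h4, h6]
      set g' := FreeGroup.mk ((x, false) :: wd) with hg'
      have h9 : FreeGroup.mk wd = FreeGroup.of x * g' := by rw [h8, mul_inv_cancel_left]
      have h10 := hco x g' h3 (by rw [← h9]; exact h2)
      rw [h5, ← FreeGroup.mul_mk, ← FreeGroup.mul_mk, h7, ← FreeGroup.inv_mk, FreeGroup.mk_toWord, h1,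
        h9, h10, map_mul]
      group
    · have h5 : sub W (toN ((x, true) :: wd)) = (E3_path P i τ (FreeGroup.of x)).toWord ++
          ([((x : ℕ), true)] ++ sub W (toN wd)) := by
        have : sub W (toN ((x, true) :: wd)) = (W.getD (x : ℕ) [] ++ [((x : ℕ), true)]) ++
          sub W (toN wd) := by
          simp [sub, toN]
        rw [this, hget, List.append_assoc]
      have h6 : FreeGroup.mk [(x, true)] = FreeGroup.of x := rfl
      have h7 : FreeGroup.mk [((x : ℕ), true)] = emb (FreeGroup.of x) := by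
        simp [emb, FreeGroup.of]
      rw [h5, ← FreeGroup.mul_mk, ← FreeGroup.mul_mk, h7, FreeGroup.mk_toWord, h1, h4, h6,
        hco x (FreeGroup.mk wd) h2 (by rw [← h6, ← h4]; exact h3), map_mul]
      group

/-- the test, from the labels of the cells (module E2) -/
theorem exists_test_aux {r : ℕ} {B : Finset (FreeGroup (Fin r))} {Ω : Type} [Fintype Ω] [DecidableEq Ω]
    {P : Ω → Finset (FreeGroup (Fin r))} {i : Ω → ℤ} {R : Fin r → Ω → Ω → Prop} (h : CellPat B P i R)
    (h1 : 1 ∈ B) (hx : ∀ x : Fin r, FreeGroup.of x ∈ B ∧ (FreeGroup.of x)⁻¹ ∈ B)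
    (hlab : ∀ q : Fin r → Ω → Bool, ∃ (a : Ω → FreeGroup (Fin r)) (o : Ω → ℕ) (e : Ω → Bool),
      (∀ x c d, R x c d → a d = FreeGroup.of x * a c ∧ o d = o c ∧ e d = xor (e c) (q x d)) ∧
      (∀ c d, a c = a d → o c = o d → c = d) ∧
      (∀ c, (a c).toWord.length ≤ Fintype.card Ω) ∧ ∀ c, o c < Fintype.card Ω) :
    ∃ W : List Wd, W.length = r ∧ (∀ l ∈ W, l.length ≤ Fintype.card Ω * (2 * Fintype.card Ω + 1) ∧
        ∀ p ∈ l, p.1 < r + Fintype.card Ω) ∧ Kill r W ∧
      ∀ wd : List (Fin r × Bool), (∀ s, s <:+ wd → FreeGroup.mk s ∈ B) →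
        nt r (sub W (toN wd)) = (Finset.univ.filter (fun c => FreeGroup.mk wd ∈ P c)).card := by
  classical
  obtain ⟨a, o, e, hae, hinj, ha, ho⟩ := hlab (fun x d => decide (FreeGroup.of x ∈ P d))
  set τ : Ω → FreeGroup ℕ := fun c => fac (a c) (o c) (e c) with hτ
  have hτp : ∀ x c d, R x c d → FreeGroup.of x ∉ P d →
      emb (FreeGroup.of x) * τ c * (emb (FreeGroup.of x))⁻¹ = τ d := by
    intro x c d hcd hxd
    obtain ⟨h2, h3, h4⟩ := hae x c d hcd
    simp only [hτ]
    rw [E3_fac_conj, ← h2, ← h3, h4, decide_eq_false hxd, Bool.xor_false]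
  have hτm : ∀ x c d, R x c d → FreeGroup.of x ∈ P d →
      emb (FreeGroup.of x) * τ c * (emb (FreeGroup.of x))⁻¹ = (τ d)⁻¹ := by
    intro x c d hcd hxd
    obtain ⟨h2, h3, h4⟩ := hae x c d hcd
    simp only [hτ]
    rw [E3_fac_conj, ← h2, ← h3, h4, decide_eq_true hxd, Bool.xor_true, E3_fac_not, inv_inv]
  have hco := E3_cocycle h h1 hx τ hτp hτm
  refine ⟨List.ofFn fun x : Fin r => (E3_path P i τ (FreeGroup.of x)).toWord, List.length_ofFn, ?_, ?_,
    ?_⟩
  · intro l hl
    obtain ⟨x, rfl⟩ := (List.mem_ofFn' _ _).mp hl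
    refine ⟨?_, ?_⟩
    · have h2 := E3_norm_prod τ (2 * Fintype.card Ω + 1)
        (fun c => (E3_norm_fac (a c) (o c) (e c)).trans (by have := ha c; omega))
        (E3_srt (E3_key P i) (E3_S P (FreeGroup.of x)))
      refine le_trans h2 (Nat.mul_le_mul_right _ ?_)
      rw [E3_len]
      exact Finset.card_le_univ _
    · exact E3_lt_prod τ (r + Fintype.card Ω)
        (fun c => E3_lt_fac (by omega) (a c) (by have := ho c; omega) (e c)) _
  · intro l hl
    obtain ⟨x, rfl⟩ := (List.mem_ofFn' _ _).mp hl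
    have h2 : FreeGroup.mk ((E3_path P i τ (FreeGroup.of x)).toWord.filter
        (fun p => decide (p.1 < r))) = 1 := by
      rw [← E3_del_mk, FreeGroup.mk_toWord]
      unfold E3_path
      rw [map_list_prod, List.map_map]
      apply List.prod_eq_one
      intro y hy
      obtain ⟨c, -, rfl⟩ := List.mem_map.mp hy
      exact E3_del_fac (a c) (o c) (e c)
    rw [← FreeGroup.toWord_mk, h2, FreeGroup.toWord_one]
  · intro wd hwd
    unfold nt
    rw [← FreeGroup.toWord_mk, E3_sub h τ hco wd hwd]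
    have h2 := fac_count ((E3_srt (E3_key P i) (E3_S P (FreeGroup.mk wd))).map
      fun c => (a c, o c, e c)) (by
        rw [List.isChain_map]
        have h3 := (E3_nodup (E3_key P i) (E3_S P (FreeGroup.mk wd)))
        refine List.Pairwise.isChain (h3.imp ?_)
        intro c d hcd h4
        exact hcd (hinj c d h4.1 h4.2)) (FreeGroup.mk wd)
    rw [List.map_map, List.length_map, E3_len] at h2
    exact h2

end test

end Pool.Agent.Helper59.TE
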