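import Pool.Agent.Helper59.TE.E2
import Pool.Agent.Helper59.TE.E3Aux

/-!
# E3: the test homomorphism of a cell pattern (by helper79)
-/

set_option autoImplicit false

namespace Pool.Agent.Helper59.TE

theorem exists_test {r : ℕ} {B : Finset (FreeGroup (Fin r))} {Ω : Type} [Fintype Ω] [DecidableEq Ω]
    {P : Ω → Finset (FreeGroup (Fin r))} {i : Ω → ℤ} {R : Fin r → Ω → Ω → Prop} (h : CellPat B P i R)
    (h1 : 1 ∈ B) (hx : ∀ x : Fin r, FreeGroup.of x ∈ B ∧ (FreeGroup.of x)⁻¹ ∈ B) :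
    ∃ W : List Wd, W.length = r ∧ (∀ l ∈ W, l.length ≤ Fintype.card Ω * (2 * Fintype.card Ω + 1) ∧
        ∀ p ∈ l, p.1 < r + Fintype.card Ω) ∧ Kill r W ∧
      ∀ wd : List (Fin r × Bool), (∀ s, s <:+ wd → FreeGroup.mk s ∈ B) →
        nt r (sub W (toN wd)) = (Finset.univ.filter (fun c => FreeGroup.mk wd ∈ P c)).card :=
  exists_test_aux h h1 hx fun q => exists_labels R q h.func h.cofunc h.forest

end Pool.Agent.Helper59.TE
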