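import Pool.Agent.Helper59.TE.E1
import Pool.Agent.Helper59.TE.E1b
import Pool.Agent.Helper59.TE.E3

set_option autoImplicit false

namespace Pool.Agent.Helper59.TE
open Sys

theorem sys_test {r : ℕ} {B : Finset (FreeGroup (Fin r))} {y w : Sys (Blk B) (Bnd B)}
    (hy : Good B y) (hw : y.Le w) (ha : w.Acyc) {N : ℕ} (hN : w.size ≤ N)
    (h1 : 1 ∈ B) (hx : ∀ x : Fin r, FreeGroup.of x ∈ B ∧ (FreeGroup.of x)⁻¹ ∈ B) :
    ∃ W : List Wd, W.length = r ∧ (∀ l ∈ W, l.length ≤ testB r N ∧ ∀ p ∈ l, p.1 < testB r N) ∧ Kill r W ∧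
      ∀ wd : List (Fin r × Bool), (∀ s, s <:+ wd → FreeGroup.mk s ∈ B) →
        (nt r (sub W (toN wd)) : ℤ) = ∑ Q : Blk B, if FreeGroup.mk wd ∈ Q.1 then w.len Q else 0 := by
  obtain ⟨Ω, i1, i2, P, i, R, hpat, hcard, hcnt⟩ := exists_cellPat (cellGood_of_le hy hw) ha
  obtain ⟨W, hW1, hW2, hW3, hW4⟩ := exists_test hpat h1 hx
  have hc : Fintype.card Ω ≤ N := by
    have : (Fintype.card Ω : ℤ) ≤ N := hcard ▸ hN
    exact_mod_cast this
  have hmul : Fintype.card Ω * (2 * Fintype.card Ω + 1) ≤ N * (2 * N + 1) :=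
    Nat.mul_le_mul hc (by omega)
  refine ⟨W, hW1, ?_, hW3, ?_⟩
  · intro l hl
    obtain ⟨a, b⟩ := hW2 l hl
    refine ⟨?_, ?_⟩
    · unfold testB; omega
    · intro p hp
      have := b p hp
      unfold testB
      have : N ≤ N * (2 * N + 1) := Nat.le_mul_of_pos_right _ (by omega)
      rcases Nat.eq_zero_or_pos N with h0 | h0
      · omega
      · omega
  · intro wd hwd
    rw [hW4 wd hwd]
    exact hcnt (FreeGroup.mk wd)

end Pool.Agent.Helper59.TE
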