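import Pool.Agent.Helper59.TE.Defs2

set_option autoImplicit false

/-!
Computability of the bounded test.
-/

namespace Pool.Agent.Helper59.TE

open Primrec

/-! ### the bound -/

theorem F1_pow : Primrec₂ (fun a b : ℕ => a ^ b) := Primrec₂.unpaired'.1 Nat.Primrec.pow

theorem F1_chainB : Primrec₂ chainB :=
  nat_mul.comp (nat_add.comp (nat_add.comp (const 1) (nat_mul.comp (const 3) snd)) fst)
    (nat_mul.comp (nat_mul.comp (F1_pow.comp fst (nat_mul.comp (const 2) snd))
      (F1_pow.comp (const 2) snd)) (F1_pow.comp (const 2) (F1_pow.comp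
        (nat_add.comp (nat_mul.comp (const 2) fst) (nat_mul.comp (const 4) snd)) (const 2))))

theorem F1_Nstar0 : Primrec₂ Nstar0 := F1_pow.comp (const 2) F1_chainB

theorem F1_Nstar : Primrec₂ Nstar := by
  have h : Primrec fun x : ℕ × ℕ => 4 * x.2 + 2 * x.1 + 8 :=
    nat_add.comp (nat_add.comp (nat_mul.comp (const 4) snd) (nat_mul.comp (const 2) fst)) (const 8)
  exact F1_Nstar0.comp (nat_add.comp fst h) (nat_add.comp snd h)

theorem F1_sysB : Primrec₂ sysB := by
  have h : Primrec fun x : ℕ × ℕ => 2 ^ x.2 := F1_pow.comp (const 2) snd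
  exact F1_Nstar.comp h (nat_mul.comp (nat_mul.comp fst h) h)

theorem F1_testB : Primrec₂ testB :=
  nat_add.comp (nat_add.comp fst snd) (nat_mul.comp snd (nat_add.comp (nat_mul.comp (const 2) snd)
    (const 1)))

theorem F1_finalB : Primrec₂ finalB :=
  F1_testB.comp fst (F1_sysB.comp fst (nat_add.comp (nat_add.comp (nat_mul.comp (const 2) fst)
    (nat_mul.comp (const 2) snd)) (const 3)))

/-! ### words -/

/-- one step of the reduction -/
def F1_step (x : ℕ × Bool) (ih : Wd) : Wd :=
  List.casesOn ih [x] fun hd tl => if x.1 = hd.1 ∧ x.2 = !hd.2 then tl else x :: hd :: tl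

theorem F1_step_primrec : Primrec₂ F1_step := by
  refine list_casesOn (f := fun a : (ℕ × Bool) × Wd => a.2) (g := fun a => [a.1])
    (h := fun a b => if a.1.1 = b.1.1 ∧ a.1.2 = !b.1.2 then b.2 else a.1 :: b.1 :: b.2)
    snd (list_cons.comp fst (const [])) ?_
  refine Primrec.ite (PrimrecPred.and ?_ ?_) (snd.comp snd) ?_
  · exact Primrec.eq.comp (fst.comp (fst.comp fst)) (fst.comp (fst.comp snd))
  · exact Primrec.eq.comp (snd.comp (fst.comp fst)) (Primrec.not.comp (snd.comp (fst.comp snd)))
  · exact list_cons.comp (fst.comp fst) (list_cons.comp (fst.comp snd) (snd.comp snd))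

theorem F1_reduce : Primrec (FreeGroup.reduce : Wd → Wd) := by
  refine (list_foldr (f := fun l : Wd => l) (g := fun _ => ([] : Wd))
    (h := fun _ b => F1_step b.1 b.2) Primrec.id (const []) (F1_step_primrec.comp (fst.comp snd)
      (snd.comp snd))).of_eq fun l => ?_
  induction l with
  | nil => rfl
  | cons a l ih =>
    rw [List.foldr_cons, ih, FreeGroup.reduce.cons]
    rfl

theorem F1_nt : Primrec₂ nt := by
  have hR : PrimrecRel (fun (p : ℕ × Bool) (r : ℕ) => r ≤ p.1) := nat_le.comp snd (fst.comp fst)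
  exact list_length.comp (hR.listFilter.comp (F1_reduce.comp snd) fst)

theorem F1_invRev : Primrec (FreeGroup.invRev : Wd → Wd) := by
  refine list_reverse.comp (list_map Primrec.id ?_)
  exact Primrec.pair (fst.comp snd) (Primrec.not.comp (snd.comp snd))

theorem F1_sub : Primrec₂ sub := by
  refine list_flatMap snd ?_
  have hW : Primrec fun a : (List Wd × Wd) × (ℕ × Bool) => a.1.1.getD a.2.1 [] :=
    (list_getD []).comp (fst.comp fst) (fst.comp snd)
  have h1 : PrimrecPred fun a : (List Wd × Wd) × (ℕ × Bool) => a.2.2 = true :=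
    Primrec.eq.comp (snd.comp snd) (const true)
  refine Primrec.ite h1 ?_ ?_
  · exact list_append.comp hW (list_cons.comp (Primrec.pair (fst.comp snd) (const true)) (const []))
  · exact list_cons.comp (Primrec.pair (fst.comp snd) (const false)) (F1_invRev.comp hW)

theorem F1_Kill : PrimrecRel fun (W : List Wd) (r : ℕ) => Kill r W := by
  have hR : PrimrecRel (fun (p : ℕ × Bool) (r : ℕ) => p.1 < r) := nat_lt.comp (fst.comp fst) snd
  have h2 : PrimrecRel (fun (l : Wd) (r : ℕ) =>
      FreeGroup.reduce (l.filter (fun p => decide (p.1 < r))) = []) :=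
    Primrec.eq.comp (F1_reduce.comp hR.listFilter) (const [])
  exact h2.forall_mem_list

/-! ### all tests -/

/-- all letters with index less than `b` -/
def F1_letters (b : ℕ) : Wd := (List.range b).flatMap fun i => [(i, false), (i, true)]

theorem F1_mem_letters (b : ℕ) (p : ℕ × Bool) : p ∈ F1_letters b ↔ p.1 < b := by
  obtain ⟨i, e⟩ := p
  cases e <;> simp [F1_letters]

theorem F1_letters_primrec : Primrec F1_letters := by
  refine list_flatMap list_range ?_
  exact list_cons.comp (Primrec.pair snd (const false)) (list_cons.comp (Primrec.pair snd (const true))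
    (const []))

/-- all words of length at most `n` in these letters -/
def F1_words (b n : ℕ) : List Wd :=
  Nat.rec [[]] (fun _ S => [] :: S.flatMap (fun w => (F1_letters b).map (fun a => a :: w))) n

theorem F1_mem_words (b n : ℕ) (w : Wd) :
    w ∈ F1_words b n ↔ w.length ≤ n ∧ ∀ p ∈ w, p.1 < b := by
  induction n generalizing w with
  | zero =>
    have h0 : F1_words b 0 = [[]] := rfl
    rw [h0, List.mem_singleton, Nat.le_zero, List.length_eq_zero_iff]
    constructor
    · rintro rfl; simp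
    · rintro ⟨h, -⟩; exact h
  | succ n ih =>
    have h1 : F1_words b (n + 1) =
      [] :: (F1_words b n).flatMap (fun w => (F1_letters b).map (fun a => a :: w)) := rfl
    rw [h1, List.mem_cons, List.mem_flatMap]
    constructor
    · rintro (rfl | ⟨v, hv, hw⟩)
      · simp
      · rw [List.mem_map] at hw
        obtain ⟨a, ha, rfl⟩ := hw
        rw [F1_mem_letters] at ha
        obtain ⟨h2, h3⟩ := (ih v).1 hv
        refine ⟨by simpa using h2, ?_⟩
        intro p hp
        rcases List.mem_cons.1 hp with rfl | hp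
        · exact ha
        · exact h3 p hp
    · rintro ⟨h2, h3⟩
      cases w with
      | nil => left; rfl
      | cons a v =>
        right
        refine ⟨v, (ih v).2 ⟨by simpa using h2, fun p hp => h3 p (List.mem_cons_of_mem _ hp)⟩, ?_⟩
        exact List.mem_map.2 ⟨a, (F1_mem_letters b a).2 (h3 a List.mem_cons_self), rfl⟩

theorem F1_words_primrec : Primrec₂ F1_words := by
  refine nat_rec' (f := fun x : ℕ × ℕ => x.2) (g := fun _ => ([[]] : List Wd))
    (h := fun x y => [] :: y.2.flatMap (fun w => (F1_letters x.1).map (fun a => a :: w)))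
    snd (const _) ?_
  refine list_cons.comp (const []) (list_flatMap (snd.comp snd) ?_)
  refine list_map (F1_letters_primrec.comp (fst.comp (fst.comp fst))) ?_
  exact list_cons.comp snd (snd.comp fst)

/-- all lists of `r` such words -/
def F1_tests (r b : ℕ) : List (List Wd) :=
  Nat.rec [[]] (fun _ S => S.flatMap (fun W => (F1_words b b).map (fun l => l :: W))) r

theorem F1_mem_tests (r b : ℕ) (W : List Wd) :
    W ∈ F1_tests r b ↔ W.length = r ∧ ∀ l ∈ W, l.length ≤ b ∧ ∀ p ∈ l, p.1 < b := by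
  induction r generalizing W with
  | zero =>
    have h0 : F1_tests 0 b = [[]] := rfl
    rw [h0, List.mem_singleton, List.length_eq_zero_iff]
    constructor
    · rintro rfl; simp
    · rintro ⟨h, -⟩; exact h
  | succ r ih =>
    have h1 : F1_tests (r + 1) b =
      (F1_tests r b).flatMap (fun W => (F1_words b b).map (fun l => l :: W)) := rfl
    rw [h1, List.mem_flatMap]
    constructor
    · rintro ⟨V, hV, hW⟩
      rw [List.mem_map] at hW
      obtain ⟨l, hl, rfl⟩ := hW
      rw [F1_mem_words] at hl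
      obtain ⟨h2, h3⟩ := (ih V).1 hV
      refine ⟨by simpa using h2, ?_⟩
      intro m hm
      rcases List.mem_cons.1 hm with rfl | hm
      · exact hl
      · exact h3 m hm
    · rintro ⟨h2, h3⟩
      cases W with
      | nil => simp at h2
      | cons l V =>
        refine ⟨V, (ih V).2 ⟨by simpa using h2, fun m hm => h3 m (List.mem_cons_of_mem _ hm)⟩, ?_⟩
        exact List.mem_map.2 ⟨l, (F1_mem_words b b l).2 (h3 l List.mem_cons_self), rfl⟩

theorem F1_tests_primrec : Primrec₂ F1_tests := by
  refine nat_rec' (f := fun x : ℕ × ℕ => x.1) (g := fun _ => ([[]] : List (List Wd)))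
    (h := fun x y => y.2.flatMap (fun W => (F1_words x.2 x.2).map (fun l => l :: W)))
    fst (const _) ?_
  refine list_flatMap (snd.comp snd) ?_
  refine list_map (F1_words_primrec.comp (snd.comp (fst.comp fst)) (snd.comp (fst.comp fst))) ?_
  exact list_cons.comp snd (snd.comp fst)

/-! ### the test -/

theorem F1_TestOK : PrimrecRel fun (W : List Wd) (x : ℕ × Wd × Wd) => TestOK x.1 x.2.1 x.2.2 W := by
  have hr : Primrec fun a : List Wd × (ℕ × Wd × Wd) => a.2.1 := fst.comp snd
  have hu : Primrec fun a : List Wd × (ℕ × Wd × Wd) => a.2.2.1 := fst.comp (snd.comp snd)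
  have hv : Primrec fun a : List Wd × (ℕ × Wd × Wd) => a.2.2.2 := snd.comp (snd.comp snd)
  have h1 : PrimrecPred fun a : List Wd × (ℕ × Wd × Wd) => a.1.length = a.2.1 :=
    Primrec.eq.comp (list_length.comp fst) hr
  have h2 : PrimrecPred fun a : List Wd × (ℕ × Wd × Wd) => Kill a.2.1 a.1 := F1_Kill.comp fst hr
  have h3 : PrimrecPred fun a : List Wd × (ℕ × Wd × Wd) =>
      nt a.2.1 (sub a.1 (a.2.2.1 ++ a.2.2.1)) + nt a.2.1 (sub a.1 a.2.2.2) =
        nt a.2.1 (sub a.1 (a.2.2.2 ++ a.2.2.2)) + nt a.2.1 (sub a.1 a.2.2.1) :=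
    Primrec.eq.comp
      (nat_add.comp (F1_nt.comp hr (F1_sub.comp fst (list_append.comp hu hu)))
        (F1_nt.comp hr (F1_sub.comp fst hv)))
      (nat_add.comp (F1_nt.comp hr (F1_sub.comp fst (list_append.comp hv hv)))
        (F1_nt.comp hr (F1_sub.comp fst hu)))
  refine ((h1.not.or (h2.not.or h3)).primrecRel).of_eq fun W x => ?_
  unfold TestOK
  tauto

theorem comp_main : ComputablePred (fun x : ℕ × List (ℕ × Bool) × List (ℕ × Bool) =>
    (∀ p ∈ x.2.1, p.1 < x.1) ∧ (∀ p ∈ x.2.2, p.1 < x.1) ∧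
    ∀ W : List Wd, (∀ l ∈ W, l.length ≤ finalB x.1 (x.2.1.length + x.2.2.length) ∧
      ∀ p ∈ l, p.1 < finalB x.1 (x.2.1.length + x.2.2.length)) → TestOK x.1 x.2.1 x.2.2 W) := by
  have hlt : PrimrecRel (fun (p : ℕ × Bool) (r : ℕ) => p.1 < r) := nat_lt.comp (fst.comp fst) snd
  have h1 : PrimrecPred fun x : ℕ × Wd × Wd => ∀ p ∈ x.2.1, p.1 < x.1 :=
    hlt.forall_mem_list.comp (fst.comp snd) fst
  have h2 : PrimrecPred fun x : ℕ × Wd × Wd => ∀ p ∈ x.2.2, p.1 < x.1 :=
    hlt.forall_mem_list.comp (snd.comp snd) fst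
  have hb : Primrec fun x : ℕ × Wd × Wd => finalB x.1 (x.2.1.length + x.2.2.length) :=
    F1_finalB.comp fst (nat_add.comp (list_length.comp (fst.comp snd)) (list_length.comp (snd.comp snd)))
  have h3 : PrimrecPred fun x : ℕ × Wd × Wd =>
      ∀ W ∈ F1_tests x.1 (finalB x.1 (x.2.1.length + x.2.2.length)), TestOK x.1 x.2.1 x.2.2 W :=
    F1_TestOK.forall_mem_list.comp (F1_tests_primrec.comp fst hb) Primrec.id
  have h : PrimrecPred (fun x : ℕ × List (ℕ × Bool) × List (ℕ × Bool) =>
    (∀ p ∈ x.2.1, p.1 < x.1) ∧ (∀ p ∈ x.2.2, p.1 < x.1) ∧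
    ∀ W : List Wd, (∀ l ∈ W, l.length ≤ finalB x.1 (x.2.1.length + x.2.2.length) ∧
      ∀ p ∈ l, p.1 < finalB x.1 (x.2.1.length + x.2.2.length)) → TestOK x.1 x.2.1 x.2.2 W) := by
    refine (h1.and (h2.and h3)).of_eq fun x => ?_
    refine and_congr Iff.rfl (and_congr Iff.rfl ?_)
    constructor
    · intro H W hW hlen
      exact H W ((F1_mem_tests _ _ W).2 ⟨hlen, hW⟩) hlen
    · intro H W hW
      exact H W ((F1_mem_tests _ _ W).1 hW).2
  obtain ⟨hdec, hprim⟩ := h
  exact ⟨hdec, hprim.to_comp⟩

end Pool.Agent.Helper59.TE
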