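import Pool.Agent.Helper59.TE.A3
import Pool.Agent.Helper59.TE.C3
import Pool.Agent.Helper59.TE.D9
import Pool.Agent.Helper59.TE.E5

set_option autoImplicit false

namespace Pool.Agent.Helper59.TE
open Sys

theorem F2_chainB_mono {p p' q q' : ℕ} (hp : p ≤ p') (hq : q ≤ q') (h1 : 1 ≤ p) :
    chainB p q ≤ chainB p' q' := by
  unfold chainB
  have e1 : p ^ (2 * q) ≤ p' ^ (2 * q') :=
    le_trans (Nat.pow_le_pow_left hp _) (Nat.pow_le_pow_right (le_trans h1 hp) (by omega))
  have e2 : 2 ^ q ≤ 2 ^ q' := Nat.pow_le_pow_right (by norm_num) hq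
  have e3 : 2 ^ ((2 * p + 4 * q) ^ 2) ≤ 2 ^ ((2 * p' + 4 * q') ^ 2) :=
    Nat.pow_le_pow_right (by norm_num) (Nat.pow_le_pow_left (by omega) _)
  exact Nat.mul_le_mul (by omega) (Nat.mul_le_mul (Nat.mul_le_mul e1 e2) e3)

theorem F2_Nstar_mono {p p' q q' : ℕ} (hp : p ≤ p') (hq : q ≤ q') : Nstar p q ≤ Nstar p' q' := by
  unfold Nstar Nstar0
  apply Nat.pow_le_pow_right (by norm_num)
  exact F2_chainB_mono (by omega) (by omega) (by omega)

/-- the finite set attached to two words -/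
def F2_B {r : ℕ} (u v : List (Fin r × Bool)) : Finset (FreeGroup (Fin r)) :=
  (((u ++ u).tails.map FreeGroup.mk).toFinset ∪ ((v ++ v).tails.map FreeGroup.mk).toFinset) ∪
    Finset.univ.image (fun p : Fin r × Bool => FreeGroup.mk [p])

theorem F2_card {r : ℕ} (u v : List (Fin r × Bool)) :
    (F2_B u v).card ≤ 2 * r + 2 * (u.length + v.length) + 3 := by
  unfold F2_B
  refine le_trans (Finset.card_union_le _ _) ?_
  have h1 : (Finset.univ.image (fun p : Fin r × Bool => FreeGroup.mk [p])).card ≤ 2 * r := by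
    refine le_trans Finset.card_image_le ?_
    rw [Finset.card_univ, Fintype.card_prod, Fintype.card_fin, Fintype.card_bool, mul_comm]
  have h2 := List.toFinset_card_le ((u ++ u).tails.map FreeGroup.mk)
  have h3 := List.toFinset_card_le ((v ++ v).tails.map FreeGroup.mk)
  rw [List.length_map, List.length_tails, List.length_append] at h2 h3
  have h4 := Finset.card_union_le ((u ++ u).tails.map FreeGroup.mk).toFinset
    ((v ++ v).tails.map FreeGroup.mk).toFinset
  omega

theorem F2_suffix_u {r : ℕ} (u v : List (Fin r × Bool)) (s : List (Fin r × Bool)) (h : s <:+ u ++ u) :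
    FreeGroup.mk s ∈ F2_B u v := by
  unfold F2_B
  apply Finset.mem_union_left
  apply Finset.mem_union_left
  rw [List.mem_toFinset, List.mem_map]
  exact ⟨s, (List.mem_tails _ _).2 h, rfl⟩

theorem F2_suffix_v {r : ℕ} (u v : List (Fin r × Bool)) (s : List (Fin r × Bool)) (h : s <:+ v ++ v) :
    FreeGroup.mk s ∈ F2_B u v := by
  unfold F2_B
  apply Finset.mem_union_left
  apply Finset.mem_union_right
  rw [List.mem_toFinset, List.mem_map]
  exact ⟨s, (List.mem_tails _ _).2 h, rfl⟩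

theorem F2_letter {r : ℕ} (u v : List (Fin r × Bool)) (p : Fin r × Bool) :
    FreeGroup.mk [p] ∈ F2_B u v := by
  unfold F2_B
  apply Finset.mem_union_right
  exact Finset.mem_image_of_mem _ (Finset.mem_univ p)

theorem F2_sysB {r : ℕ} (B : Finset (FreeGroup (Fin r))) {b : ℕ} (hb : B.card ≤ b) :
    Nstar (Fintype.card (Blk B)) (Fintype.card (Bnd B)) ≤ sysB r b := by
  unfold sysB
  have h0 : Fintype.card (Blk B) = 2 ^ B.card := by
    rw [Fintype.card_coe, Finset.card_powerset]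
  have h1 : 2 ^ B.card ≤ 2 ^ b := Nat.pow_le_pow_right (by norm_num) hb
  apply F2_Nstar_mono
  · rw [h0]; exact h1
  · rw [Fintype.card_prod, Fintype.card_prod, h0, Fintype.card_fin, ← mul_assoc]
    exact Nat.mul_le_mul (Nat.mul_le_mul (le_refl _) h1) h1

theorem completeness (r : ℕ) (u v : List (Fin r × Bool))
    (h : ∀ W : List Wd, (∀ l ∈ W, l.length ≤ finalB r (u.length + v.length) ∧
      ∀ p ∈ l, p.1 < finalB r (u.length + v.length)) → TestOK r (toN u) (toN v) W) :
    TransEq r (FreeGroup.mk u) (FreeGroup.mk v) := by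
  intro T _ _ hgeo hfour hiso hfree hdisc
  by_contra hne
  obtain ⟨U, hU, hcnt⟩ := exists_Sepr T ⟨hgeo, hfour⟩ hiso hfree hdisc _ _ hne
  set B := F2_B u v with hB
  have h1 : (1 : FreeGroup (Fin r)) ∈ B := F2_suffix_u u v [] (List.nil_suffix)
  have hx : ∀ x : Fin r, FreeGroup.of x ∈ B ∧ (FreeGroup.of x)⁻¹ ∈ B :=
    fun x => ⟨F2_letter u v (x, true), F2_letter u v (x, false)⟩
  obtain ⟨y, hy, ha, hyc⟩ := exists_Good B h1 hx U hU
  set gu := FreeGroup.mk u with hgu
  set gv := FreeGroup.mk v with hgv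
  have muu : gu * gu = FreeGroup.mk (u ++ u) := by rw [hgu, FreeGroup.mul_mk]
  have mvv : gv * gv = FreeGroup.mk (v ++ v) := by rw [hgv, FreeGroup.mul_mk]
  have buu : gu * gu ∈ B := by rw [muu]; exact F2_suffix_u u v _ (List.suffix_refl _)
  have bvv : gv * gv ∈ B := by rw [mvv]; exact F2_suffix_v u v _ (List.suffix_refl _)
  have bu : gu ∈ B := F2_suffix_u u v _ (List.suffix_append _ _)
  have bv : gv ∈ B := F2_suffix_v u v _ (List.suffix_append _ _)
  -- the functional
  let F : FreeGroup (Fin r) → Sys (Blk B) (Bnd B) → ℚ :=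
    fun g w => ∑ Q : Blk B, (if g ∈ Q.1 then 1 else 0) * (w.len Q : ℚ)
  have hF : ∀ g, F g ∈ Aff (Blk B) (Bnd B) := fun g =>
    aff_sum _ (fun Q _ => aff_smul _ (aff_len Q))
  have hFe : ∀ g w, F g w = ((∑ Q : Blk B, if g ∈ Q.1 then w.len Q else 0 : ℤ) : ℚ) := by
    intro g w
    simp only [F]
    push_cast
    apply Finset.sum_congr rfl
    intro Q _
    split_ifs <;> simp
  let f : Sys (Blk B) (Bnd B) → ℚ := fun w => (F (gu * gu) w + F gv w) - (F (gv * gv) w + F gu w)
  have hf : f ∈ Aff (Blk B) (Bnd B) := aff_sub (aff_add (hF _) (hF _)) (aff_add (hF _) (hF _))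
  have hfy : f y ≠ 0 := by
    simp only [f, hFe, ← hyc _ buu, ← hyc _ bvv, ← hyc _ bu, ← hyc _ bv]
    intro h0
    apply hcnt
    have : ((cnt U (gu * gu) + cnt U gv : ℕ) : ℚ) = ((cnt U (gv * gv) + cnt U gu : ℕ) : ℚ) := by
      push_cast at h0 ⊢
      linarith
    exact_mod_cast this
  have hcl := span_main (Blk B) (Bnd B) y hy.wf ha
  have hcl' : Claim ((sysB r (2 * r + 2 * (u.length + v.length) + 3) : ℕ) : ℤ) y :=
    Claim.mono hcl (by exact_mod_cast F2_sysB B (F2_card u v))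
  apply hfy
  apply hcl' f hf
  intro w hw hwa hws
  obtain ⟨W, hW1, hW2, hW3, hW4⟩ := sys_test hy hw hwa hws h1 hx
  have ht := h W (fun l hl => hW2 l hl) hW1 hW3
  have tu : toN u ++ toN u = toN (u ++ u) := by simp [toN]
  have tv : toN v ++ toN v = toN (v ++ v) := by simp [toN]
  rw [tu, tv] at ht
  have a1 := hW4 (u ++ u) (fun s hs => F2_suffix_u u v s hs)
  have a2 := hW4 (v ++ v) (fun s hs => F2_suffix_v u v s hs)
  have a3 := hW4 u (fun s hs => F2_suffix_u u v s (hs.trans (List.suffix_append _ _)))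
  have a4 := hW4 v (fun s hs => F2_suffix_v u v s (hs.trans (List.suffix_append _ _)))
  simp only [f, hFe]
  rw [muu, mvv, ← a1, ← a2, ← a3, ← a4]
  have : ((nt r (sub W (toN (u ++ u))) + nt r (sub W (toN v)) : ℕ) : ℚ) =
      ((nt r (sub W (toN (v ++ v))) + nt r (sub W (toN u)) : ℕ) : ℚ) := by rw [ht]
  push_cast at this ⊢
  linarith

end Pool.Agent.Helper59.TE
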