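import Pool.Agent.Helper59.TE.F1
import Pool.Agent.Helper59.TE.F2
import Pool.Agent.Helper59.TE.B4

set_option autoImplicit false

namespace Pool.Agent.Helper59.TE

/-- restriction of the letters to `Fin r` as in the frozen statement -/
def toF (r : ℕ) (l : Wd) : List (Fin r × Bool) :=
  l.filterMap (fun q : ℕ × Bool => if h : q.1 < r then some ((⟨q.1, h⟩ : Fin r), q.2) else none)

theorem toN_toF (r : ℕ) (l : Wd) (h : ∀ p ∈ l, p.1 < r) : toN (toF r l) = l := by
  induction l with
  | nil => rfl
  | cons a l ih =>
    have ha : a.1 < r := h a (by simp)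
    have hl : toN (toF r l) = l := ih (fun p hp => h p (List.mem_cons_of_mem _ hp))
    have e : toF r (a :: l) = (⟨a.1, ha⟩, a.2) :: toF r l := by
      unfold toF
      rw [List.filterMap_cons]
      simp [ha]
    rw [e]
    show ((⟨a.1, ha⟩ : Fin r).1, a.2) :: toN (toF r l) = a :: l
    rw [hl]

theorem toF_length (r : ℕ) (l : Wd) (h : ∀ p ∈ l, p.1 < r) : (toF r l).length = l.length := by
  have := congrArg List.length (toN_toF r l h)
  simpa [toN] using this

theorem main_equiv (r : ℕ) (u v : Wd) (hu : ∀ p ∈ u, p.1 < r) (hv : ∀ p ∈ v, p.1 < r) :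
    (∀ W : List Wd, (∀ l ∈ W, l.length ≤ finalB r (u.length + v.length) ∧
      ∀ p ∈ l, p.1 < finalB r (u.length + v.length)) → TestOK r u v W) ↔
    TransEq r (FreeGroup.mk (toF r u)) (FreeGroup.mk (toF r v)) := by
  constructor
  · intro h
    apply completeness
    rw [toN_toF r u hu, toN_toF r v hv, toF_length r u hu, toF_length r v hv]
    exact h
  · intro h W _
    have := soundness r (toF r u) (toF r v) h W
    rwa [toN_toF r u hu, toN_toF r v hv] at this

end Pool.Agent.Helper59.TE
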